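import Mathlib

set_option autoImplicit false

/-!
Part I of NHT (see team-store NHT_proof.md, section I): definitions.
-/

namespace Pool.Agent.NHT

open Finset

/-- The field with `512` elements. -/
abbrev K := GaloisField 2 9

noncomputable instance : Fintype K := Fintype.ofFinite K

/-- Wires `(a, b, c, d)`. -/
abbrev W := K × K × K × K

/-- The point of a wire: a point star is `{(a, b, c, d) | b}`. -/
def pt (w : W) : K × K × K := (w.1, w.2.2.1, w.2.2.2)

/-- The line of a wire: a line star is `{(a, b, Y + a b, Z + a² b) | a}`. -/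
noncomputable def ln (w : W) : K × K × K :=
  (w.2.1, w.2.2.1 + w.1 * w.2.1, w.2.2.2 + w.1 ^ 2 * w.2.1)

/-- `f` has degree at most `s`: all `(s+1)`-fold differences vanish. -/
def degLE {X A : Type*} [AddCommGroup X] [AddCommGroup A] : ℕ → (X → A) → Prop
  | 0, f => ∀ x y, f x = f y
  | s + 1, f => ∀ h, degLE s (fun x => f (x + h) - f x)

/-- `f : W → A` has degree at most `s` (in `a`) on every line star and at most `t` (in `b`) on every
point star. -/
def Typ {A : Type*} [AddCommGroup A] (s t : ℕ) (f : W → A) : Prop :=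
  (∀ b Y Z : K, degLE s (fun a : K => f (a, b, Y + a * b, Z + a ^ 2 * b))) ∧
    (∀ a c d : K, degLE t (fun b : K => f (a, b, c, d)))

/-- Digits: `dv (2i) = a^(2^i)`, `dv (2i+1) = b^(2^i)`. -/
noncomputable def dv (x : Fin 18) (w : W) : K :=
  if x.val % 2 = 0 then w.1 ^ (2 ^ (x.val / 2)) else w.2.1 ^ (2 ^ (x.val / 2))

/-- Digits: `de (2i) = c^(2^i)`, `de (2i+1) = d^(2^i)`. -/
noncomputable def de (x : Fin 18) (w : W) : K :=
  if x.val % 2 = 0 then w.2.2.1 ^ (2 ^ (x.val / 2)) else w.2.2.2 ^ (2 ^ (x.val / 2))

/-- `yy (2i) = Y^(2^i)`, `yy (2i+1) = Z^(2^i)`. -/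
noncomputable def yy (x : Fin 18) : W → K := de x + dv x * dv (x + 1)

/-- The lifts of the tiles (section I.4). -/
noncomputable def lMono (x : Fin 18) : W → K :=
  if x.val % 2 = 0 then dv x * de (x - 1) else dv x * yy (x - 1)

noncomputable def lMinor (q : Fin 18) : W → K := dv (q + 1) * de (q - 1) + dv (q - 1) * de q

noncomputable def lPairY (q : Fin 18) : W → K :=
  if q.val % 2 = 0 then yy q * yy (q - 1) + dv (q - 1) * yy (q + 1) else yy (q - 1) * yy q

noncomputable def lVe (q : Fin 18) : W → K :=
  if q.val % 2 = 0 then dv q * de q else dv q * yy q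

noncomputable def lPairE (q : Fin 18) : W → K :=
  if q.val % 2 = 0 then de q * de (q - 1) else de (q - 1) * de q + dv (q - 1) * de (q + 1)

noncomputable def lTriple (q : Fin 18) : W → K :=
  if q.val % 2 = 0 then de (q - 1) * (dv q * de q + de (q + 1))
  else yy (q - 1) * (dv q * yy q + yy (q + 1))

/-- The choice `(v_x, e_{x-1})` at a site `x`. -/
abbrev Ch := Bool × Bool

/-- Parse state before site `x`: `(pending, e_x)`. `pending = true` means that `x+1` is the right
half of a dimer `(x, x+1)`; then `e_x = false` means `(v_{x+1}, e_x) = (1, 0)` and `e_x = true`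
means `(v_{x+1}, e_x) = (0, 1)`. -/
abbrev St := Bool × Bool

/-- The type of the site. -/
def ty (x : Fin 18) : ℕ × ℕ := if x.val % 2 = 0 then (1, 0) else (0, 1)

/-- The lift of the tile that is completed at site `x` (`1` if none is completed or if it is the
monomer `(0,0)`). -/
noncomputable def fac (σ : St) (x : Fin 18) (ch : Ch) : W → K :=
  match σ, ch with
  | (false, _), (true, true) => lMono x
  | (false, _), (_, _) => 1
  | (true, false), (false, false) => dv (x + 1)
  | (true, false), (true, false) => yy x
  | (true, false), (false, true) => lMinor x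
  | (true, false), (true, true) => lPairY x
  | (true, true), (false, false) => de x
  | (true, true), (true, false) => lVe x
  | (true, true), (false, true) => lPairE x
  | (true, true), (true, true) => lTriple x

/-- The type of `fac`. -/
def wty (σ : St) (x : Fin 18) (ch : Ch) : ℕ × ℕ :=
  match σ, ch with
  | (false, _), (true, true) => ty x
  | (false, _), (_, _) => (0, 0)
  | (true, false), (false, false) => ty (x + 1)
  | (true, false), (true, false) => (0, 1)
  | (true, false), (false, true) => ty (x + 1)
  | (true, false), (true, true) => (0, 1)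
  | (true, true), (false, false) => (1, 0)
  | (true, true), (true, false) => ty x
  | (true, true), (false, true) => (1, 0)
  | (true, true), (true, true) => ty x

/-- The next parse state. -/
def nxt (σ : St) (ch : Ch) : St := (!σ.1 && (ch.1 != ch.2), ch.2)

/-- The product of the lifts of the tiles of a word, parsed from site `x` leftwards. -/
noncomputable def run : St → Fin 18 → List Ch → (W → K)
  | _, _, [] => 1
  | σ, x, ch :: l => fac σ x ch * run (nxt σ ch) (x - 1) l

/-- Its type. -/
def runTy : St → Fin 18 → List Ch → ℕ × ℕ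
  | _, _, [] => (0, 0)
  | σ, x, ch :: l => wty σ x ch + runTy (nxt σ ch) (x - 1) l

/-- The condition on the choice `ch` at site `x` if `e = e_x`, for words whose least breaker is `c`,
with bit `β`: at `x = c` everything is `β`, and the sites `x < c` are not breakers. -/
def okc (c : Fin 18) (β : Bool) (x : Fin 18) (e : Bool) (ch : Ch) : Bool :=
  if x = c then ch.1 == β && ch.2 == β && e == β
  else if x < c then !(ch.1 == e && ch.2 == e) else true

/-- The condition for all sites of a word. -/
def okW (c : Fin 18) (β : Bool) : St → Fin 18 → List Ch → Bool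
  | _, _, [] => true
  | σ, x, ch :: l => okc c β x σ.2 ch && okW c β (nxt σ ch) (x - 1) l

/-- All four choices. -/
def chs : List Ch := [(false, false), (false, true), (true, false), (true, true)]

/-- The words of length `k` from state `σ` at site `x`, with `okW`, of type at most `(s, t)`. -/
def words (c : Fin 18) (β : Bool) : ℕ → St → Fin 18 → ℕ → ℕ → List (List Ch)
  | 0, _, _, _, _ => [[]]
  | k + 1, σ, x, s, t => chs.flatMap (fun ch =>
      if okc c β x σ.2 ch ∧ (wty σ x ch).1 ≤ s ∧ (wty σ x ch).2 ≤ t then
        (words c β k (nxt σ ch) (x - 1) (s - (wty σ x ch).1) (t - (wty σ x ch).2)).map (ch :: ·)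
      else [])

/-- Their number. -/
def cnt (c : Fin 18) (β : Bool) : ℕ → St → Fin 18 → ℕ → ℕ → ℕ
  | 0, _, _, _, _ => 1
  | k + 1, σ, x, s, t => (chs.map (fun ch =>
      if okc c β x σ.2 ch ∧ (wty σ x ch).1 ≤ s ∧ (wty σ x ch).2 ≤ t then
        cnt c β k (nxt σ ch) (x - 1) (s - (wty σ x ch).1) (t - (wty σ x ch).2)
      else 0)).sum

/-- Exponents of monomials in the `36` digits. -/
abbrev Ex := (Fin 18 → ℕ) × (Fin 18 → ℕ)

/-- The monomial as a function on the wires. -/
noncomputable def mon (n : Ex) (w : W) : K := (∏ x, dv x w ^ n.1 x) * ∏ x, de x w ^ n.2 x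

/-- `δ_x`. -/
def dl (n : Ex) (x : Fin 18) : ℕ := n.1 x + n.2 x + n.2 (x - 1)

/-- The weight. -/
def wt (n : Ex) : ℕ := ∑ x, dl n x

/-- `E_c`. -/
def En (c : Fin 18) (n : Ex) : ℕ := ∑ x, n.2 x * (1 + (x - c).val)

/-- `n' <_c n` (section I.5). -/
def Lt (c : Fin 18) (n' n : Ex) : Prop := wt n' < wt n ∨ (dl n' = dl n ∧ En c n < En c n')

/-- `f = mon n + (lower terms)`. -/
def Lead (c : Fin 18) (n : Ex) (f : W → K) : Prop :=
  f - mon n ∈ Submodule.span K {g : W → K | ∃ n', Lt c n' n ∧ g = mon n'}

/-- The exponents of single digits. -/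
def sv (x : Fin 18) : Ex := (Pi.single x 1, 0)
def se (x : Fin 18) : Ex := (0, Pi.single x 1)

/-- The exponents of a word parsed from site `x` leftwards. -/
def exW : Fin 18 → List Ch → Ex
  | _, [] => 0
  | x, ch :: l => (if ch.1 then sv x else 0) + (if ch.2 then se (x - 1) else 0) + exW (x - 1) l

/-- The exponents of the pending digit. -/
def pend (σ : St) (x : Fin 18) : Ex :=
  if σ.1 then (if σ.2 then se x else sv (x + 1)) else 0

/-- Digit strings. -/
abbrev Str := (Fin 18 → Bool) × (Fin 18 → Bool)

/-- A string as exponents. -/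
def toEx (s : Str) : Ex := (fun x => (s.1 x).toNat, fun x => (s.2 x).toNat)

/-- The string of a word of length `18` whose first site is `c - 1`. -/
def toStr (c : Fin 18) (l : List Ch) : Str :=
  (fun x => (l.getD (c - 1 - x).val (false, false)).1,
    fun x => (l.getD (c - 2 - x).val (false, false)).2)

/-- The least `x` with `δ x ∈ {0, 3}` (`0` if there is none). -/
def cof (δ : Fin 18 → ℕ) : Fin 18 :=
  ((List.finRange 18).find? (fun x => δ x = 0 ∨ δ x = 3)).getD 0

/-- The rank of a monomial. -/
def rho (n : Ex) : ℤ := 1000 * (wt n : ℤ) - (En (cof (dl n)) n : ℤ)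

end Pool.Agent.NHT
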