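import Pool.Agent.NHT.A0

set_option autoImplicit false

/-!
NHT-A1: the degree calculus and the code `D`.
-/

namespace Pool.Agent.NHT

section

variable {X X' A B : Type*} [AddCommGroup X] [AddCommGroup X'] [AddCommGroup A] [AddCommGroup B]

/-- Induction on `s`: `s = 0`: the difference of a constant is `0`, constant. -/
theorem degLE_succ {s : ℕ} {f : X → A} (h : degLE s f) : degLE (s + 1) f := by
  induction s generalizing f with
  | zero =>
    intro k x y
    have h' : ∀ x y, f x = f y := h
    show f (x + k) - f x = f (y + k) - f y
    rw [h' (x + k) (y + k), h' x y]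
  | succ s ih =>
    intro k
    exact ih (h k)

theorem degLE_mono {s t : ℕ} (hst : s ≤ t) {f : X → A} (h : degLE s f) : degLE t f := by
  induction t, hst using Nat.le_induction with
  | base => exact h
  | succ n hn ih => exact degLE_succ ih

theorem degLE_const (s : ℕ) (c : A) : degLE s (fun _ : X => c) := by
  induction s generalizing c with
  | zero => intro x y; rfl
  | succ s ih => intro h; exact ih (c - c)

theorem degLE_add {s : ℕ} {f g : X → A} (hf : degLE s f) (hg : degLE s g) :
    degLE s (fun x => f x + g x) := by
  induction s generalizing f g with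
  | zero =>
    intro x y
    have hf' : ∀ x y, f x = f y := hf
    have hg' : ∀ x y, g x = g y := hg
    show f x + g x = f y + g y
    rw [hf' x y, hg' x y]
  | succ s ih =>
    intro h
    have h1 := ih (hf h) (hg h)
    have e : (fun x => f (x + h) + g (x + h) - (f x + g x))
        = (fun x => (f (x + h) - f x) + (g (x + h) - g x)) := by
      funext x; abel
    show degLE s (fun x => f (x + h) + g (x + h) - (f x + g x))
    rw [e]; exact h1

theorem degLE_neg {s : ℕ} {f : X → A} (hf : degLE s f) : degLE s (fun x => - f x) := by
  induction s generalizing f with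
  | zero =>
    intro x y
    have hf' : ∀ x y, f x = f y := hf
    show - f x = - f y
    rw [hf' x y]
  | succ s ih =>
    intro h
    have h1 := ih (hf h)
    have e : (fun x => - f (x + h) - (- f x)) = (fun x => - (f (x + h) - f x)) := by
      funext x; abel
    show degLE s (fun x => - f (x + h) - (- f x))
    rw [e]; exact h1

/-- Postcomposition with an additive map: induction on `s`. -/
theorem degLE_comp {s : ℕ} {f : X → A} (hf : degLE s f) (φ : A →+ B) :
    degLE s (fun x => φ (f x)) := by
  induction s generalizing f with
  | zero =>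
    intro x y
    have hf' : ∀ x y, f x = f y := hf
    show φ (f x) = φ (f y)
    rw [hf' x y]
  | succ s ih =>
    intro h
    have h1 := ih (hf h)
    have e : (fun x => φ (f (x + h)) - φ (f x)) = (fun x => φ (f (x + h) - f x)) := by
      funext x; rw [map_sub]
    show degLE s (fun x => φ (f (x + h)) - φ (f x))
    rw [e]; exact h1

/-- Precomposition with an additive map: induction on `s`. -/
theorem degLE_precomp {s : ℕ} {f : X → A} (hf : degLE s f) (φ : X' →+ X) :
    degLE s (fun x => f (φ x)) := by
  induction s generalizing f with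
  | zero =>
    intro x y
    have hf' : ∀ x y, f x = f y := hf
    exact hf' (φ x) (φ y)
  | succ s ih =>
    intro h
    have h1 := ih (hf (φ h))
    have e : (fun x => f (φ (x + h)) - f (φ x)) = (fun x => f (φ x + φ h) - f (φ x)) := by
      funext x; rw [map_add]
    show degLE s (fun x => f (φ (x + h)) - f (φ x))
    rw [e]; exact h1

/-- Translates: induction on `s`. -/
theorem degLE_translate {s : ℕ} {f : X → A} (hf : degLE s f) (c : X) :
    degLE s (fun x => f (x + c)) := by
  induction s generalizing f with
  | zero =>
    intro x y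
    have hf' : ∀ x y, f x = f y := hf
    exact hf' (x + c) (y + c)
  | succ s ih =>
    intro h
    have h1 := ih (hf h)
    have e : (fun x => f (x + h + c) - f (x + c)) = (fun x => f (x + c + h) - f (x + c)) := by
      funext x; rw [add_right_comm]
    show degLE s (fun x => f (x + h + c) - f (x + c))
    rw [e]; exact h1

/-- An additive map has degree `1`: its differences are constant. -/
theorem degLE_hom (φ : X →+ A) : degLE 1 (fun x => φ x) := by
  intro h x y
  show φ (x + h) - φ x = φ (y + h) - φ y
  rw [map_add, map_add, add_sub_cancel_left, add_sub_cancel_left]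

end

/-- Products: `Δ_h(fg) = Δ_h f Δ_h g + Δ_h f g + f Δ_h g`, induction on `s + t` (use `degLE_mono`
for the first term). -/
theorem degLE_mul {X A : Type*} [AddCommGroup X] [CommRing A] {s t : ℕ} {f g : X → A}
    (hf : degLE s f) (hg : degLE t g) : degLE (s + t) (fun x => f x * g x) := by
  induction s generalizing t f g with
  | zero =>
    have hf' : ∀ x y, f x = f y := hf
    have h1 := degLE_comp hg (AddMonoidHom.mulLeft (f 0))
    have e : (fun x => f x * g x) = (fun x => AddMonoidHom.mulLeft (f 0) (g x)) := by
      funext x
      rw [AddMonoidHom.coe_mulLeft, hf' x 0]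
    rw [e, Nat.zero_add]
    exact h1
  | succ s ihs =>
    induction t generalizing f g with
    | zero =>
      have hg' : ∀ x y, g x = g y := hg
      have h1 := degLE_comp hf (AddMonoidHom.mulRight (g 0))
      have e : (fun x => f x * g x) = (fun x => AddMonoidHom.mulRight (g 0) (f x)) := by
        funext x
        rw [AddMonoidHom.coe_mulRight, hg' x 0]
      rw [e, Nat.add_zero]
      exact h1
    | succ t iht =>
      show degLE ((s + 1 + t) + 1) (fun x => f x * g x)
      intro h
      have h1 := degLE_mono (show s + t ≤ s + 1 + t by omega) (ihs (hf h) (hg h))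
      have h2 := degLE_mono (show s + (t + 1) ≤ s + 1 + t by omega) (ihs (hf h) hg)
      have h3 := iht hf (hg h)
      have h4 := degLE_add (degLE_add h1 h2) h3
      have e : (fun x => f (x + h) * g (x + h) - f x * g x)
          = (fun x => ((f (x + h) - f x) * (g (x + h) - g x) + (f (x + h) - f x) * g x)
            + f x * (g (x + h) - g x)) := by
        funext x; ring
      show degLE (s + 1 + t) (fun x => f (x + h) * g (x + h) - f x * g x)
      rw [e]; exact h4

section

variable {A B : Type*} [AddCommGroup A] [AddCommGroup B]

theorem Typ_mono {s t s' t' : ℕ} (hs : s ≤ s') (ht : t ≤ t') {f : W → A} (h : Typ s t f) :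
    Typ s' t' f := by
  exact ⟨fun b Y Z => degLE_mono hs (h.1 b Y Z), fun a c d => degLE_mono ht (h.2 a c d)⟩

theorem Typ_const (s t : ℕ) (c : A) : Typ s t (fun _ : W => c) := by
  exact ⟨fun b Y Z => degLE_const s c, fun a c' d => degLE_const t c⟩

theorem Typ_add {s t : ℕ} {f g : W → A} (hf : Typ s t f) (hg : Typ s t g) :
    Typ s t (f + g) := by
  exact ⟨fun b Y Z => degLE_add (hf.1 b Y Z) (hg.1 b Y Z),
    fun a c d => degLE_add (hf.2 a c d) (hg.2 a c d)⟩

theorem Typ_comp {s t : ℕ} {f : W → A} (hf : Typ s t f) (φ : A →+ B) :
    Typ s t (fun w => φ (f w)) := by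
  exact ⟨fun b Y Z => degLE_comp (hf.1 b Y Z) φ, fun a c d => degLE_comp (hf.2 a c d) φ⟩

end

theorem Typ_mul {A : Type*} [CommRing A] {s t s' t' : ℕ} {f g : W → A} (hf : Typ s t f)
    (hg : Typ s' t' g) : Typ (s + s') (t + t') (f * g) := by
  exact ⟨fun b Y Z => degLE_mul (hf.1 b Y Z) (hg.1 b Y Z),
    fun a c d => degLE_mul (hf.2 a c d) (hg.2 a c d)⟩

/-- The code: functions of degree at most `4` on all stars. -/
def D : Submodule (ZMod 2) (W → ZMod 2) where
  carrier := {f | Typ 4 4 f}
  add_mem' := fun hf hg => Typ_add hf hg
  zero_mem' := Typ_const 4 4 0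
  smul_mem' := fun c f hf => by
    have h := Typ_comp hf (AddMonoidHom.mulLeft c)
    exact h

theorem mem_D (f : W → ZMod 2) : f ∈ D ↔ Typ 4 4 f := Iff.rfl

theorem one_mem_D : (1 : W → ZMod 2) ∈ D := Typ_const 4 4 1

end Pool.Agent.NHT
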