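import Pool.Agent.NHT.A0

set_option autoImplicit false

/-!
NHT-A10: girth and connectedness of the geometry (section I.9, I.10).
-/

namespace Pool.Agent.NHT

open Finset

theorem A10_card_K : Fintype.card K = 2 ^ 9 := by
  rw [Fintype.card_eq_nat_card]
  exact GaloisField.card 2 9 (by norm_num)

theorem A10_ext {w w' : W} (ha : w.1 = w'.1) (hb : w.2.1 = w'.2.1) (hc : w.2.2.1 = w'.2.2.1)
    (hd : w.2.2.2 = w'.2.2.2) : w = w' := by
  obtain ⟨a, b, c, d⟩ := w
  obtain ⟨a', b', c', d'⟩ := w'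
  simp only at ha hb hc hd
  subst ha hb hc hd
  rfl

theorem A10_pt {w w' : W} (h : pt w = pt w') :
    w.1 = w'.1 ∧ w.2.2.1 = w'.2.2.1 ∧ w.2.2.2 = w'.2.2.2 := by
  simp only [pt, Prod.mk.injEq] at h
  exact h

theorem A10_ln {w w' : W} (h : ln w = ln w') :
    w.2.1 = w'.2.1 ∧ w.2.2.1 + w.1 * w.2.1 = w'.2.2.1 + w'.1 * w'.2.1 ∧
      w.2.2.2 + w.1 ^ 2 * w.2.1 = w'.2.2.2 + w'.1 ^ 2 * w'.2.1 := by
  simp only [ln, Prod.mk.injEq] at h
  exact h

/-- same line, same `a` -/
theorem A10_ln_a {w w' : W} (h : ln w = ln w') (ha : w.1 = w'.1) : w = w' := by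
  obtain ⟨hb, hc, hd⟩ := A10_ln h
  rw [hb, ha] at hc hd
  exact A10_ext ha hb (add_right_cancel hc) (add_right_cancel hd)

/-- same point, same `b` -/
theorem A10_pt_b {w w' : W} (h : pt w = pt w') (hb : w.2.1 = w'.2.1) : w = w' := by
  obtain ⟨ha, hc, hd⟩ := A10_pt h
  exact A10_ext ha hb hc hd

theorem pt_ln_inj {w w' : W} (h1 : pt w = pt w') (h2 : ln w = ln w') : w = w' := by
  exact A10_ln_a h2 (A10_pt h1).1

/-- No closed walk of length `4`: `w₁ w₂` same point, `w₂ w₃` same line, `w₃ w₄` same point, `w₄ w₁`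
same line. Section I.9, `m = 2`: with `b₁, b₂` the `b`-values of the two lines, `u` the difference of the
`a`-values: `u b₁ = u b₂`. Conclusion: `w₁ = w₂` or `w₂ = w₃`. -/
theorem no_four {w₁ w₂ w₃ w₄ : W} (h12 : pt w₁ = pt w₂) (h23 : ln w₂ = ln w₃)
    (h34 : pt w₃ = pt w₄) (h41 : ln w₄ = ln w₁) : w₁ = w₂ ∨ w₂ = w₃ := by
  obtain ⟨a12, c12, d12⟩ := A10_pt h12
  obtain ⟨b23, c23, d23⟩ := A10_ln h23
  obtain ⟨a34, c34, d34⟩ := A10_pt h34
  obtain ⟨b41, c41, d41⟩ := A10_ln h41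
  have key : (w₂.1 - w₃.1) * (w₁.2.1 - w₂.2.1) = 0 := by
    rw [← a34, ← c34, b41, a12, c12] at c41
    rw [← b23] at c23
    linear_combination - c41 - c23
  rcases mul_eq_zero.1 key with h | h
  · exact Or.inr (A10_ln_a h23 (sub_eq_zero.1 h))
  · exact Or.inl (A10_pt_b h12 (sub_eq_zero.1 h))

/-- No closed walk of length `6` (section I.9, `m = 3`). Let `w₁ = (a₁,b₁,..)`, `w₂ = (a₁,b₂,..)`,
`w₃ = (a₂,b₂,..)`, `w₄ = (a₂,b₃,..)`, `w₅ = (a₃,b₃,..)`, `w₆ = (a₃,b₁,..)`; the three line relations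
give `(a₁-a₂) b₂ + (a₂-a₃) b₃ + (a₃-a₁) b₁ = 0` and the same with squares of the `a`; so
`(a₁-a₂)(a₂-a₃)... = 0`: `(a₂-a₃)(a₃-a₁)(…)`, etc. If two consecutive `a`'s agree, or two
consecutive `b`'s agree, some consecutive wires are equal. -/
theorem no_six {w₁ w₂ w₃ w₄ w₅ w₆ : W} (h12 : pt w₁ = pt w₂) (h23 : ln w₂ = ln w₃)
    (h34 : pt w₃ = pt w₄) (h45 : ln w₄ = ln w₅) (h56 : pt w₅ = pt w₆) (h61 : ln w₆ = ln w₁) :
    w₁ = w₂ ∨ w₂ = w₃ ∨ w₃ = w₄ ∨ w₄ = w₅ ∨ w₅ = w₆ ∨ w₆ = w₁ := by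
  obtain ⟨a12, c12, d12⟩ := A10_pt h12
  obtain ⟨b23, c23, d23⟩ := A10_ln h23
  obtain ⟨a34, c34, d34⟩ := A10_pt h34
  obtain ⟨b45, c45, d45⟩ := A10_ln h45
  obtain ⟨a56, c56, d56⟩ := A10_pt h56
  obtain ⟨b61, c61, d61⟩ := A10_ln h61
  have two : (2 : K) = 0 := CharTwo.two_eq_zero
  rw [← a56, ← c56, b61, a12, c12] at c61
  rw [← a56, ← d56, b61, a12, d12] at d61
  rw [← b23, a34, c34] at c23
  rw [← b23, a34, d34] at d23
  rw [← b45] at c45 d45
  have e1 : (w₂.1 - w₄.1) * (w₂.2.1 - w₁.2.1) + (w₄.1 - w₅.1) * (w₄.2.1 - w₁.2.1) = 0 := by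
    linear_combination c23 + c45 + c61
  have e2 : (w₂.1 ^ 2 - w₄.1 ^ 2) * (w₂.2.1 - w₁.2.1) +
      (w₄.1 ^ 2 - w₅.1 ^ 2) * (w₄.2.1 - w₁.2.1) = 0 := by
    linear_combination d23 + d45 + d61
  have key : (w₄.1 - w₅.1) * ((w₂.1 - w₅.1) * (w₄.2.1 - w₁.2.1)) = 0 := by
    linear_combination (w₂.1 + w₄.1) * e1 - e2
  rcases mul_eq_zero.1 key with h | h
  · exact Or.inr (Or.inr (Or.inr (Or.inl (A10_ln_a h45 (sub_eq_zero.1 h)))))
  rcases mul_eq_zero.1 h with h | h
  · refine Or.inr (Or.inr (Or.inr (Or.inr (Or.inr (A10_ln_a h61 ?_)))))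
    rw [← a56, a12]
    exact (sub_eq_zero.1 h).symm
  · refine Or.inr (Or.inr (Or.inr (Or.inr (Or.inl (A10_pt_b h56 ?_)))))
    rw [← b45, b61]
    exact sub_eq_zero.1 h

section A10core

variable {X Y : Type*}

/-- the hypotheses on a pair of functions -/
structure A10_hyp (f g : X → Y) : Prop where
  inj : ∀ {x y : X}, f x = f y → g x = g y → x = y
  n4 : ∀ {a b c d : X}, f a = f b → g b = g c → f c = f d → g d = g a → a = b ∨ b = c
  n6 : ∀ {a b c d e z : X}, f a = f b → g b = g c → f c = f d → g d = g e → f e = f z →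
    g z = g a → a = b ∨ b = c ∨ c = d ∨ d = e ∨ e = z ∨ z = a

theorem A10_hyp.swap {f g : X → Y} (h : A10_hyp f g) : A10_hyp g f where
  inj := fun h1 h2 => h.inj h2 h1
  n4 := by
    intro a b c d h1 h2 h3 h4
    rcases h.n4 h4 h1 h2 h3 with e | e
    · right
      subst e
      exact h.inj h2 (h1.symm.trans h3.symm)
    · exact Or.inl e
  n6 := by
    intro a b c d e z h1 h2 h3 h4 h5 h6
    rcases h.n6 h6 h1 h2 h3 h4 h5 with k | k | k | k | k | k
    · exact Or.inr (Or.inr (Or.inr (Or.inr (Or.inr k))))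
    · exact Or.inl k
    · exact Or.inr (Or.inl k)
    · exact Or.inr (Or.inr (Or.inl k))
    · exact Or.inr (Or.inr (Or.inr (Or.inl k)))
    · exact Or.inr (Or.inr (Or.inr (Or.inr (Or.inl k))))

/-- the walk starting with an `f`-step; differences up to `7` -/
theorem A10_walk {f g : X → Y} (h : A10_hyp f g) (w : ℕ → X)
    (hf : ∀ i, i % 2 = 0 → f (w i) = f (w (i + 1)))
    (hg : ∀ i, i % 2 = 1 → g (w i) = g (w (i + 1)))
    (hne : ∀ i, w i ≠ w (i + 1)) : ∀ d, 1 ≤ d → d ≤ 7 → w 0 ≠ w d := by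
  have f01 := hf 0 rfl
  have g12 := hg 1 rfl
  have f23 := hf 2 rfl
  have g34 := hg 3 rfl
  have f45 := hf 4 rfl
  have g56 := hg 5 rfl
  have f67 := hf 6 rfl
  have n0 := hne 0
  have n1 := hne 1
  have n2 := hne 2
  have n3 := hne 3
  have n4 := hne 4
  have n5 := hne 5
  simp only [Nat.zero_add, Nat.reduceAdd] at f01 g12 f23 g34 f45 g56 f67 n0 n1 n2 n3 n4 n5
  intro d h1 h7 e
  interval_cases d
  · exact n0 e
  · rw [← e] at g12
    exact n0 (h.inj f01 g12.symm)
  · rw [← e] at f23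
    exact n1 (h.inj (f01.symm.trans f23.symm) g12)
  · rw [← e] at g34
    rcases h.n4 f01 g12 f23 g34 with k | k
    · exact n0 k
    · exact n1 k
  · rw [← e] at f45
    rcases h.swap.n4 g12 f23 g34 (f45.trans f01) with k | k
    · exact n1 k
    · exact n2 k
  · rw [← e] at g56
    rcases h.n6 f01 g12 f23 g34 f45 g56 with k | k | k | k | k | k
    · exact n0 k
    · exact n1 k
    · exact n2 k
    · exact n3 k
    · exact n4 k
    · exact n5 (k.trans e)
  · rw [← e] at f67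
    rcases h.swap.n6 g12 f23 g34 f45 g56 (f67.trans f01) with k | k | k | k | k | k
    · exact n1 k
    · exact n2 k
    · exact n3 k
    · exact n4 k
    · exact n5 k
    · rw [k] at g56
      rcases h.n4 f23 g34 f45 (g56.trans g12) with l | l
      · exact n2 l
      · exact n3 l

end A10core

theorem A10_hyp_W : A10_hyp pt ln where
  inj := fun h1 h2 => A10_ln_a h2 (A10_pt h1).1
  n4 := fun h1 h2 h3 h4 => no_four h1 h2 h3 h4
  n6 := fun h1 h2 h3 h4 h5 h6 => no_six h1 h2 h3 h4 h5 h6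

/-- Section I.9: build `w₁, …, w₈ ∈ T` with `w₁ w₂` same point, `w₂ w₃` same line, …, `w₇ w₈` same
point, consecutive ones distinct; all eight are distinct. (Prove pairwise distinctness by the difference
of the indices: `2`: same point and line; `3`: the third relation makes `w_{i+1}, w_{i+2}` equal in both;
`4`: `no_four`; `5`: reduces to `no_four` with `w_{i+1} … w_{i+4}` or `w_{i+1} = w_{i+4}` (difference `3`);
`6`: `no_six`; `7`: reduces to `no_six` or difference `5`.) Use the symmetry between `pt` and `ln` by a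
general lemma for two functions `f g : X → Y` with the hypotheses `inj`, `no_four`, `no_six` in both
orders. -/
theorem eight_le_card (T : Finset W) (hT : T.Nonempty)
    (hp : ∀ w ∈ T, ∃ w' ∈ T, w' ≠ w ∧ pt w' = pt w)
    (hl : ∀ w ∈ T, ∃ w' ∈ T, w' ≠ w ∧ ln w' = ln w) : 8 ≤ T.card := by
  classical
  choose! np npT npne npe using hp
  choose! nl nlT nlne nle using hl
  obtain ⟨w0, hw0⟩ := hT
  obtain ⟨w, hz, hs⟩ : ∃ w : ℕ → W, w 0 = w0 ∧
      ∀ i, w (i + 1) = if i % 2 = 0 then np (w i) else nl (w i) :=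
    ⟨fun i => Nat.rec w0 (fun i x => if i % 2 = 0 then np x else nl x) i, rfl, fun i => rfl⟩
  have hwT : ∀ i, w i ∈ T := by
    intro i
    induction i with
    | zero => rw [hz]; exact hw0
    | succ i ih =>
      rw [hs]
      split_ifs
      · exact npT _ ih
      · exact nlT _ ih
  have hf : ∀ i, i % 2 = 0 → pt (w i) = pt (w (i + 1)) := by
    intro i hi
    rw [hs, if_pos hi]
    exact (npe _ (hwT i)).symm
  have hg : ∀ i, i % 2 = 1 → ln (w i) = ln (w (i + 1)) := by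
    intro i hi
    rw [hs, if_neg (by omega)]
    exact (nle _ (hwT i)).symm
  have hne : ∀ i, w i ≠ w (i + 1) := by
    intro i
    rw [hs]
    split_ifs
    · exact (npne _ (hwT i)).symm
    · exact (nlne _ (hwT i)).symm
  have hdist : ∀ i d, 1 ≤ d → d ≤ 7 → w i ≠ w (i + d) := by
    intro i d h1 h7
    rcases Nat.mod_two_eq_zero_or_one i with hi | hi
    · exact A10_walk A10_hyp_W (fun k => w (i + k)) (fun k hk => hf _ (by omega))
        (fun k hk => hg _ (by omega)) (fun k => hne _) d h1 h7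
    · exact A10_walk A10_hyp_W.swap (fun k => w (i + k)) (fun k hk => hg _ (by omega))
        (fun k hk => hf _ (by omega)) (fun k => hne _) d h1 h7
  have hinj : Set.InjOn w (Finset.range 8 : Finset ℕ) := by
    intro i hi j hj hij
    simp only [Finset.coe_range, Set.mem_Iio] at hi hj
    rcases lt_trichotomy i j with h | h | h
    · exact absurd (by rw [hij]; congr 1; omega) (hdist i (j - i) (by omega) (by omega))
    · exact h
    · exact absurd (by rw [← hij]; congr 1; omega) (hdist j (i - j) (by omega) (by omega))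
  have hc : ((Finset.range 8).image w).card = 8 := by
    rw [Finset.card_image_of_injOn hinj, Finset.card_range]
  rw [← hc]
  refine Finset.card_le_card fun x hx => ?_
  obtain ⟨i, -, rfl⟩ := Finset.mem_image.1 hx
  exact hwT i

/-- Section I.10. -/
theorem connected (P : W → Prop) (hp : ∀ w w', pt w = pt w' → P w → P w')
    (hl : ∀ w w', ln w = ln w' → P w → P w') (h : ∃ w, P w) : ∀ w, P w := by
  classical
  have two : (2 : K) = 0 := CharTwo.two_eq_zero
  obtain ⟨⟨a₀, b₀, c₀, d₀⟩, h0⟩ := h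
  -- all `a`, `b` with the given `c`, `d`
  have spread : ∀ a b c d, P (a, b, c, d) → ∀ a' b', P (a', b', c, d) := by
    intro a b c d hP a' b'
    have h1 : P (a, 0, c, d) := hp (a, b, c, d) (a, 0, c, d) rfl hP
    have h2 : P (a', 0, c, d) := hl (a, 0, c, d) (a', 0, c, d) (by simp [ln]) h1
    exact hp (a', 0, c, d) (a', b', c, d) rfl h2
  have move : ∀ c d, (∀ a b, P (a, b, c, d)) → ∀ t u : K,
      ∀ a b, P (a, b, c + t * u, d + t ^ 2 * u) := by
    intro c d hP t u a b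
    have h1 : P (t, u, c + t * u, d + t ^ 2 * u) := by
      refine hl (0, u, c, d) (t, u, c + t * u, d + t ^ 2 * u) ?_ (hP 0 u)
      simp only [ln, Prod.mk.injEq]
      refine ⟨trivial, ?_, ?_⟩
      · linear_combination (-t * u) * two
      · linear_combination (-t ^ 2 * u) * two
    exact spread _ _ _ _ h1 a b
  obtain ⟨l, hl0, hl1⟩ : ∃ l : K, l ≠ 0 ∧ l ≠ 1 := by
    by_contra hcon
    push Not at hcon
    have h1 : Fintype.card K ≤ ({0, 1} : Finset K).card := by
      rw [← Finset.card_univ]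
      refine Finset.card_le_card fun x _ => ?_
      by_cases hx : x = 0
      · simp [hx]
      · simp [hcon x hx]
    rw [A10_card_K] at h1
    have h2 := Finset.card_le_two (a := (0 : K)) (b := 1)
    omega
  have hl2 : l + l ^ 2 ≠ 0 := by
    intro hz
    have : l * (1 + l) = 0 := by linear_combination hz
    rcases mul_eq_zero.1 this with h1 | h1
    · exact hl0 h1
    · exact hl1 (by linear_combination h1 - two)
  rintro ⟨a, b, c, d⟩
  obtain ⟨u, hu⟩ : ∃ u : K, u * (l + l ^ 2) = (c - c₀) + (d - d₀) :=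
    ⟨((c - c₀) + (d - d₀)) / (l + l ^ 2), div_mul_cancel₀ _ hl2⟩
  have h1 := move _ _ (move c₀ d₀ (fun a b => spread _ _ _ _ h0 a b) 1 (c - c₀ - l * u)) l u a b
  have e1 : c₀ + 1 * (c - c₀ - l * u) + l * u = c := by ring
  have e2 : d₀ + 1 ^ 2 * (c - c₀ - l * u) + l ^ 2 * u = d := by
    linear_combination hu + (- l * u) * two + (c - c₀) * two
  rw [e1, e2] at h1
  exact h1

theorem card_W : Fintype.card W = 2 ^ 36 := by
  simp only [Fintype.card_prod, A10_card_K]
  norm_num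

theorem card_K3 : Fintype.card (K × K × K) = 2 ^ 27 := by
  simp only [Fintype.card_prod, A10_card_K]
  norm_num

end Pool.Agent.NHT
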