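import Pool.Agent.NHT.A1

set_option autoImplicit false

/-!
NHT-A2: sums of functions of small degree vanish; the code is self-orthogonal on every star; a
family of `K`-valued functions gives a lower bound for `finrank D`.
-/

namespace Pool.Agent.NHT

open Finset Module

/-- Induction on `n`. `s = 0`: `f` is constant and `2^n` is even (`1 ≤ n`). `s + 1`: by
`Fin.consEquiv` / `Fin.cons` the sum over `x : Fin (n+1) → ZMod 2` is
`∑ y, (f (cons 0 y) + f (cons 1 y)) = ∑ y, (Δ_{e₀} f) (cons 0 y)` (`e₀ = cons 1 0`, char `2`), and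
`y ↦ (Δ_{e₀} f) (cons 0 y)` has degree `≤ s` (`degLE_precomp` with the additive map `cons 0`). -/
theorem sum_fin_eq_zero {A : Type*} [CommRing A] [CharP A 2] :
    ∀ (n s : ℕ), s < n → ∀ f : (Fin n → ZMod 2) → A, degLE s f → ∑ x, f x = 0 := by
  intro n
  induction n with
  | zero => intro s hs; omega
  | succ m ih =>
    intro s hs f hf
    cases s with
    | zero =>
      have h1 : ∀ x, f x = f 0 := fun x => hf x 0
      rw [Finset.sum_congr rfl fun x _ => h1 x, Finset.sum_const, Finset.card_univ, nsmul_eq_mul, Fintype.card_fun,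
        ZMod.card, Fintype.card_fin, pow_succ, Nat.cast_mul]
      have h2 : ((2 : ℕ) : A) = 0 := CharP.cast_eq_zero A 2
      rw [h2, mul_zero, zero_mul]
    | succ k =>
      let φ : (Fin m → ZMod 2) →+ (Fin (m + 1) → ZMod 2) :=
        { toFun := fun y => Fin.cons 0 y
          map_zero' := by
            funext i
            refine Fin.cases ?_ (fun j => ?_) i
            · rfl
            · rfl
          map_add' := by
            intro y z
            funext i
            refine Fin.cases ?_ (fun j => ?_) i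
            · show (0 : ZMod 2) = 0 + 0
              rw [add_zero]
            · rfl }
      have h1 := degLE_precomp (hf (Fin.cons 1 0)) φ
      have h2 := ih k (by omega) _ h1
      have h3 : ∑ x, f x = ∑ p : ZMod 2 × (Fin m → ZMod 2), f (Fin.cons p.1 p.2) :=
        (Fintype.sum_equiv (Fin.consEquiv fun _ => ZMod 2) _ _ fun p => rfl).symm
      rw [h3, Fintype.sum_prod_type]
      have h4 : ∀ g : ZMod 2 → A, ∑ x, g x = g 0 + g 1 := fun g => Fin.sum_univ_two g
      rw [h4, ← Finset.sum_add_distrib, ← h2]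
      refine Finset.sum_congr rfl fun y _ => ?_
      have h5 : φ y + Fin.cons 1 0 = Fin.cons 1 y := by
        funext i
        refine Fin.cases ?_ (fun j => ?_) i
        · show (0 : ZMod 2) + 1 = 1
          rw [zero_add]
        · show y j + 0 = y j
          rw [add_zero]
      rw [h5, sub_eq_add_neg, CharTwo.neg_eq, add_comm]
      rfl

/-- `K` is additively `Fin 9 → ZMod 2` (`GaloisField.finrank`, `Module.finBasisOfFinrankEq`, its
`equivFun`). -/
theorem sum_K_eq_zero {A : Type*} [CommRing A] [CharP A 2] {s : ℕ} (hs : s < 9) (f : K → A)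
    (hf : degLE s f) : ∑ x, f x = 0 := by
  have h1 : Module.finrank (ZMod 2) K = 9 := GaloisField.finrank 2 (by norm_num)
  let e : K ≃ₗ[ZMod 2] (Fin 9 → ZMod 2) := (Module.finBasisOfFinrankEq (ZMod 2) K h1).equivFun
  have h2 := degLE_precomp hf (e.symm.toLinearMap.toAddMonoidHom)
  have h3 := sum_fin_eq_zero 9 s hs _ h2
  rw [← h3]
  exact (Fintype.sum_equiv e.symm.toEquiv _ _ fun y => rfl).symm

/-- The wires of the point star `p = (a, c, d)` are `(a, b, c, d)`, `b : K`. -/
theorem sum_pt {A : Type*} [AddCommMonoid A] [DecidableEq (K × K × K)] (f : W → A)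
    (p : K × K × K) :
    ∑ w ∈ univ.filter (fun w => pt w = p), f w = ∑ b : K, f (p.1, b, p.2.1, p.2.2) := by
  refine Finset.sum_nbij' (fun w => w.2.1) (fun b => (p.1, b, p.2.1, p.2.2)) ?_ ?_ ?_ ?_ ?_
  · intro w _
    exact Finset.mem_univ _
  · intro b _
    rw [Finset.mem_filter]
    exact ⟨Finset.mem_univ _, rfl⟩
  · rintro ⟨a, b, c, d⟩ hw
    have h := (Finset.mem_filter.1 hw).2
    rw [← h]
    rfl
  · intro b _
    rfl
  · rintro ⟨a, b, c, d⟩ hw
    have h := (Finset.mem_filter.1 hw).2
    rw [← h]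
    rfl

/-- The wires of the line star `l = (b, Y, Z)` are `(a, b, Y + a b, Z + a² b)`, `a : K`
(characteristic `2`). -/
theorem sum_ln {A : Type*} [AddCommMonoid A] [DecidableEq (K × K × K)] (f : W → A)
    (l : K × K × K) :
    ∑ w ∈ univ.filter (fun w => ln w = l), f w =
      ∑ a : K, f (a, l.1, l.2.1 + a * l.1, l.2.2 + a ^ 2 * l.1) := by
  have hK : CharP K 2 := inferInstance
  have h2 : ∀ x y : K, x + y + y = x := fun x y => by rw [add_assoc, CharTwo.add_self_eq_zero, add_zero]
  refine Finset.sum_nbij' (fun w => w.1) (fun a => (a, l.1, l.2.1 + a * l.1, l.2.2 + a ^ 2 * l.1)) ?_ ?_ ?_ ?_ ?_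
  · intro w _
    exact Finset.mem_univ _
  · intro b _
    rw [Finset.mem_filter]
    refine ⟨Finset.mem_univ _, ?_⟩
    unfold ln
    rw [h2, h2]
  · rintro ⟨a, b, c, d⟩ hw
    have h := (Finset.mem_filter.1 hw).2
    rw [← h]
    unfold ln
    show (a, b, c + a * b + a * b, d + a ^ 2 * b + a ^ 2 * b) = (a, b, c, d)
    rw [h2, h2]
  · intro b _
    rfl
  · rintro ⟨a, b, c, d⟩ hw
    have h := (Finset.mem_filter.1 hw).2
    rw [← h]
    unfold ln
    show f (a, b, c, d) = f (a, b, c + a * b + a * b, d + a ^ 2 * b + a ^ 2 * b)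
    rw [h2, h2]

/-- `f g` has degree at most `8 < 9` on every star (`Typ_mul`). -/
theorem D_orth_pt [DecidableEq (K × K × K)] {f g : W → ZMod 2} (hf : f ∈ D) (hg : g ∈ D)
    (p : K × K × K) : ∑ w ∈ univ.filter (fun w => pt w = p), f w * g w = 0 := by
  rw [sum_pt (fun w => f w * g w)]
  exact sum_K_eq_zero (s := 8) (by norm_num) _ ((Typ_mul hf hg).2 p.1 p.2.1 p.2.2)

theorem D_orth_ln [DecidableEq (K × K × K)] {f g : W → ZMod 2} (hf : f ∈ D) (hg : g ∈ D)
    (l : K × K × K) : ∑ w ∈ univ.filter (fun w => ln w = l), f w * g w = 0 := by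
  rw [sum_ln (fun w => f w * g w)]
  exact sum_K_eq_zero (s := 8) (by norm_num) _ ((Typ_mul hf hg).1 l.1 l.2.1 l.2.2)

theorem A2_card_K : Fintype.card K = 512 := by
  rw [← Nat.card_eq_fintype_card, GaloisField.card 2 9 (by norm_num)]
  norm_num

/-- The number of wires of a star. -/
theorem card_pt [DecidableEq (K × K × K)] (p : K × K × K) :
    (univ.filter (fun w => pt w = p)).card = 512 := by
  rw [Finset.card_eq_sum_ones, sum_pt (fun _ => 1), ← Finset.card_eq_sum_ones, Finset.card_univ, A2_card_K]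

theorem card_ln [DecidableEq (K × K × K)] (l : K × K × K) :
    (univ.filter (fun w => ln w = l)).card = 512 := by
  rw [Finset.card_eq_sum_ones, sum_ln (fun _ => 1), ← Finset.card_eq_sum_ones, Finset.card_univ, A2_card_K]

/-- Let `DK` be the `K`-subspace of all `f : W → K` with `Typ 4 4 f`. For a basis of `K` over
`ZMod 2` (nine coordinates `λ_i : K →+ ZMod 2`) the map `f ↦ (λ_i ∘ f)_i`, `DK → (Fin 9 → D)` is
injective (`Typ_comp`), so `512 ^ finrank_K DK = |DK| ≤ |D| ^ 9 = 2 ^ (9 finrank D)`, and
`card ι ≤ finrank_K DK` (`LinearIndependent.fintype_card_le_finrank` in `DK`). Counting: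
`Module.card_eq_pow_finrank`, `GaloisField.card`. -/
theorem card_le_finrank_D {ι : Type*} [Fintype ι] (F : ι → W → K) (hF : LinearIndependent K F)
    (hT : ∀ i, Typ 4 4 (F i)) : Fintype.card ι ≤ finrank (ZMod 2) D := by
  classical
  let DK : Submodule K (W → K) :=
    { carrier := {f | Typ 4 4 f}
      add_mem' := fun hf hg => Typ_add hf hg
      zero_mem' := Typ_const 4 4 0
      smul_mem' := fun c f hf => Typ_comp hf (AddMonoidHom.mulLeft c) }
  have hF' : LinearIndependent K (fun i => (⟨F i, hT i⟩ : DK)) := by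
    apply LinearIndependent.of_comp DK.subtype
    exact hF
  have h1 : Fintype.card ι ≤ finrank K DK := hF'.fintype_card_le_finrank
  have h9 : Module.finrank (ZMod 2) K = 9 := GaloisField.finrank 2 (by norm_num)
  let bas := Module.finBasisOfFinrankEq (ZMod 2) K h9
  let Ψ : DK → (Fin 9 → D) := fun f i => ⟨fun w => bas.equivFun (f.1 w) i,
    Typ_comp f.2 ((LinearMap.proj i).comp bas.equivFun.toLinearMap).toAddMonoidHom⟩
  have hΨ : Function.Injective Ψ := by
    intro f g hfg
    apply Subtype.ext
    funext w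
    apply bas.equivFun.injective
    funext i
    have h2 := congrFun hfg i
    exact congrFun (congrArg Subtype.val h2) w
  have h2 : Nat.card DK ≤ Nat.card (Fin 9 → D) := Nat.card_le_card_of_injective Ψ hΨ
  rw [Nat.card_fun, Nat.card_eq_fintype_card (α := Fin 9), Fintype.card_fin, Module.natCard_eq_pow_finrank (K := K),
    Module.natCard_eq_pow_finrank (K := ZMod 2) (V := D), Nat.card_eq_fintype_card (α := K), A2_card_K,
    Nat.card_eq_fintype_card (α := ZMod 2), ZMod.card, ← pow_mul] at h2
  have h3 : (512 : ℕ) = 2 ^ 9 := by norm_num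
  rw [h3, ← pow_mul] at h2
  have h4 := (Nat.pow_le_pow_iff_right (by norm_num : 1 < 2)).1 h2
  omega

end Pool.Agent.NHT
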