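import Pool.Agent.NHT.A1

set_option autoImplicit false

/-!
NHT-A3: the digits and the types of the lifts (section I.3, I.4).
-/

namespace Pool.Agent.NHT

open Finset

theorem A3_par (x : Fin 18) : (x + 2).val % 2 = x.val % 2 := by
  have h : (x + 2).val = (x.val + 2) % 18 := Fin.val_add x 2
  omega

theorem A3_pow (z : K) (x : Fin 18) : (z ^ (2 ^ (x.val / 2))) ^ 2 = z ^ (2 ^ ((x + 2).val / 2)) := by
  have h : (x + 2).val = (x.val + 2) % 18 := Fin.val_add x 2
  have hx := x.isLt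
  by_cases h1 : x.val < 16
  · have h2 : (x + 2).val / 2 = x.val / 2 + 1 := by omega
    rw [h2, ← pow_mul, ← pow_succ]
  · have h2 : (x + 2).val / 2 = 0 := by omega
    have h3 : x.val / 2 = 8 := by omega
    rw [h2, h3, ← pow_mul, pow_zero, pow_one]
    have h4 : Fintype.card K = 512 := by
      rw [← Nat.card_eq_fintype_card, GaloisField.card 2 9 (by norm_num)]
      norm_num
    have h5 := FiniteField.pow_card z
    rw [h4] at h5
    exact h5

theorem A3_two : (2 : K) = 0 := CharTwo.two_eq_zero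

theorem A3_p1 (x : Fin 18) : x + 1 + 2 = x + 2 + 1 := add_right_comm x 1 2

theorem A3_m1 (x : Fin 18) : x - 1 + 2 = x + 2 - 1 := sub_add_eq_add_sub x 1 2

/-- `(x + 2).val = x.val + 2` for `x.val < 16`; for `x = 16, 17` use `w ^ 512 = w`
(`FiniteField.pow_card`, `GaloisField.card`: the cardinality of `K` is `512`). -/
theorem dv_sq (x : Fin 18) (w : W) : dv x w ^ 2 = dv (x + 2) w := by
  unfold dv
  rw [A3_par]
  split_ifs
  · exact A3_pow w.1 x
  · exact A3_pow w.2.1 x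

theorem de_sq (x : Fin 18) (w : W) : de x w ^ 2 = de (x + 2) w := by
  unfold de
  rw [A3_par]
  split_ifs
  · exact A3_pow w.2.2.1 x
  · exact A3_pow w.2.2.2 x

/-- Characteristic `2` (`add_pow_char`/`add_sq` and `CharTwo`). -/
theorem yy_sq (x : Fin 18) (w : W) : yy x w ^ 2 = yy (x + 2) w := by
  show (de x w + dv x w * dv (x + 1) w) ^ 2 = de (x + 2) w + dv (x + 2) w * dv (x + 2 + 1) w
  rw [CharTwo.add_sq, mul_pow, de_sq, dv_sq, dv_sq, A3_p1]

/-- Squaring is additive: `Typ_comp` with the Frobenius. -/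
theorem Typ_sq {s t : ℕ} {f : W → K} (hf : Typ s t f) : Typ s t (fun w => f w ^ 2) := by
  let φ : K →+ K :=
    { toFun := fun z => z ^ 2
      map_zero' := by simp
      map_add' := fun x y => CharTwo.add_sq x y }
  exact Typ_comp hf φ

theorem A3_chain {s t : ℕ} (F : Fin 18 → W → K) (β : ℕ) (hF : ∀ x : Fin 18, ∀ w, x.val % 2 = β →
    F x w ^ 2 = F (x + 2) w) (x₀ : Fin 18) (h0 : x₀.val % 2 = β) (h : Typ s t (F x₀)) :
    ∀ x : Fin 18, x.val % 2 = β → Typ s t (F x) := by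
  have key : ∀ n : ℕ, ∀ x : Fin 18, x.val = (x₀.val + 2 * n) % 18 → Typ s t (F x) := by
    intro n
    induction n with
    | zero =>
      intro x hx
      have h1 : x = x₀ := by
        apply Fin.ext
        have := x₀.isLt
        omega
      rw [h1]
      exact h
    | succ n ih =>
      intro x hx
      obtain ⟨y, hy⟩ : ∃ y : Fin 18, y.val = (x₀.val + 2 * n) % 18 := ⟨⟨(x₀.val + 2 * n) % 18, Nat.mod_lt _ (by norm_num)⟩, rfl⟩
      have h1 := Typ_sq (ih y hy)
      have h2 : y + 2 = x := by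
        apply Fin.ext
        have h3 : (y + 2).val = (y.val + 2) % 18 := Fin.val_add y 2
        omega
      have h3 : (fun w => F y w ^ 2) = F x := by
        funext w
        rw [hF y w (by omega), h2]
      rw [← h3]
      exact h1
  intro x hx
  have h1 := x.isLt
  have h2 := x₀.isLt
  exact key ((x.val + 18 - x₀.val) / 2) x (by omega)

/-- A family `F x` with `F x ^ 2 = F (x + 2)` that has a type at one even (odd) site has it at all
even (odd) sites. -/
theorem Typ_even {s t : ℕ} (F : Fin 18 → W → K) (hF : ∀ x : Fin 18, ∀ w, x.val % 2 = 0 →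
    F x w ^ 2 = F (x + 2) w) (x₀ : Fin 18) (h0 : x₀.val % 2 = 0) (h : Typ s t (F x₀)) :
    ∀ x : Fin 18, x.val % 2 = 0 → Typ s t (F x) :=
  A3_chain F 0 hF x₀ h0 h

theorem Typ_odd {s t : ℕ} (F : Fin 18 → W → K) (hF : ∀ x : Fin 18, ∀ w, x.val % 2 = 1 →
    F x w ^ 2 = F (x + 2) w) (x₀ : Fin 18) (h0 : x₀.val % 2 = 1) (h : Typ s t (F x₀)) :
    ∀ x : Fin 18, x.val % 2 = 1 → Typ s t (F x) :=
  A3_chain F 1 hF x₀ h0 h

/-- A function of `b, Y, Z` only, `g (b, Y, Z)`, is constant on line stars. -/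
theorem degLE_zero_of_eq {X A : Type*} [AddCommGroup X] [AddCommGroup A] {f : X → A} (c : A)
    (h : ∀ x, f x = c) : degLE 0 f := fun x y => (h x).trans (h y).symm

/-- `constant + additive` has degree at most `1`. The typical use: `f x = c + φ x` where `φ` is a
polynomial in `x` whose exponents are powers of `2`; additivity is `add_sq`/`CharTwo` and `ring`. -/
theorem degLE_one_of_eq {X A : Type*} [AddCommGroup X] [AddCommGroup A] {f : X → A}
    (h : ∀ x y, f (x + y) + f 0 = f x + f y) : degLE 1 f := by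
  intro z x y
  have h1 : ∀ u, f (u + z) - f u = f z - f 0 := fun u => by
    rw [sub_eq_sub_iff_add_eq_add, h u z, add_comm]
  show f (x + z) - f x = f (y + z) - f y
  rw [h1, h1]

theorem A3_dv0 (a b c d : K) : dv 0 (a, b, c, d) = a := by
  unfold dv
  rw [if_pos (by decide)]
  show a ^ (2 ^ 0) = a
  rw [pow_zero, pow_one]

theorem A3_dv1 (a b c d : K) : dv 1 (a, b, c, d) = b := by
  unfold dv
  rw [if_neg (by decide)]
  show b ^ (2 ^ 0) = b
  rw [pow_zero, pow_one]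

theorem A3_dv2 (a b c d : K) : dv 2 (a, b, c, d) = a ^ 2 := by
  unfold dv
  rw [if_pos (by decide)]
  show a ^ (2 ^ 1) = a ^ 2
  norm_num

theorem A3_dv3 (a b c d : K) : dv 3 (a, b, c, d) = b ^ 2 := by
  unfold dv
  rw [if_neg (by decide)]
  show b ^ (2 ^ 1) = b ^ 2
  norm_num

theorem A3_dv4 (a b c d : K) : dv 4 (a, b, c, d) = a ^ 4 := by
  unfold dv
  rw [if_pos (by decide)]
  show a ^ (2 ^ 2) = a ^ 4
  norm_num

theorem A3_de0 (a b c d : K) : de 0 (a, b, c, d) = c := by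
  unfold de
  rw [if_pos (by decide)]
  show c ^ (2 ^ 0) = c
  rw [pow_zero, pow_one]

theorem A3_de1 (a b c d : K) : de 1 (a, b, c, d) = d := by
  unfold de
  rw [if_neg (by decide)]
  show d ^ (2 ^ 0) = d
  rw [pow_zero, pow_one]

theorem A3_de2 (a b c d : K) : de 2 (a, b, c, d) = c ^ 2 := by
  unfold de
  rw [if_pos (by decide)]
  show c ^ (2 ^ 1) = c ^ 2
  norm_num

theorem A3_de3 (a b c d : K) : de 3 (a, b, c, d) = d ^ 2 := by
  unfold de
  rw [if_neg (by decide)]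
  show d ^ (2 ^ 1) = d ^ 2
  norm_num

theorem A3_de4 (a b c d : K) : de 4 (a, b, c, d) = c ^ 4 := by
  unfold de
  rw [if_pos (by decide)]
  show c ^ (2 ^ 2) = c ^ 4
  norm_num

theorem A3_yy0 (a b c d : K) : yy 0 (a, b, c, d) = c + a * b := by
  show de 0 (a, b, c, d) + dv 0 (a, b, c, d) * dv (0 + 1) (a, b, c, d) = _
  simp only [show (0 : Fin 18) + 1 = 1 from rfl, A3_de0, A3_dv0, A3_dv1] <;> ring

theorem A3_yy1 (a b c d : K) : yy 1 (a, b, c, d) = d + a ^ 2 * b := by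
  show de 1 (a, b, c, d) + dv 1 (a, b, c, d) * dv (1 + 1) (a, b, c, d) = _
  simp only [show (1 : Fin 18) + 1 = 2 from rfl, A3_de1, A3_dv1, A3_dv2] <;> ring

theorem A3_yy2 (a b c d : K) : yy 2 (a, b, c, d) = c ^ 2 + a ^ 2 * b ^ 2 := by
  show de 2 (a, b, c, d) + dv 2 (a, b, c, d) * dv (2 + 1) (a, b, c, d) = _
  simp only [show (2 : Fin 18) + 1 = 3 from rfl, A3_de2, A3_dv2, A3_dv3] <;> ring

theorem A3_yy3 (a b c d : K) : yy 3 (a, b, c, d) = d ^ 2 + a ^ 4 * b ^ 2 := by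
  show de 3 (a, b, c, d) + dv 3 (a, b, c, d) * dv (3 + 1) (a, b, c, d) = _
  simp only [show (3 : Fin 18) + 1 = 4 from rfl, A3_de3, A3_dv3, A3_dv4] <;> ring

theorem A3_Typ_dv0 : Typ 1 0 (dv 0) := by
  constructor
  · intro b Y Z
    refine degLE_one_of_eq fun x y => ?_
    simp only [A3_dv0] <;> linear_combination (0) * A3_two
  · intro a c d
    refine degLE_zero_of_eq (a) fun b => ?_
    simp only [A3_dv0] <;> linear_combination (0) * A3_two

theorem A3_Typ_dv1 : Typ 0 1 (dv 1) := by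
  constructor
  · intro b Y Z
    refine degLE_zero_of_eq (b) fun a => ?_
    simp only [A3_dv1] <;> linear_combination (0) * A3_two
  · intro a c d
    refine degLE_one_of_eq fun x y => ?_
    simp only [A3_dv1] <;> linear_combination (0) * A3_two

theorem A3_Typ_de0 : Typ 1 0 (de 0) := by
  constructor
  · intro b Y Z
    refine degLE_one_of_eq fun x y => ?_
    simp only [A3_de0] <;> linear_combination (0) * A3_two
  · intro a c d
    refine degLE_zero_of_eq (c) fun b => ?_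
    simp only [A3_de0] <;> linear_combination (0) * A3_two

theorem A3_Typ_de1 : Typ 1 0 (de 1) := by
  constructor
  · intro b Y Z
    refine degLE_one_of_eq fun x y => ?_
    simp only [A3_de1] <;> linear_combination (b * x * y) * A3_two
  · intro a c d
    refine degLE_zero_of_eq (d) fun b => ?_
    simp only [A3_de1] <;> linear_combination (0) * A3_two

theorem A3_Typ_yy0 : Typ 0 1 (yy 0) := by
  constructor
  · intro b Y Z
    refine degLE_zero_of_eq (Y) fun a => ?_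
    simp only [A3_yy0] <;> linear_combination (a * b) * A3_two
  · intro a c d
    refine degLE_one_of_eq fun x y => ?_
    simp only [A3_yy0] <;> linear_combination (0) * A3_two

theorem A3_Typ_yy1 : Typ 0 1 (yy 1) := by
  constructor
  · intro b Y Z
    refine degLE_zero_of_eq (Z) fun a => ?_
    simp only [A3_yy1] <;> linear_combination (a ^ 2 * b) * A3_two
  · intro a c d
    refine degLE_one_of_eq fun x y => ?_
    simp only [A3_yy1] <;> linear_combination (0) * A3_two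

theorem A3_lMono2 (a b c d : K) : lMono 2 (a, b, c, d) = a ^ 2 * d := by
  unfold lMono
  rw [if_pos (by decide)]
  show dv 2 (a, b, c, d) * de (2 - 1) (a, b, c, d) = _
  simp only [show (2 : Fin 18) - 1 = 1 from rfl, A3_dv2, A3_de1] <;> ring

theorem A3_Typ_lMono2 : Typ 1 0 (lMono 2) := by
  constructor
  · intro b Y Z
    refine degLE_one_of_eq fun x y => ?_
    simp only [A3_lMono2] <;> linear_combination (x * y * Z + 2 * b * x ^ 3 * y + 3 * b * x ^ 2 * y ^ 2 + 2 * b * x * y ^ 3) * A3_two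
  · intro a c d
    refine degLE_zero_of_eq (a ^ 2 * d) fun b => ?_
    simp only [A3_lMono2] <;> linear_combination (0) * A3_two

theorem A3_lMono1 (a b c d : K) : lMono 1 (a, b, c, d) = b * c + a * b ^ 2 := by
  unfold lMono
  rw [if_neg (by decide)]
  show dv 1 (a, b, c, d) * yy (1 - 1) (a, b, c, d) = _
  simp only [show (1 : Fin 18) - 1 = 0 from rfl, A3_dv1, A3_yy0] <;> ring

theorem A3_Typ_lMono1 : Typ 0 1 (lMono 1) := by
  constructor
  · intro b Y Z
    refine degLE_zero_of_eq (b * Y) fun a => ?_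
    simp only [A3_lMono1] <;> linear_combination (a * b ^ 2) * A3_two
  · intro a c d
    refine degLE_one_of_eq fun x y => ?_
    simp only [A3_lMono1] <;> linear_combination (a * x * y) * A3_two

theorem A3_lMinor1 (a b c d : K) : lMinor 1 (a, b, c, d) = a ^ 2 * c + a * d := by
  show dv (1 + 1) (a, b, c, d) * de (1 - 1) (a, b, c, d) + dv (1 - 1) (a, b, c, d) * de 1 (a, b, c, d) = _
  simp only [show (1 : Fin 18) - 1 = 0 from rfl, show (1 : Fin 18) + 1 = 2 from rfl, A3_dv2, A3_de0, A3_dv0, A3_de1] <;> ring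

theorem A3_Typ_lMinor1 : Typ 1 0 (lMinor 1) := by
  constructor
  · intro b Y Z
    refine degLE_one_of_eq fun x y => ?_
    simp only [A3_lMinor1] <;> linear_combination (x * y * Y + 3 * b * x ^ 2 * y + 3 * b * x * y ^ 2) * A3_two
  · intro a c d
    refine degLE_zero_of_eq (a ^ 2 * c + a * d) fun b => ?_
    simp only [A3_lMinor1] <;> linear_combination (0) * A3_two

theorem A3_lMinor2 (a b c d : K) : lMinor 2 (a, b, c, d) = b ^ 2 * d + b * c ^ 2 := by
  show dv (2 + 1) (a, b, c, d) * de (2 - 1) (a, b, c, d) + dv (2 - 1) (a, b, c, d) * de 2 (a, b, c, d) = _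
  simp only [show (2 : Fin 18) - 1 = 1 from rfl, show (2 : Fin 18) + 1 = 3 from rfl, A3_dv3, A3_de1, A3_dv1, A3_de2] <;> ring

theorem A3_Typ_lMinor2 : Typ 0 1 (lMinor 2) := by
  constructor
  · intro b Y Z
    refine degLE_zero_of_eq (b ^ 2 * Z + b * Y ^ 2) fun a => ?_
    simp only [A3_lMinor2] <;> linear_combination (a ^ 2 * b ^ 3 + a * b ^ 2 * Y) * A3_two
  · intro a c d
    refine degLE_one_of_eq fun x y => ?_
    simp only [A3_lMinor2] <;> linear_combination (d * x * y) * A3_two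

theorem A3_lPairY2 (a b c d : K) : lPairY 2 (a, b, c, d) = c ^ 2 * d + a ^ 2 * b * c ^ 2 + a ^ 2 * b ^ 2 * d + 2 * a ^ 4 * b ^ 3 + b * d ^ 2 := by
  unfold lPairY
  rw [if_pos (by decide)]
  show yy 2 (a, b, c, d) * yy (2 - 1) (a, b, c, d) + dv (2 - 1) (a, b, c, d) * yy (2 + 1) (a, b, c, d) = _
  simp only [show (2 : Fin 18) - 1 = 1 from rfl, show (2 : Fin 18) + 1 = 3 from rfl, A3_yy2, A3_yy1, A3_dv1, A3_yy3] <;> ring

theorem A3_Typ_lPairY2 : Typ 0 1 (lPairY 2) := by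
  constructor
  · intro b Y Z
    refine degLE_zero_of_eq (Y ^ 2 * Z + b * Z ^ 2) fun a => ?_
    simp only [A3_lPairY2] <;> linear_combination (a ^ 2 * b * Y ^ 2 + a * b * Y * Z + 2 * a ^ 3 * b ^ 2 * Y + 2 * a ^ 2 * b ^ 2 * Z + 3 * a ^ 4 * b ^ 3) * A3_two
  · intro a c d
    refine degLE_one_of_eq fun x y => ?_
    simp only [A3_lPairY2] <;> linear_combination (a ^ 2 * d * x * y + 3 * a ^ 4 * x ^ 2 * y + 3 * a ^ 4 * x * y ^ 2) * A3_two

theorem A3_lPairY1 (a b c d : K) : lPairY 1 (a, b, c, d) = c * d + a ^ 2 * b * c + a * b * d + a ^ 3 * b ^ 2 := by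
  unfold lPairY
  rw [if_neg (by decide)]
  show yy (1 - 1) (a, b, c, d) * yy 1 (a, b, c, d) = _
  simp only [show (1 : Fin 18) - 1 = 0 from rfl, A3_yy0, A3_yy1] <;> ring

theorem A3_Typ_lPairY1 : Typ 0 1 (lPairY 1) := by
  constructor
  · intro b Y Z
    refine degLE_zero_of_eq (Y * Z) fun a => ?_
    simp only [A3_lPairY1] <;> linear_combination (a ^ 2 * b * Y + a * b * Z + 2 * a ^ 3 * b ^ 2) * A3_two
  · intro a c d
    refine degLE_one_of_eq fun x y => ?_
    simp only [A3_lPairY1] <;> linear_combination (a ^ 3 * x * y) * A3_two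

theorem A3_lVe0 (a b c d : K) : lVe 0 (a, b, c, d) = a * c := by
  unfold lVe
  rw [if_pos (by decide)]
  show dv 0 (a, b, c, d) * de 0 (a, b, c, d) = _
  simp only [A3_dv0, A3_de0] <;> ring

theorem A3_Typ_lVe0 : Typ 1 0 (lVe 0) := by
  constructor
  · intro b Y Z
    refine degLE_one_of_eq fun x y => ?_
    simp only [A3_lVe0] <;> linear_combination (b * x * y) * A3_two
  · intro a c d
    refine degLE_zero_of_eq (a * c) fun b => ?_
    simp only [A3_lVe0] <;> linear_combination (0) * A3_two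

theorem A3_lVe1 (a b c d : K) : lVe 1 (a, b, c, d) = b * d + a ^ 2 * b ^ 2 := by
  unfold lVe
  rw [if_neg (by decide)]
  show dv 1 (a, b, c, d) * yy 1 (a, b, c, d) = _
  simp only [A3_dv1, A3_yy1] <;> ring

theorem A3_Typ_lVe1 : Typ 0 1 (lVe 1) := by
  constructor
  · intro b Y Z
    refine degLE_zero_of_eq (b * Z) fun a => ?_
    simp only [A3_lVe1] <;> linear_combination (a ^ 2 * b ^ 2) * A3_two
  · intro a c d
    refine degLE_one_of_eq fun x y => ?_
    simp only [A3_lVe1] <;> linear_combination (a ^ 2 * x * y) * A3_two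

theorem A3_lPairE2 (a b c d : K) : lPairE 2 (a, b, c, d) = c ^ 2 * d := by
  unfold lPairE
  rw [if_pos (by decide)]
  show de 2 (a, b, c, d) * de (2 - 1) (a, b, c, d) = _
  simp only [show (2 : Fin 18) - 1 = 1 from rfl, A3_de2, A3_de1] <;> ring

theorem A3_Typ_lPairE2 : Typ 1 0 (lPairE 2) := by
  constructor
  · intro b Y Z
    refine degLE_one_of_eq fun x y => ?_
    simp only [A3_lPairE2] <;> linear_combination (b * x * y * Y ^ 2 + 3 * b ^ 2 * x ^ 2 * y * Y + 3 * b ^ 2 * x * y ^ 2 * Y + b ^ 2 * x * y * Z + 2 * b ^ 3 * x ^ 3 * y + 3 * b ^ 3 * x ^ 2 * y ^ 2 + 2 * b ^ 3 * x * y ^ 3) * A3_two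
  · intro a c d
    refine degLE_zero_of_eq (c ^ 2 * d) fun b => ?_
    simp only [A3_lPairE2] <;> linear_combination (0) * A3_two

theorem A3_lPairE1 (a b c d : K) : lPairE 1 (a, b, c, d) = c * d + a * c ^ 2 := by
  unfold lPairE
  rw [if_neg (by decide)]
  show de (1 - 1) (a, b, c, d) * de 1 (a, b, c, d) + dv (1 - 1) (a, b, c, d) * de (1 + 1) (a, b, c, d) = _
  simp only [show (1 : Fin 18) - 1 = 0 from rfl, show (1 : Fin 18) + 1 = 2 from rfl, A3_de0, A3_de1, A3_dv0, A3_de2] <;> ring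

theorem A3_Typ_lPairE1 : Typ 1 0 (lPairE 1) := by
  constructor
  · intro b Y Z
    refine degLE_one_of_eq fun x y => ?_
    simp only [A3_lPairE1] <;> linear_combination (3 * b * x * y * Y + 3 * b ^ 2 * x ^ 2 * y + 3 * b ^ 2 * x * y ^ 2) * A3_two
  · intro a c d
    refine degLE_zero_of_eq (c * d + a * c ^ 2) fun b => ?_
    simp only [A3_lPairE1] <;> linear_combination (0) * A3_two

theorem A3_lTriple2 (a b c d : K) : lTriple 2 (a, b, c, d) = a ^ 2 * c ^ 2 * d + d ^ 3 := by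
  unfold lTriple
  rw [if_pos (by decide)]
  show de (2 - 1) (a, b, c, d) * (dv 2 (a, b, c, d) * de 2 (a, b, c, d) + de (2 + 1) (a, b, c, d)) = _
  simp only [show (2 : Fin 18) - 1 = 1 from rfl, show (2 : Fin 18) + 1 = 3 from rfl, A3_de1, A3_dv2, A3_de2, A3_de3] <;> ring

theorem A3_Typ_lTriple2 : Typ 1 0 (lTriple 2) := by
  constructor
  · intro b Y Z
    refine degLE_one_of_eq fun x y => ?_
    simp only [A3_lTriple2] <;> linear_combination (x * y * Y ^ 2 * Z + 2 * b * x ^ 3 * y * Y ^ 2 + 3 * b * x ^ 2 * y ^ 2 * Y ^ 2 + 2 * b * x * y ^ 3 * Y ^ 2 + 3 * b * x ^ 2 * y * Y * Z + 3 * b * x * y ^ 2 * Y * Z + 5 * b ^ 2 * x ^ 4 * y * Y + 10 * b ^ 2 * x ^ 3 * y ^ 2 * Y + 10 * b ^ 2 * x ^ 2 * y ^ 3 * Y + 5 * b ^ 2 * x * y ^ 4 * Y + 8 * b ^ 2 * x ^ 3 * y * Z + 12 * b ^ 2 * x ^ 2 * y ^ 2 * Z + 8 * b ^ 2 * x * y ^ 3 * Z + 6 * b ^ 3 * x ^ 5 * y + 15 * b ^ 3 * x ^ 4 * y ^ 2 + 20 * b ^ 3 * x ^ 3 * y ^ 3 + 15 * b ^ 3 * x ^ 2 * y ^ 4 + 6 * b ^ 3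 * x * y ^ 5 + 3 * b * x * y * Z ^ 2) * A3_two
  · intro a c d
    refine degLE_zero_of_eq (a ^ 2 * c ^ 2 * d + d ^ 3) fun b => ?_
    simp only [A3_lTriple2] <;> linear_combination (0) * A3_two

theorem A3_lTriple1 (a b c d : K) : lTriple 1 (a, b, c, d) = b * c * d + 2 * a ^ 2 * b ^ 2 * c + c ^ 3 + a * b ^ 2 * d + 2 * a ^ 3 * b ^ 3 + a * b * c ^ 2 := by
  unfold lTriple
  rw [if_neg (by decide)]
  show yy (1 - 1) (a, b, c, d) * (dv 1 (a, b, c, d) * yy 1 (a, b, c, d) + yy (1 + 1) (a, b, c, d)) = _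
  simp only [show (1 : Fin 18) - 1 = 0 from rfl, show (1 : Fin 18) + 1 = 2 from rfl, A3_yy0, A3_dv1, A3_yy1, A3_yy2] <;> ring

theorem A3_Typ_lTriple1 : Typ 0 1 (lTriple 1) := by
  constructor
  · intro b Y Z
    refine degLE_zero_of_eq (b * Y * Z + Y ^ 3) fun a => ?_
    simp only [A3_lTriple1] <;> linear_combination (4 * a ^ 2 * b ^ 2 * Y + a * b ^ 2 * Z + 4 * a ^ 3 * b ^ 3 + 2 * a * b * Y ^ 2) * A3_two
  · intro a c d
    refine degLE_one_of_eq fun x y => ?_
    simp only [A3_lTriple1] <;> linear_combination (2 * a ^ 2 * c * x * y + a * d * x * y + 3 * a ^ 3 * x ^ 2 * y + 3 * a ^ 3 * x * y ^ 2) * A3_two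

theorem A3_lMono_sq (x : Fin 18) (w : W) : lMono x w ^ 2 = lMono (x + 2) w := by
  unfold lMono
  rw [A3_par]
  split_ifs
  · show (dv x w * de (x - 1) w) ^ 2 = dv (x + 2) w * de (x + 2 - 1) w
    rw [mul_pow, dv_sq, de_sq, A3_m1]
  · show (dv x w * yy (x - 1) w) ^ 2 = dv (x + 2) w * yy (x + 2 - 1) w
    rw [mul_pow, dv_sq, yy_sq, A3_m1]

theorem A3_lMinor_sq (x : Fin 18) (w : W) : lMinor x w ^ 2 = lMinor (x + 2) w := by
  show (dv (x + 1) w * de (x - 1) w + dv (x - 1) w * de x w) ^ 2 =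
    dv (x + 2 + 1) w * de (x + 2 - 1) w + dv (x + 2 - 1) w * de (x + 2) w
  rw [CharTwo.add_sq, mul_pow, mul_pow, dv_sq, dv_sq, de_sq, de_sq, A3_p1, A3_m1]

theorem A3_lPairY_sq (x : Fin 18) (w : W) : lPairY x w ^ 2 = lPairY (x + 2) w := by
  unfold lPairY
  rw [A3_par]
  split_ifs
  · show (yy x w * yy (x - 1) w + dv (x - 1) w * yy (x + 1) w) ^ 2 =
      yy (x + 2) w * yy (x + 2 - 1) w + dv (x + 2 - 1) w * yy (x + 2 + 1) w
    rw [CharTwo.add_sq, mul_pow, mul_pow, dv_sq, yy_sq, yy_sq, yy_sq, A3_p1, A3_m1]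
  · show (yy (x - 1) w * yy x w) ^ 2 = yy (x + 2 - 1) w * yy (x + 2) w
    rw [mul_pow, yy_sq, yy_sq, A3_m1]

theorem A3_lVe_sq (x : Fin 18) (w : W) : lVe x w ^ 2 = lVe (x + 2) w := by
  unfold lVe
  rw [A3_par]
  split_ifs
  · show (dv x w * de x w) ^ 2 = dv (x + 2) w * de (x + 2) w
    rw [mul_pow, dv_sq, de_sq]
  · show (dv x w * yy x w) ^ 2 = dv (x + 2) w * yy (x + 2) w
    rw [mul_pow, dv_sq, yy_sq]

theorem A3_lPairE_sq (x : Fin 18) (w : W) : lPairE x w ^ 2 = lPairE (x + 2) w := by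
  unfold lPairE
  rw [A3_par]
  split_ifs
  · show (de x w * de (x - 1) w) ^ 2 = de (x + 2) w * de (x + 2 - 1) w
    rw [mul_pow, de_sq, de_sq, A3_m1]
  · show (de (x - 1) w * de x w + dv (x - 1) w * de (x + 1) w) ^ 2 =
      de (x + 2 - 1) w * de (x + 2) w + dv (x + 2 - 1) w * de (x + 2 + 1) w
    rw [CharTwo.add_sq, mul_pow, mul_pow, dv_sq, de_sq, de_sq, de_sq, A3_p1, A3_m1]

theorem A3_lTriple_sq (x : Fin 18) (w : W) : lTriple x w ^ 2 = lTriple (x + 2) w := by
  unfold lTriple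
  rw [A3_par]
  split_ifs
  · show (de (x - 1) w * (dv x w * de x w + de (x + 1) w)) ^ 2 =
      de (x + 2 - 1) w * (dv (x + 2) w * de (x + 2) w + de (x + 2 + 1) w)
    rw [mul_pow, CharTwo.add_sq, mul_pow, dv_sq, de_sq, de_sq, de_sq, A3_p1, A3_m1]
  · show (yy (x - 1) w * (dv x w * yy x w + yy (x + 1) w)) ^ 2 =
      yy (x + 2 - 1) w * (dv (x + 2) w * yy (x + 2) w + yy (x + 2 + 1) w)
    rw [mul_pow, CharTwo.add_sq, mul_pow, dv_sq, yy_sq, yy_sq, yy_sq, A3_p1, A3_m1]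

theorem A3_ty0 {x : Fin 18} (h : x.val % 2 = 0) : ty x = (1, 0) := if_pos h

theorem A3_ty1 {x : Fin 18} (h : x.val % 2 = 1) : ty x = (0, 1) := if_neg (by omega)

theorem A3_ty0' {x : Fin 18} (h : x.val % 2 = 0) : ty (x + 1) = (0, 1) := by
  apply A3_ty1
  have h1 : (x + 1).val = (x.val + 1) % 18 := Fin.val_add x 1
  omega

theorem A3_ty1' {x : Fin 18} (h : x.val % 2 = 1) : ty (x + 1) = (1, 0) := by
  apply A3_ty0
  have h1 : (x + 1).val = (x.val + 1) % 18 := Fin.val_add x 1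
  omega

/-- The types, section I.4. Each: by `Typ_even`/`Typ_odd` (the hypothesis `F x ^ 2 = F (x+2)` from
`dv_sq`, `de_sq`, `yy_sq`) it suffices to check one `x₀` of each parity where no exponent is a
negative power (`x₀ = 0, 1, 2` such that `x₀ - 1`, `x₀ + 1` do not wrap, for example `q = 2` and
`q = 1`; `x₀ = 2`: `dv 2 = a²`, `de 2 = c²`, `dv 1 = b`, `de 1 = d`, `dv 3 = b²`, `de 3 = d²`).
There the function is the explicit polynomial of section I.4 (or its square), `constant + additive`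
in `a` on every line (substitute `c = Y + ab`, `d = Z + a²b`) and constant in `b` on every point
star, or the converse. Use `degLE_one_of_eq` and `degLE_zero_of_eq`; identities in characteristic
`2`: `ring_nf` and `CharTwo.add_self_eq_zero` (or `linear_combination (exp := 1) _ * h2` with
`h2 : (2 : K) = 0`). -/
theorem Typ_dv (x : Fin 18) : Typ (ty x).1 (ty x).2 (dv x) := by
  rcases Nat.mod_two_eq_zero_or_one x.val with h | h
  · rw [A3_ty0 h]
    exact Typ_even dv (fun x w _ => dv_sq x w) 0 rfl A3_Typ_dv0 x h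
  · rw [A3_ty1 h]
    exact Typ_odd dv (fun x w _ => dv_sq x w) 1 rfl A3_Typ_dv1 x h

theorem Typ_de (x : Fin 18) : Typ 1 0 (de x) := by
  rcases Nat.mod_two_eq_zero_or_one x.val with h | h
  · exact Typ_even de (fun x w _ => de_sq x w) 0 rfl A3_Typ_de0 x h
  · exact Typ_odd de (fun x w _ => de_sq x w) 1 rfl A3_Typ_de1 x h

theorem Typ_yy (x : Fin 18) : Typ 0 1 (yy x) := by
  rcases Nat.mod_two_eq_zero_or_one x.val with h | h
  · exact Typ_even yy (fun x w _ => yy_sq x w) 0 rfl A3_Typ_yy0 x h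
  · exact Typ_odd yy (fun x w _ => yy_sq x w) 1 rfl A3_Typ_yy1 x h

theorem Typ_lMono (x : Fin 18) : Typ (ty x).1 (ty x).2 (lMono x) := by
  rcases Nat.mod_two_eq_zero_or_one x.val with h | h
  · rw [A3_ty0 h]
    exact Typ_even lMono (fun x w _ => A3_lMono_sq x w) 2 rfl A3_Typ_lMono2 x h
  · rw [A3_ty1 h]
    exact Typ_odd lMono (fun x w _ => A3_lMono_sq x w) 1 rfl A3_Typ_lMono1 x h

/-- `q = x`, type `typ (q + 1)`. -/
theorem Typ_lMinor (x : Fin 18) : Typ (ty (x + 1)).1 (ty (x + 1)).2 (lMinor x) := by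
  rcases Nat.mod_two_eq_zero_or_one x.val with h | h
  · rw [A3_ty0' h]
    exact Typ_even lMinor (fun x w _ => A3_lMinor_sq x w) 2 rfl A3_Typ_lMinor2 x h
  · rw [A3_ty1' h]
    exact Typ_odd lMinor (fun x w _ => A3_lMinor_sq x w) 1 rfl A3_Typ_lMinor1 x h

theorem Typ_lPairY (x : Fin 18) : Typ 0 1 (lPairY x) := by
  rcases Nat.mod_two_eq_zero_or_one x.val with h | h
  · exact Typ_even lPairY (fun x w _ => A3_lPairY_sq x w) 2 rfl A3_Typ_lPairY2 x h
  · exact Typ_odd lPairY (fun x w _ => A3_lPairY_sq x w) 1 rfl A3_Typ_lPairY1 x h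

theorem Typ_lVe (x : Fin 18) : Typ (ty x).1 (ty x).2 (lVe x) := by
  rcases Nat.mod_two_eq_zero_or_one x.val with h | h
  · rw [A3_ty0 h]
    exact Typ_even lVe (fun x w _ => A3_lVe_sq x w) 0 rfl A3_Typ_lVe0 x h
  · rw [A3_ty1 h]
    exact Typ_odd lVe (fun x w _ => A3_lVe_sq x w) 1 rfl A3_Typ_lVe1 x h

theorem Typ_lPairE (x : Fin 18) : Typ 1 0 (lPairE x) := by
  rcases Nat.mod_two_eq_zero_or_one x.val with h | h
  · exact Typ_even lPairE (fun x w _ => A3_lPairE_sq x w) 2 rfl A3_Typ_lPairE2 x h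
  · exact Typ_odd lPairE (fun x w _ => A3_lPairE_sq x w) 1 rfl A3_Typ_lPairE1 x h

theorem Typ_lTriple (x : Fin 18) : Typ (ty x).1 (ty x).2 (lTriple x) := by
  rcases Nat.mod_two_eq_zero_or_one x.val with h | h
  · rw [A3_ty0 h]
    exact Typ_even lTriple (fun x w _ => A3_lTriple_sq x w) 2 rfl A3_Typ_lTriple2 x h
  · rw [A3_ty1 h]
    exact Typ_odd lTriple (fun x w _ => A3_lTriple_sq x w) 1 rfl A3_Typ_lTriple1 x h

/-- All cases of `fac`. -/
theorem Typ_fac (σ : St) (x : Fin 18) (ch : Ch) :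
    Typ (wty σ x ch).1 (wty σ x ch).2 (fac σ x ch) := by
  obtain ⟨p, e⟩ := σ
  obtain ⟨u, v⟩ := ch
  have h1 : Typ 0 0 (1 : W → K) := Typ_const 0 0 1
  cases p <;> cases e <;> cases u <;> cases v
  · exact h1
  · exact h1
  · exact h1
  · exact Typ_lMono x
  · exact h1
  · exact h1
  · exact h1
  · exact Typ_lMono x
  · exact Typ_dv (x + 1)
  · exact Typ_lMinor x
  · exact Typ_yy x
  · exact Typ_lPairY x
  · exact Typ_de x
  · exact Typ_lPairE x
  · exact Typ_lVe x
  · exact Typ_lTriple x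

/-- Induction on `l` (`Typ_mul`). -/
theorem Typ_run : ∀ (l : List Ch) (σ : St) (x : Fin 18),
    Typ (runTy σ x l).1 (runTy σ x l).2 (run σ x l) := by
  intro l
  induction l with
  | nil => intro σ x; exact Typ_const 0 0 1
  | cons ch l ih =>
    intro σ x
    exact Typ_mul (Typ_fac σ x ch) (ih (nxt σ ch) (x - 1))

end Pool.Agent.NHT
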