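import Pool.Agent.NHT.A3

set_option autoImplicit false

/-!
NHT-A4: leading terms (section I.5, I.6).
-/

namespace Pool.Agent.NHT

open Finset

theorem mon_add (n n' : Ex) : mon (n + n') = mon n * mon n' := by
  funext w
  change (∏ x, dv x w ^ (n.1 x + n'.1 x)) * ∏ x, de x w ^ (n.2 x + n'.2 x) =
    ((∏ x, dv x w ^ n.1 x) * ∏ x, de x w ^ n.2 x) * ((∏ x, dv x w ^ n'.1 x) * ∏ x, de x w ^ n'.2 x)
  simp only [pow_add, Finset.prod_mul_distrib]
  ring

theorem mon_zero : mon 0 = 1 := by
  funext w
  unfold mon
  simp only [Prod.fst_zero, Prod.snd_zero, Pi.zero_apply, pow_zero, Finset.prod_const_one,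
    mul_one, Pi.one_apply]

theorem mon_sv (x : Fin 18) : mon (sv x) = dv x := by
  funext w
  unfold mon sv
  simp only [Pi.zero_apply, pow_zero, Finset.prod_const_one, mul_one]
  rw [Finset.prod_eq_single x]
  · rw [Pi.single_eq_same, pow_one]
  · intro y _ hy
    rw [Pi.single_eq_of_ne hy, pow_zero]
  · intro h
    exact absurd (Finset.mem_univ x) h

theorem mon_se (x : Fin 18) : mon (se x) = de x := by
  funext w
  unfold mon se
  simp only [Pi.zero_apply, pow_zero, Finset.prod_const_one, one_mul]
  rw [Finset.prod_eq_single x]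
  · rw [Pi.single_eq_same, pow_one]
  · intro y _ hy
    rw [Pi.single_eq_of_ne hy, pow_zero]
  · intro h
    exact absurd (Finset.mem_univ x) h

theorem dl_add (n n' : Ex) : dl (n + n') = dl n + dl n' := by
  funext x
  change n.1 x + n'.1 x + (n.2 x + n'.2 x) + (n.2 (x - 1) + n'.2 (x - 1)) =
    (n.1 x + n.2 x + n.2 (x - 1)) + (n'.1 x + n'.2 x + n'.2 (x - 1))
  ring

theorem wt_add (n n' : Ex) : wt (n + n') = wt n + wt n' := by
  unfold wt
  rw [dl_add, ← Finset.sum_add_distrib]
  rfl

theorem En_add (c : Fin 18) (n n' : Ex) : En c (n + n') = En c n + En c n' := by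
  unfold En
  rw [← Finset.sum_add_distrib]
  refine Finset.sum_congr rfl fun x _ => ?_
  change (n.2 x + n'.2 x) * (1 + (x - c).val) = _
  ring

/-- Equal `δ` gives equal weight. -/
theorem Lt.wt_le {c : Fin 18} {n' n : Ex} (h : Lt c n' n) : wt n' ≤ wt n := by
  rcases h with h | ⟨h, -⟩
  · exact h.le
  · unfold wt
    rw [h]

theorem Lt.add {c : Fin 18} {n₁' n₁ n₂' n₂ : Ex} (h₁ : Lt c n₁' n₁) (h₂ : Lt c n₂' n₂) :
    Lt c (n₁' + n₂') (n₁ + n₂) := by
  have w1 := h₁.wt_le
  have w2 := h₂.wt_le
  rcases h₁ with h₁ | ⟨h₁, e₁⟩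
  · left
    rw [wt_add, wt_add]
    omega
  · rcases h₂ with h₂ | ⟨h₂, e₂⟩
    · left
      rw [wt_add, wt_add]
      omega
    · right
      rw [dl_add, dl_add, h₁, h₂, En_add, En_add]
      exact ⟨rfl, by omega⟩

theorem Lt.add_right {c : Fin 18} {n₁' n₁ : Ex} (h₁ : Lt c n₁' n₁) (n : Ex) :
    Lt c (n₁' + n) (n₁ + n) := by
  rcases h₁ with h₁ | ⟨h₁, e₁⟩
  · left
    rw [wt_add, wt_add]
    omega
  · right
    rw [dl_add, dl_add, h₁, En_add, En_add]
    exact ⟨rfl, by omega⟩

theorem Lead_mon (c : Fin 18) (n : Ex) : Lead c n (mon n) := by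
  unfold Lead
  rw [sub_self]
  exact Submodule.zero_mem _

theorem A4_mul_mon {c : Fin 18} {n : Ex} {g : W → K}
    (hg : g ∈ Submodule.span K {g : W → K | ∃ n', Lt c n' n ∧ g = mon n'}) (m : Ex) :
    g * mon m ∈ Submodule.span K {g : W → K | ∃ n', Lt c n' (n + m) ∧ g = mon n'} := by
  induction hg using Submodule.span_induction with
  | mem x hx =>
    obtain ⟨n', hn', rfl⟩ := hx
    exact Submodule.subset_span ⟨n' + m, hn'.add_right m, (mon_add n' m).symm⟩
  | zero =>
    rw [zero_mul]
    exact Submodule.zero_mem _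
  | add x y _ _ hx hy =>
    rw [add_mul]
    exact Submodule.add_mem _ hx hy
  | smul a x _ hx =>
    rw [smul_mul_assoc]
    exact Submodule.smul_mem _ a hx

theorem A4_mul {c : Fin 18} {n n' : Ex} {g g' : W → K}
    (hg : g ∈ Submodule.span K {g : W → K | ∃ m, Lt c m n ∧ g = mon m})
    (hg' : g' ∈ Submodule.span K {g : W → K | ∃ m, Lt c m n' ∧ g = mon m}) :
    g * g' ∈ Submodule.span K {g : W → K | ∃ m, Lt c m (n + n') ∧ g = mon m} := by
  induction hg' using Submodule.span_induction with
  | mem x hx =>
    obtain ⟨m, hm, rfl⟩ := hx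
    refine Submodule.span_mono ?_ (A4_mul_mon hg m)
    rintro f ⟨k, hk, rfl⟩
    refine ⟨k, ?_, rfl⟩
    rcases hk with hk | ⟨hk, hE⟩
    · left
      have := hm.wt_le
      rw [wt_add] at hk ⊢
      omega
    · rcases hm with hm | ⟨hm, hE'⟩
      · left
        have h1 : wt k = wt (n + m) := by unfold wt; rw [hk]
        rw [h1, wt_add, wt_add]
        omega
      · right
        rw [hk, dl_add, dl_add, hm, En_add]
        rw [En_add] at hE
        exact ⟨rfl, by omega⟩
  | zero =>
    rw [mul_zero]
    exact Submodule.zero_mem _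
  | add x y _ _ hx hy =>
    rw [mul_add]
    exact Submodule.add_mem _ hx hy
  | smul a x _ hx =>
    rw [mul_smul_comm]
    exact Submodule.smul_mem _ a hx

/-- Write `f = mon n + g`, `f' = mon n' + g'`; `f f' = mon (n+n') + mon n g' + g mon n' + g g'` and
`span_induction` (twice for the last term). -/
theorem Lead.mul {c : Fin 18} {n n' : Ex} {f f' : W → K} (h : Lead c n f) (h' : Lead c n' f') :
    Lead c (n + n') (f * f') := by
  unfold Lead at h h' ⊢
  have e : f * f' - mon (n + n') = (f - mon n) * (f' - mon n') + (f - mon n) * mon n' +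
      (f' - mon n') * mon n := by
    rw [mon_add]
    ring
  rw [e]
  refine Submodule.add_mem _ (Submodule.add_mem _ (A4_mul h h') (A4_mul_mon h n')) ?_
  have h1 := A4_mul_mon h' n
  rw [add_comm n' n] at h1
  exact h1

/-- Add a lower term. -/
theorem Lead.add_lt {c : Fin 18} {n n' : Ex} {f : W → K} (h : Lead c n f) (h' : Lt c n' n) :
    Lead c n (f + mon n') := by
  unfold Lead at h ⊢
  have e : f + mon n' - mon n = (f - mon n) + mon n' := by ring
  rw [e]
  exact Submodule.add_mem _ h (Submodule.subset_span ⟨n', h', rfl⟩)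

theorem A4_dv_sq (x : Fin 18) : dv x * dv x = dv (x + 2) := by
  funext w
  rw [← dv_sq, pow_two]
  rfl

theorem A4_two : (2 : W → K) = 0 := by
  funext w
  change (2 : K) = 0
  exact CharTwo.two_eq_zero

instance A4_dec (c : Fin 18) (n' n : Ex) : Decidable (Lt c n' n) := by
  unfold Lt
  infer_instance

theorem A4_lt_yy : ∀ c q : Fin 18, Lt c (se q) (sv (q + 1) + sv q) := by decide +kernel

theorem A4_lt_mono : ∀ c x : Fin 18, Lt c (sv (x + 2) + sv (x - 1)) (sv x + se (x - 1)) := by
  decide +kernel

theorem A4_lt_minor : ∀ q c : Fin 18, q ≠ c → Lt c (sv (q - 1) + se q) (sv (q + 1) + se (q - 1)) := by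
  decide +kernel

theorem A4_lt_pairY1 : ∀ q c : Fin 18, q ≠ c →
    Lt c (se q + se (q - 1)) (sv (q + 1) + (sv q + se (q - 1))) := by
  decide +kernel

theorem A4_lt_pairY2 : ∀ q c : Fin 18, q ≠ c →
    Lt c (se q + (sv (q - 1) + sv q)) (sv (q + 1) + (sv q + se (q - 1))) := by
  decide +kernel

theorem A4_lt_pairY3 : ∀ q c : Fin 18,
    Lt c (sv (q - 1) + se (q + 1)) (sv (q + 1) + (sv q + se (q - 1))) := by
  decide +kernel

theorem A4_lt_pairY4 : ∀ q c : Fin 18,
    Lt c (sv (q - 1) + (sv (q + 2) + sv (q + 1))) (sv (q + 1) + (sv q + se (q - 1))) := by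
  decide +kernel

theorem A4_lt_ve : ∀ q c : Fin 18, Lt c (sv (q + 2) + sv (q + 1)) (se q + sv q) := by
  decide +kernel

theorem A4_lt_pairE : ∀ q c : Fin 18, Lt c (sv (q - 1) + se (q + 1)) (se q + se (q - 1)) := by
  decide +kernel

theorem A4_lt_triple1 : ∀ q c : Fin 18,
    Lt c (se (q - 1) + se (q + 1)) (se q + (sv q + se (q - 1))) := by
  decide +kernel

theorem A4_lt_triple2 : ∀ q c : Fin 18,
    Lt c (sv (q - 1) + (sv (q + 2) + se q)) (se q + (sv q + se (q - 1))) := by
  decide +kernel

theorem A4_lt_triple3 : ∀ q c : Fin 18,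
    Lt c (sv (q - 1) + (sv q + se (q + 1))) (se q + (sv q + se (q - 1))) := by
  decide +kernel

/-- The table of section I.5. In each case expand the lift in monomials (with `dv_sq`, `de_sq` to
reduce the squares `dv x ^ 2 = dv (x+2)`; characteristic `2` cancellations in `lPairY` and
`lTriple`), then `Lead_mon` and `Lead.add_lt`; the conditions `Lt c n' n` for explicit `n', n` built
from `sv`, `se` are statements about all `q c : Fin 18` that `decide +kernel` proves (make `Lt`
decidable: `unfold Lt wt dl En`; the equation `dl n' = dl n` of functions on `Fin 18` is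
decidable; state them as lemmas `∀ q c : Fin 18, q ≠ c → Lt c (…) (…)`). -/
theorem Lead_dv (c x : Fin 18) : Lead c (sv x) (dv x) := by
  rw [← mon_sv x]
  exact Lead_mon c _

theorem Lead_de (c x : Fin 18) : Lead c (se x) (de x) := by
  rw [← mon_se x]
  exact Lead_mon c _

/-- `yy q = v_q v_{q+1} + e_q` with lead `v_q v_{q+1}`. -/
theorem Lead_yy (c q : Fin 18) : Lead c (sv (q + 1) + sv q) (yy q) := by
  have e : yy q = mon (sv (q + 1) + sv q) + mon (se q) := by
    rw [mon_add, mon_sv, mon_sv, mon_se]
    unfold yy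
    ring
  rw [e]
  exact (Lead_mon c _).add_lt (A4_lt_yy c q)

theorem Lead_lMono (c x : Fin 18) : Lead c (sv x + se (x - 1)) (lMono x) := by
  by_cases hx : x.val % 2 = 0
  · have e : lMono x = mon (sv x + se (x - 1)) := by
      rw [mon_add, mon_sv, mon_se]
      unfold lMono
      rw [if_pos hx]
    rw [e]
    exact Lead_mon c _
  · have e : lMono x = mon (sv x + se (x - 1)) + mon (sv (x + 2) + sv (x - 1)) := by
      simp only [mon_add, mon_sv, mon_se]
      unfold lMono yy
      rw [if_neg hx, sub_add_cancel, ← A4_dv_sq x]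
      ring
    rw [e]
    exact (Lead_mon c _).add_lt (A4_lt_mono c x)

theorem Lead_lMinor {c q : Fin 18} (h : q ≠ c) : Lead c (sv (q + 1) + se (q - 1)) (lMinor q) := by
  have e : lMinor q = mon (sv (q + 1) + se (q - 1)) + mon (sv (q - 1) + se q) := by
    simp only [mon_add, mon_sv, mon_se]
    unfold lMinor
    ring
  rw [e]
  exact (Lead_mon c _).add_lt (A4_lt_minor q c h)

theorem Lead_lPairY {c q : Fin 18} (h : q ≠ c) :
    Lead c (sv (q + 1) + (sv q + se (q - 1))) (lPairY q) := by
  have h2 := A4_two
  have e1 : q + 1 + 1 = q + 2 := by rw [add_assoc]; rfl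
  by_cases hq : q.val % 2 = 0
  · have e : lPairY q = mon (sv (q + 1) + (sv q + se (q - 1))) + mon (se q + se (q - 1)) +
        mon (se q + (sv (q - 1) + sv q)) + mon (sv (q - 1) + se (q + 1)) := by
      simp only [mon_add, mon_sv, mon_se]
      unfold lPairY yy
      rw [if_pos hq, sub_add_cancel, e1, ← A4_dv_sq q]
      linear_combination (dv q * dv q * dv (q + 1) * dv (q - 1)) * h2
    rw [e]
    exact (((Lead_mon c _).add_lt (A4_lt_pairY1 q c h)).add_lt (A4_lt_pairY2 q c h)).add_lt
      (A4_lt_pairY3 q c)
  · have e : lPairY q = mon (sv (q + 1) + (sv q + se (q - 1))) + mon (se q + se (q - 1)) +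
        mon (se q + (sv (q - 1) + sv q)) + mon (sv (q - 1) + (sv (q + 2) + sv (q + 1))) := by
      simp only [mon_add, mon_sv, mon_se]
      unfold lPairY yy
      rw [if_neg hq, sub_add_cancel, ← A4_dv_sq q]
      ring
    rw [e]
    exact (((Lead_mon c _).add_lt (A4_lt_pairY1 q c h)).add_lt (A4_lt_pairY2 q c h)).add_lt
      (A4_lt_pairY4 q c)

theorem Lead_lVe (c q : Fin 18) : Lead c (se q + sv q) (lVe q) := by
  by_cases hq : q.val % 2 = 0
  · have e : lVe q = mon (se q + sv q) := by
      simp only [mon_add, mon_sv, mon_se]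
      unfold lVe
      rw [if_pos hq]
      ring
    rw [e]
    exact Lead_mon c _
  · have e : lVe q = mon (se q + sv q) + mon (sv (q + 2) + sv (q + 1)) := by
      simp only [mon_add, mon_sv, mon_se]
      unfold lVe yy
      rw [if_neg hq, ← A4_dv_sq q]
      ring
    rw [e]
    exact (Lead_mon c _).add_lt (A4_lt_ve q c)

theorem Lead_lPairE (c q : Fin 18) : Lead c (se q + se (q - 1)) (lPairE q) := by
  by_cases hq : q.val % 2 = 0
  · have e : lPairE q = mon (se q + se (q - 1)) := by
      simp only [mon_add, mon_se]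
      unfold lPairE
      rw [if_pos hq]
    rw [e]
    exact Lead_mon c _
  · have e : lPairE q = mon (se q + se (q - 1)) + mon (sv (q - 1) + se (q + 1)) := by
      simp only [mon_add, mon_sv, mon_se]
      unfold lPairE
      rw [if_neg hq]
      ring
    rw [e]
    exact (Lead_mon c _).add_lt (A4_lt_pairE q c)

theorem Lead_lTriple (c q : Fin 18) : Lead c (se q + (sv q + se (q - 1))) (lTriple q) := by
  have h2 := A4_two
  have e1 : q + 1 + 1 = q + 2 := by rw [add_assoc]; rfl
  by_cases hq : q.val % 2 = 0
  · have e : lTriple q = mon (se q + (sv q + se (q - 1))) + mon (se (q - 1) + se (q + 1)) := by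
      simp only [mon_add, mon_sv, mon_se]
      unfold lTriple
      rw [if_pos hq]
      ring
    rw [e]
    exact (Lead_mon c _).add_lt (A4_lt_triple1 q c)
  · have e : lTriple q = mon (se q + (sv q + se (q - 1))) + mon (se (q - 1) + se (q + 1)) +
        mon (sv (q - 1) + (sv (q + 2) + se q)) + mon (sv (q - 1) + (sv q + se (q + 1))) := by
      simp only [mon_add, mon_sv, mon_se]
      unfold lTriple yy
      rw [if_neg hq, sub_add_cancel, e1, ← A4_dv_sq q]
      linear_combination ((de (q - 1) + dv (q - 1) * dv q) * dv q * dv q * dv (q + 1)) * h2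
    rw [e]
    exact (((Lead_mon c _).add_lt (A4_lt_triple1 q c)).add_lt (A4_lt_triple2 q c)).add_lt
      (A4_lt_triple3 q c)

/-- Section I.6: induction on `l`. At a site `x ≠ c` all lifts have their lead; at `x = c` the
condition `okc` says that all of `v_c, e_{c-1}, e_c` equal `β`, so that the completed tile is
`lMono`, `1`, `dv (x+1)` (state `(true, false)`) or `lTriple` (state `(true, true)`). In the free
state the pending exponent is `0`, in the pending states `pend σ x` is the pending digit. The
second hypothesis says that the last state is free, so that the last tile is complete. -/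
theorem Lead_run (c : Fin 18) (β : Bool) : ∀ (l : List Ch) (σ : St) (x : Fin 18),
    okW c β σ x l = true → (l.foldl nxt σ).1 = false →
    Lead c (pend σ x + exW x l) (run σ x l) := by
  intro l
  induction l with
  | nil =>
    intro σ x _ hf
    have h1 : σ.1 = false := hf
    have h2 : pend σ x + exW x [] = 0 := by
      unfold pend exW
      rw [h1]
      simp
    rw [h2]
    change Lead c 0 1
    rw [← mon_zero]
    exact Lead_mon c _
  | cons ch l ih =>
    intro σ x hok hf
    have hok' : okc c β x σ.2 ch = true ∧ okW c β (nxt σ ch) (x - 1) l = true := by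
      have h1 : (okc c β x σ.2 ch && okW c β (nxt σ ch) (x - 1) l) = true := hok
      rwa [Bool.and_eq_true] at h1
    have hI := ih (nxt σ ch) (x - 1) hok'.2 hf
    have key : ∀ m : Ex, Lead c m (fac σ x ch) →
        m + pend (nxt σ ch) (x - 1) = pend σ x + ((if ch.1 then sv x else 0) +
          (if ch.2 then se (x - 1) else 0)) →
        Lead c (pend σ x + exW x (ch :: l)) (run σ x (ch :: l)) := by
      intro m hm he
      have h1 := hm.mul hI
      rw [← add_assoc, he] at h1
      have h2 : pend σ x + exW x (ch :: l) = pend σ x + ((if ch.1 then sv x else 0) +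
          (if ch.2 then se (x - 1) else 0)) + exW (x - 1) l := by
        rw [add_assoc]
        rfl
      rw [h2]
      exact h1
    have hone : Lead c 0 (1 : W → K) := by
      rw [← mon_zero]
      exact Lead_mon c _
    obtain ⟨s1, s2⟩ := σ
    obtain ⟨a, b⟩ := ch
    have hc := hok'.1
    unfold okc at hc
    cases s1
    · cases a <;> cases b
      · refine key 0 hone ?_
        simp [nxt, pend]
      · refine key 0 hone ?_
        simp [nxt, pend]
      · refine key 0 hone ?_
        simp [nxt, pend]
      · refine key (sv x + se (x - 1)) (Lead_lMono c x) ?_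
        simp [nxt, pend]
    · cases s2
      · cases a <;> cases b
        · refine key (sv (x + 1)) (Lead_dv c (x + 1)) ?_
          simp [nxt, pend]
        · have hxc : x ≠ c := by
            rintro rfl
            rw [if_pos rfl] at hc
            cases β <;> simp at hc
          refine key (sv (x + 1) + se (x - 1)) (Lead_lMinor hxc) ?_
          simp [nxt, pend]
        · refine key (sv (x + 1) + sv x) (Lead_yy c x) ?_
          simp [nxt, pend]
        · have hxc : x ≠ c := by
            rintro rfl
            rw [if_pos rfl] at hc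
            cases β <;> simp at hc
          refine key (sv (x + 1) + (sv x + se (x - 1))) (Lead_lPairY hxc) ?_
          simp [nxt, pend]
      · cases a <;> cases b
        · refine key (se x) (Lead_de c x) ?_
          simp [nxt, pend]
        · refine key (se x + se (x - 1)) (Lead_lPairE c x) ?_
          simp [nxt, pend]
        · refine key (se x + sv x) (Lead_lVe c x) ?_
          simp [nxt, pend]
        · refine key (se x + (sv x + se (x - 1))) (Lead_lTriple c x) ?_
          simp [nxt, pend]

end Pool.Agent.NHT
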