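import Pool.Agent.NHT.A0

set_option autoImplicit false

/-!
NHT-A5: the reduced monomials are linearly independent.
-/

namespace Pool.Agent.NHT

open Finset

noncomputable def A5_P (p : Fin 512 → K) : Polynomial K :=
  ∑ i : Fin 512, Polynomial.C (p i) * Polynomial.X ^ (i : ℕ)

theorem A5_P_eq (p : Fin 512 → K) :
    A5_P p = ∑ i : Fin 512, Polynomial.C (p i) * Polynomial.X ^ (i : ℕ) := by
  unfold A5_P
  rfl

/-- The functions `x ↦ x ^ i`, `i < 512`, are linearly independent: a polynomial of degree `< 512`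
with `512` roots is `0` (`Polynomial.card_roots'` / `Polynomial.eq_zero_of_natDegree_lt_card_of_eval_eq_zero'`). -/
theorem pow_coeff_zero (p : Fin 512 → K) (h : ∀ x : K, ∑ i, p i * x ^ (i : ℕ) = 0) : ∀ i, p i = 0 := by
  have hcard : Fintype.card K = 512 := by
    have h1 : Nat.card K = 2 ^ 9 := GaloisField.card 2 9 (by norm_num)
    have h2 : Nat.card K = Fintype.card K := @Nat.card_eq_fintype_card K _
    rw [h2] at h1
    rw [h1]
    norm_num
  have hP := A5_P_eq p
  have hdeg : (A5_P p).natDegree ≤ 511 := by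
    rw [hP]
    refine Polynomial.natDegree_sum_le_of_forall_le _ _ fun i _ => ?_
    exact (Polynomial.natDegree_C_mul_X_pow_le _ _).trans (by omega)
  have hev : ∀ x : K, (A5_P p).eval x = 0 := by
    intro x
    rw [hP, Polynomial.eval_finsetSum, ← h x]
    refine Finset.sum_congr rfl fun i _ => ?_
    rw [Polynomial.eval_mul, Polynomial.eval_C, Polynomial.eval_pow, Polynomial.eval_X]
  have hP0 : A5_P p = 0 := Polynomial.eq_zero_of_natDegree_lt_card_of_eval_eq_zero (A5_P p)
    (f := (id : K → K)) Function.injective_id (fun x => hev x) (by rw [hcard]; omega)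
  intro j
  have h1 : (A5_P p).coeff (j : ℕ) = p j := by
    rw [hP, Polynomial.finsetSum_coeff, Finset.sum_eq_single j]
    · rw [Polynomial.coeff_C_mul_X_pow, if_pos rfl]
    · intro i _ hij
      rw [Polynomial.coeff_C_mul_X_pow, if_neg]
      intro h2
      exact hij (Fin.ext h2.symm)
    · intro h2
      exact absurd (Finset.mem_univ j) h2
  rw [← h1, hP0, Polynomial.coeff_zero]

/-- Four times `pow_coeff_zero`. -/
theorem pow4_coeff_zero (p : Fin 512 → Fin 512 → Fin 512 → Fin 512 → K)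
    (h : ∀ a b c d : K, ∑ i, ∑ j, ∑ k, ∑ l, p i j k l * (a ^ (i : ℕ) * b ^ (j : ℕ) * c ^ (k : ℕ) *
      d ^ (l : ℕ)) = 0) : ∀ i j k l, p i j k l = 0 := by
  intro i j k l
  have h1 : ∀ b c d : K, ∀ i, ∑ j, ∑ k, ∑ l, p i j k l * (b ^ (j : ℕ) * c ^ (k : ℕ) *
      d ^ (l : ℕ)) = 0 := by
    intro b c d
    refine pow_coeff_zero _ fun a => ?_
    rw [← h a b c d]
    refine Finset.sum_congr rfl fun i _ => ?_
    rw [Finset.sum_mul]
    refine Finset.sum_congr rfl fun j _ => ?_
    rw [Finset.sum_mul]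
    refine Finset.sum_congr rfl fun k _ => ?_
    rw [Finset.sum_mul]
    refine Finset.sum_congr rfl fun l _ => ?_
    ring
  have h2 : ∀ c d : K, ∀ j, ∑ k, ∑ l, p i j k l * (c ^ (k : ℕ) * d ^ (l : ℕ)) = 0 := by
    intro c d
    refine pow_coeff_zero _ fun b => ?_
    rw [← h1 b c d i]
    refine Finset.sum_congr rfl fun j _ => ?_
    rw [Finset.sum_mul]
    refine Finset.sum_congr rfl fun k _ => ?_
    rw [Finset.sum_mul]
    refine Finset.sum_congr rfl fun l _ => ?_
    ring
  have h3 : ∀ d : K, ∀ k, ∑ l, p i j k l * d ^ (l : ℕ) = 0 := by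
    intro d
    refine pow_coeff_zero _ fun c => ?_
    rw [← h2 c d j]
    refine Finset.sum_congr rfl fun k _ => ?_
    rw [Finset.sum_mul]
    refine Finset.sum_congr rfl fun l _ => ?_
    ring
  exact pow_coeff_zero _ (fun d => h3 d k) l

/-- The number with binary digits `g 0, …, g 8` (`g j` the coefficient of `2 ^ j`). -/
def bin (g : Fin 9 → Bool) : ℕ := ∑ j, (g j).toNat * 2 ^ (j : ℕ)

/-- Binary expansions: `bin` is injective with values `< 512` (for example `Nat.ofDigits`, or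
`finFunctionFinEquiv`, or `decide`-free induction on the number of digits). -/
theorem bin_lt (g : Fin 9 → Bool) : bin g < 512 := by
  revert g
  decide +kernel

theorem bin_injective : Function.Injective bin := by
  have h : ∀ (g : Fin 9 → Bool) (j : Fin 9), (bin g).testBit j = g j := by
    decide +kernel
  intro g g' hg
  funext j
  rw [← h g j, ← h g' j, hg]

/-- The even sites carry the digits of `a` (of `c`), the odd ones those of `b` (of `d`). -/
def dig (s : Fin 18 → Bool) (r : Fin 2) (j : Fin 9) : Bool := s ⟨2 * j + r, by omega⟩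

theorem mon_toEx (s : Str) (w : W) : mon (toEx s) w =
    w.1 ^ bin (dig s.1 0) * w.2.1 ^ bin (dig s.1 1) * w.2.2.1 ^ bin (dig s.2 0) *
      w.2.2.2 ^ bin (dig s.2 1) := by
  have hv : ∀ (j : Fin 9), dv ⟨2 * j, by omega⟩ w = w.1 ^ (2 ^ (j : ℕ)) ∧
      dv ⟨2 * j + 1, by omega⟩ w = w.2.1 ^ (2 ^ (j : ℕ)) ∧
      de ⟨2 * j, by omega⟩ w = w.2.2.1 ^ (2 ^ (j : ℕ)) ∧
      de ⟨2 * j + 1, by omega⟩ w = w.2.2.2 ^ (2 ^ (j : ℕ)) := by
    intro j
    have h1 : 2 * (j : ℕ) % 2 = 0 := by omega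
    have h2 : ¬ (2 * (j : ℕ) + 1) % 2 = 0 := by omega
    have h3 : 2 * (j : ℕ) / 2 = j := by omega
    have h4 : (2 * (j : ℕ) + 1) / 2 = j := by omega
    refine ⟨?_, ?_, ?_, ?_⟩
    · unfold dv; simp only [h1, h3, if_true]
    · unfold dv; simp only [h2, h4, if_false]
    · unfold de; simp only [h1, h3, if_true]
    · unfold de; simp only [h2, h4, if_false]
  have hsplit : ∀ f : Fin 18 → K, ∏ x, f x =
      ∏ j : Fin 9, (f ⟨2 * j, by omega⟩ * f ⟨2 * j + 1, by omega⟩) := by
    intro f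
    simp only [Fin.prod_univ_succ, Fin.prod_univ_zero]
    simp only [mul_assoc, mul_one]
    rfl
  have hpow : ∀ (z : K) (g : Fin 9 → Bool), z ^ bin g =
      ∏ j : Fin 9, (z ^ (2 ^ (j : ℕ))) ^ (g j).toNat := by
    intro z g
    unfold bin
    rw [← Finset.prod_pow_eq_pow_sum]
    refine Finset.prod_congr rfl fun j _ => ?_
    rw [← pow_mul, mul_comm]
  change (∏ x, dv x w ^ (s.1 x).toNat) * ∏ x, de x w ^ (s.2 x).toNat = _
  rw [hsplit, hsplit, Finset.prod_mul_distrib, Finset.prod_mul_distrib, hpow, hpow, hpow, hpow,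
    ← mul_assoc]
  refine congrArg₂ (· * ·) (congrArg₂ (· * ·) (congrArg₂ (· * ·) ?_ ?_) ?_) ?_
  · refine Finset.prod_congr rfl fun j _ => ?_
    rw [(hv j).1]
    rfl
  · refine Finset.prod_congr rfl fun j _ => ?_
    rw [(hv j).2.1]
    rfl
  · refine Finset.prod_congr rfl fun j _ => ?_
    rw [(hv j).2.2.1]
    rfl
  · refine Finset.prod_congr rfl fun j _ => ?_
    rw [(hv j).2.2.2]
    rfl

/-- From `pow4_coeff_zero` (`mon_toEx`, `bin_injective`): a linear relation among the `mon (toEx s)`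
is a relation of the form of `pow4_coeff_zero` with coefficients
`p i j k l = ∑ s with digits (i,j,k,l)`, at most one `s` each. (Alternatively: the map
`s ↦ (i, j, k, l)` is injective, and `LinearIndependent.comp`.) -/
theorem linInd_mon : LinearIndependent K (fun s : Str => mon (toEx s)) := by
  classical
  have h1 : LinearIndependent K (fun (q : Fin 512 × Fin 512 × Fin 512 × Fin 512) (w : W) =>
      w.1 ^ (q.1 : ℕ) * w.2.1 ^ (q.2.1 : ℕ) * w.2.2.1 ^ (q.2.2.1 : ℕ) *
        w.2.2.2 ^ (q.2.2.2 : ℕ)) := by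
    rw [Fintype.linearIndependent_iff]
    intro g hg q
    refine pow4_coeff_zero (fun i j k l => g (i, j, k, l)) (fun a b c d => ?_) q.1 q.2.1 q.2.2.1
      q.2.2.2
    have h2 := congrFun hg (a, b, c, d)
    rw [Finset.sum_apply, Pi.zero_apply] at h2
    rw [← h2, Fintype.sum_prod_type]
    refine Finset.sum_congr rfl fun i _ => ?_
    rw [Fintype.sum_prod_type]
    refine Finset.sum_congr rfl fun j _ => ?_
    rw [Fintype.sum_prod_type]
    rfl
  let e : Str → Fin 512 × Fin 512 × Fin 512 × Fin 512 := fun s =>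
    (⟨bin (dig s.1 0), bin_lt _⟩, ⟨bin (dig s.1 1), bin_lt _⟩, ⟨bin (dig s.2 0), bin_lt _⟩,
      ⟨bin (dig s.2 1), bin_lt _⟩)
  have hdig : ∀ s s' : Fin 18 → Bool, dig s 0 = dig s' 0 → dig s 1 = dig s' 1 → s = s' := by
    intro s s' h0 h2
    funext x
    rcases Nat.even_or_odd' x.val with ⟨m, hm | hm⟩
    · have h3 := congrFun h0 ⟨m, by omega⟩
      have h4 : x = ⟨2 * m + ((0 : Fin 2) : ℕ), by simp; omega⟩ := Fin.ext (by simp [hm])
      rw [h4]
      exact h3
    · have h3 := congrFun h2 ⟨m, by omega⟩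
      have h4 : x = ⟨2 * m + ((1 : Fin 2) : ℕ), by simp; omega⟩ := Fin.ext (by simp [hm])
      rw [h4]
      exact h3
  have he : Function.Injective e := by
    intro s s' hs
    have e1 : bin (dig s.1 0) = bin (dig s'.1 0) := congrArg (fun q => (q.1 : ℕ)) hs
    have e2 : bin (dig s.1 1) = bin (dig s'.1 1) := congrArg (fun q => (q.2.1 : ℕ)) hs
    have e3 : bin (dig s.2 0) = bin (dig s'.2 0) := congrArg (fun q => (q.2.2.1 : ℕ)) hs
    have e4 : bin (dig s.2 1) = bin (dig s'.2 1) := congrArg (fun q => (q.2.2.2 : ℕ)) hs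
    exact Prod.ext (hdig _ _ (bin_injective e1) (bin_injective e2))
      (hdig _ _ (bin_injective e3) (bin_injective e4))
  have h5 := h1.comp e he
  have h6 : ((fun (q : Fin 512 × Fin 512 × Fin 512 × Fin 512) (w : W) =>
      w.1 ^ (q.1 : ℕ) * w.2.1 ^ (q.2.1 : ℕ) * w.2.2.1 ^ (q.2.2.1 : ℕ) *
        w.2.2.2 ^ (q.2.2.2 : ℕ)) ∘ e) = fun s : Str => mon (toEx s) := by
    funext s w
    rw [mon_toEx]
    rfl
  rw [h6] at h5
  exact h5

end Pool.Agent.NHT
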