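import Pool.Agent.NHT.A4

set_option autoImplicit false

/-!
NHT-A6: reduction of monomials; ranks.
-/

namespace Pool.Agent.NHT

open Finset

theorem A6_wt_sv : ∀ x : Fin 18, wt (sv x) = 1 := by decide +kernel

theorem A6_wt_se : ∀ x : Fin 18, wt (se x) = 2 := by decide +kernel

/-- one step of the reduction, `v` -/
theorem A6_step_v (n : Ex) (x : Fin 18) (h : 2 ≤ n.1 x) :
    ∃ n' : Ex, mon n' = mon n ∧ wt n' < wt n := by
  obtain ⟨m, hm⟩ : ∃ m : Ex, n = m + (sv x + sv x) := by
    refine ⟨(fun y => n.1 y - (if y = x then 2 else 0), n.2), ?_⟩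
    refine Prod.ext (funext fun y => ?_) (funext fun y => ?_)
    · simp only [Prod.fst_add, Pi.add_apply, sv, Pi.single_apply]
      by_cases hy : y = x
      · subst hy
        simp only [if_true]
        omega
      · simp only [hy, if_false]
        omega
    · simp [sv]
  refine ⟨m + sv (x + 2), ?_, ?_⟩
  · rw [hm, mon_add, mon_add, mon_add, mon_sv, mon_sv]
    congr 1
    funext w
    rw [← dv_sq, pow_two]
    rfl
  · rw [hm, wt_add, wt_add, wt_add, A6_wt_sv, A6_wt_sv]
    omega

/-- one step of the reduction, `e` -/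
theorem A6_step_e (n : Ex) (x : Fin 18) (h : 2 ≤ n.2 x) :
    ∃ n' : Ex, mon n' = mon n ∧ wt n' < wt n := by
  obtain ⟨m, hm⟩ : ∃ m : Ex, n = m + (se x + se x) := by
    refine ⟨(n.1, fun y => n.2 y - (if y = x then 2 else 0)), ?_⟩
    refine Prod.ext (funext fun y => ?_) (funext fun y => ?_)
    · simp [se]
    · simp only [Prod.snd_add, Pi.add_apply, se, Pi.single_apply]
      by_cases hy : y = x
      · subst hy
        simp only [if_true]
        omega
      · simp only [hy, if_false]
        omega
  refine ⟨m + se (x + 2), ?_, ?_⟩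
  · rw [hm, mon_add, mon_add, mon_add, mon_se, mon_se]
    congr 1
    funext w
    rw [← de_sq, pow_two]
    rfl
  · rw [hm, wt_add, wt_add, wt_add, A6_wt_se, A6_wt_se]
    omega

theorem A6_reduced (n : Ex) (h1 : ∀ x, n.1 x < 2) (h2 : ∀ x, n.2 x < 2) :
    ∃ s : Str, n = toEx s := by
  refine ⟨(fun x => decide (n.1 x = 1), fun x => decide (n.2 x = 1)), ?_⟩
  refine Prod.ext (funext fun x => ?_) (funext fun x => ?_)
  · have h := h1 x
    rcases (by omega : n.1 x = 0 ∨ n.1 x = 1) with h3 | h3 <;> simp [toEx, h3]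
  · have h := h2 x
    rcases (by omega : n.2 x = 0 ∨ n.2 x = 1) with h3 | h3 <;> simp [toEx, h3]

/-- Strong induction on `wt n`. If all exponents are `≤ 1`, `n = toEx s`. Otherwise some exponent, say
`n.1 x ≥ 2` (or `n.2 x ≥ 2`): `n = n' + 2 • sv x`, and `mon n = mon (n' + sv (x+2))` by `dv_sq`
(`mon_add`, `mon_sv`), with `wt (n' + sv (x+2)) = wt n' + 1 < wt n` (weight of `se` is `2`). -/
theorem exists_reduced (n : Ex) : ∃ s : Str, mon n = mon (toEx s) ∧
    (n = toEx s ∨ wt (toEx s) < wt n) := by
  induction hk : wt n using Nat.strong_induction_on generalizing n with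
  | _ k ih =>
    subst hk
    by_cases h : (∀ x, n.1 x < 2) ∧ ∀ x, n.2 x < 2
    · obtain ⟨s, hs⟩ := A6_reduced n h.1 h.2
      exact ⟨s, by rw [← hs], Or.inl hs⟩
    · have h1 : ∃ n' : Ex, mon n' = mon n ∧ wt n' < wt n := by
        rw [not_and_or] at h
        rcases h with h | h
        · push Not at h
          obtain ⟨x, hx⟩ := h
          exact A6_step_v n x hx
        · push Not at h
          obtain ⟨x, hx⟩ := h
          exact A6_step_e n x hx
      obtain ⟨n', hn', hw⟩ := h1
      obtain ⟨s, hs1, hs2⟩ := ih (wt n') hw n' rfl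
      refine ⟨s, by rw [← hn', hs1], Or.inr ?_⟩
      rcases hs2 with hs2 | hs2
      · rw [← hs2]
        exact hw
      · exact hs2.trans hw

/-- Each summand `(s.2 x).toNat * (1 + (x - c).val)` is at most `1 + (x-c).val`; the sum over `x` is
at most `18 * 18`. -/
theorem En_le (c : Fin 18) (s : Str) : En c (toEx s) ≤ 324 := by
  unfold En
  have h : ∀ x : Fin 18, (toEx s).2 x * (1 + (x - c).val) ≤ 18 := by
    intro x
    have h1 : (toEx s).2 x ≤ 1 := by
      change (s.2 x).toNat ≤ 1
      cases s.2 x <;> simp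
    have h2 := (x - c).isLt
    calc (toEx s).2 x * (1 + (x - c).val) ≤ 1 * (1 + (x - c).val) := Nat.mul_le_mul_right _ h1
      _ ≤ 18 := by omega
  calc ∑ x, (toEx s).2 x * (1 + (x - c).val) ≤ ∑ _x : Fin 18, 18 := Finset.sum_le_sum fun x _ => h x
    _ = 324 := by simp

/-- If `n` is reduced with `cof (dl n) = c` then all terms of `f - mon n` are, after reduction,
monomials of smaller rank: `Lt c n' n` and `exists_reduced` for `n'`; if `n'` is reduced: either the
weight is smaller (`rho` smaller since `En ≤ 324 < 1000`), or `dl` is equal, so `cof` is the same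
`c`, and `En` is larger; if `n'` is not reduced its reduction has weight `< wt n' ≤ wt n`. -/
theorem Lead.rho {c : Fin 18} {s : Str} (hc : cof (dl (toEx s)) = c) {f : W → K}
    (h : Lead c (toEx s) f) :
    f - mon (toEx s) ∈ Submodule.span K
      {g : W → K | ∃ s' : Str, rho (toEx s') < rho (toEx s) ∧ g = mon (toEx s')} := by
  refine Submodule.span_le.2 ?_ h
  rintro g ⟨n', hn', rfl⟩
  obtain ⟨s', hs', hs2⟩ := exists_reduced n'
  refine Submodule.subset_span ⟨s', ?_, hs'⟩
  have hle : wt n' ≤ wt (toEx s) := hn'.wt_le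
  have hE := En_le (cof (dl (toEx s))) s
  have key : ∀ m : Ex, wt m < wt (toEx s) →
      Pool.Agent.NHT.rho m < Pool.Agent.NHT.rho (toEx s) := by
    intro m hm
    unfold Pool.Agent.NHT.rho
    omega
  rcases hs2 with hs2 | hs2
  · rw [← hs2]
    rcases hn' with hn' | ⟨hd, he⟩
    · exact key _ hn'
    · unfold Pool.Agent.NHT.rho
      have hw : wt n' = wt (toEx s) := by
        unfold wt
        rw [hd]
      rw [hd, hc, hw]
      omega
  · exact key _ (by omega)

/-- A family with distinct leading terms in a linearly independent family, the other terms having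
smaller rank, is linearly independent. Proof: a relation `∑ α_i f_i = 0` with some `α ≠ 0`; choose `i`
with `α_i ≠ 0` and `ρ (lam i)` maximal. The coefficient of `b (lam i)` (a linear functional on the
span of `b`: `LinearIndependent.repr` / `Basis.span`) in `f_j`, `α_j ≠ 0`, is `1` for `j = i` and `0`
otherwise. -/
theorem linInd_of_tri {ι κ F V : Type*} [Field F] [AddCommGroup V] [Module F V] (b : κ → V)
    (hb : LinearIndependent F b) (lam : ι → κ) (hlam : Function.Injective lam) (ρ : κ → ℤ)
    (f : ι → V)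
    (hf : ∀ i, f i - b (lam i) ∈ Submodule.span F {v | ∃ j, ρ j < ρ (lam i) ∧ v = b j}) :
    LinearIndependent F f := by
  classical
  have hinj : Function.Injective (Finsupp.linearCombination F b) := hb
  obtain ⟨Φ, hΦ⟩ := LinearMap.exists_leftInverse_of_injective (Finsupp.linearCombination F b)
    (LinearMap.ker_eq_bot.2 hinj)
  have hΦb : ∀ j, Φ (b j) = Finsupp.single j 1 := by
    intro j
    have h1 := LinearMap.congr_fun hΦ (Finsupp.single j 1)
    rw [LinearMap.comp_apply, Finsupp.linearCombination_single, one_smul, LinearMap.id_apply] at h1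
    exact h1
  have hspan : ∀ (r : ℤ) (v : V), v ∈ Submodule.span F {v | ∃ j, ρ j < r ∧ v = b j} →
      ∀ k, r ≤ ρ k → Φ v k = 0 := by
    intro r v hv k hk
    induction hv using Submodule.span_induction with
    | mem x hx =>
      obtain ⟨j, hj, rfl⟩ := hx
      rw [hΦb, Finsupp.single_apply, if_neg]
      rintro rfl
      omega
    | zero => rw [map_zero, Finsupp.zero_apply]
    | add x y _ _ hx hy => rw [map_add, Finsupp.add_apply, hx, hy, add_zero]
    | smul a x _ hx => rw [map_smul, Finsupp.smul_apply, hx, smul_zero]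
  rw [linearIndependent_iff']
  intro t α hα i hi
  by_contra hne
  obtain ⟨i₀, hi₀, hmax⟩ := Finset.exists_max_image (t.filter fun i => α i ≠ 0)
    (fun i => ρ (lam i)) ⟨i, Finset.mem_filter.2 ⟨hi, hne⟩⟩
  rw [Finset.mem_filter] at hi₀
  have h1 : Φ (∑ i ∈ t, α i • f i) (lam i₀) = α i₀ := by
    rw [map_sum, Finsupp.finsetSum_apply, Finset.sum_eq_single i₀]
    · rw [map_smul, Finsupp.smul_apply]
      have h2 := hspan _ _ (hf i₀) (lam i₀) le_rfl
      rw [map_sub, Finsupp.sub_apply, hΦb, Finsupp.single_eq_same, sub_eq_zero] at h2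
      rw [h2, smul_eq_mul, mul_one]
    · intro j hj hji
      rw [map_smul, Finsupp.smul_apply]
      by_cases h0 : α j = 0
      · rw [h0, zero_smul]
      · have h2 := hspan _ _ (hf j) (lam i₀) (hmax j (Finset.mem_filter.2 ⟨hj, h0⟩))
        rw [map_sub, Finsupp.sub_apply, hΦb, Finsupp.single_apply,
          if_neg (fun h => hji (hlam h)), sub_zero] at h2
        rw [h2, smul_zero]
    · intro h2
      exact absurd hi₀.1 h2
  rw [hα, map_zero, Finsupp.zero_apply] at h1
  exact hi₀.2 h1.symm

end Pool.Agent.NHT
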