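import Pool.Agent.NHT.A0

set_option autoImplicit false

/-!
NHT-A7: words.
-/

namespace Pool.Agent.NHT

open Finset

/-- Induction on `k` (`List.length_flatMap`, `chs` has four elements). -/
theorem length_words (c : Fin 18) (β : Bool) : ∀ (k : ℕ) (σ : St) (x : Fin 18) (s t : ℕ),
    (words c β k σ x s t).length = cnt c β k σ x s t := by

  intro k
  induction k with
  | zero => intro σ x s t; rfl
  | succ k ih =>
    intro σ x s t
    unfold words cnt
    rw [List.length_flatMap]
    congr 1
    apply List.map_congr_left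
    intro ch _
    split_ifs with h
    · rw [List.length_map, ih]
    · rfl

/-- Induction on `k`: the four sublists have different first entries. -/
theorem nodup_words (c : Fin 18) (β : Bool) : ∀ (k : ℕ) (σ : St) (x : Fin 18) (s t : ℕ),
    (words c β k σ x s t).Nodup := by

  intro k
  induction k with
  | zero => intro σ x s t; exact List.nodup_singleton _
  | succ k ih =>
    intro σ x s t
    unfold words
    rw [List.nodup_flatMap]
    constructor
    · intro ch _
      split_ifs with h
      · exact (ih _ _ _ _).map (fun a b hab => (List.cons.inj hab).2)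
      · exact List.nodup_nil
    · have hn : chs.Pairwise (· ≠ ·) := by decide
      refine hn.imp ?_
      intro a b hab
      show List.Disjoint _ _
      intro l h1 h2
      dsimp only at h1 h2
      split_ifs at h1 with h3
      · split_ifs at h2 with h4
        · obtain ⟨l1, -, rfl⟩ := List.mem_map.1 h1
          obtain ⟨l2, -, h5⟩ := List.mem_map.1 h2
          exact hab (List.cons.inj h5).1.symm
        · exact absurd h2 List.not_mem_nil
      · exact absurd h1 List.not_mem_nil

/-- Induction on `k`. -/
theorem mem_words (c : Fin 18) (β : Bool) : ∀ (k : ℕ) (σ : St) (x : Fin 18) (s t : ℕ) (l : List Ch),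
    l ∈ words c β k σ x s t → l.length = k ∧ okW c β σ x l = true ∧ (runTy σ x l).1 ≤ s ∧
      (runTy σ x l).2 ≤ t := by

  intro k
  induction k with
  | zero =>
    intro σ x s t l hl
    have h1 : l = [] := by
      unfold words at hl
      exact List.mem_singleton.1 hl
    subst h1
    exact ⟨rfl, rfl, Nat.zero_le _, Nat.zero_le _⟩
  | succ k ih =>
    intro σ x s t l hl
    unfold words at hl
    obtain ⟨ch, -, h1⟩ := List.mem_flatMap.1 hl
    split_ifs at h1 with h2
    · obtain ⟨l1, h3, rfl⟩ := List.mem_map.1 h1
      obtain ⟨h4, h5, h6, h7⟩ := ih _ _ _ _ l1 h3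
      obtain ⟨h8, h9, h10⟩ := h2
      refine ⟨by rw [List.length_cons, h4], ?_, ?_, ?_⟩
      · show (okc c β x σ.2 ch && okW c β (nxt σ ch) (x - 1) l1) = true
        rw [h8, h5]
        rfl
      · show (wty σ x ch + runTy (nxt σ ch) (x - 1) l1).1 ≤ s
        rw [Prod.fst_add]
        omega
      · show (wty σ x ch + runTy (nxt σ ch) (x - 1) l1).2 ≤ t
        rw [Prod.snd_add]
        omega
    · exact absurd h1 List.not_mem_nil

/-- The words with least breaker `c` with bit `β` of type at most `(4, 4)`. -/
def wds (c : Fin 18) (β : Bool) : List (List Ch) := words c β 18 (false, β) (c - 1) 4 4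

theorem A7_sub (x : Fin 18) (k : ℕ) :
    x - Fin.ofNat 18 (k + 1) = x - 1 - Fin.ofNat 18 k := by
  have h : (Fin.ofNat 18 (k + 1) : Fin 18) = 1 + Fin.ofNat 18 k := by
    apply Fin.ext
    rw [Fin.val_add]
    simp only [Fin.ofNat_eq_cast, Fin.val_natCast, Fin.val_one]
    omega
  rw [h, sub_sub]

theorem A7_f2 : ∀ c x : Fin 18, c - 1 - Fin.ofNat 18 (c - 1 - x).val = x := by decide

theorem A7_f3 : ∀ c x : Fin 18, (c - 1 - x).val ≠ 0 → (c - 2 - x).val = (c - 1 - x).val - 1 := by
  decide

theorem A7_f4 : ∀ c x : Fin 18, (c - 1 - x).val = 0 → (c - 2 - x).val = 17 := by decide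

theorem A7_f5 : ∀ c x : Fin 18, (c - 2 - (x - 1)).val = (c - 1 - x).val := by decide

theorem A7_f6 : ∀ c : Fin 18, (c - 1 - c).val = 17 := by decide

theorem A7_split (c : Fin 18) (β : Bool) (ch : Ch) (l₂ : List Ch) : ∀ (l₁ : List Ch) (σ : St)
    (x : Fin 18), okW c β σ x (l₁ ++ ch :: l₂) = true →
    okc c β (x - Fin.ofNat 18 l₁.length) (l₁.foldl nxt σ).2 ch = true := by
  intro l₁
  induction l₁ with
  | nil =>
    intro σ x h
    have h0 : (Fin.ofNat 18 ([] : List Ch).length : Fin 18) = 0 := rfl
    rw [h0, sub_zero]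
    have h1 : (okc c β x σ.2 ch && okW c β (nxt σ ch) (x - 1) l₂) = true := h
    exact (Bool.and_eq_true_iff.1 h1).1
  | cons a l₁ ih =>
    intro σ x h
    have h1 : (okc c β x σ.2 a && okW c β (nxt σ a) (x - 1) (l₁ ++ ch :: l₂)) = true := h
    have h2 := ih (nxt σ a) (x - 1) (Bool.and_eq_true_iff.1 h1).2
    rw [List.length_cons, A7_sub]
    exact h2

theorem A7_entry {c : Fin 18} {β : Bool} {l : List Ch} {σ : St} {x : Fin 18}
    (hok : okW c β σ x l = true) (k : ℕ) (hk : k < l.length) :
    okc c β (x - Fin.ofNat 18 k) ((l.take k).foldl nxt σ).2 l[k] = true := by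
  have h1 : l = l.take k ++ l[k] :: l.drop (k + 1) := by
    rw [List.getElem_cons_drop, List.take_append_drop]
  have h2 : okW c β σ x (l.take k ++ l[k] :: l.drop (k + 1)) = true := by rw [← h1]; exact hok
  have h3 := A7_split c β l[k] (l.drop (k + 1)) (l.take k) σ x h2
  rwa [List.length_take, min_eq_left hk.le] at h3

theorem A7_last {c : Fin 18} {β : Bool} {l : List Ch} (hl : l.length = 18)
    (hok : okW c β (false, β) (c - 1) l = true) : l[17] = (β, β) := by
  have h1 := A7_entry hok 17 (by omega)
  have h2 : c - 1 - Fin.ofNat 18 17 = c := by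
    have := A7_f2 c c
    rwa [A7_f6] at this
  rw [h2] at h1
  unfold okc at h1
  rw [if_pos rfl] at h1
  simp only [Bool.and_eq_true, beq_iff_eq] at h1
  exact Prod.ext h1.1.1 h1.1.2

theorem A7_getD (l : List Ch) (k : ℕ) (hk : k < l.length) :
    l.getD k (false, false) = l[k] := List.getD_eq_getElem _ _ hk

theorem A7_fold (l : List Ch) (σ : St) (k : ℕ) (hk : k < l.length) :
    ((l.take (k + 1)).foldl nxt σ).2 = l[k].2 := by
  rw [List.take_add_one, List.foldl_append]
  rw [List.getElem?_eq_getElem hk]
  rfl

theorem A7_site {c : Fin 18} {β : Bool} {l : List Ch} (hl : l.length = 18)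
    (hok : okW c β (false, β) (c - 1) l = true) (x : Fin 18) :
    okc c β x ((toStr c l).2 x) ((toStr c l).1 x, (toStr c l).2 (x - 1)) = true := by
  have hk : (c - 1 - x).val < l.length := by rw [hl]; exact (c - 1 - x).isLt
  have h1 := A7_entry hok (c - 1 - x).val hk
  rw [A7_f2] at h1
  have h2 : ((toStr c l).1 x, (toStr c l).2 (x - 1)) = l[(c - 1 - x).val] := by
    unfold toStr
    dsimp only
    rw [A7_f5, A7_getD l _ hk]
  have h3 : (toStr c l).2 x = ((l.take (c - 1 - x).val).foldl nxt (false, β)).2 := by
    unfold toStr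
    dsimp only
    rcases Nat.eq_zero_or_pos (c - 1 - x).val with h4 | h4
    · rw [A7_f4 c x h4, A7_getD l 17 (by omega), A7_last hl hok, h4]
      rfl
    · obtain ⟨m, hm⟩ := Nat.exists_eq_add_of_lt h4
      rw [zero_add] at hm
      rw [A7_f3 c x (by omega), hm, Nat.add_sub_cancel, A7_getD l m (by omega),
        A7_fold l _ m (by omega)]
  rw [h2, h3]
  exact h1

/-- Let `l` have length `18` and first site `c - 1`: the entry number `k` belongs to the site
`c - 1 - k`, the last one (`k = 17`) to the site `c`. `okW` at that site (general lemma: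
`okW c β σ x (l₁ ++ ch :: l₂)` implies `okc c β (x - l₁.length) (l₁.foldl nxt σ).2 ch`, by induction)
gives `ch = (β, β)`, and then `nxt` is free. -/
theorem foldl_free {c : Fin 18} {β : Bool} {l : List Ch} (hl : l.length = 18)
    (hok : okW c β (false, β) (c - 1) l = true) : (l.foldl nxt (false, β)).1 = false := by

  have h1 : l = l.take (17 + 1) := by
    rw [List.take_of_length_le (by omega)]
  have h2 : l[17] = (β, β) := A7_last hl hok
  rw [h1, List.take_add_one, List.foldl_append, List.getElem?_eq_getElem (by omega), h2]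
  show (!((l.take 17).foldl nxt (false, β)).1 && (β != β)) = false
  rw [bne_self_eq_false, Bool.and_false]

theorem A7_ex1 : ∀ (l : List Ch) (x y : Fin 18), l.length ≤ 18 →
    (exW x l).1 y = if (x - y).val < l.length then
      ((l.getD (x - y).val (false, false)).1).toNat else 0 := by
  intro l
  induction l with
  | nil => intro x y _; rfl
  | cons ch l ih =>
    intro x y hl
    rw [List.length_cons] at hl
    have h1 : (exW x (ch :: l)).1 y = (if ch.1 then sv x else 0 : Ex).1 y +
        (if ch.2 then se (x - 1) else 0 : Ex).1 y + (exW (x - 1) l).1 y := rfl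
    rw [h1, ih (x - 1) y (by omega)]
    have h2 : (if ch.2 then se (x - 1) else 0 : Ex).1 y = 0 := by
      split_ifs <;> rfl
    rw [h2, add_zero]
    by_cases hxy : x = y
    · subst hxy
      have h3 : (x - 1 - x).val = 17 := A7_f6 x
      have h4 : (x - x).val = 0 := by rw [sub_self]; rfl
      rw [h3, h4, if_neg (show ¬ 17 < l.length by omega), add_zero,
        if_pos (show 0 < (ch :: l).length by rw [List.length_cons]; omega), List.getD_cons_zero]
      cases ch.1
      · rfl
      · show (Pi.single x 1 : Fin 18 → ℕ) x = 1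
        exact Pi.single_eq_same x 1
    · have h3 : (if ch.1 then sv x else 0 : Ex).1 y = 0 := by
        cases ch.1
        · rfl
        · show (Pi.single x 1 : Fin 18 → ℕ) y = 0
          exact Pi.single_eq_of_ne (Ne.symm hxy) 1
      have h4 : ∀ x y : Fin 18, x ≠ y → (x - y).val = (x - 1 - y).val + 1 := by decide
      rw [h3, zero_add, h4 x y hxy, List.length_cons, List.getD_cons_succ]
      simp only [Nat.add_lt_add_iff_right]

theorem A7_ex2 : ∀ (l : List Ch) (x y : Fin 18), l.length ≤ 18 →
    (exW x l).2 y = if (x - 1 - y).val < l.length then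
      ((l.getD (x - 1 - y).val (false, false)).2).toNat else 0 := by
  intro l
  induction l with
  | nil => intro x y _; rfl
  | cons ch l ih =>
    intro x y hl
    rw [List.length_cons] at hl
    have h1 : (exW x (ch :: l)).2 y = (if ch.1 then sv x else 0 : Ex).2 y +
        (if ch.2 then se (x - 1) else 0 : Ex).2 y + (exW (x - 1) l).2 y := rfl
    rw [h1, ih (x - 1) y (by omega)]
    have h2 : (if ch.1 then sv x else 0 : Ex).2 y = 0 := by
      split_ifs <;> rfl
    rw [h2, zero_add]
    by_cases hxy : x - 1 = y
    · subst hxy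
      have h3 : (x - 1 - 1 - (x - 1)).val = 17 := A7_f6 (x - 1)
      have h4 : (x - 1 - (x - 1)).val = 0 := by rw [sub_self]; rfl
      rw [h3, h4, if_neg (show ¬ 17 < l.length by omega), add_zero,
        if_pos (show 0 < (ch :: l).length by rw [List.length_cons]; omega), List.getD_cons_zero]
      cases ch.2
      · rfl
      · show (Pi.single (x - 1) 1 : Fin 18 → ℕ) (x - 1) = 1
        exact Pi.single_eq_same (x - 1) 1
    · have h3 : (if ch.2 then se (x - 1) else 0 : Ex).2 y = 0 := by
        cases ch.2
        · rfl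
        · show (Pi.single (x - 1) 1 : Fin 18 → ℕ) y = 0
          exact Pi.single_eq_of_ne (Ne.symm hxy) 1
      have h4 : ∀ x y : Fin 18, x ≠ y → (x - y).val = (x - 1 - y).val + 1 := by decide
      rw [h3, zero_add, h4 (x - 1) y hxy, List.length_cons, List.getD_cons_succ]
      simp only [Nat.add_lt_add_iff_right]

/-- `exW` collects the digits: the entry number `k` has `v` at the site `c - 1 - k` and `e` at
`c - 2 - k`; each site occurs once. (Induction on the list for a general statement
`exW x l = ∑ k < l.length, …`, then `Fin 18` reindexing.) -/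
theorem exW_eq (c : Fin 18) {l : List Ch} (hl : l.length = 18) :
    exW (c - 1) l = toEx (toStr c l) := by

  have h0 : ∀ c : Fin 18, c - 1 - 1 = c - 2 := by decide
  refine Prod.ext (funext fun y => ?_) (funext fun y => ?_)
  · rw [A7_ex1 l (c - 1) y (by omega), if_pos (by rw [hl]; exact (c - 1 - y).isLt)]
    rfl
  · rw [A7_ex2 l (c - 1) y (by omega), if_pos (by rw [hl]; exact (c - 1 - 1 - y).isLt), h0]
    rfl

/-- Let `s = toStr c l`. For the entry `ch` number `k`, at the site `x = c - 1 - k`: `s.1 x = ch.1`,
`s.2 (x - 1) = ch.2`, and the `e` given to `okc` is `s.2 x` (for `k = 0` it is `β`, and `s.2 (c-1) = β`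
because the last choice is `(β, β)`; for `k > 0` it is the second component of the previous choice).
So `okc` says: `s.1 c = s.2 (c-1) = s.2 c = β`, and for `x < c` not (`s.1 x = s.2 x` and
`s.2 (x-1) = s.2 x`); i.e. `dl (toEx s) c ∈ {0,3}`, `dl (toEx s) x ∉ {0,3}` for `x < c`. Hence `cof`
is `c` (`List.find?` on `finRange`). -/
theorem cof_toStr {c : Fin 18} {β : Bool} {l : List Ch} (hl : l.length = 18)
    (hok : okW c β (false, β) (c - 1) l = true) : cof (dl (toEx (toStr c l))) = c := by

  have hs := A7_site hl hok
  have hd : ∀ x, dl (toEx (toStr c l)) x = ((toStr c l).1 x).toNat + ((toStr c l).2 x).toNat +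
      ((toStr c l).2 (x - 1)).toNat := fun x => rfl
  have hc : dl (toEx (toStr c l)) c = 0 ∨ dl (toEx (toStr c l)) c = 3 := by
    have h1 := hs c
    rw [hd]
    generalize (toStr c l).1 c = a at *
    generalize (toStr c l).2 c = b at *
    generalize (toStr c l).2 (c - 1) = d at *
    unfold okc at h1
    rw [if_pos rfl] at h1
    revert h1
    cases a <;> cases b <;> cases d <;> cases β <;> decide
  have hx : ∀ x, x < c → ¬ (dl (toEx (toStr c l)) x = 0 ∨ dl (toEx (toStr c l)) x = 3) := by
    intro x hxc
    have h1 := hs x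
    rw [hd]
    generalize (toStr c l).1 x = a at *
    generalize (toStr c l).2 x = b at *
    generalize (toStr c l).2 (x - 1) = d at *
    unfold okc at h1
    rw [if_neg hxc.ne, if_pos hxc] at h1
    revert h1
    cases a <;> cases b <;> cases d <;> decide
  unfold cof
  have h2 : (List.finRange 18).find? (fun x => decide (dl (toEx (toStr c l)) x = 0 ∨
      dl (toEx (toStr c l)) x = 3)) = some c := by
    rw [List.find?_eq_some_iff_getElem]
    refine ⟨by simpa using hc, c.val, by simp, by rw [List.getElem_finRange]; rfl, ?_⟩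
    intro j hj
    have h3 := hx ⟨j, by omega⟩ (by rw [Fin.lt_def]; exact hj)
    simp only [List.getElem_finRange, Bool.not_eq_true', decide_eq_false_iff_not]
    exact h3
  rw [h2]
  rfl

/-- The bit at the breaker (see `cof_toStr`). -/
theorem bit_toStr {c : Fin 18} {β : Bool} {l : List Ch} (hl : l.length = 18)
    (hok : okW c β (false, β) (c - 1) l = true) : (toStr c l).1 c = β := by

  have h1 := A7_site hl hok c
  unfold okc at h1
  rw [if_pos rfl] at h1
  simp only [Bool.and_eq_true, beq_iff_eq] at h1
  exact h1.1.1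

/-- For fixed `c` the word is determined by its string. -/
theorem toStr_inj (c : Fin 18) {l l' : List Ch} (hl : l.length = 18) (hl' : l'.length = 18)
    (h : toStr c l = toStr c l') : l = l' := by

  refine List.ext_getElem (by omega) fun k hk hk' => ?_
  have hk18 : k < 18 := by omega
  have h1 : ∀ c : Fin 18, ∀ k : Fin 18, (c - 1 - (c - 1 - k)).val = k.val := by decide
  have h2 : ∀ c : Fin 18, ∀ k : Fin 18, (c - 2 - (c - 2 - k)).val = k.val := by decide
  refine Prod.ext ?_ ?_
  · have h3 := congrFun (congrArg Prod.fst h) (c - 1 - ⟨k, hk18⟩)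
    unfold toStr at h3
    dsimp only at h3
    rw [h1 c ⟨k, hk18⟩] at h3
    dsimp only at h3
    rwa [A7_getD l k hk, A7_getD l' k hk'] at h3
  · have h3 := congrFun (congrArg Prod.snd h) (c - 2 - ⟨k, hk18⟩)
    unfold toStr at h3
    dsimp only at h3
    rw [h2 c ⟨k, hk18⟩] at h3
    dsimp only at h3
    rwa [A7_getD l k hk, A7_getD l' k hk'] at h3

theorem toEx_injective : Function.Injective toEx := by

  have hb : ∀ a b : Bool, a.toNat = b.toNat → a = b := by decide
  intro s s' h
  refine Prod.ext (funext fun x => ?_) (funext fun x => ?_)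
  · exact hb _ _ (congrFun (congrArg Prod.fst h) x)
  · exact hb _ _ (congrFun (congrArg Prod.snd h) x)

end Pool.Agent.NHT
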