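import Pool.Agent.NHT.A0

set_option autoImplicit false

/-!
NHT-A8: the count. The words are counted by type with a generating polynomial in two variables, packed
into one number (evaluated at `X = B ^ 19`, `Y = B`); its digits are the numbers of words.
-/

namespace Pool.Agent.NHT

open Finset

/-- the basis of the digits -/
def A8_B : ℕ := 2 ^ 64

/-- number of words of type exactly `(i, j)` -/
def A8_ex (c : Fin 18) (β : Bool) : ℕ → St → Fin 18 → ℕ → ℕ → ℕ
  | 0, _, _, i, j => if i = 0 ∧ j = 0 then 1 else 0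
  | k + 1, σ, x, i, j => (chs.map (fun ch =>
      if okc c β x σ.2 ch ∧ (wty σ x ch).1 ≤ i ∧ (wty σ x ch).2 ≤ j then
        A8_ex c β k (nxt σ ch) (x - 1) (i - (wty σ x ch).1) (j - (wty σ x ch).2)
      else 0)).sum

/-- generating function at `X = B ^ 19`, `Y = B` -/
def A8_gv (B : ℕ) (c : Fin 18) (β : Bool) : ℕ → St → Fin 18 → ℕ
  | 0, _, _ => 1
  | k + 1, σ, x => (chs.map (fun ch =>
      if okc c β x σ.2 ch then
        B ^ (19 * (wty σ x ch).1 + (wty σ x ch).2) * A8_gv B c β k (nxt σ ch) (x - 1)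
      else 0)).sum

theorem A8_sum4 (f : Ch → ℕ) : (chs.map f).sum =
    f (false, false) + f (false, true) + f (true, false) + f (true, true) := by
  simp [chs, add_assoc]

theorem A8_wty (σ : St) (x : Fin 18) (ch : Ch) : (wty σ x ch).1 ≤ 1 ∧ (wty σ x ch).2 ≤ 1 := by
  obtain ⟨a, b⟩ := σ
  obtain ⟨p, q⟩ := ch
  have h : ∀ y : Fin 18, (ty y).1 ≤ 1 ∧ (ty y).2 ≤ 1 := by
    intro y
    unfold ty
    split_ifs <;> simp
  cases a <;> cases b <;> cases p <;> cases q <;> simp [wty, h]

/-- words of length `k` have type at most `(k, k)` -/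
theorem A8_ex_zero (c : Fin 18) (β : Bool) : ∀ (k : ℕ) (σ : St) (x : Fin 18) (i j : ℕ),
    (k < i ∨ k < j) → A8_ex c β k σ x i j = 0 := by
  intro k
  induction k with
  | zero =>
    intro σ x i j h
    unfold A8_ex
    rw [if_neg]
    omega
  | succ k ih =>
    intro σ x i j h
    unfold A8_ex
    rw [A8_sum4]
    have h1 : ∀ ch : Ch, (if okc c β x σ.2 ch ∧ (wty σ x ch).1 ≤ i ∧ (wty σ x ch).2 ≤ j then
        A8_ex c β k (nxt σ ch) (x - 1) (i - (wty σ x ch).1) (j - (wty σ x ch).2)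
      else 0) = 0 := by
      intro ch
      have h2 := A8_wty σ x ch
      split_ifs with h3
      · exact ih _ _ _ _ (by omega)
      · rfl
    simp only [h1]

theorem A8_ex_le (c : Fin 18) (β : Bool) : ∀ (k : ℕ) (σ : St) (x : Fin 18) (i j : ℕ),
    A8_ex c β k σ x i j ≤ 4 ^ k := by
  intro k
  induction k with
  | zero =>
    intro σ x i j
    unfold A8_ex
    split_ifs <;> simp
  | succ k ih =>
    intro σ x i j
    unfold A8_ex
    rw [A8_sum4]
    have h1 : ∀ ch : Ch, (if okc c β x σ.2 ch ∧ (wty σ x ch).1 ≤ i ∧ (wty σ x ch).2 ≤ j then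
        A8_ex c β k (nxt σ ch) (x - 1) (i - (wty σ x ch).1) (j - (wty σ x ch).2)
      else 0) ≤ 4 ^ k := by
      intro ch
      split_ifs with h3
      · exact ih _ _ _ _
      · exact Nat.zero_le _
    have h2 := h1 (false, false)
    have h3 := h1 (false, true)
    have h4 := h1 (true, false)
    have h5 := h1 (true, true)
    have h6 : 4 ^ (k + 1) = 4 ^ k * 4 := pow_succ 4 k
    omega

theorem A8_shift (w s : ℕ) (g : ℕ → ℕ) : (∑ i ∈ range (s + 1), if w ≤ i then g (i - w) else 0) =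
    if w ≤ s then ∑ i ∈ range (s - w + 1), g i else 0 := by
  induction s with
  | zero =>
    rcases Nat.eq_zero_or_pos w with h | h
    · subst h
      simp
    · rw [if_neg (by omega)]
      simp [show ¬ w ≤ 0 by omega]
  | succ s ih =>
    rw [sum_range_succ, ih]
    by_cases h1 : w ≤ s
    · rw [if_pos h1, if_pos (by omega), if_pos (by omega), show s + 1 - w = (s - w) + 1 by omega,
        sum_range_succ _ (s - w + 1)]
    · rw [if_neg h1]
      by_cases h2 : w = s + 1
      · rw [if_pos (by omega), if_pos (by omega), h2, Nat.sub_self]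
        simp
      · rw [if_neg (by omega), if_neg (by omega)]

theorem A8_shift2 (p : Prop) [Decidable p] (w v s t : ℕ) (g : ℕ → ℕ → ℕ) :
    (∑ i ∈ range (s + 1), ∑ j ∈ range (t + 1), if p ∧ w ≤ i ∧ v ≤ j then g (i - w) (j - v) else 0) =
    if p ∧ w ≤ s ∧ v ≤ t then ∑ i ∈ range (s - w + 1), ∑ j ∈ range (t - v + 1), g i j else 0 := by
  by_cases hp : p
  · simp only [hp, true_and]
    have h1 : ∀ i, (∑ j ∈ range (t + 1), if w ≤ i ∧ v ≤ j then g (i - w) (j - v) else 0) =
        if w ≤ i then (if v ≤ t then ∑ j ∈ range (t - v + 1), g (i - w) j else 0) else 0 := by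
      intro i
      by_cases hi : w ≤ i
      · simp only [hi, true_and, if_true]
        exact A8_shift v t (g (i - w))
      · simp [hi]
    simp only [h1]
    rw [A8_shift w s (fun i => if v ≤ t then ∑ j ∈ range (t - v + 1), g i j else 0)]
    by_cases hs : w ≤ s
    · by_cases ht : v ≤ t
      · simp [hs, ht]
      · simp [ht]
    · simp [hs]
  · simp [hp]

theorem A8_cnt (c : Fin 18) (β : Bool) : ∀ (k : ℕ) (σ : St) (x : Fin 18) (s t : ℕ),
    cnt c β k σ x s t = ∑ i ∈ range (s + 1), ∑ j ∈ range (t + 1), A8_ex c β k σ x i j := by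
  intro k
  induction k with
  | zero =>
    intro σ x s t
    unfold cnt A8_ex
    rw [sum_eq_single 0, sum_eq_single 0]
    · simp
    · intro b _ hb
      simp [hb]
    · simp
    · intro b _ hb
      simp [hb]
    · simp
  | succ k ih =>
    intro σ x s t
    unfold cnt A8_ex
    simp only [A8_sum4, sum_add_distrib, A8_shift2, ih]

theorem A8_shift3 (p : Prop) [Decidable p] (w v n : ℕ) (hw : w ≤ 1) (hv : v ≤ 1) (g : ℕ → ℕ → ℕ)
    (hg : ∀ i j, (n ≤ i ∨ n ≤ j) → g i j = 0) :
    (∑ i ∈ range (n + 1), ∑ j ∈ range (n + 1),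
      if p ∧ w ≤ i ∧ v ≤ j then g (i - w) (j - v) else 0) =
    if p then ∑ i ∈ range (n + 1), ∑ j ∈ range (n + 1), g i j else 0 := by
  by_cases hp : p
  swap
  · simp [hp]
  rw [A8_shift2]
  have h1 : ∀ i u, u ≤ 1 → ∑ j ∈ range (n - u + 1), g i j = ∑ j ∈ range (n + 1), g i j := by
    intro i u hu
    apply sum_subset (range_subset_range.2 (by omega))
    intro j hj hj2
    rw [mem_range] at hj hj2
    exact hg _ _ (by omega)
  have h2 : ∀ u, u ≤ 1 → ∑ i ∈ range (n - u + 1), ∑ j ∈ range (n + 1), g i j =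
      ∑ i ∈ range (n + 1), ∑ j ∈ range (n + 1), g i j := by
    intro u hu
    apply sum_subset (range_subset_range.2 (by omega))
    intro i hj hj2
    rw [mem_range] at hj hj2
    exact sum_eq_zero fun j _ => hg _ _ (by omega)
  by_cases hn : n = 0
  · have h3 : ∀ i j, g i j = 0 := fun i j => hg i j (by omega)
    simp [h3]
  · rw [if_pos ⟨hp, by omega, by omega⟩, if_pos hp]
    simp only [h1 _ v hv, h2 w hw]

theorem A8_aux (B E a b i j : ℕ) (h4 : a ≤ i) (h5 : b ≤ j) :
    E * B ^ (19 * i + j) = B ^ (19 * a + b) * (E * B ^ (19 * (i - a) + (j - b))) := by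
  have h : 19 * i + j = (19 * a + b) + (19 * (i - a) + (j - b)) := by omega
  rw [h, pow_add]
  ring

theorem A8_gv_eq (B : ℕ) (c : Fin 18) (β : Bool) : ∀ (k : ℕ), k ≤ 18 → ∀ (σ : St) (x : Fin 18),
    A8_gv B c β k σ x =
      ∑ i ∈ range 19, ∑ j ∈ range 19, A8_ex c β k σ x i j * B ^ (19 * i + j) := by
  intro k
  induction k with
  | zero =>
    intro _ σ x
    unfold A8_gv A8_ex
    rw [sum_eq_single 0, sum_eq_single 0]
    · simp
    · intro b _ hb
      simp [hb]
    · simp
    · intro b _ hb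
      simp [hb]
    · simp
  | succ k ih =>
    intro hk σ x
    have h1 : ∀ ch : Ch, (∑ i ∈ range 19, ∑ j ∈ range 19,
        (if okc c β x σ.2 ch ∧ (wty σ x ch).1 ≤ i ∧ (wty σ x ch).2 ≤ j then
          A8_ex c β k (nxt σ ch) (x - 1) (i - (wty σ x ch).1) (j - (wty σ x ch).2)
        else 0) * B ^ (19 * i + j)) =
        if okc c β x σ.2 ch then
        B ^ (19 * (wty σ x ch).1 + (wty σ x ch).2) * A8_gv B c β k (nxt σ ch) (x - 1)
      else 0 := by
      intro ch
      obtain ⟨hw, hv⟩ := A8_wty σ x ch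
      have h2 := A8_shift3 (okc c β x σ.2 ch = true) (wty σ x ch).1 (wty σ x ch).2 18 hw hv
        (fun i j => B ^ (19 * (wty σ x ch).1 + (wty σ x ch).2) *
          (A8_ex c β k (nxt σ ch) (x - 1) i j * B ^ (19 * i + j))) (by
          intro i j hij
          rw [A8_ex_zero c β k _ _ i j (by omega), zero_mul, mul_zero])
      rw [ih (by omega), mul_sum]
      simp only [mul_sum]
      refine Eq.trans ?_ h2
      refine sum_congr rfl fun i _ => sum_congr rfl fun j _ => ?_
      split_ifs with h3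
      · obtain ⟨_, h4, h5⟩ := h3
        exact A8_aux B _ _ _ i j h4 h5
      · rw [zero_mul]
    unfold A8_gv A8_ex
    simp only [A8_sum4, sum_add_distrib, add_mul, h1]

theorem A8_lt (B : ℕ) (hB : 0 < B) (b : ℕ → ℕ) (hb : ∀ m, b m < B) (n : ℕ) :
    ∑ m ∈ range n, b m * B ^ m < B ^ n := by
  induction n with
  | zero => simp
  | succ n ih =>
    rw [sum_range_succ, pow_succ]
    have h1 : b n * B ^ n ≤ (B - 1) * B ^ n := Nat.mul_le_mul_right _ (by have := hb n; omega)
    have h2 : (B - 1) * B ^ n + B ^ n = B ^ n * B := by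
      rw [← Nat.succ_mul, mul_comm]
      congr 1
      omega
    omega

theorem A8_digit (B : ℕ) (hB : 0 < B) (b : ℕ → ℕ) (hb : ∀ m, b m < B) (n p : ℕ) (hp : p < n) :
    (∑ m ∈ range n, b m * B ^ m) / B ^ p % B = b p := by
  induction n with
  | zero => omega
  | succ n ih =>
    rw [sum_range_succ]
    by_cases h : p = n
    · subst h
      rw [Nat.add_mul_div_right _ _ (pow_pos hB p), Nat.div_eq_of_lt (A8_lt B hB b hb p), zero_add]
      exact Nat.mod_eq_of_lt (hb p)
    · have h1 : b n * B ^ n = (b n * B ^ (n - p - 1) * B) * B ^ p := by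
        rw [mul_assoc (b n), ← pow_succ, mul_assoc (b n), ← pow_add]
        congr 2
        omega
      rw [h1, Nat.add_mul_div_right _ _ (pow_pos hB p), Nat.add_mul_mod_self_right]
      exact ih (by omega)

/-- the sum of the digits `(i, j)` with `i, j ≤ 4` -/
def A8_dig (N : ℕ) : ℕ :=
  ∑ i ∈ range 5, ∑ j ∈ range 5, N / (A8_B ^ 19) ^ i % (A8_B ^ 19) / A8_B ^ j % A8_B

theorem A8_dig_eq (c : Fin 18) (β : Bool) (σ : St) (x : Fin 18) :
    A8_dig (A8_gv A8_B c β 18 σ x) = cnt c β 18 σ x 4 4 := by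
  rw [A8_cnt]
  unfold A8_dig
  have hB : 0 < A8_B := by unfold A8_B; positivity
  have hlt : ∀ i j, A8_ex c β 18 σ x i j < A8_B := fun i j =>
    lt_of_le_of_lt (A8_ex_le c β 18 σ x i j) (by unfold A8_B; norm_num)
  have hR : ∀ i, ∑ j ∈ range 19, A8_ex c β 18 σ x i j * A8_B ^ j < A8_B ^ 19 := fun i =>
    A8_lt A8_B hB _ (hlt i) 19
  have hN : A8_gv A8_B c β 18 σ x = ∑ i ∈ range 19,
      (∑ j ∈ range 19, A8_ex c β 18 σ x i j * A8_B ^ j) * (A8_B ^ 19) ^ i := by
    rw [A8_gv_eq A8_B c β 18 le_rfl]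
    refine sum_congr rfl fun i _ => ?_
    rw [sum_mul]
    refine sum_congr rfl fun j _ => ?_
    rw [pow_add, pow_mul]
    ring
  rw [hN]
  refine sum_congr rfl fun i hi => sum_congr rfl fun j hj => ?_
  rw [mem_range] at hi hj
  rw [A8_digit (A8_B ^ 19) (pow_pos hB 19) _ hR 19 i (by omega),
    A8_digit A8_B hB _ (hlt i) 19 j (by omega)]

/-- reading the table -/
def A8_get (T : ℕ × ℕ × ℕ × ℕ) : St → ℕ
  | (false, false) => T.1
  | (false, true) => T.2.1
  | (true, false) => T.2.2.1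
  | (true, true) => T.2.2.2

/-- one entry of the next table -/
def A8_f (c : Fin 18) (β : Bool) (x : Fin 18) (T : ℕ × ℕ × ℕ × ℕ) (σ : St) : ℕ :=
  (chs.map (fun ch => if okc c β x σ.2 ch then
        A8_B ^ (19 * (wty σ x ch).1 + (wty σ x ch).2) * A8_get T (nxt σ ch) else 0)).sum

/-- one step -/
def A8_step (c : Fin 18) (β : Bool) (x : Fin 18) (T : ℕ × ℕ × ℕ × ℕ) : ℕ × ℕ × ℕ × ℕ :=
  (A8_f c β x T (false, false), A8_f c β x T (false, true), A8_f c β x T (true, false),
    A8_f c β x T (true, true))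

/-- all tables -/
def A8_run (c : Fin 18) (β : Bool) : ℕ → ℕ × ℕ × ℕ × ℕ
  | 0 => (1, 1, 1, 1)
  | k + 1 => A8_step c β (c - 1 - Fin.ofNat 18 (17 - k)) (A8_run c β k)

theorem A8_get_step (c : Fin 18) (β : Bool) (x : Fin 18) (T : ℕ × ℕ × ℕ × ℕ) (σ : St) :
    A8_get (A8_step c β x T) σ = A8_f c β x T σ := by
  obtain ⟨a, b⟩ := σ
  cases a <;> cases b <;> rfl

theorem A8_main (c : Fin 18) (β : Bool) : ∀ (k : ℕ), k ≤ 18 → ∀ (σ : St),
    A8_get (A8_run c β k) σ = A8_gv A8_B c β k σ (c - 1 - Fin.ofNat 18 (18 - k)) := by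
  intro k
  induction k with
  | zero =>
    intro _ σ
    obtain ⟨a, b⟩ := σ
    cases a <;> cases b <;> rfl
  | succ k ih =>
    intro hk σ
    have hx : (c - 1 - Fin.ofNat 18 (18 - (k + 1)) : Fin 18) = c - 1 - Fin.ofNat 18 (17 - k) := by
      rw [show 18 - (k + 1) = 17 - k by omega]
    have hx2 : (c - 1 - Fin.ofNat 18 (17 - k) - 1 : Fin 18) = c - 1 - Fin.ofNat 18 (18 - k) := by
      have h5 : (Fin.ofNat 18 (18 - k) : Fin 18) = Fin.ofNat 18 (17 - k) + 1 := by
        apply Fin.ext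
        rw [Fin.val_add]
        simp only [Fin.ofNat_eq_cast, Fin.val_natCast, Fin.val_one]
        omega
      rw [h5, sub_sub (c - 1)]
    rw [hx]
    show A8_get (A8_step c β _ (A8_run c β k)) σ = _
    rw [A8_get_step]
    unfold A8_f A8_gv
    rw [hx2]
    congr 1
    apply List.map_congr_left
    intro ch _
    rw [ih (by omega)]

/-- the number for `(c, β)` -/
def A8_num (c : Fin 18) (β : Bool) : ℕ := A8_dig (A8_get (A8_run c β 18) (false, β))

theorem A8_num_eq (c : Fin 18) (β : Bool) : cnt c β 18 (false, β) (c - 1) 4 4 = A8_num c β := by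
  have h := A8_main c β 18 le_rfl (false, β)
  have h0 : (c - 1 - Fin.ofNat 18 (18 - 18) : Fin 18) = c - 1 := by
    have : (Fin.ofNat 18 (18 - 18) : Fin 18) = 0 := rfl
    rw [this, sub_zero]
  rw [h0] at h
  unfold A8_num
  rw [h, A8_dig_eq]

theorem A8_comp : ((List.finRange 18).map (fun c => A8_num c true + A8_num c false)).sum =
    8687672299 := by
  decide +kernel

/-- The sum of the `36` counts. -/
theorem sum_cnt : (∑ c : Fin 18, ∑ β : Bool, cnt c β 18 (false, β) (c - 1) 4 4) = 8687672299 := by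
  rw [← A8_comp, ← Fin.sum_univ_def]
  refine Finset.sum_congr rfl fun c _ => ?_
  rw [Fintype.sum_bool, A8_num_eq, A8_num_eq]

end Pool.Agent.NHT
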