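import Pool.Agent.NHT.A2
import Pool.Agent.NHT.A5
import Pool.Agent.NHT.A6
import Pool.Agent.NHT.A7
import Pool.Agent.NHT.A8

set_option autoImplicit false

/-!
NHT-A9: the dimension of the code.
-/

namespace Pool.Agent.NHT

open Finset Module

/-- The index type of the family: least breaker, its bit, word. -/
abbrev Ix := Σ (c : Fin 18) (β : Bool), {l : List Ch // l ∈ wds c β}

noncomputable instance : Fintype Ix := by
  classical
  haveI : ∀ (c : Fin 18) (β : Bool), Fintype {l : List Ch // l ∈ wds c β} := fun c β =>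
    Fintype.subtype (wds c β).toFinset (fun l => by simp)
  infer_instance

theorem A9_mem {c : Fin 18} {β : Bool} {l : List Ch} (h : l ∈ wds c β) :
    l.length = 18 ∧ okW c β (false, β) (c - 1) l = true ∧ (runTy (false, β) (c - 1) l).1 ≤ 4 ∧
      (runTy (false, β) (c - 1) l).2 ≤ 4 :=
  mem_words c β 18 (false, β) (c - 1) 4 4 l h

theorem A9_card (c : Fin 18) (β : Bool) :
    Nat.card {l : List Ch // l ∈ wds c β} = cnt c β 18 (false, β) (c - 1) 4 4 := by
  classical
  have h1 : (wds c β).toFinset.card = (wds c β).length :=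
    List.toFinset_card_of_nodup (nodup_words c β 18 (false, β) (c - 1) 4 4)
  rw [Nat.subtype_card (wds c β).toFinset (fun l => by simp), h1]
  exact length_words c β 18 (false, β) (c - 1) 4 4

/-- `nodup_words`, `length_words`, `sum_cnt`. -/
theorem card_Ix : Fintype.card Ix = 8687672299 := by
  rw [Fintype.card_eq_nat_card, Nat.card_sigma, ← sum_cnt]
  refine Finset.sum_congr rfl fun c _ => ?_
  rw [Nat.card_sigma]
  exact Finset.sum_congr rfl fun β _ => A9_card c β

/-- `linInd_of_tri` with `b = fun s => mon (toEx s)` (`linInd_mon`), `lam = toStr c l` (injective: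
`cof_toStr`, `bit_toStr`, `toStr_inj`), `ρ s = rho (toEx s)`, `Lead.rho`, `Lead_run` (with
`pend (false, β) _ = 0`, `exW_eq`, `foldl_free`). -/
theorem linInd_run : LinearIndependent K
    (fun i : Ix => run (false, i.2.1) (i.1 - 1) i.2.2.1) := by
  refine linInd_of_tri (fun s : Str => mon (toEx s)) linInd_mon
    (fun i : Ix => toStr i.1 i.2.2.1) ?_ (fun s => rho (toEx s)) _ ?_
  · rintro ⟨c, β, l, hl⟩ ⟨c', β', l', hl'⟩ h
    simp only at h
    obtain ⟨h1, h2, -, -⟩ := A9_mem hl
    obtain ⟨h1', h2', -, -⟩ := A9_mem hl'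
    have hc : c = c' := by
      rw [← cof_toStr h1 h2, h, cof_toStr h1' h2']
    subst hc
    have hβ : β = β' := by
      rw [← bit_toStr h1 h2, h, bit_toStr h1' h2']
    subst hβ
    have hll : l = l' := toStr_inj c h1 h1' h
    subst hll
    rfl
  · rintro ⟨c, β, l, hl⟩
    obtain ⟨h1, h2, -, -⟩ := A9_mem hl
    have h3 := Lead_run c β l (false, β) (c - 1) h2 (foldl_free h1 h2)
    have h4 : pend (false, β) (c - 1) = 0 := by simp [pend]
    rw [h4, zero_add, exW_eq c h1] at h3
    exact Lead.rho (cof_toStr h1 h2) h3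

/-- `card_le_finrank_D`, `Typ_run`, `mem_words`, `Typ_mono`. -/
theorem finrank_D : 8687672299 ≤ finrank (ZMod 2) D := by
  rw [← card_Ix]
  refine card_le_finrank_D _ linInd_run ?_
  rintro ⟨c, β, l, hl⟩
  obtain ⟨-, -, h3, h4⟩ := A9_mem hl
  exact Typ_mono h3 h4 (Typ_run l (false, β) (c - 1))

end Pool.Agent.NHT
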