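import Pool.Agent.HTE.Defs

set_option autoImplicit false

/-!
Part II of NHT (NHT_proof.md, section II): partial drawings.
-/

namespace Pool.Agent.NHT

open Pool.Agent.HTE

/-- A partial drawing: as `Drawing`, but `t0` may have fixed points (open flags). `L` lists the open
ends (by their left flags) in the cyclic order around the outer face; the right flag of the end `x ∈ L`
is `t2 x`. -/
structure PD {V : Type} (G : SimpleGraph V) where
  D : Type
  fin : Fintype D
  t0 : D → D
  t1 : D → D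
  t2 : D → D
  t0_t0 : ∀ d, t0 (t0 d) = d
  t1_t1 : ∀ d, t1 (t1 d) = d
  t2_t2 : ∀ d, t2 (t2 d) = d
  t1_ne : ∀ d, t1 d ≠ d
  t2_ne : ∀ d, t2 d ≠ d
  t0_t2 : ∀ d, t0 (t2 d) = t2 (t0 d)
  t0_t2_ne : ∀ d, t0 (t2 d) ≠ d
  conn : ∀ P : D → Prop, (∀ d, P d → P (t0 d) ∧ P (t1 d) ∧ P (t2 d)) → (∃ d, P d) → ∀ d, P d
  cross : D → Prop
  lab : D → G.Dart
  lab_t2 : ∀ d, lab (t2 d) = lab d
  lab_t0 : ∀ d, t0 d ≠ d → lab (t0 d) = (lab d).symm
  cross_t1 : ∀ d, cross (t1 d) ↔ cross d
  cross_t2 : ∀ d, cross (t2 d) ↔ cross d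
  cross_four : ∀ d, cross d → t1 (t2 (t1 (t2 (t1 (t2 (t1 (t2 d))))))) = d
  cross_opp : ∀ d, cross d → lab (t1 (t2 (t1 (t2 d)))) = (lab d).symm
  cross_ne : ∀ d, cross d → (lab (t1 d)).edge ≠ (lab d).edge
  fst_t1 : ∀ d, ¬ cross d → (lab (t1 d)).fst = (lab d).fst
  fst_conn : ∀ d e, ¬ cross d → ¬ cross e → (lab d).fst = (lab e).fst →
    ∀ P : D → Prop, (∀ x, P x → P (t1 x) ∧ P (t2 x)) → P d → P e
  vert_uniq : ∀ d e, ¬ cross d → ¬ cross e → lab d = lab e → e = d ∨ e = t2 d
  L : List D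
  L_nodup : (L ++ L.map t2).Nodup
  L_open : ∀ d, t0 d = d ↔ d ∈ L ∨ d ∈ L.map t2

/-- `(t2 a, b₁), (t2 b₁, b₂), …, (t2 b_k, z)` for `l = [b₁, …, b_k]`. -/
def chainL {D : Type} (t2 : D → D) : D → List D → D → List (D × D)
  | a, [], z => [(t2 a, z)]
  | a, b :: l, z => (t2 a, b) :: chainL t2 b l z

/-- The pairs `(t2 x, y)`, `y` the cyclic successor of `x` in the list. -/
def links {D : Type} (t2 : D → D) : List D → List (D × D)
  | [] => []
  | x :: l => chainL t2 x l x

namespace PD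

variable {V : Type} {G : SimpleGraph V}

/-- Number of vertices. -/
noncomputable def nV (X : PD G) : ℕ := Nat.card (Quot (fun d e : X.D => e = X.t1 d ∨ e = X.t2 d))

/-- The relation whose classes are the faces, including the faces between consecutive open ends. -/
def faceRel (X : PD G) (d e : X.D) : Prop :=
  e = X.t0 d ∨ e = X.t1 d ∨ (d, e) ∈ links X.t2 X.L

/-- Number of faces. -/
noncomputable def nF (X : PD G) : ℕ := Nat.card (Quot X.faceRel)

/-- The Euler characteristic of the closed surface (disc glued in) is at least `2 - c`. -/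
def chiOK (X : PD G) (c : ℕ) : Prop :=
  8 + Nat.card X.D + 2 * X.L.length ≤ 4 * X.nF + 4 * X.nV + (if X.L = [] then 0 else 4) + 4 * c

/-- `d` is the `n`-th flag of the strand that starts at a vertex. -/
inductive Anc (X : PD G) : ℕ → X.D → Prop
  | zero (d : X.D) (h : ¬ X.cross d) : Anc X 0 d
  | succ (n : ℕ) (d : X.D) (h : Anc X n d) (h0 : X.t0 d ≠ d) (hc : X.cross (X.t0 d)) :
      Anc X (n + 1) (X.t1 (X.t2 (X.t1 (X.t0 d))))

/-- The invariants: the placed vertices are those in `U`; open flags are reached from a vertex; at every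
crossing one of the two opposite directions is reached from a vertex. -/
structure Good (X : PD G) (U : Set V) : Prop where
  placed : ∀ a : G.Dart, (∃ d, ¬ X.cross d ∧ X.lab d = a) ↔ a.fst ∈ U
  anc_open : ∀ d, X.t0 d = d → ∃ n, X.Anc n d
  anc_all : ∀ d, X.cross d → (∃ n, X.Anc n d) ∨ ∃ n, X.Anc n (X.t1 (X.t2 (X.t1 (X.t2 d))))

/-- Four times the number of crossings of the edges `e ≠ f`. -/
noncomputable def cr (X : PD G) (e f : Sym2 V) : ℕ :=
  Nat.card {d : X.D // X.cross d ∧ (X.lab d).edge = e ∧ (X.lab (X.t1 d)).edge = f}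

end PD

variable {V : Type}

/-- There is a partial drawing with placed vertices `U`, list of labels `l` of the open ends, on a surface of
Euler characteristic at least `2 - c`, in which `e ≠ f` cross `p e f` times modulo `2`. -/
def Reach (G : SimpleGraph V) (U : Set V) (l : List G.Dart) (c : ℕ)
    (p : Sym2 V → Sym2 V → ZMod 2) : Prop :=
  ∃ X : PD G, X.Good U ∧ X.L.map X.lab = l ∧ X.chiOK c ∧
    ∀ e f, e ≠ f → ∃ m : ℕ, X.cr e f = 4 * m ∧ (m : ZMod 2) = p e f

open Classical in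
/-- One more crossing of `x` and `y`. -/
noncomputable def bump (x y : Sym2 V) (p : Sym2 V → Sym2 V → ZMod 2) : Sym2 V → Sym2 V → ZMod 2 :=
  fun e f => p e f + (if (e = x ∧ f = y) ∨ (e = y ∧ f = x) then 1 else 0)

end Pool.Agent.NHT
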