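import Pool.Agent.NHT.B0

set_option autoImplicit false

/-!
NHT-B1: counting classes; the links of a list.
-/

namespace Pool.Agent.NHT

/-- `Quot r' → Quot r` is well defined and surjective. -/
theorem card_quot_le {D : Type*} [Finite D] {r r' : D → D → Prop}
    (h : ∀ d e, r' d e → Relation.EqvGen r d e) : Nat.card (Quot r) ≤ Nat.card (Quot r') := by

  refine Nat.card_le_card_of_surjective
    (Quot.lift (Quot.mk r) fun d e hde => Quot.eqvGen_sound (h d e hde)) ?_
  intro q
  induction q using Quot.ind with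
  | mk d => exact ⟨Quot.mk r' d, rfl⟩

theorem B1_gen {D : Type*} {r : D → D → Prop} (a b : D) {d e : D}
    (h : Relation.EqvGen (fun x y => r x y ∨ (x = a ∧ y = b)) d e) :
    Relation.EqvGen r d e ∨ (Relation.EqvGen r d a ∧ Relation.EqvGen r b e) ∨
      (Relation.EqvGen r d b ∧ Relation.EqvGen r a e) := by
  induction h with
  | rel x y h =>
    rcases h with h | ⟨rfl, rfl⟩
    · exact Or.inl (Relation.EqvGen.rel _ _ h)
    · exact Or.inr (Or.inl ⟨Relation.EqvGen.refl _, Relation.EqvGen.refl _⟩)
  | refl x => exact Or.inl (Relation.EqvGen.refl _)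
  | symm x y _ ih =>
    rcases ih with h | ⟨h1, h2⟩ | ⟨h1, h2⟩
    · exact Or.inl (h.symm _ _)
    · exact Or.inr (Or.inr ⟨h2.symm _ _, h1.symm _ _⟩)
    · exact Or.inr (Or.inl ⟨h2.symm _ _, h1.symm _ _⟩)
  | trans x y z _ _ ih1 ih2 =>
    rcases ih1 with h | ⟨h1, h2⟩ | ⟨h1, h2⟩
    · rcases ih2 with k | ⟨k1, k2⟩ | ⟨k1, k2⟩
      · exact Or.inl (h.trans _ _ _ k)
      · exact Or.inr (Or.inl ⟨h.trans _ _ _ k1, k2⟩)
      · exact Or.inr (Or.inr ⟨h.trans _ _ _ k1, k2⟩)
    · rcases ih2 with k | ⟨k1, k2⟩ | ⟨k1, k2⟩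
      · exact Or.inr (Or.inl ⟨h1, h2.trans _ _ _ k⟩)
      · exact Or.inr (Or.inl ⟨h1, k2⟩)
      · exact Or.inl (h1.trans _ _ _ k2)
    · rcases ih2 with k | ⟨k1, k2⟩ | ⟨k1, k2⟩
      · exact Or.inr (Or.inr ⟨h1, h2.trans _ _ _ k⟩)
      · exact Or.inl (h1.trans _ _ _ k2)
      · exact Or.inr (Or.inr ⟨h1, k2⟩)

/-- Adding one pair lowers the number of classes by at most one: the map `Quot r → Quot (r ∪ {(a,b)})` is injective
outside the class of `b`, so `card (Quot r) ≤ card (Quot (r ∪ (a,b))) + 1` (for example: choose for each class of the new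
relation ... ; or: the set `Quot r \ {[b]}` injects, because two elements `d, e` that are equivalent for `r ∪ {(a,b)}` and not
for `r` are, in some order, equivalent to `a` and to `b` for `r`); then `card_quot_le` for the second relation and `r'`. -/
theorem card_quot_le_succ {D : Type*} [Finite D] {r r' : D → D → Prop} (a b : D)
    (h : ∀ d e, r' d e → Relation.EqvGen (fun x y => r x y ∨ (x = a ∧ y = b)) d e) :
    Nat.card (Quot r) ≤ Nat.card (Quot r') + 1 := by

  classical
  have h1 : Nat.card (Quot r) ≤ Nat.card (Quot fun x y => r x y ∨ (x = a ∧ y = b)) + 1 := by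
    rw [← Finite.card_option]
    let p : Quot r → Quot (fun x y => r x y ∨ (x = a ∧ y = b)) :=
      Quot.lift (Quot.mk _) fun d e hde => Quot.sound (Or.inl hde)
    refine Nat.card_le_card_of_injective
      (fun q => if q = Quot.mk r b then none else some (p q)) ?_
    intro q q' hqq
    dsimp only at hqq
    by_cases h2 : q = Quot.mk r b
    · by_cases h3 : q' = Quot.mk r b
      · rw [h2, h3]
      · rw [if_pos h2, if_neg h3] at hqq
        exact absurd hqq.symm (Option.some_ne_none _)
    · by_cases h3 : q' = Quot.mk r b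
      · rw [if_neg h2, if_pos h3] at hqq
        exact absurd hqq (Option.some_ne_none _)
      · rw [if_neg h2, if_neg h3] at hqq
        have h4 := Option.some_injective _ hqq
        induction q using Quot.ind with
        | mk d =>
          induction q' using Quot.ind with
          | mk e =>
            have h5 := Quot.eqvGen_exact h4
            rcases B1_gen a b h5 with h6 | ⟨-, h7⟩ | ⟨h6, -⟩
            · exact Quot.eqvGen_sound h6
            · exact absurd (Quot.eqvGen_sound h7).symm h3
            · exact absurd (Quot.eqvGen_sound h6) h2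
  exact h1.trans (Nat.add_le_add_right (card_quot_le h) 1)

theorem chainL_append {D : Type} (t2 : D → D) (a b z : D) (l₁ l₂ : List D) :
    chainL t2 a (l₁ ++ b :: l₂) z = chainL t2 a l₁ b ++ chainL t2 b l₂ z := by

  induction l₁ generalizing a with
  | nil => rfl
  | cons x l₁ ih =>
    show (t2 a, x) :: chainL t2 x (l₁ ++ b :: l₂) z = (t2 a, x) :: (chainL t2 x l₁ b ++ _)
    rw [ih]

/-- `links (l ++ [x])` and `links (x :: l)` have the same elements (`chainL_append`). -/
theorem mem_links_rotate {D : Type} (t2 : D → D) (x : D) (l : List D) (p : D × D) :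
    p ∈ links t2 (l ++ [x]) ↔ p ∈ links t2 (x :: l) := by

  cases l with
  | nil => exact Iff.rfl
  | cons y m =>
    show p ∈ chainL t2 y (m ++ [x]) y ↔ p ∈ (t2 x, y) :: chainL t2 y m x
    rw [chainL_append, List.mem_append, List.mem_cons]
    have h1 : p ∈ chainL t2 x [] y ↔ p = (t2 x, y) := List.mem_singleton
    rw [h1, or_comm]

theorem B1_chain {D : Type} (t2 : D → D) (z d e : D) : ∀ (l : List D) (a : D),
    (d, e) ∈ chainL t2 a l z ↔ ∃ u, d = t2 u ∧ [u, e] <:+: a :: (l ++ [z]) := by
  intro l
  induction l with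
  | nil =>
    intro a
    have h1 : (d, e) ∈ chainL t2 a [] z ↔ (d, e) = (t2 a, z) := List.mem_singleton
    rw [h1]
    constructor
    · intro h
      obtain ⟨h2, h3⟩ := Prod.mk.inj h
      exact ⟨a, h2, by rw [h3]; exact List.infix_refl _⟩
    · rintro ⟨u, h2, h3⟩
      have h4 : [u, e] = [a, z] := h3.eq_of_length rfl
      injection h4 with h5 h6
      injection h6 with h7 _
      rw [h2, h5, h7]
  | cons b l ih =>
    intro a
    have h1 : (d, e) ∈ chainL t2 a (b :: l) z ↔ (d, e) = (t2 a, b) ∨ (d, e) ∈ chainL t2 b l z :=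
      List.mem_cons
    rw [h1, ih b]
    constructor
    · rintro (h | ⟨u, h2, h3⟩)
      · obtain ⟨h2, h3⟩ := Prod.mk.inj h
        refine ⟨a, h2, ?_⟩
        rw [List.infix_cons_iff]
        left
        rw [h3]
        exact ⟨l ++ [z], rfl⟩
      · refine ⟨u, h2, ?_⟩
        rw [List.infix_cons_iff]
        exact Or.inr h3
    · rintro ⟨u, h2, h3⟩
      rw [List.infix_cons_iff] at h3
      rcases h3 with h3 | h3
      · left
        obtain ⟨t, ht⟩ := h3
        have h4 : u :: e :: t = a :: b :: (l ++ [z]) := ht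
        injection h4 with h5 h6
        injection h6 with h7 _
        rw [h2, h5, h7]
      · exact Or.inr ⟨u, h2, h3⟩

theorem B1_links {D : Type} (t2 : D → D) (x d e : D) (l : List D) :
    (d, e) ∈ links t2 (x :: l) ↔ ∃ u, d = t2 u ∧ [u, e] <:+: (x :: l) ++ [x] :=
  B1_chain t2 x d e l x

theorem B1_app {D : Type} (u w : D) (Y : List D) : ∀ X : List D, [u, w] <:+: X ++ Y →
    [u, w] <:+: X ∨ [u, w] <:+: Y ∨ (X.getLast? = some u ∧ Y.head? = some w) := by
  intro X
  induction X with
  | nil => intro h; exact Or.inr (Or.inl h)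
  | cons x X ih =>
    intro h
    have h' : [u, w] <:+: x :: (X ++ Y) := h
    rw [List.infix_cons_iff] at h'
    rcases h' with h1 | h1
    · obtain ⟨t, ht⟩ := h1
      have h4 : u :: w :: t = x :: (X ++ Y) := ht
      injection h4 with h5 h6
      cases X with
      | nil =>
        right; right
        have h7 : w :: t = Y := h6
        refine ⟨by rw [h5]; rfl, by rw [← h7]; rfl⟩
      | cons y X =>
        left
        have h7 : w :: t = y :: (X ++ Y) := h6
        injection h7 with h8 _
        rw [h5, h8]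
        exact ⟨[], X, rfl⟩
    · rcases ih h1 with h2 | h2 | ⟨h2, h3⟩
      · left
        rw [List.infix_cons_iff]
        exact Or.inr h2
      · exact Or.inr (Or.inl h2)
      · right; right
        refine ⟨?_, h3⟩
        cases X with
        | nil => exact absurd h2 (by simp)
        | cons y X => rw [List.getLast?_cons_cons]; exact h2

theorem B1_rev {D : Type} (t2 : D → D) (ht : ∀ d, t2 (t2 d) = d) (A : List D) {u e : D}
    (h : [u, e] <:+: (A.map t2).reverse) : [t2 e, t2 u] <:+: A := by
  have h1 : [e, u] <:+: A.map t2 := by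
    rw [← List.reverse_infix]
    exact h
  have h2 := h1.map t2
  rw [List.map_map] at h2
  have h3 : t2 ∘ t2 = id := funext ht
  rw [h3, List.map_id] at h2
  exact h2

theorem B1_inl {D : Type} {P X : List D} (Y : List D) (h : P <:+: X) : P <:+: X ++ Y := by
  obtain ⟨s, t, rfl⟩ := h
  exact ⟨s, t ++ Y, by simp only [List.append_assoc]⟩

theorem B1_inr {D : Type} {P Y : List D} (X : List D) (h : P <:+: Y) : P <:+: X ++ Y := by
  obtain ⟨s, t, rfl⟩ := h
  exact ⟨X ++ s, t, by simp only [List.append_assoc]⟩

theorem B1_mid {D : Type} {X Y : List D} {u w : D} (hX : X.getLast? = some u)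
    (hY : Y.head? = some w) : [u, w] <:+: X ++ Y := by
  obtain ⟨X', rfl⟩ : ∃ X', X = X' ++ [u] := by
    rw [List.getLast?_eq_some_iff] at hX
    exact hX
  cases Y with
  | nil => exact absurd hY (by simp)
  | cons y Y =>
    have h1 : y = w := Option.some_injective _ hY
    subst h1
    exact ⟨X', Y, by simp only [List.append_assoc, List.cons_append, List.nil_append]⟩

/-- The links of the list with the first block reversed (`A` with `t2`): the interior pairs of `A` are
reversed, those of `B` are kept. `t2` is an involution. For `A ≠ []` and `B ≠ []` write `A = a₁ :: … a_p`, `B = b₁ … b_q`: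
the new pairs at the ends are `(a₁, b₁)` and `(t2 b_q, t2 a_p)`; the old ones were `(t2 a_p, b₁)` and `(t2 b_q, a₁)`. -/
theorem links_flip {D : Type} (t2 : D → D) (ht : ∀ d, t2 (t2 d) = d) (A B : List D) (a b : D)
    (hA : A.head? = some a) (hB : B.head? = some b) (r : D → D → Prop)
    (hr : ∀ d e, (d, e) ∈ links t2 (A ++ B) → r d e) (d e : D)
    (h : (d, e) ∈ links t2 ((A.map t2).reverse ++ B)) :
    Relation.EqvGen (fun x y => r x y ∨ (x = a ∧ y = b)) d e := by

  obtain ⟨A', rfl⟩ : ∃ A', A = a :: A' := by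
    cases A with
    | nil => exact absurd hA (by simp)
    | cons x A =>
      have h1 : x = a := Option.some_injective _ hA
      exact ⟨A, by rw [h1]⟩
  obtain ⟨B', rfl⟩ : ∃ B', B = b :: B' := by
    cases B with
    | nil => exact absurd hB (by simp)
    | cons x B =>
      have h1 : x = b := Option.some_injective _ hB
      exact ⟨B, by rw [h1]⟩
  have hold : ∀ u w, [u, w] <:+: (a :: A') ++ (b :: B') ++ [a] → r (t2 u) w := by
    intro u w huw
    apply hr
    have h1 := (B1_links t2 a (t2 u) w (A' ++ b :: B')).2 ⟨u, rfl, huw⟩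
    exact h1
  obtain ⟨z, C, hz⟩ : ∃ z C, (a :: A') = C ++ [z] := by
    rcases List.eq_nil_or_concat (a :: A') with h1 | ⟨C, z, h1⟩
    · exact absurd h1 (by simp)
    · exact ⟨z, C, by rw [h1, List.concat_eq_append]⟩
  have hlast : (a :: A').getLast? = some z := by rw [hz, List.getLast?_concat]
  have hrev : ((a :: A').map t2).reverse = t2 z :: (C.map t2).reverse := by
    rw [hz, List.map_append, List.reverse_append]
    rfl
  have hrl : (((a :: A').map t2).reverse).getLast? = some (t2 a) := by
    rw [List.map_cons, List.reverse_cons, List.getLast?_concat]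
  have h1 : (d, e) ∈ links t2 (t2 z :: ((C.map t2).reverse ++ (b :: B'))) := by
    rw [hrev] at h
    exact h
  rw [B1_links] at h1
  obtain ⟨u, hu, h2⟩ := h1
  have h3 : [u, e] <:+: (((a :: A').map t2).reverse ++ (b :: B')) ++ [t2 z] := by
    rw [hrev]
    exact h2
  have rg : ∀ x y, r x y → Relation.EqvGen (fun x y => r x y ∨ (x = a ∧ y = b)) x y :=
    fun x y hxy => Relation.EqvGen.rel _ _ (Or.inl hxy)
  rcases B1_app u e _ _ h3 with h4 | h4 | ⟨h4, h5⟩
  · rcases B1_app u e _ _ h4 with h6 | h6 | ⟨h6, h7⟩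
    · have h8 := B1_rev t2 ht _ h6
      have h9 := hold _ _ (B1_inl [a] (B1_inl (b :: B') h8))
      rw [ht] at h9
      rw [hu]
      exact (rg _ _ h9).symm _ _
    · rw [hu]
      exact rg _ _ (hold _ _ (B1_inl [a] (B1_inr (a :: A') h6)))
    · rw [hrl] at h6
      have h8 : t2 a = u := Option.some_injective _ h6
      have h9 : b = e := Option.some_injective _ h7
      refine Relation.EqvGen.rel _ _ (Or.inr ⟨?_, h9.symm⟩)
      rw [hu, ← h8, ht]
  · have h6 := h4.length_le
    rw [List.length_singleton] at h6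
    exact absurd h6 (by simp)
  · have h6 : t2 z = e := Option.some_injective _ h5
    have h7 : (b :: B').getLast? = some u := by
      rw [List.getLast?_append_of_ne_nil _ (List.cons_ne_nil _ _)] at h4
      exact h4
    have h8 : r (t2 u) a := by
      apply hold
      rw [List.append_assoc]
      exact B1_inr _ (B1_mid h7 rfl)
    have h9 : r (t2 z) b := hold _ _ (B1_inl [a] (B1_mid hlast rfl))
    rw [hu, ← h6]
    have h10 : Relation.EqvGen (fun x y => r x y ∨ (x = a ∧ y = b)) a b :=
      Relation.EqvGen.rel _ _ (Or.inr ⟨rfl, rfl⟩)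
    exact (rg _ _ h8).trans _ _ _ (h10.trans _ _ _ ((rg _ _ h9).symm _ _))

/-- The case `B = []`: only reversals. -/
theorem links_flip_all {D : Type} (t2 : D → D) (ht : ∀ d, t2 (t2 d) = d) (A : List D)
    (r : D → D → Prop) (hr : ∀ d e, (d, e) ∈ links t2 A → r d e) (d e : D)
    (h : (d, e) ∈ links t2 (A.map t2).reverse) : Relation.EqvGen r d e := by

  rcases List.eq_nil_or_concat A with rfl | ⟨C, z, hz'⟩
  · exact absurd h List.not_mem_nil
  rw [List.concat_eq_append] at hz'
  obtain ⟨a, A', rfl⟩ : ∃ a A', A = a :: A' := by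
    cases A with
    | nil => exact absurd hz' (by simp)
    | cons x A => exact ⟨x, A, rfl⟩
  have hold : ∀ u w, [u, w] <:+: (a :: A') ++ [a] → r (t2 u) w := by
    intro u w huw
    exact hr _ _ ((B1_links t2 a (t2 u) w A').2 ⟨u, rfl, huw⟩)
  have hlast : (a :: A').getLast? = some z := by rw [hz', List.getLast?_concat]
  have hrev : ((a :: A').map t2).reverse = t2 z :: (C.map t2).reverse := by
    rw [hz', List.map_append, List.reverse_append]
    rfl
  have hrl : (((a :: A').map t2).reverse).getLast? = some (t2 a) := by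
    rw [List.map_cons, List.reverse_cons, List.getLast?_concat]
  have h1 := h
  rw [hrev, B1_links, ← hrev] at h1
  obtain ⟨u, hu, h3⟩ := h1
  rcases B1_app u e _ _ h3 with h4 | h4 | ⟨h4, h5⟩
  · have h8 := B1_rev t2 ht _ h4
    have h9 := hold _ _ (B1_inl [a] h8)
    rw [ht] at h9
    rw [hu]
    exact (Relation.EqvGen.rel _ _ h9).symm _ _
  · have h6 := h4.length_le
    rw [List.length_singleton] at h6
    exact absurd h6 (by simp)
  · have h6 : t2 z = e := Option.some_injective _ h5
    rw [hrl] at h4
    have h7 : t2 a = u := Option.some_injective _ h4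
    have h9 : r (t2 z) a := hold _ _ (B1_mid hlast rfl)
    rw [hu, ← h7, ht, ← h6]
    exact (Relation.EqvGen.rel _ _ h9).symm _ _

end Pool.Agent.NHT
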