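import Pool.Agent.NHT.B1

set_option autoImplicit false

/-!
NHT-B2b: capping two adjacent ends of the same edge.
-/

namespace Pool.Agent.NHT

variable {V : Type} {G : SimpleGraph V}

open Classical in
/-- the new involution -/
noncomputable def B2b_t0 {D : Type} (t0 t2 : D → D) (x y d : D) : D :=
  if d = x then t2 y else if d = t2 y then x else if d = t2 x then y else if d = y then t2 x
    else t0 d

theorem B2b_chain {D : Type} (t2 : D → D) (z z' : D) : ∀ (l : List D) (b d e : D),
    (d, e) ∈ chainL t2 b l z → (d, e) ∈ chainL t2 b l z' ∨ (e = z ∧ (d, z') ∈ chainL t2 b l z') := by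
  intro l
  induction l with
  | nil =>
    intro b d e h
    simp only [chainL, List.mem_singleton, Prod.mk.injEq] at h ⊢
    right
    exact ⟨h.2, h.1, trivial⟩
  | cons c l ih =>
    intro b d e h
    simp only [chainL, List.mem_cons] at h ⊢
    rcases h with h | h
    · left
      left
      exact h
    · rcases ih c d e h with h | h
      · left
        right
        exact h
      · right
        exact ⟨h.1, Or.inr h.2⟩

section

variable {D : Type} {t0 t2 : D → D} {x y : D}

structure B2b_H (t0 t2 : D → D) (x y : D) : Prop where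
  t22 : ∀ d, t2 (t2 d) = d
  t00 : ∀ d, t0 (t0 d) = d
  t02 : ∀ d, t0 (t2 d) = t2 (t0 d)
  ox : t0 x = x
  oy : t0 y = y
  xy : x ≠ y
  x2x : x ≠ t2 x
  x2y : x ≠ t2 y
  y2x : y ≠ t2 x
  y2y : y ≠ t2 y

variable (H : B2b_H t0 t2 x y)
include H

theorem B2b_x : B2b_t0 t0 t2 x y x = t2 y := by
  unfold B2b_t0
  rw [if_pos rfl]

theorem B2b_2y : B2b_t0 t0 t2 x y (t2 y) = x := by
  unfold B2b_t0
  rw [if_neg (Ne.symm H.x2y), if_pos rfl]

theorem B2b_ne2 : t2 x ≠ t2 y := by
  intro h
  apply H.xy
  rw [← H.t22 x, h, H.t22]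

theorem B2b_2x : B2b_t0 t0 t2 x y (t2 x) = y := by
  unfold B2b_t0
  rw [if_neg (Ne.symm H.x2x), if_neg (B2b_ne2 H), if_pos rfl]

theorem B2b_y : B2b_t0 t0 t2 x y y = t2 x := by
  unfold B2b_t0
  rw [if_neg (Ne.symm H.xy), if_neg H.y2y, if_neg H.y2x, if_pos rfl]

theorem B2b_d {d : D} (h1 : d ≠ x) (h2 : d ≠ t2 y) (h3 : d ≠ t2 x) (h4 : d ≠ y) :
    B2b_t0 t0 t2 x y d = t0 d := by
  unfold B2b_t0
  rw [if_neg h1, if_neg h2, if_neg h3, if_neg h4]

/-- a flag that is not open is not special -/
theorem B2b_nonopen {d : D} (h : t0 d ≠ d) : d ≠ x ∧ d ≠ t2 y ∧ d ≠ t2 x ∧ d ≠ y := by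
  refine ⟨?_, ?_, ?_, ?_⟩
  · rintro rfl
    exact h H.ox
  · rintro rfl
    apply h
    rw [H.t02, H.oy]
  · rintro rfl
    apply h
    rw [H.t02, H.ox]
  · rintro rfl
    exact h H.oy

theorem B2b_inv (d : D) : B2b_t0 t0 t2 x y (B2b_t0 t0 t2 x y d) = d := by
  by_cases h1 : d = x
  · rw [h1, B2b_x H, B2b_2y H]
  by_cases h2 : d = t2 y
  · rw [h2, B2b_2y H, B2b_x H]
  by_cases h3 : d = t2 x
  · rw [h3, B2b_2x H, B2b_y H]
  by_cases h4 : d = y
  · rw [h4, B2b_y H, B2b_2x H]
  rw [B2b_d H h1 h2 h3 h4]
  have e0 := H.t00 d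
  rw [B2b_d H, H.t00]
  · intro h
    rw [h, H.ox] at e0
    exact h1 e0.symm
  · intro h
    rw [h, H.t02, H.oy] at e0
    exact h2 e0.symm
  · intro h
    rw [h, H.t02, H.ox] at e0
    exact h3 e0.symm
  · intro h
    rw [h, H.oy] at e0
    exact h4 e0.symm

theorem B2b_comm (d : D) : B2b_t0 t0 t2 x y (t2 d) = t2 (B2b_t0 t0 t2 x y d) := by
  by_cases h1 : d = x
  · rw [h1, B2b_x H, B2b_2x H, H.t22]
  by_cases h2 : d = t2 y
  · rw [h2, B2b_2y H, H.t22, B2b_y H]
  by_cases h3 : d = t2 x
  · rw [h3, B2b_2x H, H.t22, B2b_x H]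
  by_cases h4 : d = y
  · rw [h4, B2b_y H, B2b_2y H, H.t22]
  rw [B2b_d H h1 h2 h3 h4, B2b_d H, H.t02]
  · intro h
    apply h3
    rw [← h, H.t22]
  · intro h
    apply h4
    rw [← H.t22 d, h, H.t22]
  · intro h
    apply h1
    rw [← H.t22 d, h, H.t22]
  · intro h
    apply h2
    rw [← h, H.t22]

theorem B2b_cne (hne : ∀ d, t0 (t2 d) ≠ d) (d : D) : B2b_t0 t0 t2 x y (t2 d) ≠ d := by
  rw [B2b_comm H]
  by_cases h1 : d = x
  · rw [h1, B2b_x H, H.t22]
    exact Ne.symm H.xy
  by_cases h2 : d = t2 y
  · rw [h2, B2b_2y H]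
    exact B2b_ne2 H
  by_cases h3 : d = t2 x
  · rw [h3, B2b_2x H]
    exact Ne.symm (B2b_ne2 H)
  by_cases h4 : d = y
  · rw [h4, B2b_y H, H.t22]
    exact H.xy
  rw [B2b_d H h1 h2 h3 h4, ← H.t02]
  exact hne d

/-- at an open flag the old involution fixes, otherwise the new one is the old one -/
theorem B2b_dich (d : D) : t0 d = d ∨ B2b_t0 t0 t2 x y d = t0 d := by
  by_cases h : t0 d = d
  · exact Or.inl h
  · obtain ⟨h1, h2, h3, h4⟩ := B2b_nonopen H h
    exact Or.inr (B2b_d H h1 h2 h3 h4)

end

/-- Let `X.L = x :: y :: B`, `lab x = a`, `lab y = a.symm`. New `t0'`: `x ↔ t2 y`, `t2 x ↔ y`, elsewhere `t0`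
(`x, t2 x, y, t2 y` are four different open flags by `L_nodup`, `L_open`); `t1, t2, cross, lab` unchanged; `L' = B`.
* `conn`: a `P` closed under `t0', t1, t2` is closed under `t0` (at the four flags `t0 d = d`).
* faces: every pair of the new face relation is in the equivalence generated by the old one and the pair `(x, t2 y)`: the
  pair `t0' (t2 x) = y` is the old link `(t2 x, y)`; the links of `B`: interior ones are old; the closing one `(t2 last, b)`
  follows from the old links `(t2 last, x)`, `(t2 y, b)` and `(x, t2 y)`. So `nF ≤ nF' + 1` (`card_quot_le_succ`). If `B = []` the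
  old links are `(t2 x, y), (t2 y, x)`, no new pair is needed and `nF ≤ nF'` (`card_quot_le`). `nV' = nV`. So `chiOK` is kept
  in both cases (the length drops by `2`).
* `Good`: `X.Anc n d → X'.Anc n d` (`t0 d ≠ d` implies `t0' d = t0 d`); open flags of `X'` are open in `X`. `cr` unchanged. -/
theorem Reach.cap {U : Set V} {a : G.Dart} {l : List G.Dart} {c : ℕ}
    {p : Sym2 V → Sym2 V → ZMod 2} (h : Reach G U (a :: a.symm :: l) c p) : Reach G U l c p := by
  classical
  obtain ⟨X, hG, hL, hchi, hcr⟩ := h
  obtain ⟨x, L1, hx1, hx2, hx3⟩ := List.map_eq_cons_iff.1 hL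
  obtain ⟨y, B, hy1, hy2, hy3⟩ := List.map_eq_cons_iff.1 hx3
  rw [hy1] at hx1
  have hnd := X.L_nodup
  rw [hx1] at hnd
  have ox : ∀ d, d ∈ X.L → X.t0 d = d := fun d hd => (X.L_open d).2 (Or.inl hd)
  have H : B2b_H X.t0 X.t2 x y := by
    simp only [List.map_cons, List.cons_append, List.nodup_cons, List.mem_cons, List.mem_append,
      not_or] at hnd
    refine ⟨X.t2_t2, X.t0_t0, X.t0_t2, ox x (by rw [hx1]; simp), ox y (by rw [hx1]; simp),
      hnd.1.1, hnd.1.2.2.1, hnd.1.2.2.2.1, hnd.2.1.2.1, hnd.2.1.2.2.1⟩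
  have hxB : x ∉ B ∧ x ∉ B.map X.t2 ∧ y ∉ B ∧ y ∉ B.map X.t2 := by
    simp only [List.map_cons, List.cons_append, List.nodup_cons, List.mem_cons, List.mem_append,
      not_or] at hnd
    exact ⟨hnd.1.2.1, hnd.1.2.2.2.2, hnd.2.1.1, hnd.2.1.2.2.2⟩
  have hmap : ∀ d, d ∈ B.map X.t2 ↔ X.t2 d ∈ B := by
    intro d
    rw [List.mem_map]
    constructor
    · rintro ⟨b, hb, rfl⟩
      rw [X.t2_t2]
      exact hb
    · intro h
      exact ⟨X.t2 d, h, X.t2_t2 d⟩
  have hspec : ∀ d, (d = x ∨ d = X.t2 y ∨ d = X.t2 x ∨ d = y) → d ∉ B ∧ d ∉ B.map X.t2 := by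
    rintro d (rfl | rfl | rfl | rfl)
    · exact ⟨hxB.1, hxB.2.1⟩
    · rw [hmap, X.t2_t2]
      refine ⟨fun h => hxB.2.2.2 ((hmap y).2 h), hxB.2.2.1⟩
    · rw [hmap, X.t2_t2]
      refine ⟨fun h => hxB.2.1 ((hmap x).2 h), hxB.1⟩
    · exact ⟨hxB.2.2.1, hxB.2.2.2⟩
  let T : X.D → X.D := B2b_t0 X.t0 X.t2 x y
  have hT : ∀ d, T d = B2b_t0 X.t0 X.t2 x y d := fun d => rfl
  let X' : PD G :=
    { X with
      t0 := T
      t0_t0 := B2b_inv H
      t0_t2 := B2b_comm H
      t0_t2_ne := B2b_cne H X.t0_t2_ne
      conn := by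
        intro P hP hex
        refine X.conn P (fun d hd => ⟨?_, (hP d hd).2.1, (hP d hd).2.2⟩) hex
        rcases B2b_dich H d with h | h
        · rw [h]
          exact hd
        · rw [← h]
          exact (hP d hd).1
      lab_t0 := by
        intro d hd
        rw [hT] at hd ⊢
        by_cases h1 : d = x
        · rw [h1, B2b_x H, X.lab_t2, hx2, hy2]
        by_cases h2 : d = X.t2 y
        · rw [h2, B2b_2y H, X.lab_t2, hx2, hy2, SimpleGraph.Dart.symm_symm]
        by_cases h3 : d = X.t2 x
        · rw [h3, B2b_2x H, X.lab_t2, hx2, hy2]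
        by_cases h4 : d = y
        · rw [h4, B2b_y H, X.lab_t2, hx2, hy2, SimpleGraph.Dart.symm_symm]
        rw [B2b_d H h1 h2 h3 h4] at hd ⊢
        exact X.lab_t0 d hd
      L := B
      L_nodup := by
        refine hnd.sublist ?_
        refine List.Sublist.append ?_ ?_
        · exact (List.sublist_cons_self _ _).trans (List.sublist_cons_self _ _)
        · exact ((List.sublist_cons_self _ _).trans (List.sublist_cons_self _ _)).map _
      L_open := by
        intro d
        rw [hT]
        by_cases hs : d = x ∨ d = X.t2 y ∨ d = X.t2 x ∨ d = y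
        · have h1 := hspec d hs
          constructor
          · intro h2
            exfalso
            rcases hs with rfl | rfl | rfl | rfl
            · rw [B2b_x H] at h2
              exact H.x2y h2.symm
            · rw [B2b_2y H] at h2
              exact H.x2y h2
            · rw [B2b_2x H] at h2
              exact H.y2x h2
            · rw [B2b_y H] at h2
              exact H.y2x h2.symm
          · rintro (h2 | h2)
            · exact absurd h2 h1.1
            · exact absurd h2 h1.2
        · rw [not_or, not_or, not_or] at hs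
          rw [B2b_d H hs.1 hs.2.1 hs.2.2.1 hs.2.2.2, X.L_open, hx1]
          simp only [List.map_cons, List.mem_cons]
          constructor
          · rintro ((h1 | h1 | h1) | (h1 | h1 | h1))
            · exact absurd h1 hs.1
            · exact absurd h1 hs.2.2.2
            · exact Or.inl h1
            · exact absurd h1 hs.2.2.1
            · exact absurd h1 hs.2.1
            · exact Or.inr h1
          · rintro (h1 | h1)
            · exact Or.inl (Or.inr (Or.inr h1))
            · exact Or.inr (Or.inr (Or.inr h1)) }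
  have hanc : ∀ n d, X.Anc n d → X'.Anc n d := by
    intro n d hd
    induction hd with
    | zero d h => exact PD.Anc.zero (X := X') d h
    | succ n d h h0 hc ih =>
      obtain ⟨h1, h2, h3, h4⟩ := B2b_nonopen H h0
      have h5 : X'.t0 d = X.t0 d := B2b_d H h1 h2 h3 h4
      have h6 := PD.Anc.succ (X := X') n d ih (by rw [h5]; exact h0) (by rw [h5]; exact hc)
      rw [h5] at h6
      exact h6
  have hfin : Finite X.D := @Finite.of_fintype _ X.fin
  have hFD : ∀ d e, X'.faceRel d e ↔ (e = T d ∨ e = X.t1 d ∨ (d, e) ∈ links X.t2 B) :=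
    fun d e => Iff.rfl
  have hold : ∀ d e, X.faceRel d e ↔
      (e = X.t0 d ∨ e = X.t1 d ∨ (d, e) ∈ links X.t2 (x :: y :: B)) := by
    intro d e
    unfold PD.faceRel
    rw [hx1]
  have hl1 : X.faceRel (X.t2 x) y := by
    rw [hold]
    right
    right
    simp [links, chainL]
  refine ⟨X', ⟨hG.placed, ?_, ?_⟩, hy3, ?_, hcr⟩
  · intro d hd
    have hd' : B2b_t0 X.t0 X.t2 x y d = d := hd
    rcases B2b_dich H d with h | h
    · obtain ⟨n, hn⟩ := hG.anc_open d h
      exact ⟨n, hanc n d hn⟩
    · rw [h] at hd'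
      obtain ⟨n, hn⟩ := hG.anc_open d hd'
      exact ⟨n, hanc n d hn⟩
  · intro d hd
    rcases hG.anc_all d hd with ⟨n, hn⟩ | ⟨n, hn⟩
    · exact Or.inl ⟨n, hanc n _ hn⟩
    · exact Or.inr ⟨n, hanc n _ hn⟩
  · have hnV : X'.nV = X.nV := rfl
    have hD : Nat.card X'.D = Nat.card X.D := rfl
    have hLB : X'.L = B := rfl
    unfold PD.chiOK at hchi ⊢
    rw [hnV, hD, hLB]
    rw [hx1] at hchi
    simp only [List.length_cons] at hchi
    rw [if_neg (by simp)] at hchi
    cases hB : B with
    | nil =>
      have hnF : X.nF ≤ X'.nF := by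
        refine card_quot_le fun d e hde => ?_
        have hl2 : X.faceRel (X.t2 y) x := by
          rw [hold]
          right
          right
          simp [links, chainL, hB]
        rw [hFD, hB] at hde
        rcases hde with hde | hde | hde
        · rw [hT] at hde
          by_cases h1 : d = x
          · rw [h1, B2b_x H] at hde
            rw [h1, hde]
            exact Relation.EqvGen.symm _ _ (Relation.EqvGen.rel _ _ hl2)
          by_cases h2 : d = X.t2 y
          · rw [h2, B2b_2y H] at hde
            rw [h2, hde]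
            exact Relation.EqvGen.rel _ _ hl2
          by_cases h3 : d = X.t2 x
          · rw [h3, B2b_2x H] at hde
            rw [h3, hde]
            exact Relation.EqvGen.rel _ _ hl1
          by_cases h4 : d = y
          · rw [h4, B2b_y H] at hde
            rw [h4, hde]
            exact Relation.EqvGen.symm _ _ (Relation.EqvGen.rel _ _ hl1)
          rw [B2b_d H h1 h2 h3 h4] at hde
          exact Relation.EqvGen.rel _ _ ((hold d e).2 (Or.inl hde))
        · exact Relation.EqvGen.rel _ _ ((hold d e).2 (Or.inr (Or.inl hde)))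
        · simp [links] at hde
      rw [hB] at hchi
      simp only [List.length_nil] at hchi ⊢
      rw [if_pos trivial]
      omega
    | cons b B' =>
      have hnF : X.nF ≤ X'.nF + 1 := by
        refine card_quot_le_succ x (X.t2 y) fun d e hde => ?_
        have hnew : Relation.EqvGen (fun u v => X.faceRel u v ∨ (u = x ∧ v = X.t2 y)) x (X.t2 y) :=
          Relation.EqvGen.rel _ _ (Or.inr ⟨rfl, rfl⟩)
        have hrel : ∀ u v, X.faceRel u v →
            Relation.EqvGen (fun u v => X.faceRel u v ∨ (u = x ∧ v = X.t2 y)) u v :=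
          fun u v h => Relation.EqvGen.rel _ _ (Or.inl h)
        have hl2 : X.faceRel (X.t2 y) b := by
          rw [hold]
          right
          right
          simp [links, chainL, hB]
        rw [hFD, hB] at hde
        rcases hde with hde | hde | hde
        · rw [hT] at hde
          by_cases h1 : d = x
          · rw [h1, B2b_x H] at hde
            rw [h1, hde]
            exact hnew
          by_cases h2 : d = X.t2 y
          · rw [h2, B2b_2y H] at hde
            rw [h2, hde]
            exact Relation.EqvGen.symm _ _ hnew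
          by_cases h3 : d = X.t2 x
          · rw [h3, B2b_2x H] at hde
            rw [h3, hde]
            exact hrel _ _ hl1
          by_cases h4 : d = y
          · rw [h4, B2b_y H] at hde
            rw [h4, hde]
            exact Relation.EqvGen.symm _ _ (hrel _ _ hl1)
          rw [B2b_d H h1 h2 h3 h4] at hde
          exact hrel _ _ ((hold d e).2 (Or.inl hde))
        · exact hrel _ _ ((hold d e).2 (Or.inr (Or.inl hde)))
        · have hmem : ∀ u v, (u, v) ∈ chainL X.t2 b B' x → X.faceRel u v := by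
            intro u v huv
            rw [hold]
            right
            right
            rw [hB]
            simp only [links, chainL, List.mem_cons]
            right
            right
            exact huv
          rcases B2b_chain X.t2 b x B' b d e hde with h | ⟨h1, h2⟩
          · exact hrel _ _ (hmem d e h)
          · rw [h1]
            exact Relation.EqvGen.trans _ _ _ (hrel _ _ (hmem d x h2))
              (Relation.EqvGen.trans _ _ _ hnew (hrel _ _ hl2))
      rw [hB] at hchi
      simp only [List.length_cons] at hchi ⊢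
      rw [if_neg (by simp)]
      omega

end Pool.Agent.NHT
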