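import Pool.Agent.NHT.B1

set_option autoImplicit false

/-!
NHT-B3: passing a block of ends through a crosscap; a single vertex.
-/

namespace Pool.Agent.NHT

variable {V : Type} {G : SimpleGraph V}

theorem b3_map_map {D : Type} (t2 : D → D) (ht : ∀ d, t2 (t2 d) = d) (A : List D) :
    (A.map t2).map t2 = A := by
  rw [List.map_map]
  have : t2 ∘ t2 = id := funext ht
  rw [this, List.map_id]

theorem b3_perm {D : Type} (t2 : D → D) (ht : ∀ d, t2 (t2 d) = d) (A B : List D) :
    (((A.map t2).reverse ++ B) ++ ((A.map t2).reverse ++ B).map t2).Perm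
      ((A ++ B) ++ (A ++ B).map t2) := by
  classical
  rw [List.perm_iff_count]
  intro x
  simp only [List.count_append, List.map_append, List.map_reverse, List.count_reverse,
    b3_map_map t2 ht]
  omega

/-- Let `X.L = A ++ B` (`A.map lab = l₁`, `B.map lab = l₂`). Same flags, `L' = (A.map t2).reverse ++ B`. The labels are
`l₁.reverse ++ l₂` (`lab_t2`). `L_nodup`: `L' ++ L'.map t2` is a permutation of `L ++ L.map t2`; `L_open` similarly.
Faces: `links_flip`, `card_quot_le_succ` (`A, B ≠ []`): `nF ≤ nF' + 1`; `links_flip_all` if `B = []`; if `A = []` nothing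
changes. `chiOK (c+1)`. `Good`, `cr`, `nV`: unchanged (they do not depend on `L`; see the docstring of
`Reach.rotate1` in B2). -/
theorem Reach.flip {U : Set V} {l₁ l₂ : List G.Dart} {c : ℕ}
    {p : Sym2 V → Sym2 V → ZMod 2} (h : Reach G U (l₁ ++ l₂) c p) :
    Reach G U (l₁.reverse ++ l₂) (c + 1) p := by
  obtain ⟨X, hG, hL, hchi, hcr⟩ := h
  obtain ⟨A, B, hAB, hA, hB⟩ := List.map_eq_append_iff.mp hL
  have hperm := b3_perm X.t2 X.t2_t2 A B
  let X' : PD G :=
    { X with
      L := (A.map X.t2).reverse ++ B
      L_nodup := by
        rw [hperm.nodup_iff, ← hAB]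
        exact X.L_nodup
      L_open := by
        intro d
        rw [X.L_open d, ← List.mem_append, ← List.mem_append, hAB]
        exact (hperm.mem_iff).symm }
  have hAnc : ∀ n d, X.Anc n d → X'.Anc n d := by
    intro n d hd
    induction hd with
    | zero d h => exact PD.Anc.zero (X := X') d h
    | succ n d _ h0 hc ih => exact PD.Anc.succ (X := X') n d ih h0 hc
  have hGood : X'.Good U :=
    { placed := hG.placed
      anc_open := fun d hd => by
        obtain ⟨n, hn⟩ := hG.anc_open d hd
        exact ⟨n, hAnc n d hn⟩
      anc_all := fun d hd => by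
        rcases hG.anc_all d hd with ⟨n, hn⟩ | ⟨n, hn⟩
        · exact Or.inl ⟨n, hAnc n _ hn⟩
        · exact Or.inr ⟨n, hAnc n _ hn⟩ }
  have hfinD : Finite X.D := @Finite.of_fintype _ X.fin
  have hnF : X.nF ≤ X'.nF + 1 := by
    rcases A with _ | ⟨a, A'⟩
    · have : X'.faceRel = X.faceRel := by
        funext d e
        have h1 : X'.L = X.L := by rw [hAB]; rfl
        unfold PD.faceRel
        rw [h1]
      have h2 : X'.nF = X.nF := by
        unfold PD.nF
        rw [this]
      omega
    · rcases B with _ | ⟨b, B'⟩
      · have h1 : X.nF ≤ X'.nF := by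
          refine card_quot_le (r := X.faceRel) (r' := X'.faceRel) ?_
          intro d e hde
          rcases hde with h | h | h
          · exact Relation.EqvGen.rel _ _ (Or.inl h)
          · exact Relation.EqvGen.rel _ _ (Or.inr (Or.inl h))
          · refine links_flip_all X.t2 X.t2_t2 (a :: A') X.faceRel ?_ d e ?_
            · intro d e hde
              refine Or.inr (Or.inr ?_)
              rw [hAB, List.append_nil]
              exact hde
            · have h' : (d, e) ∈ links X.t2 ((((a :: A').map X.t2).reverse) ++ []) := h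
              rwa [List.append_nil] at h'
        omega
      · refine card_quot_le_succ (r := X.faceRel) (r' := X'.faceRel) a b ?_
        intro d e hde
        rcases hde with h | h | h
        · exact Relation.EqvGen.rel _ _ (Or.inl (Or.inl h))
        · exact Relation.EqvGen.rel _ _ (Or.inl (Or.inr (Or.inl h)))
        · refine links_flip X.t2 X.t2_t2 (a :: A') (b :: B') a b rfl rfl X.faceRel ?_ d e h
          intro d e hde
          refine Or.inr (Or.inr ?_)
          rw [hAB]
          exact hde
  refine ⟨X', hGood, ?_, ?_, hcr⟩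
  · show ((A.map X.t2).reverse ++ B).map X.lab = l₁.reverse ++ l₂
    rw [List.map_append, List.map_reverse, List.map_map, hB, ← hA]
    congr 2
    exact List.map_congr_left fun x _ => X.lab_t2 x
  · have hnV : X'.nV = X.nV := rfl
    have hlen : X'.L.length = X.L.length := by
      show ((A.map X.t2).reverse ++ B).length = X.L.length
      rw [hAB]
      simp
    have hnil : X'.L = [] ↔ X.L = [] := by
      rw [← List.length_eq_zero_iff, ← List.length_eq_zero_iff, hlen]
    have hcard : Nat.card X'.D = Nat.card X.D := rfl
    unfold PD.chiOK at hchi ⊢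
    rw [hnV, hlen, hcard]
    by_cases h0 : X.L = []
    · rw [if_pos h0] at hchi
      rw [if_pos (hnil.mpr h0)]
      omega
    · rw [if_neg h0] at hchi
      rw [if_neg (fun h => h0 (hnil.mp h))]
      omega

end Pool.Agent.NHT
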