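import Pool.Agent.NHT.B4

set_option autoImplicit false

/-!
NHT-B5: crossing two adjacent open ends.
-/

namespace Pool.Agent.NHT

variable {V : Type} {G : SimpleGraph V}

theorem B5_four : ∀ p : Fin 4 × Bool,
    B4_T1 (B4_T2 (B4_T1 (B4_T2 (B4_T1 (B4_T2 (B4_T1 (B4_T2 p))))))) = p := by decide

theorem B5_two : ∀ p : Fin 4 × Bool, B4_T1 (B4_T2 (B4_T1 (B4_T2 p))) = (p.1 + 2, p.2) := by decide

theorem B5_one : ∀ p : Fin 4 × Bool, (B4_T1 p).1 = p.1 + 1 ∨ (B4_T1 p).1 = p.1 - 1 := by decide

/-- The labels of the four darts. -/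
def B5_lb (a b : G.Dart) : Fin 4 → G.Dart := ![a.symm, b, a, b.symm]

theorem B5_opp (a b : G.Dart) (i : Fin 4) : B5_lb a b (i + 2) = (B5_lb a b i).symm := by
  fin_cases i
  · exact (SimpleGraph.Dart.symm_symm a).symm
  · rfl
  · rfl
  · exact (SimpleGraph.Dart.symm_symm b).symm

theorem B5_edge (a b : G.Dart) (i : Fin 4) :
    (B5_lb a b i).edge = if i.val % 2 = 0 then a.edge else b.edge := by
  fin_cases i
  · exact SimpleGraph.Dart.edge_symm a
  · rfl
  · rfl
  · exact SimpleGraph.Dart.edge_symm b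

theorem B5_par : ∀ p : Fin 4 × Bool, (B4_T1 p).1.val % 2 = 0 ↔ ¬ p.1.val % 2 = 0 := by decide

theorem B5_card0 : Nat.card {p : Fin 4 × Bool // p.1.val % 2 = 0} = 4 := by
  rw [Nat.card_eq_fintype_card]
  decide

theorem B5_card1 : Nat.card {p : Fin 4 × Bool // ¬ p.1.val % 2 = 0} = 4 := by
  rw [Nat.card_eq_fintype_card]
  decide

theorem B5_count (a b : G.Dart) (hab : a.edge ≠ b.edge) (e f : Sym2 V) :
    Nat.card {p : Fin 4 × Bool // True ∧ (B5_lb a b p.1).edge = e ∧
      (B5_lb a b (B4_T1 p).1).edge = f} =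
      @ite ℕ ((e = a.edge ∧ f = b.edge) ∨ (e = b.edge ∧ f = a.edge)) (Classical.dec _) 4 0 := by
  classical
  have key : ∀ p : Fin 4 × Bool, (True ∧ (B5_lb a b p.1).edge = e ∧
      (B5_lb a b (B4_T1 p).1).edge = f) ↔ (p.1.val % 2 = 0 ∧ e = a.edge ∧ f = b.edge) ∨
        (¬ p.1.val % 2 = 0 ∧ e = b.edge ∧ f = a.edge) := by
    intro p
    rw [B5_edge, B5_edge]
    have h := B5_par p
    by_cases h0 : p.1.val % 2 = 0
    · rw [if_pos h0, if_neg (fun h1 => h.1 h1 h0)]
      constructor
      · rintro ⟨-, h1, h2⟩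
        exact Or.inl ⟨h0, h1.symm, h2.symm⟩
      · rintro (⟨-, h1, h2⟩ | ⟨h1, -⟩)
        · exact ⟨trivial, h1.symm, h2.symm⟩
        · exact absurd h0 h1
    · rw [if_neg h0, if_pos (h.2 h0)]
      constructor
      · rintro ⟨-, h1, h2⟩
        exact Or.inr ⟨h0, h1.symm, h2.symm⟩
      · rintro (⟨h1, -⟩ | ⟨-, h1, h2⟩)
        · exact absurd h1 h0
        · exact ⟨trivial, h1.symm, h2.symm⟩
  split_ifs with h
  · rcases h with ⟨h1, h2⟩ | ⟨h1, h2⟩
    · refine (Nat.card_congr (Equiv.subtypeEquivRight fun p => ?_)).trans B5_card0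
      rw [key]
      constructor
      · rintro (⟨h3, -⟩ | ⟨-, h3, -⟩)
        · exact h3
        · exact absurd (h1.symm.trans h3) hab
      · intro h3
        exact Or.inl ⟨h3, h1, h2⟩
    · refine (Nat.card_congr (Equiv.subtypeEquivRight fun p => ?_)).trans B5_card1
      rw [key]
      constructor
      · rintro (⟨-, h3, -⟩ | ⟨h3, -⟩)
        · exact absurd (h3.symm.trans h1) hab
        · exact h3
      · intro h3
        exact Or.inr ⟨h3, h1, h2⟩
  · have : IsEmpty {p : Fin 4 × Bool // True ∧ (B5_lb a b p.1).edge = e ∧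
        (B5_lb a b (B4_T1 p).1).edge = f} := ⟨fun p => by
      rcases (key p.1).1 p.2 with ⟨-, h1⟩ | ⟨-, h1⟩
      · exact h (Or.inl h1)
      · exact h (Or.inr h1)⟩
    exact Nat.card_of_isEmpty

/-- Let `X.L = x :: y :: B`, `lab x = a`, `lab y = b`. New flags: `D' = X.D ⊕ (Fin 4 × Bool)`, a crossing whose darts in
cyclic order are `0` (back along `x`, label `a.symm`), `1` (label `b`, new open end), `2` (label `a`, new open end), `3` (back along
`y`, label `b.symm`); `cross` is `True` on the new flags.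
* `t2 (inr (i,s)) = inr (i, !s)`; `t1 (inr (i,true)) = inr (i+1,false)`, `t1 (inr (i,false)) = inr (i-1,true)` (cyclic in `Fin 4`).
* `t0`: `inl x ↔ inr (0,true)`, `inl (t2 x) ↔ inr (0,false)`, `inl y ↔ inr (3,true)`, `inl (t2 y) ↔ inr (3,false)`; the flags
  `inr (1,s)`, `inr (2,s)` are fixed; `inl (t0 d)` otherwise. (`x, t2 x, y, t2 y` are four different open flags.)
* `L' = [inr (1,false), inr (2,false)] ++ B.map inl`, labels `b, a, …`.
* `cross_four, cross_opp, cross_ne` on the new flags: `decide`-like; opposite darts `0,2` and `1,3`; `a.edge ≠ b.edge`.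
* faces: `nF' ≥ nF + 1`: the map to `Option (Quot X.faceRel)`: `inl d ↦ [d]`; `(0,true), (1,false) ↦ [x]`; `(0,false), (3,true) ↦ [t2 x]`
  (`= [y]` by the old link `(t2 x, y)`); `(2,true), (3,false) ↦ [t2 y]`; `(1,true), (2,false) ↦ none`; constant on the classes of the new
  relation [links `((1,true),(2,false))`, `((2,true), b₁)`: `[t2 y] = [b₁]`, `(t2 last, (1,false))`: `[t2 last] = [x]`; for `B = []`:
  `((2,true),(1,false))`: `[t2 y] = [x]`] and surjective.
* `nV' ≥ nV + 1`. `chiOK`: `|D'| = |D| + 8`, same length: both sides grow by `8`.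
* `cr`: on the `inl` flags nothing changes (`lab`, `t1`, `cross` are the old ones); the new flags: four with
  `(edge a, edge b)` (darts `0, 2`) and four with `(edge b, edge a)` (darts `1, 3`).
* `Anc`: old ones persist (`t0 d ≠ d` implies `t0' (inl d) = inl (t0 d)`). `x` is open, hence `Anc n x` for some `n`, and then
  `inr (2, ·) = t1 t2 t1 (t0' (inl x))` is `Anc (n+1)`: `t0' (inl x) = (0,true)`, `t1: (1,false)`, `t2: (1,true)`, `t1: (2,false)`.
  Also for `t2 x` (open): gives `(2,true)`: `(0,false), t1: (3,true), t2: (3,false), t1: (2,true)`. From `y`: `(3,true), t1: (0,false),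
  t2: (0,true), t1: (1,false)`; from `t2 y`: `(3,false), (2,true), (2,false), (1,true)`. So the open flags `(1,·), (2,·)` are `Anc`,
  and the flags `(0,·)`, `(3,·)` are opposite to `(2,·)`, `(1,·)`: `t1 t2 t1 t2 (0,s) = (2,s)`, etc. -/
theorem Reach.swap {U : Set V} {a b : G.Dart} {l : List G.Dart} {c : ℕ}
    {p : Sym2 V → Sym2 V → ZMod 2} (h : Reach G U (a :: b :: l) c p) (hab : a.edge ≠ b.edge) :
    Reach G U (b :: a :: l) c (bump a.edge b.edge p) := by
  classical
  obtain ⟨X, hX, hl, hchi, hcr⟩ := h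
  obtain ⟨x, B', hL, hx, hB'⟩ : ∃ x B, X.L = x :: B ∧ X.lab x = a ∧ B.map X.lab = b :: l :=
    List.map_eq_cons_iff.1 hl
  obtain ⟨y, B, hL2, hy, hB⟩ : ∃ y B, B' = y :: B ∧ X.lab y = b ∧ B.map X.lab = l :=
    List.map_eq_cons_iff.1 hB'
  subst hL2
  have hndL : X.L.Nodup := (List.nodup_append.1 X.L_nodup).1
  rw [hL] at hndL
  have hxB : x ∉ y :: B := (List.nodup_cons.1 hndL).1
  have hyB : y ∉ B := (List.nodup_cons.1 (List.nodup_cons.1 hndL).2).1
  have hxy : x ≠ y := fun h => hxB (by rw [h]; exact List.mem_cons_self)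
  have hxB2 : x ∉ B := fun h => hxB (List.mem_cons_of_mem _ h)
  have hxL : x ∈ X.L := by rw [hL]; exact List.mem_cons_self
  have hyL : y ∈ X.L := by rw [hL]; exact List.mem_cons_of_mem _ List.mem_cons_self
  have hgc : ∀ (i : Fin 4) (z : X.D), (![some x, none, none, some y] : Fin 4 → Option X.D) i =
      some z → (i = 0 ∧ x = z) ∨ (i = 3 ∧ y = z) := by
    intro i z h
    fin_cases i
    · exact Or.inl ⟨rfl, Option.some.inj h⟩
    · cases h
    · cases h
    · exact Or.inr ⟨rfl, Option.some.inj h⟩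
  let E : B4_Data X 4 :=
    { g := ![some x, none, none, some y]
      N := [1, 2]
      B := B
      c0 := True
      lb := B5_lb a b
      g_mem := by
        intro i z h
        rcases hgc i z h with ⟨-, rfl⟩ | ⟨-, rfl⟩
        · exact hxL
        · exact hyL
      g_inj := by
        intro i j z h h'
        rcases hgc i z h with ⟨h1, h2⟩ | ⟨h1, h2⟩ <;> rcases hgc j z h' with ⟨h3, h4⟩ | ⟨h3, h4⟩
        · rw [h1, h3]
        · exact absurd (h2.trans h4.symm) hxy
        · exact absurd (h4.trans h2.symm) hxy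
        · rw [h1, h3]
      g_ex := ⟨0, x, rfl⟩
      N_iff := by
        intro i
        fin_cases i
        · simp
        · simp
        · simp
        · simp
      N_nodup := by decide
      B_iff := by
        intro d
        rw [hL, List.mem_cons, List.mem_cons]
        constructor
        · intro h
          refine ⟨Or.inr (Or.inr h), fun i hi => ?_⟩
          rcases hgc i d hi with ⟨-, rfl⟩ | ⟨-, rfl⟩
          · exact hxB2 h
          · exact hyB h
        · rintro ⟨rfl | rfl | h, h'⟩
          · exact absurd rfl (h' 0)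
          · exact absurd rfl (h' 3)
          · exact h
      B_nodup := (List.nodup_cons.1 (List.nodup_cons.1 hndL).2).2
      lb_g := by
        intro i z h
        rcases hgc i z h with ⟨rfl, rfl⟩ | ⟨rfl, rfl⟩
        · rw [hx]
          rfl
        · rw [hy]
          rfl
      h_four := fun _ => B5_four
      h_opp := fun _ p => by
        rw [B5_two]
        exact B5_opp a b p.1
      h_ne := fun _ p => by
        rw [B5_edge, B5_edge]
        have h := B5_par p
        by_cases h0 : p.1.val % 2 = 0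
        · rw [if_pos h0, if_neg (fun h1 => h.1 h1 h0)]
          exact hab.symm
        · rw [if_neg h0, if_pos (h.2 h0)]
          exact hab
      h_fst := fun h => absurd trivial h
      h_inj := fun h => absurd trivial h
      h_new := fun h => absurd trivial h }
  have hg0 : E.g 0 = some x := rfl
  have hg3 : E.g 3 = some y := rfl
  have hL1 : E.L' = Sum.inr (1, false) :: ([(2 : Fin 4)].map
      (fun j => (Sum.inr (j, false) : X.D ⊕ (Fin 4 × Bool))) ++ B.map Sum.inl) := rfl
  have hlen : E.L'.length = 2 + B.length := by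
    rw [hL1, List.length_cons, List.length_append, List.length_map, List.length_map,
      List.length_singleton]
    omega
  -- the faces
  have hF : X.nF + 1 ≤ E.ext.nF := by
    have := X.fin
    have hlink : ∀ u v, (u, v) ∈ links X.t2 X.L → Quot.mk X.faceRel u = Quot.mk X.faceRel v :=
      fun u v h => Quot.sound (Or.inr (Or.inr h))
    have hxy2 : Quot.mk X.faceRel (X.t2 x) = Quot.mk X.faceRel y := by
      apply hlink
      rw [hL]
      simp [links, chainL]
    let F : Fin 4 → Option (Quot X.faceRel) := ![some (Quot.mk _ x), none,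
      some (Quot.mk _ (X.t2 y)), some (Quot.mk _ (X.t2 x))]
    let ψ : X.D ⊕ (Fin 4 × Bool) → Option (Quot X.faceRel) :=
      Sum.elim (fun d => some (Quot.mk _ d)) (fun p => F (B4_kap p))
    have h1 := E.nF_le (T := Option (Quot X.faceRel)) some F ?_ ?_ ?_
    · rw [Finite.card_option] at h1
      exact h1
    · intro i z h
      rcases hgc i z h with ⟨rfl, rfl⟩ | ⟨rfl, rfl⟩
      · exact ⟨rfl, rfl⟩
      · exact ⟨congrArg some hxy2, rfl⟩
    · intro u v huv
      have key : ∀ q ∈ links E.T2 E.L', ψ q.1 = ψ q.2 := by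
        have hch : List.IsChain (fun a b => b = a + 1) ((1 : Fin 4) :: [2]) := by
          rw [List.isChain_cons_cons]
          exact ⟨rfl, List.isChain_singleton _⟩
        have hW0 : ψ (Sum.inr ((1 : Fin 4), false)) = some (Quot.mk _ x) := rfl
        rw [hL1, links]
        rcases B with _ | ⟨b1, B⟩
        · rw [List.map_nil, List.append_nil]
          refine E.chain_new ψ F (fun _ => rfl) _ _ _ hch ?_
          rw [hW0]
          show some (Quot.mk _ x) = some (Quot.mk _ (X.t2 y))
          congr 1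
          refine (hlink _ _ ?_).symm
          rw [hL]
          simp [links, chainL]
        · rw [List.map_cons (f := Sum.inl), chainL_append]
          intro q hq
          rcases List.mem_append.1 hq with hq | hq
          · refine E.chain_new ψ F (fun _ => rfl) _ _ _ hch ?_ q hq
            show some (Quot.mk _ b1) = some (Quot.mk _ (X.t2 y))
            congr 1
            refine (hlink _ _ ?_).symm
            rw [hL]
            simp [links, chainL]
          · refine E.chain_old ψ x _ hW0 _ b1 ?_ q hq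
            intro q hq
            show some (Quot.mk _ q.1) = some (Quot.mk _ q.2)
            congr 1
            refine hlink _ _ ?_
            rw [hL]
            exact List.mem_cons_of_mem _ (List.mem_cons_of_mem _ hq)
      exact key (u, v) huv
    · rintro (_ | q)
      · exact Or.inr ⟨1, rfl⟩
      · exact Or.inl ⟨q, rfl⟩
  -- anchored flags
  have hstep : ∀ (z : X.D) (q : Fin 4 × Bool), X.t0 z = z → E.ext.t0 (Sum.inl z) = Sum.inr q →
      ∃ n, E.ext.Anc n (Sum.inr (B4_T1 (B4_T2 (B4_T1 q)))) := by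
    intro z q hz hq
    obtain ⟨n, hn⟩ := hX.anc_open z hz
    have h1 := PD.Anc.succ (X := E.ext) n (Sum.inl z) (E.anc_old hn)
      (by rw [hq]; exact fun h => by cases h) (by rw [hq]; exact trivial)
    rw [hq] at h1
    exact ⟨_, h1⟩
  have hA1 : ∀ s, ∃ n, E.ext.Anc n (Sum.inr (1, s)) := by
    intro s
    cases s
    · exact hstep y (3, true) (B4_open X hyL) (E.T0_true hg3)
    · exact hstep (X.t2 y) (3, false) (B4_open2 X (by rw [X.t2_t2]; exact hyL)) (E.T0_false2 hg3)
  have hA2 : ∀ s, ∃ n, E.ext.Anc n (Sum.inr (2, s)) := by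
    intro s
    cases s
    · exact hstep x (0, true) (B4_open X hxL) (E.T0_true hg0)
    · exact hstep (X.t2 x) (0, false) (B4_open2 X (by rw [X.t2_t2]; exact hxL)) (E.T0_false2 hg0)
  refine ⟨E.ext, ⟨?_, ?_, ?_⟩, ?_, ?_, ?_⟩
  · intro b
    rw [← hX.placed b]
    constructor
    · rintro ⟨d | q, hd, rfl⟩
      · exact ⟨d, hd, rfl⟩
      · exact absurd trivial hd
    · rintro ⟨d, hd, hd'⟩
      exact ⟨Sum.inl d, hd, hd'⟩
  · rintro (d | ⟨i, s⟩) hd
    · have h0 : X.t0 d = d := by
        by_contra h0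
        have h1 : E.ext.t0 (Sum.inl d) = Sum.inl (X.t0 d) := E.T0_of_ne h0
        rw [h1] at hd
        exact h0 (Sum.inl.inj hd)
      obtain ⟨n, hn⟩ := hX.anc_open d h0
      exact ⟨n, E.anc_old hn⟩
    · have h1 : i = 1 ∨ i = 2 := by
        rcases E.cases_new i with h | ⟨z, h⟩
        · have h2 := (E.N_iff i).2 h
          have h3 : i ∈ ([1, 2] : List (Fin 4)) := h2
          simpa using h3
        · exfalso
          cases s
          · have h2 : E.ext.t0 (Sum.inr (i, false)) = _ := E.T0_inr_false h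
            rw [h2] at hd
            cases hd
          · have h2 : E.ext.t0 (Sum.inr (i, true)) = _ := E.T0_inr_true h
            rw [h2] at hd
            cases hd
      rcases h1 with rfl | rfl
      · exact hA1 s
      · exact hA2 s
  · rintro (d | ⟨i, s⟩) hd
    · rcases hX.anc_all d hd with ⟨n, hn⟩ | ⟨n, hn⟩
      · exact Or.inl ⟨n, E.anc_old hn⟩
      · exact Or.inr ⟨n, E.anc_old hn⟩
    · have h2 : E.ext.t1 (E.ext.t2 (E.ext.t1 (E.ext.t2 (Sum.inr (i, s))))) =
          Sum.inr (i + 2, s) := congrArg Sum.inr (B5_two (i, s))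
      rw [h2]
      fin_cases i
      · exact Or.inr (hA2 s)
      · exact Or.inl (hA1 s)
      · exact Or.inl (hA2 s)
      · exact Or.inr (hA1 s)
  · show (Sum.inr (1, false) :: Sum.inr (2, false) :: B.map Sum.inl).map E.lab' = b :: a :: l
    rw [List.map_cons, List.map_cons, List.map_map]
    show b :: a :: B.map X.lab = b :: a :: l
    rw [hB]
  · refine E.chi_ext (e := 1) hchi (by rw [hL]; exact List.cons_ne_nil _ _)
      (by rw [hL1]; exact List.cons_ne_nil _ _) hF ?_
    rw [hlen, hL, List.length_cons, List.length_cons]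
    omega
  · intro e f hef
    obtain ⟨n, hn1, hn2⟩ := hcr e f hef
    have h1 : E.ext.cr e f = X.cr e f + _ := E.cr_ext e f
    have h2 : Nat.card {p : Fin 4 × Bool // E.c0 ∧ (E.lb p.1).edge = e ∧
        (E.lb (B4_T1 p).1).edge = f} = _ := B5_count a b hab e f
    unfold bump
    by_cases h : (e = a.edge ∧ f = b.edge) ∨ (e = b.edge ∧ f = a.edge)
    · refine ⟨n + 1, ?_, ?_⟩
      · rw [h1, h2, if_pos h, hn1]
        ring
      · rw [if_pos h, Nat.cast_add, hn2, Nat.cast_one]
    · refine ⟨n, ?_, ?_⟩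
      · rw [h1, h2, if_neg h, hn1]
        ring
      · rw [if_neg h, add_zero, hn2]

end Pool.Agent.NHT
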