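import Pool.Agent.NHT.B1

set_option autoImplicit false

/-!
NHT-B6: a partial drawing without open ends is a drawing.
-/

namespace Pool.Agent.NHT

open Pool.Agent.HTE

variable {V : Type} {G : SimpleGraph V}

theorem B6_inv {X : PD G} {n : ℕ} {d : X.D} (h : X.Anc n d) :
    (n = 0 ∧ ¬ X.cross d) ∨ ∃ k e, n = k + 1 ∧ X.Anc k e ∧ X.t0 e ≠ e ∧ X.cross (X.t0 e) ∧
      d = X.t1 (X.t2 (X.t1 (X.t0 e))) := by
  cases h with
  | zero d h => exact Or.inl ⟨rfl, h⟩
  | succ n d h h0 hc => exact Or.inr ⟨n, d, rfl, h, h0, hc, rfl⟩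

theorem B6_inj1 (X : PD G) {d e : X.D} (h : X.t1 d = X.t1 e) : d = e := by
  rw [← X.t1_t1 d, h, X.t1_t1]

theorem B6_inj2 (X : PD G) {d e : X.D} (h : X.t2 d = X.t2 e) : d = e := by
  rw [← X.t2_t2 d, h, X.t2_t2]

theorem B6_inj0 (X : PD G) {d e : X.D} (h : X.t0 d = X.t0 e) : d = e := by
  rw [← X.t0_t0 d, h, X.t0_t0]

theorem B6_cross3 (X : PD G) (d : X.D) : X.cross (X.t1 (X.t2 (X.t1 d))) ↔ X.cross d := by
  rw [X.cross_t1, X.cross_t2, X.cross_t1]

theorem B6_braid (X : PD G) {f : X.D} (hf : X.cross f) :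
    X.t1 (X.t2 (X.t1 (X.t2 f))) = X.t2 (X.t1 (X.t2 (X.t1 f))) := by
  have h := X.cross_four f hf
  apply B6_inj2 X
  apply B6_inj1 X
  apply B6_inj2 X
  apply B6_inj1 X
  rw [X.t2_t2, X.t1_t1, X.t2_t2, X.t1_t1]
  exact h

/-- The number of an anchored flag is unique (induction on `n`): a flag at a vertex has number `0`, a flag at a crossing has a
positive number (`cross_t1`, `cross_t2`), and `d` is determined by `t1 (t2 (t1 (t0 d)))`. -/
theorem PD.Anc.unique {X : PD G} {n m : ℕ} {d : X.D} (h : X.Anc n d) (h' : X.Anc m d) : n = m := by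
  induction h generalizing m with
  | zero d hd =>
    rcases B6_inv h' with ⟨h1, _⟩ | ⟨k, e, _, _, _, h5, h6⟩
    · exact h1.symm
    · exact absurd ((B6_cross3 X _).2 h5) (h6 ▸ hd)
  | succ n d _ _ hc ih =>
    rcases B6_inv h' with ⟨_, h2⟩ | ⟨k, e, h1, h2, _, _, h6⟩
    · exact absurd ((B6_cross3 X _).2 hc) h2
    · have h7 : d = e := B6_inj0 X (B6_inj1 X (B6_inj2 X (B6_inj1 X h6)))
      subst h7
      rw [h1, ih h2]

/-- Same number for `t2 d`: induction; `t1 (t2 (t1 (t0 (t2 d)))) = t1 t2 t1 t2 (t0 d) = t2 t1 t2 t1 (t0 d)` because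
`(t1 t2)^4 = 1` at a crossing (`cross_four`) gives `t1 t2 t1 t2 = t2 t1 t2 t1` there. -/
theorem PD.Anc.t2 {X : PD G} {n : ℕ} {d : X.D} (h : X.Anc n d) : X.Anc n (X.t2 d) := by
  induction h with
  | zero d hd => exact PD.Anc.zero _ fun h => hd ((X.cross_t2 d).1 h)
  | succ n d _ h0 hc ih =>
    have h1 : X.t0 (X.t2 d) = X.t2 (X.t0 d) := X.t0_t2 d
    have h2 := PD.Anc.succ n (X.t2 d) ih (fun h => h0 (B6_inj2 X (by rw [← h1, h])))
      (by rw [h1, X.cross_t2]; exact hc)
    rw [h1, B6_braid X hc] at h2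
    exact h2

/-- If there are no open flags and `d` is anchored then `t0 d` is anchored. Let `step d = t1 (t2 (t1 (t0 d)))` for `cross (t0 d)`.
(1) There is `k` with `¬ cross (t0 (step^k d))` (all earlier ones defined): otherwise `step^k d`, `k : ℕ`, is an infinite sequence of anchored
flags with numbers `n + k`, all different by `Anc.unique`, contradicting finiteness. (2) With `d' = step^k d`: `t0 d'` is noncross, so anchored;
(3) if `t0 (step e)` is anchored, so is `t0 e`: `step (t0 (step e)) = t1 t2 t1 (t0 t0 (step e)) = t1 t2 t1 t1 t2 t1 t0 e = t0 e`, where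
`cross (t0 (t0 (step e))) = cross (step e)` holds. Induct downwards. -/
theorem PD.Anc.t0 {X : PD G} (hopen : ∀ d, X.t0 d ≠ d) {n : ℕ} {d : X.D} (h : X.Anc n d) :
    ∃ m, X.Anc m (X.t0 d) := by
  classical
  have := X.fin
  obtain ⟨M, hM⟩ : ∃ M : ℕ, ∀ (n : ℕ) (d : X.D), X.Anc n d → n ≤ M := by
    let g : X.D → ℕ := fun d => if h : ∃ n, X.Anc n d then Classical.choose h else 0
    refine ⟨Finset.univ.sup g, fun n d h => ?_⟩
    have h1 : g d = n := by
      have h2 : ∃ n, X.Anc n d := ⟨n, h⟩
      show (if h : ∃ n, X.Anc n d then Classical.choose h else 0) = n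
      rw [dif_pos h2]
      exact PD.Anc.unique (Classical.choose_spec h2) h
    rw [← h1]
    exact Finset.le_sup (Finset.mem_univ d)
  have key : ∀ k n : ℕ, M - n = k → ∀ d : X.D, X.Anc n d → ∃ m, X.Anc m (X.t0 d) := by
    intro k
    induction k with
    | zero =>
      intro n hn d hd
      by_cases hc : X.cross (X.t0 d)
      · have h1 := hM _ _ (PD.Anc.succ n d hd (hopen d) hc)
        omega
      · exact ⟨0, PD.Anc.zero _ hc⟩
    | succ k ih =>
      intro n hn d hd
      by_cases hc : X.cross (X.t0 d)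
      · have h1 := PD.Anc.succ n d hd (hopen d) hc
        obtain ⟨m, hm⟩ := ih (n + 1) (by omega) _ h1
        have h2 : X.cross (X.t0 (X.t0 (X.t1 (X.t2 (X.t1 (X.t0 d)))))) := by
          rw [X.t0_t0, B6_cross3]
          exact hc
        have h3 := PD.Anc.succ m _ hm (hopen _) h2
        rw [X.t0_t0, X.t1_t1, X.t2_t2, X.t1_t1] at h3
        exact ⟨m + 1, h3⟩
      · exact ⟨0, PD.Anc.zero _ hc⟩
  exact key _ n rfl d h

/-- All flags are anchored: noncross flags trivially; for a cross flag `d` either `d` is, or `o = t1 (t2 (t1 (t2 d)))` is; then `t0 o` is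
(`Anc.t0`), hence `t1 t2 t1 (t0 (t0 o)) = t1 t2 t1 o = t2 d`, hence `d` (`Anc.t2`). -/
theorem PD.Good.anc_everywhere {X : PD G} {U : Set V} (h : X.Good U) (hopen : ∀ d, X.t0 d ≠ d)
    (d : X.D) : ∃ n, X.Anc n d := by
  by_cases hc : X.cross d
  · rcases h.anc_all d hc with h1 | ⟨n, h1⟩
    · exact h1
    · obtain ⟨m, hm⟩ := PD.Anc.t0 hopen h1
      have h2 : X.cross (X.t0 (X.t0 (X.t1 (X.t2 (X.t1 (X.t2 d)))))) := by
        rw [X.t0_t0, B6_cross3, X.cross_t2]
        exact hc
      have h3 := PD.Anc.succ m _ hm (hopen _) h2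
      rw [X.t0_t0, X.t1_t1, X.t2_t2, X.t1_t1] at h3
      have h4 := h3.t2
      rw [X.t2_t2] at h4
      exact ⟨m + 1, h4⟩
  · exact ⟨0, PD.Anc.zero _ hc⟩

theorem B6_edge {D : Type} [Fintype D] (t0 t2 : D → D) (h0 : ∀ d, t0 (t0 d) = d)
    (h2 : ∀ d, t2 (t2 d) = d) (n0 : ∀ d, t0 d ≠ d) (n2 : ∀ d, t2 d ≠ d)
    (h02 : ∀ d, t0 (t2 d) = t2 (t0 d)) (n02 : ∀ d, t0 (t2 d) ≠ d) :
    4 * Nat.card (Quot (fun d e : D => e = t0 d ∨ e = t2 d)) = Fintype.card D := by
  classical
  have : Fintype (Quot (fun d e : D => e = t0 d ∨ e = t2 d)) := Fintype.ofFinite _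
  let r : D → D → Prop := fun d e => e = t0 d ∨ e = t2 d
  let orb : D → Finset D := fun d => {d, t0 d, t2 d, t0 (t2 d)}
  have ho : ∀ d e, r d e → orb d = orb e := by
    intro d e h
    rcases h with rfl | rfl
    · ext x
      simp only [orb, Finset.mem_insert, Finset.mem_singleton, h0, ← h02]
      tauto
    · ext x
      simp only [orb, Finset.mem_insert, Finset.mem_singleton, h2]
      tauto
  have hcard : ∀ d, (orb d).card = 4 := by
    intro d
    have e1 : d ≠ t0 d := (n0 d).symm
    have e2 : d ≠ t2 d := (n2 d).symm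
    have e3 : d ≠ t0 (t2 d) := (n02 d).symm
    have e4 : t0 d ≠ t2 d := fun h => n02 d (by rw [← h, h0])
    have e5 : t0 d ≠ t0 (t2 d) := fun h =>
      n2 d ((h0 d).symm.trans ((congrArg t0 h).trans (h0 _))).symm
    have e6 : t2 d ≠ t0 (t2 d) := (n0 _).symm
    rw [Finset.card_insert_of_notMem, Finset.card_insert_of_notMem, Finset.card_insert_of_notMem,
      Finset.card_singleton]
    · simpa using e6
    · simp only [Finset.mem_insert, Finset.mem_singleton, not_or]
      exact ⟨e4, e5⟩
    · simp only [Finset.mem_insert, Finset.mem_singleton, not_or]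
      exact ⟨e1, e2, e3⟩
  have hfib : ∀ q : Quot r, (Finset.univ.filter fun x : D => Quot.mk r x = q).card = 4 := by
    intro q
    induction q using Quot.ind with
    | mk d =>
      rw [← hcard d]
      congr 1
      ext x
      rw [Finset.mem_filter]
      constructor
      · rintro ⟨-, hx⟩
        have h1 : Quot.lift orb ho (Quot.mk r x) = Quot.lift orb ho (Quot.mk r d) := by rw [hx]
        have h3 : orb x = orb d := h1
        rw [← h3]
        exact Finset.mem_insert_self _ _
      · intro hx
        refine ⟨Finset.mem_univ _, ?_⟩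
        have s0 : ∀ y, Quot.mk r (t0 y) = Quot.mk r y := fun y =>
          (Quot.sound (show r y (t0 y) from Or.inl rfl)).symm
        have s2 : ∀ y, Quot.mk r (t2 y) = Quot.mk r y := fun y =>
          (Quot.sound (show r y (t2 y) from Or.inr rfl)).symm
        simp only [orb, Finset.mem_insert, Finset.mem_singleton] at hx
        rcases hx with rfl | rfl | rfl | rfl
        · rfl
        · exact s0 d
        · exact s2 d
        · rw [s0, s2]
  have h := Finset.card_eq_sum_card_fiberwise (s := (Finset.univ : Finset D))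
    (t := (Finset.univ : Finset (Quot r))) (f := Quot.mk r) (fun x _ => Finset.mem_univ _)
  rw [Finset.sum_congr rfl (fun q _ => hfib q), Finset.sum_const, Finset.card_univ,
    Finset.card_univ, smul_eq_mul] at h
  rw [Nat.card_eq_fintype_card, h, mul_comm]

/-- The drawing: `pos d` is the number of `Anc` (`Classical.choose`; `pos_t2`, `pos_zero`, `pos_succ` by uniqueness). `t0_ne` since `L = []`
(`L_open`). `vert_same`: `→`: the label's `fst` is invariant (`fst_t1`, `lab_t2`; work with `Quot.lift` to `Option V`: `some fst` on noncross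
flags, `none` on cross flags); `←`: `fst_conn` with `P := fun x => Quot.mk _ d = Quot.mk _ x`. `vert_ex`: `placed` with `U = univ`.
`chi`: `card Vert = nV`, `card Face = nF` (no links), `4 * card Edge = card D` (orbits of the free action of the group `{1, t0, t2, t0 t2}`:
every fibre of `D → Edge` is `{d, t0 d, t2 d, t0 t2 d}`, four different flags), so `chiOK c` with `L = []` gives
`2 - c ≤ card Vert - card Edge + card Face`. `crossings e f = cr e f / 4 = m`. -/
theorem Reach.final {c : ℕ} {p : Sym2 V → Sym2 V → ZMod 2}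
    (h : Reach G Set.univ [] c p) :
    ∃ M : Drawing G, 2 - (c : ℤ) ≤ M.chi ∧
      ∀ e f, e ≠ f → ((M.crossings e f : ℕ) : ZMod 2) = p e f := by
  classical
  obtain ⟨X, hX, hl, hchi, hcr⟩ := h
  have hL : X.L = [] := List.map_eq_nil_iff.1 hl
  have hopen : ∀ d, X.t0 d ≠ d := by
    intro d hd
    rcases (X.L_open d).1 hd with h | h
    · rw [hL] at h
      exact absurd h List.not_mem_nil
    · rw [hL] at h
      exact absurd h List.not_mem_nil
  have hall := hX.anc_everywhere hopen
  choose pos hpos using hall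
  let M : Drawing G :=
    { D := X.D
      fin := X.fin
      t0 := X.t0
      t1 := X.t1
      t2 := X.t2
      t0_t0 := X.t0_t0
      t1_t1 := X.t1_t1
      t2_t2 := X.t2_t2
      t0_ne := hopen
      t1_ne := X.t1_ne
      t2_ne := X.t2_ne
      t0_t2 := X.t0_t2
      t0_t2_ne := X.t0_t2_ne
      conn := X.conn
      cross := X.cross
      lab := X.lab
      pos := pos
      lab_t2 := X.lab_t2
      lab_t0 := fun d => X.lab_t0 d (hopen d)
      cross_t1 := X.cross_t1
      cross_t2 := X.cross_t2
      cross_four := X.cross_four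
      cross_opp := X.cross_opp
      cross_ne := X.cross_ne
      vert_same := by
        intro d e hd he
        constructor
        · intro h
          let φ : X.D → Option V := fun x => if X.cross x then none else some (X.lab x).fst
          have hφ : ∀ x y : X.D, (y = X.t1 x ∨ y = X.t2 x) → φ x = φ y := by
            intro x y hxy
            by_cases hx : X.cross x
            · rcases hxy with rfl | rfl
              · simp only [φ]
                rw [if_pos hx, if_pos ((X.cross_t1 x).2 hx)]
              · simp only [φ]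
                rw [if_pos hx, if_pos ((X.cross_t2 x).2 hx)]
            · rcases hxy with rfl | rfl
              · simp only [φ]
                rw [if_neg hx, if_neg (fun h => hx ((X.cross_t1 x).1 h)), X.fst_t1 x hx]
              · simp only [φ]
                rw [if_neg hx, if_neg (fun h => hx ((X.cross_t2 x).1 h)), X.lab_t2 x]
          have h1 : Quot.lift φ hφ (Quot.mk _ d) = Quot.lift φ hφ (Quot.mk _ e) := by rw [h]
          have h2 : φ d = φ e := h1
          simp only [φ] at h2
          rw [if_neg hd, if_neg he] at h2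
          exact Option.some.inj h2
        · intro h
          refine X.fst_conn d e hd he h
            (fun x => Quot.mk (fun d e : X.D => e = X.t1 d ∨ e = X.t2 d) d = Quot.mk _ x) ?_ rfl
          intro x hx
          exact ⟨hx.trans (Quot.sound (Or.inl rfl)), hx.trans (Quot.sound (Or.inr rfl))⟩
      vert_ex := fun a => (hX.placed a).2 (Set.mem_univ _)
      vert_uniq := X.vert_uniq
      pos_t2 := fun d => PD.Anc.unique (hpos _) (hpos d).t2
      pos_zero := fun d hd => PD.Anc.unique (hpos d) (PD.Anc.zero d hd)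
      pos_succ := fun d hd => PD.Anc.unique (hpos _) (PD.Anc.succ _ d (hpos d) (hopen d) hd) }
  refine ⟨M, ?_, ?_⟩
  · have hV : Nat.card M.Vert = X.nV := rfl
    have hF : Nat.card M.Face = X.nF := by
      have h1 : X.faceRel = fun d e : X.D => e = X.t0 d ∨ e = X.t1 d := by
        funext d e
        apply propext
        unfold PD.faceRel
        rw [hL]
        simp [links]
      unfold PD.nF
      rw [h1]
      rfl
    have := X.fin
    have hE : 4 * Nat.card M.Edge = Fintype.card X.D :=
      B6_edge X.t0 X.t2 X.t0_t0 X.t2_t2 hopen X.t2_ne X.t0_t2 X.t0_t2_ne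
    unfold PD.chiOK at hchi
    rw [hL, if_pos rfl, Nat.card_eq_fintype_card] at hchi
    simp only [List.length_nil] at hchi
    show 2 - (c : ℤ) ≤ (Nat.card M.Vert : ℤ) - (Nat.card M.Edge : ℤ) + (Nat.card M.Face : ℤ)
    rw [hV, hF]
    omega
  · intro e f hef
    obtain ⟨m, hm1, hm2⟩ := hcr e f hef
    have h1 : M.crossings e f = X.cr e f / 4 := rfl
    rw [h1, hm1, Nat.mul_div_cancel_left _ (by norm_num)]
    exact hm2

end Pool.Agent.NHT
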