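import Pool.Agent.NHT.B2
import Pool.Agent.NHT.B2b
import Pool.Agent.NHT.B3
import Pool.Agent.NHT.B5
import Pool.Agent.NHT.B6

set_option autoImplicit false

/-!
NHT-B7: parities of lists; the invariant `κ`.
-/

namespace Pool.Agent.NHT

open Pool.Agent.HTE
open scoped Classical

variable {V : Type} {G : SimpleGraph V}

/-- Number of ends of the edge `e` in the list. -/
noncomputable def ecount (e : Sym2 V) (l : List G.Dart) : ℕ := l.countP (fun b => b.edge = e)

/-- Number of pairs (an end of `e` before an end of `f`) modulo `2`. -/
noncomputable def cntp (e f : Sym2 V) : List G.Dart → ZMod 2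
  | [] => 0
  | a :: l => (if a.edge = e then (ecount f l : ZMod 2) else 0) + cntp e f l

/-- Every open edge occurs exactly twice. -/
def Dbl (l : List G.Dart) : Prop := l.Nodup ∧ ∀ a ∈ l, a.symm ∈ l

theorem B7_ecount_append (e : Sym2 V) (l₁ l₂ : List G.Dart) :
    ecount e (l₁ ++ l₂) = ecount e l₁ + ecount e l₂ := by
  unfold ecount
  rw [List.countP_append]

theorem B7_ecount_cons (e : Sym2 V) (a : G.Dart) (l : List G.Dart) :
    ecount e (a :: l) = ecount e l + if a.edge = e then 1 else 0 := by
  unfold ecount
  rw [List.countP_cons]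
  simp

theorem B7_ecount_nil (e : Sym2 V) : ecount e ([] : List G.Dart) = 0 := rfl

theorem B7_ecount_reverse (e : Sym2 V) (l : List G.Dart) : ecount e l.reverse = ecount e l := by
  unfold ecount
  rw [List.countP_reverse]

theorem B7_add_self (a : ZMod 2) : a + a = 0 := by
  revert a
  decide

theorem B7_eq {a b : ZMod 2} (h : a + b = 0) : a = b := by
  revert a b
  decide

theorem cntp_append (e f : Sym2 V) (l₁ l₂ : List G.Dart) :
    cntp e f (l₁ ++ l₂) = cntp e f l₁ + cntp e f l₂ + (ecount e l₁ : ZMod 2) * ecount f l₂ := by
  induction l₁ with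
  | nil =>
    rw [List.nil_append, B7_ecount_nil]
    simp [cntp]
  | cons a l₁ ih =>
    rw [List.cons_append, cntp, cntp, ih, B7_ecount_append, B7_ecount_cons]
    by_cases h : a.edge = e
    · simp only [h, if_true]
      push_cast
      ring
    · simp only [h, if_false]
      push_cast
      ring

theorem B7_sum {e f : Sym2 V} (hef : e ≠ f) (l : List G.Dart) :
    cntp e f l + cntp f e l = (ecount e l : ZMod 2) * ecount f l := by
  induction l with
  | nil => simp [cntp, B7_ecount_nil]
  | cons a l ih =>
    rw [cntp, cntp, B7_ecount_cons, B7_ecount_cons]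
    by_cases h : a.edge = e
    · have h' : a.edge ≠ f := by
        rw [h]
        exact hef
      simp only [h, h', hef, if_true, if_false]
      push_cast
      linear_combination ih
    · by_cases h' : a.edge = f
      · simp only [h', Ne.symm hef, if_true, if_false]
        push_cast
        linear_combination ih
      · simp only [h, h', if_false]
        push_cast
        linear_combination ih

theorem B7_rev (e f : Sym2 V) (l : List G.Dart) : cntp e f l.reverse = cntp f e l := by
  induction l with
  | nil => rfl
  | cons a l ih =>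
    rw [List.reverse_cons, cntp_append, ih, B7_ecount_reverse, B7_ecount_cons, B7_ecount_nil]
    by_cases h : a.edge = f
    · simp only [cntp, h, if_true, B7_ecount_nil]
      push_cast
      split_ifs <;> ring
    · simp only [cntp, h, if_false, B7_ecount_nil]
      push_cast
      split_ifs <;> ring

/-- For `e ≠ f`: `cntp e f l + cntp f e l = ecount e l * ecount f l` (induction), and `cntp e f l.reverse = cntp f e l`
(induction with `cntp_append`). -/
theorem cntp_reverse {e f : Sym2 V} (hef : e ≠ f) (l : List G.Dart) :
    cntp e f l.reverse = cntp e f l + (ecount e l : ZMod 2) * ecount f l := by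
  rw [B7_rev]
  have h1 := B7_sum hef l
  have h2 := B7_add_self (cntp e f l)
  linear_combination h1 - h2

/-- `ecount e l ∈ {0, 2}`: the darts with edge `e` are `a` and `a.symm` (`SimpleGraph.dart_edge_eq_iff`). -/
theorem ecount_dbl {l : List G.Dart} (h : Dbl l) (e : Sym2 V) : (ecount e l : ZMod 2) = 0 := by
  by_cases hex : ∃ a ∈ l, a.edge = e
  · obtain ⟨a, ha, hae⟩ := hex
    have hperm : (l.filter (fun b => b.edge = e)).Perm [a, a.symm] := by
      rw [List.perm_ext_iff_of_nodup (h.1.filter _)]
      · intro b
        rw [List.mem_filter, List.mem_cons, List.mem_singleton]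
        constructor
        · rintro ⟨_, h2⟩
          have h3 : b.edge = a.edge := by
            rw [hae]
            simpa using h2
          exact SimpleGraph.dart_edge_eq_iff b a |>.1 h3
        · rintro (rfl | rfl)
          · exact ⟨ha, by simpa using hae⟩
          · refine ⟨h.2 a ha, ?_⟩
            rw [SimpleGraph.Dart.edge_symm]
            simpa using hae
      · rw [List.nodup_cons, List.mem_singleton]
        exact ⟨fun h2 => a.symm_ne h2.symm, List.nodup_singleton _⟩
    have h2 : ecount e l = 2 := by
      unfold ecount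
      rw [List.countP_eq_length_filter, hperm.length_eq]
      rfl
    rw [h2]
    rfl
  · have h2 : ecount e l = 0 := by
      unfold ecount
      rw [List.countP_eq_zero]
      intro b hb
      simp only [decide_eq_true_eq]
      exact fun h3 => hex ⟨b, hb, h3⟩
    rw [h2]
    rfl

theorem Dbl.perm {l l' : List G.Dart} (h : Dbl l) (hp : l.Perm l') : Dbl l' := by
  exact ⟨hp.nodup_iff.1 h.1, fun a ha => hp.mem_iff.1 (h.2 a (hp.mem_iff.2 ha))⟩

/-- A drawing with open ends, with list `l` and invariant `κ e f = (crossings of e and f) + cntp e f l`. -/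
def RK (G : SimpleGraph V) (l : List G.Dart) (c : ℕ) (κ : Sym2 V → Sym2 V → ZMod 2) : Prop :=
  Reach G Set.univ l c (fun e f => κ e f + cntp e f l)

/-- `cntp e f (l₂ ++ l₁) = cntp e f (l₁ ++ l₂)` for `e ≠ f` if all `ecount`s of `l₁ ++ l₂` are even: the difference is
`ecount e l₁ * ecount f l₂ + ecount e l₂ * ecount f l₁`, and `ecount e l₂ = ecount e l₁` modulo `2`. -/
theorem RK.rotate {l₁ l₂ : List G.Dart} {c : ℕ} {κ : Sym2 V → Sym2 V → ZMod 2}
    (h : RK G (l₁ ++ l₂) c κ) (hd : Dbl (l₁ ++ l₂)) : RK G (l₂ ++ l₁) c κ := by
  unfold RK at h ⊢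
  refine (h.rotate (List.isRotated_append)).congr fun e f _ => ?_
  have he := ecount_dbl hd e
  have hf := ecount_dbl hd f
  rw [B7_ecount_append] at he hf
  push_cast at he hf
  rw [cntp_append, cntp_append, ← B7_eq he, ← B7_eq hf]
  ring

/-- Rotate `A` to the end, `Reach.swap`, rotate back; `bump` is the change of `cntp`. -/
theorem RK.swap {A B : List G.Dart} {a b : G.Dart} {c : ℕ} {κ : Sym2 V → Sym2 V → ZMod 2}
    (h : RK G (A ++ a :: b :: B) c κ) (hd : Dbl (A ++ a :: b :: B)) (hab : a.edge ≠ b.edge) :
    RK G (A ++ b :: a :: B) c κ := by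
  have h1 : RK G ((a :: b :: B) ++ A) c κ := h.rotate hd
  have h2 : RK G ((b :: a :: B) ++ A) c κ := by
    unfold RK at h1 ⊢
    refine (Reach.swap h1 hab).congr fun e f hef => ?_
    simp only [List.cons_append, bump, cntp, B7_ecount_cons]
    push_cast
    by_cases e1 : a.edge = e
    · have e2 : b.edge ≠ e := fun h3 => hab (e1.trans h3.symm)
      have e3 : a.edge ≠ f := fun h3 => hef (e1.symm.trans h3)
      by_cases e4 : b.edge = f
      · simp only [e1, e4, hef, Ne.symm hef, if_true, if_false, true_and, and_self, or_false,
          false_and, and_false, true_or]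
        have := B7_add_self (1 : ZMod 2)
        linear_combination this
      · have e5 : f ≠ b.edge := Ne.symm e4
        have e6 : e ≠ b.edge := Ne.symm e2
        simp only [e1, e2, e4, e5, e6, hef, if_true, if_false, true_and, and_false, or_false,
          false_and]
        ring
    · by_cases e2 : b.edge = e
      · by_cases e3 : a.edge = f
        · simp only [e2, e3, hef, Ne.symm hef, if_true, if_false, true_and, and_self, or_true,
            false_and, and_false, false_or, Ne.symm hef]
          ring
        · have e5 : f ≠ a.edge := Ne.symm e3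
          have e6 : e ≠ a.edge := Ne.symm e1
          simp only [e1, e2, e3, e5, e6, hef, if_true, if_false, false_and, and_false, or_false]
          ring
      · have e5 : e ≠ a.edge := Ne.symm e1
        have e6 : e ≠ b.edge := Ne.symm e2
        simp only [e1, e2, e5, e6, if_false, false_and, or_false]
        ring
  have hd2 : Dbl ((b :: a :: B) ++ A) :=
    hd.perm (List.perm_append_comm.trans ((List.Perm.swap b a B).append_right A))
  exact h2.rotate hd2

/-- Move the end `a` to the left over a block without ends of the same edge: induction on `C`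
(from the right), `RK.swap`. -/
theorem RK.move {A C B : List G.Dart} {a : G.Dart} {c : ℕ} {κ : Sym2 V → Sym2 V → ZMod 2}
    (h : RK G (A ++ (C ++ a :: B)) c κ) (hd : Dbl (A ++ (C ++ a :: B)))
    (hC : ∀ b ∈ C, b.edge ≠ a.edge) : RK G (A ++ a :: (C ++ B)) c κ := by
  induction C using List.reverseRecOn generalizing B with
  | nil => exact h
  | append_singleton C b ih =>
    have e1 : A ++ (C ++ [b] ++ a :: B) = (A ++ C) ++ b :: a :: B := by simp
    have hab : b.edge ≠ a.edge := hC b (by simp)
    rw [e1] at h hd
    have h2 := h.swap hd hab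
    have hd2 : Dbl ((A ++ C) ++ a :: b :: B) :=
      hd.perm ((List.Perm.swap a b B).append_left (A ++ C))
    rw [List.append_assoc] at h2 hd2
    have h3 := ih h2 hd2 (fun x hx => hC x (List.mem_append_left _ hx))
    have e2 : A ++ a :: (C ++ [b] ++ B) = A ++ a :: (C ++ b :: B) := by simp
    rw [e2]
    exact h3

/-- `Reach.cap` at the front. -/
theorem RK.cap {l : List G.Dart} {a : G.Dart} {c : ℕ} {κ : Sym2 V → Sym2 V → ZMod 2}
    (h : RK G (a :: a.symm :: l) c κ) : RK G l c κ := by
  unfold RK at h ⊢
  refine (Reach.cap h).congr fun e f hef => ?_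
  simp only [cntp, B7_ecount_cons, SimpleGraph.Dart.edge_symm]
  push_cast
  by_cases e1 : a.edge = e
  · have e3 : a.edge ≠ f := fun h3 => hef (e1.symm.trans h3)
    simp only [e1, hef, if_true, if_false]
    have := B7_add_self (ecount f l : ZMod 2)
    linear_combination this
  · simp only [e1, if_false]
    ring

/-- `Reach.flip`, `cntp_append`, `cntp_reverse`. -/
theorem RK.flip {l₁ l₂ : List G.Dart} {c : ℕ} {κ : Sym2 V → Sym2 V → ZMod 2}
    (h : RK G (l₁ ++ l₂) c κ) :
    RK G (l₁.reverse ++ l₂) (c + 1) (fun e f => κ e f + (ecount e l₁ : ZMod 2) * ecount f l₁) := by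
  unfold RK at h ⊢
  refine (Reach.flip h).congr fun e f hef => ?_
  rw [cntp_append, cntp_append, cntp_reverse hef, B7_ecount_reverse]
  have := B7_add_self ((ecount e l₁ : ZMod 2) * ecount f l₁)
  linear_combination - this

end Pool.Agent.NHT
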