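import Pool.Agent.NHT.B9b
import Pool.Agent.NHT.B7

set_option autoImplicit false

/-!
NHT-B10: the stars; the base word and its parities.
-/

namespace Pool.Agent.NHT

open Finset

variable {N : ℕ} [NeZero N] {S : Type} [DecidableEq S]

/-- The darts from the star of `i` to its legs other than `i`. -/
def blk (u : Fin N → S) (H : ℕ) (i : Fin N) : List (GG u H).Dart :=
  ((List.finRange N).filter (fun j => u j = u i ∧ j ≠ i)).map (fun j => (dLeg u H j).symm)

/-- The base word when the stars of `T` are placed. -/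
def lw (u : Fin N → S) (H : ℕ) (t : S → Fin N) (T : S → Prop) [DecidablePred T] :
    List (GG u H).Dart :=
  (List.finRange N).flatMap (fun i => if i = t (u i) ∧ T (u i) then blk u H i else [dLeg u H i])

theorem B10_leg_inj (u : Fin N → S) (H : ℕ) (i j : Fin N)
    (h : (dLeg u H i).symm = (dLeg u H j).symm) : i = j := by
  have h1 : (dLeg u H i).symm.snd = (dLeg u H j).symm.snd := by rw [h]
  have h2 : (Sum.inr (i, 0) : GV N H S) = Sum.inr (j, 0) := h1
  have h3 := Sum.inr.inj h2
  exact congrArg Prod.fst h3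

theorem B10_blk_ne (u : Fin N → S) (H : ℕ) (i : Fin N) (h : ∃ j, j ≠ i ∧ u j = u i) :
    blk u H i ≠ [] := by
  obtain ⟨j, hj, hu⟩ := h
  intro h0
  have h1 : (dLeg u H j).symm ∈ blk u H i := by
    unfold blk
    rw [List.mem_map]
    exact ⟨j, List.mem_filter.2 ⟨List.mem_finRange j, decide_eq_true ⟨hu, hj⟩⟩, rfl⟩
  rw [h0] at h1
  exact List.not_mem_nil h1

theorem B10_lw_congr (u : Fin N → S) (H : ℕ) (t : S → Fin N) (T T' : S → Prop) [DecidablePred T]
    [DecidablePred T'] (h : ∀ s, T s ↔ T' s) : lw u H t T = lw u H t T' := by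
  unfold lw
  congr 1
  funext i
  by_cases h1 : i = t (u i) ∧ T (u i)
  · rw [if_pos h1, if_pos ⟨h1.1, (h _).1 h1.2⟩]
  · rw [if_neg h1, if_neg (fun h2 => h1 ⟨h2.1, (h _).2 h2.2⟩)]

/-- The darts at a star. -/
theorem darts_star (u : Fin N → S) (H : ℕ) (i : Fin N) (b : (GG u H).Dart) :
    b ∈ (dLeg u H i).symm :: blk u H i ↔ b.fst = Sum.inl (u i) := by
  rw [List.mem_cons]
  constructor
  · rintro (h | h)
    · rw [h]
      rfl
    · unfold blk at h
      rw [List.mem_map] at h
      obtain ⟨j, hj, hb⟩ := h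
      rw [List.mem_filter] at hj
      have hj2 : u j = u i := (of_decide_eq_true hj.2).1
      rw [← hb]
      change (Sum.inl (u j) : GV N H S) = Sum.inl (u i)
      rw [hj2]
  · intro h
    obtain ⟨⟨x, y⟩, hadj⟩ := b
    dsimp only at h
    subst h
    have h1 := hadj
    unfold GG at h1
    rw [SimpleGraph.fromRel_adj] at h1
    obtain ⟨-, h1⟩ := h1
    rcases y with s' | ⟨j, l⟩
    · rcases h1 with h1 | h1
      · exact h1.elim
      · exact h1.elim
    · have h2 : l = 0 ∧ u j = u i := by
        rcases h1 with h1 | h1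
        · exact h1
        · exact h1.elim
      obtain ⟨h3, h4⟩ := h2
      subst h3
      have h5 : (⟨(Sum.inl (u i), Sum.inr (j, 0)), hadj⟩ : (GG u H).Dart) = (dLeg u H j).symm := by
        apply SimpleGraph.Dart.ext
        change ((Sum.inl (u i), Sum.inr (j, 0)) : GV N H S × GV N H S) = (Sum.inl (u j), Sum.inr (j, 0))
        rw [h4]
      rw [h5]
      by_cases hji : j = i
      · left
        rw [hji]
      · right
        unfold blk
        rw [List.mem_map]
        exact ⟨j, List.mem_filter.2 ⟨List.mem_finRange j, decide_eq_true ⟨h4, hji⟩⟩, rfl⟩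

theorem darts_star_nodup (u : Fin N → S) (H : ℕ) (i : Fin N) :
    ((dLeg u H i).symm :: blk u H i).Nodup := by
  rw [List.nodup_cons]
  constructor
  · intro h
    unfold blk at h
    rw [List.mem_map] at h
    obtain ⟨j, hj, hb⟩ := h
    rw [List.mem_filter] at hj
    exact (of_decide_eq_true hj.2).2 (B10_leg_inj u H j i hb)
  · unfold blk
    apply List.Nodup.map
    · intro a b hab
      exact B10_leg_inj u H a b hab
    · exact (List.nodup_finRange N).filter _

/-- One more star `s ∉ T`: `lw T = A ++ dLeg (t s) :: B` and `lw (T ∪ {s}) = A ++ blk (t s) ++ B` (split `finRange` at `t s`; the other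
positions do not change), rotate `A` away, `Reach.grow` at `dLeg (t s)` with `ls = blk (t s)` (`≠ []` by `htwo`), rotate back. -/
theorem star_step (u : Fin N → S) (H : ℕ) (t : S → Fin N)
    (htwo : ∀ i, ∃ j, j ≠ i ∧ u j = u i) (ht : ∀ s, u (t s) = s) (T : S → Prop) [DecidablePred T]
    (s : S) (hs : ¬ T s)
    (h : Reach (GG u H) {x | (∃ y, x = Sum.inr y) ∨ ∃ s', T s' ∧ x = Sum.inl s'} (lw u H t T) 0
      (fun _ _ => 0)) :
    Reach (GG u H) {x | (∃ y, x = Sum.inr y) ∨ ∃ s', (T s' ∨ s' = s) ∧ x = Sum.inl s'}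
      (lw u H t (fun s' => T s' ∨ s' = s)) 0 (fun _ _ => 0) := by
  obtain ⟨l₁, l₂, hl⟩ := List.append_of_mem (List.mem_finRange (t s))
  have hnd := List.nodup_finRange N
  rw [hl] at hnd
  have hn1 : ∀ i ∈ l₁, i ≠ t s := by
    intro i hi h0
    rw [List.nodup_append] at hnd
    exact hnd.2.2 i hi (t s) (List.mem_cons_self) h0
  have hn2 : ∀ i ∈ l₂, i ≠ t s := by
    intro i hi h0
    rw [List.nodup_append] at hnd
    have h1 := hnd.2.1
    rw [List.nodup_cons] at h1
    rw [h0] at hi
    exact h1.1 hi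
  have hcg : ∀ i, i ≠ t s → (if i = t (u i) ∧ T (u i) then blk u H i else [dLeg u H i]) =
      (if i = t (u i) ∧ (T (u i) ∨ u i = s) then blk u H i else [dLeg u H i]) := by
    intro i hi
    by_cases h1 : i = t (u i) ∧ T (u i)
    · rw [if_pos h1, if_pos ⟨h1.1, Or.inl h1.2⟩]
    · rw [if_neg h1, if_neg]
      rintro ⟨h2, h3 | h3⟩
      · exact h1 ⟨h2, h3⟩
      · rw [h3] at h2
        exact hi h2
  obtain ⟨A, hA⟩ : ∃ A, A = l₁.flatMap
      (fun i => if i = t (u i) ∧ T (u i) then blk u H i else [dLeg u H i]) := ⟨_, rfl⟩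
  obtain ⟨B, hB⟩ : ∃ B, B = l₂.flatMap
      (fun i => if i = t (u i) ∧ T (u i) then blk u H i else [dLeg u H i]) := ⟨_, rfl⟩
  have h1 : lw u H t T = A ++ dLeg u H (t s) :: B := by
    unfold lw
    rw [hl, List.flatMap_append, List.flatMap_cons, ← hA, ← hB, if_neg]
    · rfl
    · rw [ht s]
      exact fun h2 => hs h2.2
  have h2 : lw u H t (fun s' => T s' ∨ s' = s) = A ++ (blk u H (t s) ++ B) := by
    unfold lw
    rw [hl, List.flatMap_append, List.flatMap_cons, hA, hB]
    have e1 : l₁.flatMap (fun i => if i = t (u i) ∧ T (u i) then blk u H i else [dLeg u H i]) =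
        l₁.flatMap (fun i => if i = t (u i) ∧ (T (u i) ∨ u i = s) then blk u H i
          else [dLeg u H i]) :=
      List.flatMap_congr (fun i hi => hcg i (hn1 i hi))
    have e2 : l₂.flatMap (fun i => if i = t (u i) ∧ T (u i) then blk u H i else [dLeg u H i]) =
        l₂.flatMap (fun i => if i = t (u i) ∧ (T (u i) ∨ u i = s) then blk u H i
          else [dLeg u H i]) :=
      List.flatMap_congr (fun i hi => hcg i (hn2 i hi))
    rw [e1, e2, if_pos]
    rw [ht s]
    exact ⟨rfl, Or.inr rfl⟩
  rw [h1] at h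
  have h3 : Reach (GG u H) {x | (∃ y, x = Sum.inr y) ∨ ∃ s', T s' ∧ x = Sum.inl s'}
      (dLeg u H (t s) :: (B ++ A)) 0 (fun _ _ => 0) := by
    apply h.rotate
    exact List.isRotated_append
  have hsnd : (dLeg u H (t s)).snd = Sum.inl s := by
    change (Sum.inl (u (t s)) : GV N H S) = Sum.inl s
    rw [ht s]
  have h4 := h3.grow (ls := blk u H (t s)) (by
      rw [hsnd]
      rintro (⟨y, hy⟩ | ⟨s', hs', hy⟩)
      · cases hy
      · rw [Sum.inl.inj hy] at hs
        exact hs hs') (B10_blk_ne u H (t s) (htwo (t s)))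
      (darts_star_nodup u H (t s)) (by
        intro b
        exact darts_star u H (t s) b)
  rw [hsnd] at h4
  have h5 : (insert (Sum.inl s) {x | (∃ y, x = Sum.inr y) ∨ ∃ s', T s' ∧ x = Sum.inl s'} :
      Set (GV N H S)) = {x | (∃ y, x = Sum.inr y) ∨ ∃ s', (T s' ∨ s' = s) ∧ x = Sum.inl s'} := by
    ext x
    rw [Set.mem_insert_iff]
    constructor
    · rintro (h6 | h6 | ⟨s', h6, h7⟩)
      · exact Or.inr ⟨s, Or.inr rfl, h6⟩
      · exact Or.inl h6
      · exact Or.inr ⟨s', Or.inl h6, h7⟩
    · rintro (h6 | ⟨s', h6 | h6, h7⟩)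
      · exact Or.inr (Or.inl h6)
      · exact Or.inr (Or.inr ⟨s', h6, h7⟩)
      · rw [h6] at h7
        exact Or.inl h7
  rw [h5] at h4
  rw [h2]
  apply h4.rotate
  rw [← List.append_assoc]
  exact List.isRotated_append

/-- Induction over the stars, from `level_all` (`T = ∅`: `lw = map dLeg`). -/
theorem base (hN : 3 ≤ N) (u : Fin N → S) (H : ℕ) (t : S → Fin N) [Fintype S]
    (htwo : ∀ i, ∃ j, j ≠ i ∧ u j = u i) (ht : ∀ s, u (t s) = s) :
    Reach (GG u H) Set.univ (lw u H t (fun _ => True)) 0 (fun _ _ => 0) := by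
  have key : ∀ F : Finset S, Reach (GG u H)
      {x | (∃ y, x = Sum.inr y) ∨ ∃ s', s' ∈ F ∧ x = Sum.inl s'}
      (lw u H t (fun s' => s' ∈ F)) 0 (fun _ _ => 0) := by
    intro F
    induction F using Finset.induction_on with
    | empty =>
      have h1 := level_all hN u H
      have h2 : lw u H t (fun s' => s' ∈ (∅ : Finset S)) = (List.finRange N).map (dLeg u H) := by
        unfold lw
        have e1 : ∀ L : List (Fin N), L.flatMap (fun i => if i = t (u i) ∧ u i ∈ (∅ : Finset S)
            then blk u H i else [dLeg u H i]) = L.map (dLeg u H) := by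
          intro L
          induction L with
          | nil => rfl
          | cons i L ih =>
            rw [List.flatMap_cons, ih, List.map_cons,
              if_neg (fun h => absurd h.2 (Finset.notMem_empty _))]
            rfl
        exact e1 _
      have h3 : ({x | (∃ y, x = Sum.inr y) ∨ ∃ s', s' ∈ (∅ : Finset S) ∧ x = Sum.inl s'} :
          Set (GV N H S)) = {x | ∃ y, x = Sum.inr y} := by
        ext x
        constructor
        · rintro (h4 | ⟨s', h4, -⟩)
          · exact h4
          · exact absurd h4 (Finset.notMem_empty s')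
        · exact fun h4 => Or.inl h4
      rw [h2, h3]
      exact h1
    | insert s F hs ih =>
      have h1 := star_step u H t htwo ht (fun s' => s' ∈ F) s hs ih
      have h2 : lw u H t (fun s' => s' ∈ insert s F) = lw u H t (fun s' => s' ∈ F ∨ s' = s) := by
        apply B10_lw_congr
        intro s'
        rw [Finset.mem_insert, or_comm]
      have h3 : ({x | (∃ y, x = Sum.inr y) ∨ ∃ s', s' ∈ insert s F ∧ x = Sum.inl s'} :
          Set (GV N H S)) = {x | (∃ y, x = Sum.inr y) ∨ ∃ s', (s' ∈ F ∨ s' = s) ∧ x = Sum.inl s'} := by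
        ext x
        constructor
        · rintro (h4 | ⟨s', h4, h5⟩)
          · exact Or.inl h4
          · exact Or.inr ⟨s', (Finset.mem_insert.1 h4).symm, h5⟩
        · rintro (h4 | ⟨s', h4, h5⟩)
          · exact Or.inl h4
          · exact Or.inr ⟨s', Finset.mem_insert.2 h4.symm, h5⟩
      rw [h2, h3]
      exact h1
  have h1 := key Finset.univ
  have h2 : lw u H t (fun s' => s' ∈ (Finset.univ : Finset S)) = lw u H t (fun _ => True) := by
    apply B10_lw_congr
    intro s'
    exact ⟨fun _ => trivial, fun _ => Finset.mem_univ s'⟩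
  have h3 : ({x | (∃ y, x = Sum.inr y) ∨ ∃ s', s' ∈ (Finset.univ : Finset S) ∧ x = Sum.inl s'} :
      Set (GV N H S)) = Set.univ := by
    ext x
    constructor
    · exact fun _ => Set.mem_univ x
    · intro _
      rcases x with s' | y
      · exact Or.inr ⟨s', Finset.mem_univ s', rfl⟩
      · exact Or.inl ⟨y, rfl⟩
  rw [h2, h3] at h1
  exact h1

end Pool.Agent.NHT
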