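import Pool.Agent.NHT.B10

set_option autoImplicit false

/-!
NHT-B10b: the parities of the base word.
-/

namespace Pool.Agent.NHT

open Finset

variable {N : ℕ} [NeZero N] {S : Type} [DecidableEq S]

omit [DecidableEq S] in
theorem b10b_leg_inj (u : Fin N → S) (H : ℕ) {i j : Fin N} (h : dLeg u H i = dLeg u H j) : i = j := by
  have h1 : (dLeg u H i).fst = (dLeg u H j).fst := by rw [h]
  have h2 : (Sum.inr (i, (0 : Fin (H + 1))) : GV N H S) = Sum.inr (j, 0) := h1
  simpa using h2

omit [DecidableEq S] in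
theorem b10b_leg_ne_symm (u : Fin N → S) (H : ℕ) (i j : Fin N) : dLeg u H i ≠ (dLeg u H j).symm := by
  intro h
  have h1 : (dLeg u H i).fst = ((dLeg u H j).symm).fst := by rw [h]
  have h2 : (Sum.inr (i, (0 : Fin (H + 1))) : GV N H S) = Sum.inl (u j) := h1
  simp at h2

omit [DecidableEq S] in
theorem b10b_edge (u : Fin N → S) (H : ℕ) (i j : Fin N) :
    (dLeg u H i).edge = (dLeg u H j).edge ↔ i = j := by
  constructor
  · intro h
    rcases SimpleGraph.dart_edge_eq_iff _ _ |>.1 h with h1 | h1
    · exact b10b_leg_inj u H h1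
    · exact absurd h1 (b10b_leg_ne_symm u H i j)
  · rintro rfl
    rfl

theorem b10b_ecount_countP {V : Type} {G : SimpleGraph V} (e : Sym2 V) (l : List G.Dart)
    (p : G.Dart → Bool) (hp : ∀ b, p b = true ↔ b.edge = e) : ecount e l = l.countP p := by
  unfold ecount
  refine List.countP_congr fun b _ => ?_
  rw [hp b]
  simp

theorem b10b_ecount_append {V : Type} {G : SimpleGraph V} (e : Sym2 V) (l₁ l₂ : List G.Dart) :
    ecount e (l₁ ++ l₂) = ecount e l₁ + ecount e l₂ := by
  unfold ecount
  rw [List.countP_append]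

theorem b10b_ecount_cons {V : Type} {G : SimpleGraph V} (e : Sym2 V) (a : G.Dart) (l : List G.Dart)
    [Decidable (a.edge = e)] :
    ecount e (a :: l) = ecount e l + if a.edge = e then 1 else 0 := by
  unfold ecount
  rw [List.countP_cons]
  simp

/-- the block at the position `i` -/
def b10b_B (u : Fin N → S) (H : ℕ) (t : S → Fin N) (i : Fin N) : List (GG u H).Dart :=
  if i = t (u i) ∧ True then blk u H i else [dLeg u H i]

theorem b10b_lw (u : Fin N → S) (H : ℕ) (t : S → Fin N) :
    lw u H t (fun _ => True) = (List.finRange N).flatMap (b10b_B u H t) := rfl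

theorem b10b_mem (u : Fin N → S) (H : ℕ) (t : S → Fin N) (ht : ∀ s, u (t s) = s) (i : Fin N)
    (a : (GG u H).Dart) :
    a ∈ b10b_B u H t i ↔
      ∃ j, j ≠ t (u j) ∧ ((i = j ∧ a = dLeg u H j) ∨ (i = t (u j) ∧ a = (dLeg u H j).symm)) := by
  unfold b10b_B
  by_cases hi : i = t (u i)
  · rw [if_pos ⟨hi, trivial⟩]
    unfold blk
    rw [List.mem_map]
    constructor
    · rintro ⟨j, hj, rfl⟩
      rw [List.mem_filter] at hj
      have hj2 : u j = u i ∧ j ≠ i := by simpa using hj.2
      have h3 : t (u j) = i := by rw [hj2.1, ← hi]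
      exact ⟨j, by rw [h3]; exact hj2.2, Or.inr ⟨h3.symm, rfl⟩⟩
    · rintro ⟨j, hj, ⟨rfl, h⟩ | ⟨h1, h2⟩⟩
      · exact absurd hi hj
      · refine ⟨j, ?_, h2.symm⟩
        rw [List.mem_filter]
        refine ⟨List.mem_finRange _, ?_⟩
        have h3 : u i = u j := by rw [h1, ht]
        have h4 : j ≠ i := by rw [h1]; exact hj
        simp [h3, h4]
  · rw [if_neg (fun h => hi h.1), List.mem_singleton]
    constructor
    · rintro rfl
      exact ⟨i, hi, Or.inl ⟨rfl, rfl⟩⟩
    · rintro ⟨j, hj, ⟨rfl, h⟩ | ⟨h1, h2⟩⟩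
      · exact h
      · exfalso
        apply hi
        rw [h1, ht]

theorem b10b_nodup (u : Fin N → S) (H : ℕ) (t : S → Fin N) (i : Fin N) :
    (b10b_B u H t i).Nodup := by
  unfold b10b_B
  split_ifs
  · unfold blk
    refine List.Nodup.map ?_ ((List.nodup_finRange N).filter _)
    intro j k h
    have h1 : dLeg u H j = dLeg u H k := by
      have := congrArg SimpleGraph.Dart.symm h
      simpa using this
    exact b10b_leg_inj u H h1
  · exact List.nodup_singleton _

theorem b10b_mem_lw (u : Fin N → S) (H : ℕ) (t : S → Fin N) (ht : ∀ s, u (t s) = s)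
    (a : (GG u H).Dart) :
    a ∈ lw u H t (fun _ => True) ↔
      ∃ j, j ≠ t (u j) ∧ (a = dLeg u H j ∨ a = (dLeg u H j).symm) := by
  rw [b10b_lw, List.mem_flatMap]
  constructor
  · rintro ⟨i, _, hi⟩
    rw [b10b_mem u H t ht] at hi
    obtain ⟨j, hj, ⟨_, h⟩ | ⟨_, h⟩⟩ := hi
    · exact ⟨j, hj, Or.inl h⟩
    · exact ⟨j, hj, Or.inr h⟩
  · rintro ⟨j, hj, h | h⟩
    · exact ⟨j, List.mem_finRange _, (b10b_mem u H t ht _ _).2 ⟨j, hj, Or.inl ⟨rfl, h⟩⟩⟩
    · exact ⟨t (u j), List.mem_finRange _, (b10b_mem u H t ht _ _).2 ⟨j, hj, Or.inr ⟨rfl, h⟩⟩⟩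

/-- The elements: `dLeg j` for `j ≠ t (u j)` at the position `j`, and `(dLeg j).symm` for `j ≠ t (u j)` at the position `t (u j)`. -/
theorem dbl_lw (u : Fin N → S) (H : ℕ) (t : S → Fin N) (ht : ∀ s, u (t s) = s) :
    Dbl (lw u H t (fun _ => True)) := by
  refine ⟨?_, ?_⟩
  · rw [b10b_lw, List.nodup_flatMap]
    refine ⟨fun i _ => b10b_nodup u H t i, ?_⟩
    refine (List.nodup_finRange N).imp ?_
    intro i i' hii'
    show List.Disjoint (b10b_B u H t i) (b10b_B u H t i')
    intro a ha ha'
    rw [b10b_mem u H t ht] at ha ha'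
    obtain ⟨j, hj, h⟩ := ha
    obtain ⟨j', hj', h'⟩ := ha'
    rcases h with ⟨h1, h2⟩ | ⟨h1, h2⟩
    · rcases h' with ⟨h3, h4⟩ | ⟨h3, h4⟩
      · have := b10b_leg_inj u H (h2.symm.trans h4)
        exact hii' (by rw [h1, h3, this])
      · exact b10b_leg_ne_symm u H _ _ (h2.symm.trans h4)
    · rcases h' with ⟨h3, h4⟩ | ⟨h3, h4⟩
      · exact b10b_leg_ne_symm u H _ _ (h4.symm.trans h2)
      · have h5 : (dLeg u H j).symm = (dLeg u H j').symm := h2.symm.trans h4
        have h6 : dLeg u H j = dLeg u H j' := by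
          have := congrArg SimpleGraph.Dart.symm h5
          simpa using this
        have := b10b_leg_inj u H h6
        exact hii' (by rw [h1, h3, this])
  · intro a ha
    rw [b10b_mem_lw u H t ht] at ha ⊢
    obtain ⟨j, hj, rfl | rfl⟩ := ha
    · exact ⟨j, hj, Or.inr rfl⟩
    · exact ⟨j, hj, Or.inl (by simp)⟩

/-- An edge that is not a nontree leg does not occur. -/
theorem ecount_lw (u : Fin N → S) (H : ℕ) (t : S → Fin N) (ht : ∀ s, u (t s) = s)
    (e : Sym2 (GV N H S)) (he : ∀ j, j ≠ t (u j) → (dLeg u H j).edge ≠ e) :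
    ecount e (lw u H t (fun _ => True)) = 0 := by
  classical
  unfold ecount
  rw [List.countP_eq_zero]
  intro b hb
  rw [b10b_mem_lw u H t ht] at hb
  obtain ⟨j, hj, rfl | rfl⟩ := hb
  · simpa using he j hj
  · simpa using he j hj

omit [NeZero N] in
theorem b10b_ecount_flatMap {V : Type} {G : SimpleGraph V} (f : Sym2 V) (B : Fin N → List G.Dart)
    (l : List (Fin N)) (hl : l.Nodup) :
    ecount f (l.flatMap B) = ∑ i ∈ l.toFinset, ecount f (B i) := by
  induction l with
  | nil => rfl
  | cons a l ih =>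
    rw [List.nodup_cons] at hl
    rw [List.flatMap_cons, b10b_ecount_append, ih hl.2, List.toFinset_cons, Finset.sum_insert]
    simpa using hl.1

omit [NeZero N] in
theorem b10b_cntp_flatMap {V : Type} {G : SimpleGraph V} (e f : Sym2 V) (B : Fin N → List G.Dart)
    (l : List (Fin N)) (hl : l.Pairwise (· < ·)) :
    cntp e f (l.flatMap B) =
      ∑ i ∈ l.toFinset, ∑ i' ∈ l.toFinset,
        (if i < i' then (ecount e (B i) : ZMod 2) * ecount f (B i') else 0) +
        ∑ i ∈ l.toFinset, cntp e f (B i) := by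
  induction l with
  | nil => simp [cntp]
  | cons a l ih =>
    rw [List.pairwise_cons] at hl
    have hnd : l.Nodup := hl.2.imp (fun h => h.ne)
    have ha : a ∉ l.toFinset := by
      intro h
      exact lt_irrefl a (hl.1 a (by simpa using h))
    rw [List.flatMap_cons, cntp_append, ih hl.2, List.toFinset_cons, Finset.sum_insert ha,
      Finset.sum_insert ha, Finset.sum_insert ha, b10b_ecount_flatMap f B l hnd]
    have h1 : ∀ i ∈ l.toFinset, (∑ i' ∈ insert a l.toFinset,
        (if i < i' then (ecount e (B i) : ZMod 2) * ecount f (B i') else 0)) =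
        ∑ i' ∈ l.toFinset, (if i < i' then (ecount e (B i) : ZMod 2) * ecount f (B i') else 0) := by
      intro i hi
      rw [Finset.sum_insert ha, if_neg, zero_add]
      exact not_lt.2 (hl.1 i (by simpa using hi)).le
    rw [Finset.sum_congr rfl h1, if_neg (lt_irrefl a), zero_add]
    have h2 : (∑ i' ∈ l.toFinset, (if a < i' then (ecount e (B a) : ZMod 2) * ecount f (B i') else 0)) =
        (ecount e (B a) : ZMod 2) * ((∑ i ∈ l.toFinset, ecount f (B i) : ℕ) : ZMod 2) := by
      rw [Nat.cast_sum, Finset.mul_sum]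
      refine Finset.sum_congr rfl fun i hi => ?_
      rw [if_pos (hl.1 i (by simpa using hi))]
    rw [h2]
    ring

/-- Parities of a concatenation of blocks indexed by `finRange N` (`cntp_append`, induction; state it first for an arbitrary
list of indices): `∑_{i < i'} ecount e (B i) * ecount f (B i') + ∑_i cntp e f (B i)`. -/
theorem cntp_flatMap {V : Type} {G : SimpleGraph V} (e f : Sym2 V) (B : Fin N → List G.Dart) :
    cntp e f ((List.finRange N).flatMap B) =
      ∑ i, ∑ i', (if i < i' then (ecount e (B i) : ZMod 2) * ecount f (B i') else 0) +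
        ∑ i, cntp e f (B i) := by
  have h1 : (List.finRange N).toFinset = Finset.univ := by
    ext i
    simp
  rw [b10b_cntp_flatMap e f B _ (List.pairwise_lt_finRange N), h1]

theorem b10b_cntp_zero {V : Type} {G : SimpleGraph V} (e f : Sym2 V) (l : List G.Dart)
    (h : ecount e l = 0 ∨ ecount f l = 0) : cntp e f l = 0 := by
  classical
  induction l with
  | nil => rfl
  | cons a l ih =>
    rw [b10b_ecount_cons, b10b_ecount_cons] at h
    rw [cntp]
    rcases h with h | h
    · have h1 : ecount e l = 0 := by omega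
      have h2 : ¬ a.edge = e := by
        intro h3
        rw [if_pos h3] at h
        omega
      rw [if_neg h2, ih (Or.inl h1), add_zero]
    · have h1 : ecount f l = 0 := by omega
      rw [h1, ih (Or.inr h1)]
      simp

theorem b10b_ecount_B (u : Fin N → S) (H : ℕ) (t : S → Fin N) (ht : ∀ s, u (t s) = s) (j i : Fin N)
    (hj : j ≠ t (u j)) :
    ecount (dLeg u H j).edge (b10b_B u H t i) =
      (if i = j then 1 else 0) + (if i = t (u j) then 1 else 0) := by
  classical
  by_cases hex : ∃ a ∈ b10b_B u H t i, a.edge = (dLeg u H j).edge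
  · obtain ⟨a, ha, hae⟩ := hex
    rw [b10b_mem u H t ht] at ha
    obtain ⟨j', hj', h⟩ := ha
    have hjj : j' = j := by
      rcases h with ⟨_, h2⟩ | ⟨_, h2⟩
      · rw [h2] at hae
        exact (b10b_edge u H _ _).1 hae
      · rw [h2, SimpleGraph.Dart.edge_symm] at hae
        exact (b10b_edge u H _ _).1 hae
    rw [hjj] at h
    have hone : ∀ c : (GG u H).Dart, c ∈ b10b_B u H t i → (∀ b ∈ b10b_B u H t i,
        b.edge = (dLeg u H j).edge → b = c) → c.edge = (dLeg u H j).edge →
        ecount (dLeg u H j).edge (b10b_B u H t i) = 1 := by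
      intro c hc hb hce
      have hperm : ((b10b_B u H t i).filter (fun b => decide (b.edge = (dLeg u H j).edge))).Perm [c] := by
        rw [List.perm_ext_iff_of_nodup ((b10b_nodup u H t i).filter _) (List.nodup_singleton _)]
        intro b
        rw [List.mem_filter, List.mem_singleton]
        constructor
        · rintro ⟨h1, h2⟩
          exact hb b h1 (by simpa using h2)
        · rintro rfl
          exact ⟨hc, by simpa using hce⟩
      rw [b10b_ecount_countP _ _ (fun b => decide (b.edge = (dLeg u H j).edge)) (fun b => by simp),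
        List.countP_eq_length_filter, hperm.length_eq]
      rfl
    have key : ∀ b ∈ b10b_B u H t i, b.edge = (dLeg u H j).edge →
        ((i = j ∧ b = dLeg u H j) ∨ (i = t (u j) ∧ b = (dLeg u H j).symm)) := by
      intro b hb hbe
      rw [b10b_mem u H t ht] at hb
      obtain ⟨j'', hj'', h''⟩ := hb
      have hjj'' : j'' = j := by
        rcases h'' with ⟨_, h2⟩ | ⟨_, h2⟩
        · rw [h2] at hbe
          exact (b10b_edge u H _ _).1 hbe
        · rw [h2, SimpleGraph.Dart.edge_symm] at hbe
          exact (b10b_edge u H _ _).1 hbe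
      rw [hjj''] at h''
      exact h''
    rcases h with ⟨h1, h2⟩ | ⟨h1, h2⟩
    · have h3 : i ≠ t (u j) := by rw [h1]; exact hj
      rw [if_pos h1, if_neg h3, add_zero]
      refine hone (dLeg u H j) ((b10b_mem u H t ht _ _).2 ⟨j, hj, Or.inl ⟨h1, rfl⟩⟩) ?_ rfl
      intro b hb hbe
      rcases key b hb hbe with ⟨_, h5⟩ | ⟨h4, _⟩
      · exact h5
      · exact absurd h4 h3
    · have h3 : i ≠ j := by rw [h1]; exact fun h => hj h.symm
      rw [if_neg h3, if_pos h1, zero_add]
      refine hone (dLeg u H j).symm ((b10b_mem u H t ht _ _).2 ⟨j, hj, Or.inr ⟨h1, rfl⟩⟩) ?_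
        (SimpleGraph.Dart.edge_symm _)
      intro b hb hbe
      rcases key b hb hbe with ⟨h4, _⟩ | ⟨_, h5⟩
      · exact absurd h4 h3
      · exact h5
  · have h1 : i ≠ j := by
      intro h
      exact hex ⟨dLeg u H j, (b10b_mem u H t ht _ _).2 ⟨j, hj, Or.inl ⟨h, rfl⟩⟩, rfl⟩
    have h2 : i ≠ t (u j) := by
      intro h
      exact hex ⟨(dLeg u H j).symm, (b10b_mem u H t ht _ _).2 ⟨j, hj, Or.inr ⟨h, rfl⟩⟩,
        SimpleGraph.Dart.edge_symm _⟩
    rw [if_neg h1, if_neg h2]
    unfold ecount
    rw [List.countP_eq_zero]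
    intro b hb
    simp only [decide_eq_true_eq]
    exact fun h3 => hex ⟨b, hb, h3⟩

omit [NeZero N] in
theorem b10b_pick (a b : Fin N) (g : Fin N → Fin N → ZMod 2) :
    ∑ i, ∑ i', (if i = a then (if i' = b then g i i' else 0) else 0) = g a b := by
  rw [Finset.sum_eq_single a]
  · rw [Finset.sum_eq_single b]
    · rw [if_pos rfl, if_pos rfl]
    · intro i' _ h
      rw [if_pos rfl, if_neg h]
    · intro h
      exact absurd (Finset.mem_univ _) h
  · intro i _ h
    refine Finset.sum_eq_zero fun i' _ => ?_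
    rw [if_neg h]
  · intro h
    exact absurd (Finset.mem_univ _) h

omit [NeZero N] in
theorem b10b_four {M : Type} [AddCommMonoid M] (A B C D : Fin N → Fin N → M) :
    ∑ i, ∑ i', (A i i' + B i i' + C i i' + D i i') =
      ∑ i, ∑ i', A i i' + ∑ i, ∑ i', B i i' + ∑ i, ∑ i', C i i' + ∑ i, ∑ i', D i i' := by
  simp only [Finset.sum_add_distrib]

/-- The edge of the nontree leg `j` occurs once at the position `j` and once at the position `t (u j)`, so
`ecount e_j (B i) = [i = j] + [i = t_j]`; the four positions `j, t_j, k, t_k` are different (`u j ≠ u k`), so no block contains ends of both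
edges and `cntp e_j e_k (B i) = 0`. Sum: `[j<k] + [j<t_k] + [t_j<k] + [t_j<t_k]`. -/
theorem cntp_lw (u : Fin N → S) (H : ℕ) (t : S → Fin N) (ht : ∀ s, u (t s) = s) (j k : Fin N)
    (hj : j ≠ t (u j)) (hk : k ≠ t (u k)) (hjk : u j ≠ u k) :
    cntp (dLeg u H j).edge (dLeg u H k).edge (lw u H t (fun _ => True)) = chord u t j k := by
  rw [b10b_lw, cntp_flatMap]
  have h0 : ∀ i, cntp (dLeg u H j).edge (dLeg u H k).edge (b10b_B u H t i) = 0 := by
    intro i
    apply b10b_cntp_zero
    rw [b10b_ecount_B u H t ht j i hj, b10b_ecount_B u H t ht k i hk]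
    by_cases h1 : i = j
    · right
      have h3 : i ≠ k := by
        rintro rfl
        exact hjk (by rw [h1])
      have h4 : i ≠ t (u k) := by
        intro h
        apply hjk
        rw [← h1, h, ht]
      rw [if_neg h3, if_neg h4]
    · by_cases h2 : i = t (u j)
      · right
        have h3 : i ≠ k := by
          rintro rfl
          apply hjk
          rw [h2, ht]
        have h4 : i ≠ t (u k) := by
          intro h
          apply hjk
          rw [← ht (u j), ← h2, h, ht]
        rw [if_neg h3, if_neg h4]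
      · left
        rw [if_neg h1, if_neg h2]
  rw [Finset.sum_eq_zero (fun i _ => h0 i), add_zero]
  have h5 : ∀ i i' : Fin N, (if i < i' then ((ecount (dLeg u H j).edge (b10b_B u H t i) : ℕ) : ZMod 2) *
        ((ecount (dLeg u H k).edge (b10b_B u H t i') : ℕ) : ZMod 2) else 0) =
      (if i = j then (if i' = k then ind (i < i') else 0) else 0) +
      (if i = j then (if i' = t (u k) then ind (i < i') else 0) else 0) +
      (if i = t (u j) then (if i' = k then ind (i < i') else 0) else 0) +
      (if i = t (u j) then (if i' = t (u k) then ind (i < i') else 0) else 0) := by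
    intro i i'
    rw [b10b_ecount_B u H t ht j i hj, b10b_ecount_B u H t ht k i' hk]
    unfold ind
    push_cast
    split_ifs <;> ring
  refine (Finset.sum_congr rfl fun i _ => Finset.sum_congr rfl fun i' _ => h5 i i').trans ?_
  refine (b10b_four _ _ _ _).trans ?_
  rw [b10b_pick j k (fun i i' => ind (i < i')), b10b_pick j (t (u k)) (fun i i' => ind (i < i')),
    b10b_pick (t (u j)) k (fun i i' => ind (i < i')),
    b10b_pick (t (u j)) (t (u k)) (fun i i' => ind (i < i'))]
  rfl

end Pool.Agent.NHT
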