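import Pool.Agent.NHT.B1

set_option autoImplicit false

/-!
NHT-B2: rotating the list, capping two adjacent ends.
-/

namespace Pool.Agent.NHT

variable {V : Type} {G : SimpleGraph V}

theorem Reach.congr {U : Set V} {l : List G.Dart} {c : ℕ} {p p' : Sym2 V → Sym2 V → ZMod 2}
    (h : Reach G U l c p) (hp : ∀ e f, e ≠ f → p e f = p' e f) : Reach G U l c p' := by

  obtain ⟨X, h1, h2, h3, h4⟩ := h
  refine ⟨X, h1, h2, h3, fun e f hef => ?_⟩
  obtain ⟨m, h5, h6⟩ := h4 e f hef
  exact ⟨m, h5, h6.trans (hp e f hef)⟩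

/-- Same flags, `L := B ++ [x]` if `X.L = x :: B`. `Anc`, `Good`, `cr`, `nV` do not depend on `L`
(transfer them: the new structure has the same `t0, t1, t2, cross, lab`, definitionally; `Anc` is an inductive predicate of the
structure, prove `∀ n d, X.Anc n d → X'.Anc n d` by induction); `nF` by `mem_links_rotate`. -/
theorem Reach.rotate1 {U : Set V} {a : G.Dart} {l : List G.Dart} {c : ℕ}
    {p : Sym2 V → Sym2 V → ZMod 2} (h : Reach G U (a :: l) c p) : Reach G U (l ++ [a]) c p := by

  obtain ⟨X, h1, h2, h3, h4⟩ := h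
  obtain ⟨x, B, hL⟩ : ∃ x B, X.L = x :: B := by
    cases hX : X.L with
    | nil => rw [hX] at h2; exact absurd h2 (by simp)
    | cons x B => exact ⟨x, B, rfl⟩
  rw [hL, List.map_cons] at h2
  injection h2 with h5 h6
  have hperm : (B ++ [x]).Perm X.L := by
    rw [hL]
    exact List.perm_append_singleton x B
  have hperm2 : ((B ++ [x]) ++ (B ++ [x]).map X.t2).Perm (X.L ++ X.L.map X.t2) :=
    hperm.append (hperm.map _)
  let X' : PD G := { X with
    L := B ++ [x]
    L_nodup := hperm2.nodup_iff.2 X.L_nodup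
    L_open := fun d => by
      rw [X.L_open d, hperm.mem_iff, (hperm.map X.t2).mem_iff] }
  have hanc : ∀ n d, X.Anc n d → X'.Anc n d := by
    intro n d hn
    induction hn with
    | zero d h => exact PD.Anc.zero (X := X') d h
    | succ n d _ h0 hc ih => exact PD.Anc.succ (X := X') n d ih h0 hc
  refine ⟨X', ⟨h1.placed, fun d hd => ?_, fun d hd => ?_⟩, ?_, ?_, h4⟩
  · obtain ⟨n, hn⟩ := h1.anc_open d hd
    exact ⟨n, hanc n d hn⟩
  · rcases h1.anc_all d hd with ⟨n, hn⟩ | ⟨n, hn⟩
    · exact Or.inl ⟨n, hanc n _ hn⟩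
    · exact Or.inr ⟨n, hanc n _ hn⟩
  · show (B ++ [x]).map X.lab = l ++ [a]
    rw [List.map_append, h6, List.map_singleton, h5]
  · have hF : X'.nF = X.nF := by
      have h7 : X'.faceRel = X.faceRel := by
        funext d e
        apply propext
        unfold PD.faceRel
        rw [hL]
        show (_ ∨ _ ∨ (d, e) ∈ links X.t2 (B ++ [x])) ↔ _
        rw [mem_links_rotate]
      unfold PD.nF
      rw [h7]
    unfold PD.chiOK at h3 ⊢
    rw [hF]
    have h8 : X'.nV = X.nV := rfl
    have h9 : X'.L.length = X.L.length := hperm.length_eq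
    have h10 : X'.D = X.D := rfl
    have h11 : X.L ≠ [] := by rw [hL]; exact List.cons_ne_nil _ _
    have h12 : X'.L ≠ [] := by
      show B ++ [x] ≠ []
      simp
    rw [if_neg h11] at h3
    rw [if_neg h12, h8, h9]
    exact h3

/-- Iterate `rotate1`. -/
theorem Reach.rotate {U : Set V} {l l' : List G.Dart} {c : ℕ}
    {p : Sym2 V → Sym2 V → ZMod 2} (h : Reach G U l c p) (hl : l ~r l') : Reach G U l' c p := by

  obtain ⟨n, rfl⟩ := hl
  induction n with
  | zero => rw [List.rotate_zero]; exact h
  | succ n ih =>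
    rw [← List.rotate_rotate]
    cases hm : l.rotate n with
    | nil => rw [hm] at ih; exact ih
    | cons a m =>
      rw [hm] at ih
      have h1 : (a :: m).rotate 1 = m ++ [a] := by
        rw [List.rotate_cons_succ, List.rotate_zero]
      rw [h1]
      exact Reach.rotate1 ih

end Pool.Agent.NHT
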