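import Pool.Agent.NHT.B0

set_option autoImplicit false

/-!
NHT-B3b: a single vertex.
-/

namespace Pool.Agent.NHT

variable {V : Type} {G : SimpleGraph V}

theorem b3b_chain {D : Type} (t2 : D → D) (z : D) (l : List D) : ∀ (a : D) (p : D × D),
    p ∈ chainL t2 a l z → ∃ (i : ℕ) (x : D), (a :: l)[i]? = some x ∧ (l ++ [z])[i]? = some p.2 ∧
      p.1 = t2 x := by
  induction l with
  | nil =>
    intro a p hp
    have hp' : p = (t2 a, z) := by simpa [chainL] using hp
    refine ⟨0, a, rfl, ?_, ?_⟩
    · rw [hp']
      rfl
    · rw [hp']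
  | cons b l ih =>
    intro a p hp
    have hp' : p = (t2 a, b) ∨ p ∈ chainL t2 b l z := by simpa [chainL] using hp
    rcases hp' with h | h
    · refine ⟨0, a, rfl, ?_, ?_⟩
      · rw [h]
        rfl
      · rw [h]
    · obtain ⟨i, x, h1, h2, h3⟩ := ih b p h
      exact ⟨i + 1, x, h1, h2, h3⟩

/-- `t1` of the single vertex. -/
def b3bt (m : ℕ) (d : Fin (m + 1) × Bool) : Fin (m + 1) × Bool :=
  if d.2 = true then (d.1 + 1, false) else (d.1 - 1, true)

theorem b3b_conn (m : ℕ) (P : Fin (m + 1) × Bool → Prop)
    (h1 : ∀ d, P d → P (b3bt m d) ∧ P (d.1, !d.2)) (d : Fin (m + 1) × Bool) (hd : P d) :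
    ∀ e, P e := by
  have h2 : ∀ i : Fin (m + 1), P (i, false) → P (i + 1, false) := by
    intro i hi
    have h3 := (h1 _ hi).2
    have h4 := (h1 _ h3).1
    simpa [b3bt] using h4
  have h5 : P (d.1, false) := by
    rcases d with ⟨i, s⟩
    rcases s with _ | _
    · exact hd
    · exact (h1 _ hd).2
  have h6 : ∀ k : Fin (m + 1), P (d.1 + k, false) := by
    intro k
    induction k using Fin.induction with
    | zero => simpa using h5
    | succ k ih =>
      have := h2 _ ih
      rwa [add_assoc, Fin.coeSucc_eq_succ] at this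
  have h7 : ∀ i : Fin (m + 1), P (i, false) := by
    intro i
    have := h6 (i - d.1)
    rwa [add_sub_cancel] at this
  rintro ⟨i, s⟩
  rcases s with _ | _
  · exact h7 i
  · exact (h1 _ (h7 i)).2

/-- A single vertex. `m + 1 = ls.length`, flags `Fin (m+1) × Bool`, `t0 = id`, `t2 (i, s) = (i, !s)`,
`t1 (i, true) = (i+1, false)`, `t1 (i, false) = (i-1, true)` (cyclic), `cross = False`, `lab (i, s) = ls[i]`,
`L = [(0,false), (1,false), …, (m,false)]` (`(List.finRange (m+1)).map (·, false)`). The links are the pairs
`((i,true), (i+1,false)) = (d, t1 d)`. `nF ≥ m+1`: the map `(i,true) ↦ i`, `(i+1,false) ↦ i` to `Fin (m+1)` is constant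
on face classes and surjective. `nV ≥ 1`. `chiOK 0`: `8 + 2(m+1) + 2(m+1) ≤ 4(m+1) + 4 + 4`. `vert_uniq`: `ls` has no
repetition. `fst_conn`, `conn`: closed under `t1`, `t2` implies everything (`(i,false) → (i,true) → (i+1,false)`). `Anc`: `zero`.
`cr = 0`. -/
theorem Reach.init {v : V} {ls : List G.Dart} (hne : ls ≠ []) (hnd : ls.Nodup)
    (hls : ∀ a : G.Dart, a ∈ ls ↔ a.fst = v) : Reach G {v} ls 0 (fun _ _ => 0) := by
  obtain ⟨m, hm⟩ : ∃ m, ls.length = m + 1 := by
    rcases ls with _ | ⟨a, l⟩
    · exact absurd rfl hne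
    · exact ⟨l.length, rfl⟩
  let g : Fin (m + 1) → G.Dart := fun i => ls.get (Fin.cast hm.symm i)
  have hg : ∀ i, (g i).fst = v := fun i => (hls _).mp (List.get_mem _ _)
  have hginj : Function.Injective g := by
    intro i j hij
    have := (List.nodup_iff_injective_get.mp hnd) hij
    exact Fin.cast_injective _ this
  have hgsurj : ∀ a ∈ ls, ∃ i, g i = a := by
    intro a ha
    obtain ⟨i, hi⟩ := List.mem_iff_get.mp ha
    exact ⟨Fin.cast hm i, hi⟩
  let LL : List (Fin (m + 1) × Bool) := List.ofFn (fun i : Fin (m + 1) => (i, false))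
  have hmemL : ∀ d : Fin (m + 1) × Bool, d ∈ LL ↔ d.2 = false := by
    rintro ⟨i, s⟩
    simp only [LL, List.mem_ofFn]
    constructor
    · rintro ⟨j, hj⟩
      exact (congrArg Prod.snd hj).symm
    · intro h
      exact ⟨i, Prod.ext rfl h.symm⟩
  have hmemL2 : ∀ d : Fin (m + 1) × Bool, d ∈ LL.map (fun d => (d.1, !d.2)) ↔ d.2 = true := by
    rintro ⟨i, s⟩
    rw [List.mem_map]
    constructor
    · rintro ⟨e, he, hed⟩
      have h1 := (hmemL e).mp he
      have h2 := congrArg Prod.snd hed
      simp only [h1] at h2
      exact h2.symm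
    · intro h
      refine ⟨(i, false), (hmemL _).mpr rfl, ?_⟩
      simp only at h
      rw [h]
      rfl
  let X : PD G :=
    { D := Fin (m + 1) × Bool
      fin := inferInstance
      t0 := fun d => d
      t1 := b3bt m
      t2 := fun d => (d.1, !d.2)
      t0_t0 := fun _ => rfl
      t1_t1 := by
        rintro ⟨i, s⟩
        rcases s with _ | _ <;> simp [b3bt]
      t2_t2 := by
        rintro ⟨i, s⟩
        simp
      t1_ne := by
        rintro ⟨i, s⟩
        rcases s with _ | _ <;> simp [b3bt]
      t2_ne := by
        rintro ⟨i, s⟩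
        rcases s with _ | _ <;> simp
      t0_t2 := fun _ => rfl
      t0_t2_ne := by
        rintro ⟨i, s⟩
        rcases s with _ | _ <;> simp
      conn := by
        rintro P hP ⟨d, hd⟩
        exact b3b_conn m P (fun d hd => ⟨(hP d hd).2.1, (hP d hd).2.2⟩) d hd
      cross := fun _ => False
      lab := fun d => g d.1
      lab_t2 := fun _ => rfl
      lab_t0 := fun d h => absurd rfl h
      cross_t1 := fun _ => Iff.rfl
      cross_t2 := fun _ => Iff.rfl
      cross_four := fun _ h => h.elim
      cross_opp := fun _ h => h.elim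
      cross_ne := fun _ h => h.elim
      fst_t1 := fun d _ => by rw [hg, hg]
      fst_conn := by
        intro d e _ _ _ P hP hd
        exact b3b_conn m P hP d hd e
      vert_uniq := by
        rintro ⟨i, s⟩ ⟨j, t⟩ _ _ hde
        have hij : i = j := hginj hde
        subst hij
        rcases s with _ | _ <;> rcases t with _ | _ <;> simp
      L := LL
      L_nodup := by
        rw [List.nodup_append]
        refine ⟨?_, ?_, ?_⟩
        · rw [List.nodup_ofFn]
          intro i j hij
          exact congrArg Prod.fst hij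
        · refine List.Nodup.map ?_ ?_
          · rintro ⟨i, s⟩ ⟨j, t⟩ hij
            simp only [Prod.mk.injEq] at hij
            refine Prod.ext hij.1 ?_
            have := hij.2
            rcases s with _ | _ <;> rcases t with _ | _ <;> simp_all
          · rw [List.nodup_ofFn]
            intro i j hij
            exact congrArg Prod.fst hij
        · intro a ha b hb hab
          subst hab
          have h1 := (hmemL a).mp ha
          have h2 := (hmemL2 a).mp hb
          rw [h1] at h2
          exact absurd h2 (by simp)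
      L_open := by
        intro d
        refine ⟨fun _ => ?_, fun _ => rfl⟩
        rw [hmemL, hmemL2]
        rcases d with ⟨i, s⟩
        rcases s with _ | _ <;> simp }
  have hfin : Finite X.D := @Finite.of_fintype _ X.fin
  have hLlen : X.L.length = m + 1 := by
    show (List.ofFn (fun i : Fin (m + 1) => (i, false))).length = m + 1
    rw [List.length_ofFn]
  have hcardD : Nat.card X.D = 2 * (m + 1) := by
    show Nat.card (Fin (m + 1) × Bool) = 2 * (m + 1)
    simp [mul_comm]
  have hget : ∀ (i : ℕ) (x : Fin (m + 1) × Bool), LL[i]? = some x →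
      ∃ h : i < m + 1, x = (⟨i, h⟩, false) := by
    intro i x hx
    rw [List.getElem?_ofFn] at hx
    split at hx
    · rename_i h
      exact ⟨h, (Option.some.inj hx).symm⟩
    · exact absurd hx (by simp)
  have hLL : LL = (0, false) :: List.ofFn (fun i : Fin m => ((i.succ : Fin (m + 1)), false)) := by
    simp only [LL]
    rw [List.ofFn_succ]
  have hlink : ∀ d e : Fin (m + 1) × Bool, (d, e) ∈ links X.t2 X.L →
      ∃ i : Fin (m + 1), d = (i, true) ∧ e = (i + 1, false) := by
    intro d e hde
    have h1 : (d, e) ∈ links X.t2 ((0, false) ::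
        List.ofFn (fun i : Fin m => ((i.succ : Fin (m + 1)), false))) := by
      rw [← hLL]
      exact hde
    obtain ⟨i, x, a1, a2, a3⟩ := b3b_chain X.t2 _ _ _ _ h1
    rw [← hLL] at a1
    obtain ⟨hi, hx⟩ := hget i x a1
    refine ⟨⟨i, hi⟩, ?_, ?_⟩
    · have : d = X.t2 x := a3
      rw [this, hx]
      rfl
    · rcases Nat.lt_or_ge i m with him | him
      · rw [List.getElem?_append_left (by rw [List.length_ofFn]; exact him),
          List.getElem?_ofFn, dif_pos him] at a2
        have := Option.some.inj a2
        simp only at this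
        rw [← this]
        refine Prod.ext ?_ rfl
        apply Fin.ext
        simp only [Fin.succ_mk, Fin.val_add, Fin.val_one']
        rcases m with _ | m
        · omega
        · simp only [Nat.one_mod_eq_one.mpr (by omega : m + 1 + 1 ≠ 1)]
          rw [Nat.mod_eq_of_lt (by omega)]
      · have hi' : i = m := by omega
        subst hi'
        rw [List.getElem?_append_right (by rw [List.length_ofFn])] at a2
        rw [List.length_ofFn, Nat.sub_self] at a2
        have := Option.some.inj a2
        simp only at this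
        rw [← this]
        refine Prod.ext ?_ rfl
        apply Fin.ext
        simp [Fin.val_add]
  have hnF : m + 1 ≤ X.nF := by
    let Φ : X.D → Fin (m + 1) := fun d => if d.2 = true then d.1 else d.1 - 1
    have hΦ : ∀ d e : X.D, X.faceRel d e → Φ d = Φ e := by
      intro d e hde
      rcases hde with h | h | h
      · rw [h]
      · rw [h]
        rcases d with ⟨i, s⟩
        show Φ (i, s) = Φ (b3bt m (i, s))
        rcases s with _ | _ <;> simp [b3bt, Φ]
      · obtain ⟨i, h1, h2⟩ := hlink d e h
        rw [h1, h2]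
        simp [Φ]
    have hsurj : Function.Surjective (Quot.lift Φ hΦ) := by
      intro i
      exact ⟨Quot.mk _ (i, true), by simp [Φ]⟩
    have := Nat.card_le_card_of_surjective _ hsurj
    simpa [PD.nF] using this
  have hnV : 1 ≤ X.nV := by
    unfold PD.nV
    have : Nonempty (Quot (fun d e : X.D => e = X.t1 d ∨ e = X.t2 d)) :=
      ⟨Quot.mk _ ((0, false) : Fin (m + 1) × Bool)⟩
    exact Nat.card_pos
  refine ⟨X, ?_, ?_, ?_, ?_⟩
  · refine ⟨?_, ?_, ?_⟩
    · intro a
      rw [Set.mem_singleton_iff, ← hls a]
      constructor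
      · rintro ⟨d, -, hd⟩
        rw [← hd]
        exact List.get_mem _ _
      · intro ha
        obtain ⟨i, hi⟩ := hgsurj a ha
        exact ⟨((i, false) : Fin (m + 1) × Bool), fun h => h, hi⟩
    · intro d _
      exact ⟨0, PD.Anc.zero (X := X) d (fun h => h)⟩
    · intro d hd
      exact hd.elim
  · show LL.map (fun d => g d.1) = ls
    simp only [LL, List.map_ofFn]
    apply List.ext_getElem
    · rw [List.length_ofFn, hm]
    · intro i h1 h2
      rw [List.getElem_ofFn]
      rfl
  · unfold PD.chiOK
    have h0 : X.L ≠ [] := by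
      intro h
      rw [h] at hLlen
      simp at hLlen
    rw [if_neg h0, hLlen, hcardD]
    omega
  · intro e f _
    refine ⟨0, ?_, by simp⟩
    unfold PD.cr
    rw [mul_zero, Nat.card_eq_zero]
    left
    constructor
    rintro ⟨d, hd, -⟩
    exact hd

end Pool.Agent.NHT
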