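import Pool.Agent.NHT.B1

set_option autoImplicit false

/-!
NHT-B4: placing a new vertex at an open end.
-/

namespace Pool.Agent.NHT

variable {V : Type} {G : SimpleGraph V}

/-! ### Attaching a new vertex of the map with `k` darts to some open ends -/

theorem B4_cyc {k : ℕ} [NeZero k] (Q : Fin k → Prop) (h : ∀ i, Q i → Q (i + 1)) {i : Fin k}
    (hi : Q i) (j : Fin k) : Q j := by
  have h1 : ∀ n : ℕ, Q (i + Fin.ofNat k n) := by
    intro n
    induction n with
    | zero =>
      have : Fin.ofNat k 0 = 0 := rfl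
      rw [this, add_zero]
      exact hi
    | succ n ih =>
      have e : Fin.ofNat k (n + 1) = Fin.ofNat k n + 1 := by
        apply Fin.ext
        rw [Fin.val_add]
        simp [Fin.ofNat, Nat.add_mod]
      rw [e, ← add_assoc]
      exact h _ ih
  have h2 := h1 (j - i).val
  have h3 : Fin.ofNat k (j - i).val = j - i := by
    apply Fin.ext
    exact Nat.mod_eq_of_lt (j - i).isLt
  rw [h3, add_sub_cancel] at h2
  exact h2

/-- Next flag around the new vertex. -/
def B4_T1 {k : ℕ} [NeZero k] (p : Fin k × Bool) : Fin k × Bool :=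
  if p.2 then (p.1 + 1, false) else (p.1 - 1, true)

/-- Other side of the dart. -/
def B4_T2 {k : ℕ} (p : Fin k × Bool) : Fin k × Bool := (p.1, !p.2)

/-- The corner of a new flag. -/
def B4_kap {k : ℕ} [NeZero k] (p : Fin k × Bool) : Fin k := if p.2 then p.1 else p.1 - 1

theorem B4_T1_T1 {k : ℕ} [NeZero k] (p : Fin k × Bool) : B4_T1 (B4_T1 p) = p := by
  obtain ⟨i, s⟩ := p
  cases s
  · simp [B4_T1]
  · simp [B4_T1]

theorem B4_T2_T2 {k : ℕ} (p : Fin k × Bool) : B4_T2 (B4_T2 p) = p := by
  obtain ⟨i, s⟩ := p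
  simp [B4_T2]

theorem B4_T1_ne {k : ℕ} [NeZero k] (p : Fin k × Bool) : B4_T1 p ≠ p := by
  obtain ⟨i, s⟩ := p
  cases s <;> simp [B4_T1]

theorem B4_T2_ne {k : ℕ} (p : Fin k × Bool) : B4_T2 p ≠ p := by
  obtain ⟨i, s⟩ := p
  cases s <;> simp [B4_T2]

theorem B4_kap_T1 {k : ℕ} [NeZero k] (p : Fin k × Bool) : B4_kap (B4_T1 p) = B4_kap p := by
  obtain ⟨i, s⟩ := p
  cases s
  · simp [B4_T1, B4_kap]
  · simp [B4_T1, B4_kap]

/-- Everything around the new vertex is reached. -/
theorem B4_orb {k : ℕ} [NeZero k] (P : Fin k × Bool → Prop) (h1 : ∀ p, P p → P (B4_T1 p))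
    (h2 : ∀ p, P p → P (B4_T2 p)) {p : Fin k × Bool} (hp : P p) (q : Fin k × Bool) : P q := by
  have h3 : ∀ i, (P (i, true) ∧ P (i, false)) → (P (i + 1, true) ∧ P (i + 1, false)) := by
    rintro i ⟨h, -⟩
    have h4 := h1 _ h
    have h5 : P (i + 1, false) := by simpa [B4_T1] using h4
    have h6 := h2 _ h5
    exact ⟨by simpa [B4_T2] using h6, h5⟩
  have h4 : P (p.1, true) ∧ P (p.1, false) := by
    obtain ⟨i, s⟩ := p
    have h5 := h2 _ hp
    cases s
    · exact ⟨by simpa [B4_T2] using h5, hp⟩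
    · exact ⟨hp, by simpa [B4_T2] using h5⟩
  have h5 := B4_cyc (fun i => P (i, true) ∧ P (i, false)) h3 h4 q.1
  obtain ⟨i, s⟩ := q
  cases s
  · exact h5.2
  · exact h5.1

/-- The data of the new vertex of the map: `g i = some x` says that the dart `i` is glued to the open
end `x`; `N` lists the new open darts, `B` the old open ends that remain; `c0` says whether it is a
crossing. -/
structure B4_Data (X : PD G) (k : ℕ) [NeZero k] where
  g : Fin k → Option X.D
  N : List (Fin k)
  B : List X.D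
  c0 : Prop
  lb : Fin k → G.Dart
  g_mem : ∀ i x, g i = some x → x ∈ X.L
  g_inj : ∀ i j x, g i = some x → g j = some x → i = j
  g_ex : ∃ i x, g i = some x
  N_iff : ∀ i, i ∈ N ↔ g i = none
  N_nodup : N.Nodup
  B_iff : ∀ d, d ∈ B ↔ d ∈ X.L ∧ ∀ i, g i ≠ some d
  B_nodup : B.Nodup
  lb_g : ∀ i x, g i = some x → lb i = (X.lab x).symm
  h_four : c0 → ∀ p : Fin k × Bool,
    B4_T1 (B4_T2 (B4_T1 (B4_T2 (B4_T1 (B4_T2 (B4_T1 (B4_T2 p))))))) = p
  h_opp : c0 → ∀ p : Fin k × Bool, lb (B4_T1 (B4_T2 (B4_T1 (B4_T2 p)))).1 = (lb p.1).symm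
  h_ne : c0 → ∀ p : Fin k × Bool, (lb (B4_T1 p).1).edge ≠ (lb p.1).edge
  h_fst : ¬ c0 → ∀ i j, (lb i).fst = (lb j).fst
  h_inj : ¬ c0 → Function.Injective lb
  h_new : ¬ c0 → ∀ i d, ¬ X.cross d → (X.lab d).fst ≠ (lb i).fst

theorem B4_t2L (X : PD G) {d : X.D} (h : d ∈ X.L) (h' : X.t2 d ∈ X.L) : False := by
  have h1 := (List.nodup_append.1 X.L_nodup).2.2 _ h' _ (List.mem_map.2 ⟨d, h, rfl⟩)
  exact h1 rfl

theorem B4_open (X : PD G) {d : X.D} (h : d ∈ X.L) : X.t0 d = d := (X.L_open d).2 (Or.inl h)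

theorem B4_open2 (X : PD G) {d : X.D} (h : X.t2 d ∈ X.L) : X.t0 d = d :=
  (X.L_open d).2 (Or.inr (List.mem_map.2 ⟨X.t2 d, h, X.t2_t2 d⟩))

namespace B4_Data

variable {X : PD G} {k : ℕ} [NeZero k] (E : B4_Data X k)

open Classical in
/-- The new flag that is glued to `d`. -/
noncomputable def H (d : X.D) : Option (Fin k × Bool) :=
  if h : ∃ i, E.g i = some d then some (Classical.choose h, true)
  else if h : ∃ i, E.g i = some (X.t2 d) then some (Classical.choose h, false) else none

theorem H_true {i : Fin k} {d : X.D} (h : E.g i = some d) : E.H d = some (i, true) := by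
  have h1 : ∃ i, E.g i = some d := ⟨i, h⟩
  unfold H
  rw [dif_pos h1]
  have h2 := E.g_inj _ _ _ (Classical.choose_spec h1) h
  rw [h2]

theorem H_false {i : Fin k} {d : X.D} (h : E.g i = some (X.t2 d)) : E.H d = some (i, false) := by
  have h0 : ¬ ∃ i, E.g i = some d := by
    rintro ⟨j, hj⟩
    exact B4_t2L X (E.g_mem _ _ hj) (E.g_mem _ _ h)
  have h1 : ∃ i, E.g i = some (X.t2 d) := ⟨i, h⟩
  unfold H
  rw [dif_neg h0, dif_pos h1]
  have h2 := E.g_inj _ _ _ (Classical.choose_spec h1) h
  rw [h2]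

theorem H_none {d : X.D} (h : ∀ i, E.g i ≠ some d) (h' : ∀ i, E.g i ≠ some (X.t2 d)) :
    E.H d = none := by
  unfold H
  rw [dif_neg (fun ⟨i, hi⟩ => h i hi), dif_neg (fun ⟨i, hi⟩ => h' i hi)]

/-- The new `t0`. -/
noncomputable def T0 : X.D ⊕ (Fin k × Bool) → X.D ⊕ (Fin k × Bool)
  | Sum.inl d => match E.H d with
    | some p => Sum.inr p
    | none => Sum.inl (X.t0 d)
  | Sum.inr p => match E.g p.1 with
    | some x => Sum.inl (if p.2 then x else X.t2 x)
    | none => Sum.inr p

theorem T0_true {i : Fin k} {d : X.D} (h : E.g i = some d) :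
    E.T0 (Sum.inl d) = Sum.inr (i, true) := by
  simp only [T0, E.H_true h]

theorem T0_false {i : Fin k} {d : X.D} (h : E.g i = some (X.t2 d)) :
    E.T0 (Sum.inl d) = Sum.inr (i, false) := by
  simp only [T0, E.H_false h]

theorem T0_false2 {i : Fin k} {d : X.D} (h : E.g i = some d) :
    E.T0 (Sum.inl (X.t2 d)) = Sum.inr (i, false) := by
  apply E.T0_false
  rw [X.t2_t2, h]

theorem T0_old {d : X.D} (h : ∀ i, E.g i ≠ some d) (h' : ∀ i, E.g i ≠ some (X.t2 d)) :
    E.T0 (Sum.inl d) = Sum.inl (X.t0 d) := by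
  simp only [T0, E.H_none h h']

theorem T0_inr_none {p : Fin k × Bool} (h : E.g p.1 = none) : E.T0 (Sum.inr p) = Sum.inr p := by
  simp only [T0, h]

theorem T0_inr_true {i : Fin k} {x : X.D} (h : E.g i = some x) :
    E.T0 (Sum.inr (i, true)) = Sum.inl x := by
  simp only [T0, h, if_true]

theorem T0_inr_false {i : Fin k} {x : X.D} (h : E.g i = some x) :
    E.T0 (Sum.inr (i, false)) = Sum.inl (X.t2 x) := by
  simp [T0, h]

theorem cases_old (d : X.D) : (∃ i, E.g i = some d) ∨ (∃ i, E.g i = some (X.t2 d)) ∨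
    ((∀ i, E.g i ≠ some d) ∧ ∀ i, E.g i ≠ some (X.t2 d)) := by
  by_cases h1 : ∃ i, E.g i = some d
  · exact Or.inl h1
  · by_cases h2 : ∃ i, E.g i = some (X.t2 d)
    · exact Or.inr (Or.inl h2)
    · exact Or.inr (Or.inr ⟨fun i hi => h1 ⟨i, hi⟩, fun i hi => h2 ⟨i, hi⟩⟩)

theorem cases_new (i : Fin k) : E.g i = none ∨ ∃ x, E.g i = some x := by
  cases h : E.g i with
  | none => exact Or.inl rfl
  | some x => exact Or.inr ⟨x, rfl⟩

/-- Not open: the old `t0` is kept. -/
theorem T0_of_ne {d : X.D} (h : X.t0 d ≠ d) : E.T0 (Sum.inl d) = Sum.inl (X.t0 d) := by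
  apply E.T0_old
  · intro i hi
    exact h (B4_open X (E.g_mem _ _ hi))
  · intro i hi
    exact h (B4_open2 X (E.g_mem _ _ hi))

theorem T0_T0 (d : X.D ⊕ (Fin k × Bool)) : E.T0 (E.T0 d) = d := by
  rcases d with d | ⟨i, s⟩
  · rcases E.cases_old d with ⟨i, h⟩ | ⟨i, h⟩ | ⟨h, h'⟩
    · rw [E.T0_true h, E.T0_inr_true h]
    · rw [E.T0_false h, E.T0_inr_false h, X.t2_t2]
    · rw [E.T0_old h h']
      by_cases h0 : X.t0 d = d
      · rw [h0, E.T0_old h h', h0]
      · rw [E.T0_of_ne (d := X.t0 d), X.t0_t0]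
        rw [X.t0_t0]
        exact fun h => h0 h.symm
  · rcases E.cases_new i with h | ⟨x, h⟩
    · rw [E.T0_inr_none (p := (i, s)) h, E.T0_inr_none (p := (i, s)) h]
    · cases s
      · rw [E.T0_inr_false h, E.T0_false2 h]
      · rw [E.T0_inr_true h, E.T0_true h]

/-- The new `t1`. -/
def T1 (_E : B4_Data X k) : X.D ⊕ (Fin k × Bool) → X.D ⊕ (Fin k × Bool) :=
  Sum.map X.t1 B4_T1

/-- The new `t2`. -/
def T2 (_E : B4_Data X k) : X.D ⊕ (Fin k × Bool) → X.D ⊕ (Fin k × Bool) :=
  Sum.map X.t2 B4_T2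

theorem T0_T2 (d : X.D ⊕ (Fin k × Bool)) : E.T0 (E.T2 d) = E.T2 (E.T0 d) := by
  rcases d with d | ⟨i, s⟩
  · rcases E.cases_old d with ⟨i, h⟩ | ⟨i, h⟩ | ⟨h, h'⟩
    · rw [E.T0_true h]
      show E.T0 (Sum.inl (X.t2 d)) = Sum.inr (B4_T2 (i, true))
      rw [E.T0_false2 h]
      rfl
    · rw [E.T0_false h]
      show E.T0 (Sum.inl (X.t2 d)) = Sum.inr (B4_T2 (i, false))
      rw [E.T0_true h]
      rfl
    · rw [E.T0_old h h']
      show E.T0 (Sum.inl (X.t2 d)) = Sum.inl (X.t2 (X.t0 d))
      rw [E.T0_old h' (by rw [X.t2_t2]; exact h), X.t0_t2]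
  · rcases E.cases_new i with h | ⟨x, h⟩
    · rw [E.T0_inr_none (p := (i, s)) h]
      show E.T0 (Sum.inr (i, !s)) = Sum.inr (i, !s)
      rw [E.T0_inr_none (p := (i, !s)) h]
    · cases s
      · rw [E.T0_inr_false h]
        show E.T0 (Sum.inr (i, true)) = Sum.inl (X.t2 (X.t2 x))
        rw [E.T0_inr_true h, X.t2_t2]
      · rw [E.T0_inr_true h]
        show E.T0 (Sum.inr (i, false)) = Sum.inl (X.t2 x)
        rw [E.T0_inr_false h]

theorem T0_T2_ne (d : X.D ⊕ (Fin k × Bool)) : E.T0 (E.T2 d) ≠ d := by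
  rcases d with d | ⟨i, s⟩
  · show E.T0 (Sum.inl (X.t2 d)) ≠ Sum.inl d
    rcases E.cases_old (X.t2 d) with ⟨i, h⟩ | ⟨i, h⟩ | ⟨h, h'⟩
    · rw [E.T0_true h]
      exact fun h => by cases h
    · rw [E.T0_false h]
      exact fun h => by cases h
    · rw [E.T0_old h h']
      exact fun h => X.t0_t2_ne d (Sum.inl.inj h)
  · show E.T0 (Sum.inr (i, !s)) ≠ Sum.inr (i, s)
    rcases E.cases_new i with h | ⟨x, h⟩
    · rw [E.T0_inr_none (p := (i, !s)) h]
      intro h
      have h2 := (Prod.ext_iff.1 (Sum.inr.inj h)).2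
      cases s <;> simp at h2
    · cases s
      · show E.T0 (Sum.inr (i, true)) ≠ Sum.inr (i, false)
        rw [E.T0_inr_true h]
        exact fun h => by cases h
      · show E.T0 (Sum.inr (i, false)) ≠ Sum.inr (i, true)
        rw [E.T0_inr_false h]
        exact fun h => by cases h

theorem conn' (P : X.D ⊕ (Fin k × Bool) → Prop)
    (hP : ∀ d, P d → P (E.T0 d) ∧ P (E.T1 d) ∧ P (E.T2 d)) (hex : ∃ d, P d) (d) : P d := by
  obtain ⟨i₀, x₀, h₀⟩ := E.g_ex
  have hl : ∀ d e : X.D, P (Sum.inl d) → P (Sum.inl e) := by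
    intro d e hd
    refine X.conn (fun y => P (Sum.inl y)) (fun y hy => ⟨?_, (hP _ hy).2.1, (hP _ hy).2.2⟩)
      ⟨d, hd⟩ e
    by_cases h0 : X.t0 y = y
    · rw [h0]
      exact hy
    · have h1 := (hP _ hy).1
      rw [E.T0_of_ne h0] at h1
      exact h1
  have hr : ∀ p q : Fin k × Bool, P (Sum.inr p) → P (Sum.inr q) := fun p q hp =>
    B4_orb (fun p => P (Sum.inr p)) (fun p hp => (hP _ hp).2.1) (fun p hp => (hP _ hp).2.2) hp q
  have hlr : ∀ d p, P (Sum.inl d) → P (Sum.inr p) := by
    intro d p hd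
    have h1 := (hP _ (hl d x₀ hd)).1
    rw [E.T0_true h₀] at h1
    exact hr _ _ h1
  have hrl : ∀ p d, P (Sum.inr p) → P (Sum.inl d) := by
    intro p d hp
    have h1 := (hP _ (hr p (i₀, true) hp)).1
    rw [E.T0_inr_true h₀] at h1
    exact hl _ _ h1
  obtain ⟨e, he⟩ := hex
  rcases e with e | p <;> rcases d with d | q
  · exact hl _ _ he
  · exact hlr _ _ he
  · exact hrl _ _ he
  · exact hr _ _ he

/-- The labels. -/
def lab' : X.D ⊕ (Fin k × Bool) → G.Dart
  | Sum.inl d => X.lab d
  | Sum.inr p => E.lb p.1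

/-- The crossings. -/
def cross' : X.D ⊕ (Fin k × Bool) → Prop
  | Sum.inl d => X.cross d
  | Sum.inr _ => E.c0

theorem lab_T0 (d : X.D ⊕ (Fin k × Bool)) (hd : E.T0 d ≠ d) : E.lab' (E.T0 d) = (E.lab' d).symm := by
  rcases d with d | ⟨i, s⟩
  · rcases E.cases_old d with ⟨i, h⟩ | ⟨i, h⟩ | ⟨h, h'⟩
    · rw [E.T0_true h]
      exact E.lb_g _ _ h
    · rw [E.T0_false h]
      show E.lb i = (X.lab d).symm
      rw [E.lb_g _ _ h, X.lab_t2]
    · rw [E.T0_old h h'] at hd ⊢
      exact X.lab_t0 d fun h => hd (congrArg Sum.inl h)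
  · rcases E.cases_new i with h | ⟨x, h⟩
    · exact absurd (E.T0_inr_none (p := (i, s)) h) hd
    · cases s
      · rw [E.T0_inr_false h]
        show X.lab (X.t2 x) = (E.lb i).symm
        rw [E.lb_g _ _ h, X.lab_t2, SimpleGraph.Dart.symm_symm]
      · rw [E.T0_inr_true h]
        show X.lab x = (E.lb i).symm
        rw [E.lb_g _ _ h, SimpleGraph.Dart.symm_symm]

/-- The new list of open ends. -/
def L' : List (X.D ⊕ (Fin k × Bool)) :=
  E.N.map (fun i => Sum.inr (i, false)) ++ E.B.map Sum.inl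

theorem L'_nodup : (E.L' ++ E.L'.map E.T2).Nodup := by
  have hB : ∀ d ∈ E.B, d ∈ X.L := fun d hd => ((E.B_iff d).1 hd).1
  have e1 : E.L'.map E.T2 = E.N.map (fun i => Sum.inr (i, true)) ++
      E.B.map (fun d => Sum.inl (X.t2 d)) := by
    unfold L'
    rw [List.map_append, List.map_map, List.map_map]
    rfl
  rw [e1]
  have n1 : ∀ s : Bool, (E.N.map (fun i => (Sum.inr (i, s) : X.D ⊕ (Fin k × Bool)))).Nodup := by
    intro s
    refine E.N_nodup.map ?_
    intro i j hij
    exact (Prod.ext_iff.1 (Sum.inr.inj hij)).1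
  have n2 : (E.B.map (fun d => (Sum.inl d : X.D ⊕ (Fin k × Bool)))).Nodup :=
    E.B_nodup.map Sum.inl_injective
  have n3 : (E.B.map (fun d => (Sum.inl (X.t2 d) : X.D ⊕ (Fin k × Bool)))).Nodup := by
    refine E.B_nodup.map ?_
    intro d e hde
    have h := Sum.inl.inj hde
    rw [← X.t2_t2 d, h, X.t2_t2]
  refine List.nodup_append.2 ⟨List.nodup_append.2 ⟨n1 false, n2, ?_⟩,
    List.nodup_append.2 ⟨n1 true, n3, ?_⟩, ?_⟩
  · intro a ha b hb hab
    obtain ⟨i, -, rfl⟩ := List.mem_map.1 ha
    obtain ⟨j, -, rfl⟩ := List.mem_map.1 hb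
    cases hab
  · intro a ha b hb hab
    obtain ⟨i, -, rfl⟩ := List.mem_map.1 ha
    obtain ⟨j, -, rfl⟩ := List.mem_map.1 hb
    cases hab
  · intro a ha b hb hab
    subst hab
    rcases List.mem_append.1 ha with ha | ha <;> rcases List.mem_append.1 hb with hb | hb
    · obtain ⟨i, -, rfl⟩ := List.mem_map.1 ha
      obtain ⟨j, -, hj⟩ := List.mem_map.1 hb
      have := (Prod.ext_iff.1 (Sum.inr.inj hj)).2
      simp at this
    · obtain ⟨i, -, rfl⟩ := List.mem_map.1 ha
      obtain ⟨j, -, hj⟩ := List.mem_map.1 hb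
      cases hj
    · obtain ⟨i, -, rfl⟩ := List.mem_map.1 ha
      obtain ⟨j, -, hj⟩ := List.mem_map.1 hb
      cases hj
    · obtain ⟨i, hi, rfl⟩ := List.mem_map.1 ha
      obtain ⟨j, hj, hij⟩ := List.mem_map.1 hb
      have h := Sum.inl.inj hij
      exact B4_t2L X (hB j hj) (h ▸ hB i hi)

theorem L'_open (d : X.D ⊕ (Fin k × Bool)) :
    E.T0 d = d ↔ d ∈ E.L' ∨ d ∈ E.L'.map E.T2 := by
  have e1 : E.L'.map E.T2 = E.N.map (fun i => Sum.inr (i, true)) ++
      E.B.map (fun d => Sum.inl (X.t2 d)) := by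
    unfold L'
    rw [List.map_append, List.map_map, List.map_map]
    rfl
  rw [e1]
  unfold L'
  rcases d with d | ⟨i, s⟩
  · have h1 : (Sum.inl d : X.D ⊕ (Fin k × Bool)) ∈
        E.N.map (fun i => (Sum.inr (i, false) : X.D ⊕ (Fin k × Bool))) ++ E.B.map Sum.inl ↔
        d ∈ E.B := by
      simp
    have h2 : (Sum.inl d : X.D ⊕ (Fin k × Bool)) ∈
        E.N.map (fun i => (Sum.inr (i, true) : X.D ⊕ (Fin k × Bool))) ++
          E.B.map (fun d => Sum.inl (X.t2 d)) ↔ X.t2 d ∈ E.B := by
      simp only [List.mem_append, List.mem_map, reduceCtorEq, and_false, exists_false, false_or,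
        Sum.inl.injEq]
      constructor
      · rintro ⟨a, ha, rfl⟩
        rw [X.t2_t2]
        exact ha
      · intro h
        exact ⟨_, h, X.t2_t2 d⟩
    rw [h1, h2, E.B_iff, E.B_iff]
    rcases E.cases_old d with ⟨i, h⟩ | ⟨i, h⟩ | ⟨h, h'⟩
    · rw [E.T0_true h]
      constructor
      · intro h
        cases h
      · rintro (⟨-, h3⟩ | ⟨h3, -⟩)
        · exact absurd h (h3 i)
        · exact (B4_t2L X (E.g_mem _ _ h) h3).elim
    · rw [E.T0_false h]
      constructor
      · intro h
        cases h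
      · rintro (⟨h3, -⟩ | ⟨-, h3⟩)
        · exact (B4_t2L X h3 (E.g_mem _ _ h)).elim
        · exact absurd h (h3 i)
    · rw [E.T0_old h h']
      constructor
      · intro h0
        rcases (X.L_open d).1 (Sum.inl.inj h0) with h3 | h3
        · exact Or.inl ⟨h3, h⟩
        · obtain ⟨e, he, rfl⟩ := List.mem_map.1 h3
          rw [X.t2_t2] at h' ⊢
          exact Or.inr ⟨he, h'⟩
      · rintro (⟨h3, -⟩ | ⟨h3, -⟩)
        · rw [B4_open X h3]
        · rw [B4_open2 X h3]
  · have h1 : E.T0 (Sum.inr (i, s)) = Sum.inr (i, s) ↔ i ∈ E.N := by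
      rw [E.N_iff]
      rcases E.cases_new i with h | ⟨x, h⟩
      · simp only [E.T0_inr_none (p := (i, s)) h, h]
      · constructor
        · intro h2
          cases s
          · rw [E.T0_inr_false h] at h2
            cases h2
          · rw [E.T0_inr_true h] at h2
            cases h2
        · intro h2
          rw [h] at h2
          cases h2
    rw [h1]
    cases s <;> simp

/-- The new partial drawing. -/
noncomputable def ext : PD G where
  D := X.D ⊕ (Fin k × Bool)
  fin := by
    haveI := X.fin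
    exact inferInstance
  t0 := E.T0
  t1 := E.T1
  t2 := E.T2
  t0_t0 := E.T0_T0
  t1_t1 := by
    rintro (d | p)
    · exact congrArg Sum.inl (X.t1_t1 d)
    · exact congrArg Sum.inr (B4_T1_T1 p)
  t2_t2 := by
    rintro (d | p)
    · exact congrArg Sum.inl (X.t2_t2 d)
    · exact congrArg Sum.inr (B4_T2_T2 p)
  t1_ne := by
    rintro (d | p) h
    · exact X.t1_ne d (Sum.inl.inj h)
    · exact B4_T1_ne p (Sum.inr.inj h)
  t2_ne := by
    rintro (d | p) h
    · exact X.t2_ne d (Sum.inl.inj h)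
    · exact B4_T2_ne p (Sum.inr.inj h)
  t0_t2 := E.T0_T2
  t0_t2_ne := E.T0_T2_ne
  conn := fun P hP hex d => E.conn' P hP hex d
  cross := E.cross'
  lab := E.lab'
  lab_t2 := by
    rintro (d | p)
    · exact X.lab_t2 d
    · rfl
  lab_t0 := E.lab_T0
  cross_t1 := by
    rintro (d | p)
    · exact X.cross_t1 d
    · exact Iff.rfl
  cross_t2 := by
    rintro (d | p)
    · exact X.cross_t2 d
    · exact Iff.rfl
  cross_four := by
    rintro (d | p) h
    · exact congrArg Sum.inl (X.cross_four d h)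
    · exact congrArg Sum.inr (E.h_four h p)
  cross_opp := by
    rintro (d | p) h
    · exact X.cross_opp d h
    · exact E.h_opp h p
  cross_ne := by
    rintro (d | p) h
    · exact X.cross_ne d h
    · exact E.h_ne h p
  fst_t1 := by
    rintro (d | p) h
    · exact X.fst_t1 d h
    · exact E.h_fst h _ _
  fst_conn := by
    rintro (d | p) (e | q) hd he hde P hP hPd
    · exact X.fst_conn d e hd he hde (fun y => P (Sum.inl y)) (fun y hy => hP _ hy) hPd
    · exact absurd hde (E.h_new he _ _ hd)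
    · exact absurd hde.symm (E.h_new hd _ _ he)
    · exact B4_orb (fun p => P (Sum.inr p)) (fun p hp => (hP _ hp).1) (fun p hp => (hP _ hp).2)
        hPd q
  vert_uniq := by
    rintro (d | ⟨i, s⟩) (e | ⟨j, t⟩) hd he hde
    · rcases X.vert_uniq d e hd he hde with rfl | rfl
      · exact Or.inl rfl
      · exact Or.inr rfl
    · exact absurd (congrArg (fun a => a.fst) hde) (E.h_new he _ _ hd)
    · exact absurd (congrArg (fun a => a.fst) hde.symm) (E.h_new hd _ _ he)
    · have h : i = j := E.h_inj hd hde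
      subst h
      cases s <;> cases t
      · exact Or.inl rfl
      · exact Or.inr rfl
      · exact Or.inr rfl
      · exact Or.inl rfl
  L := E.L'
  L_nodup := E.L'_nodup
  L_open := E.L'_open

theorem card_ext : Nat.card E.ext.D = Nat.card X.D + 2 * k := by
  have := X.fin
  have h : Nat.card (X.D ⊕ (Fin k × Bool)) = Nat.card X.D + 2 * k := by
    rw [Nat.card_sum, Nat.card_prod, Nat.card_eq_fintype_card (α := Fin k), Fintype.card_fin,
      Nat.card_eq_fintype_card (α := Bool), Fintype.card_bool, mul_comm 2 k]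
  exact h

theorem nV_le : X.nV + 1 ≤ E.ext.nV := by
  have := X.fin
  have hfin : Finite E.ext.D := @Fintype.finite _ E.ext.fin
  let r : X.D → X.D → Prop := fun d e => e = X.t1 d ∨ e = X.t2 d
  let r' : E.ext.D → E.ext.D → Prop := fun d e => e = E.ext.t1 d ∨ e = E.ext.t2 d
  let ψ : E.ext.D → Option (Quot r) :=
    Sum.elim (fun d => some (Quot.mk r d)) (fun _ => none)
  have hψ : ∀ d e, r' d e → ψ d = ψ e := by
    rintro (d | p) e (rfl | rfl)
    · exact congrArg some (Quot.sound (Or.inl rfl))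
    · exact congrArg some (Quot.sound (Or.inr rfl))
    · rfl
    · rfl
  have hs : Function.Surjective (Quot.lift ψ hψ) := by
    rintro (_ | q)
    · exact ⟨Quot.mk _ (Sum.inr (0, true)), rfl⟩
    · induction q using Quot.ind with
      | mk d => exact ⟨Quot.mk _ (Sum.inl d), rfl⟩
  have h1 : Nat.card (Option (Quot r)) ≤ Nat.card (Quot r') := Nat.card_le_card_of_surjective _ hs
  rw [Finite.card_option] at h1
  exact h1

theorem nF_le {T : Type} (ι : Quot X.faceRel → T) (F : Fin k → T)
    (hg : ∀ i x, E.g i = some x → F i = ι (Quot.mk _ x) ∧ F (i - 1) = ι (Quot.mk _ (X.t2 x)))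
    (hl : ∀ u v, (u, v) ∈ links E.T2 E.L' →
      Sum.elim (fun d => ι (Quot.mk _ d)) (fun p => F (B4_kap p)) u =
        Sum.elim (fun d => ι (Quot.mk _ d)) (fun p => F (B4_kap p)) v)
    (hs : ∀ t : T, (∃ q, ι q = t) ∨ ∃ i, F i = t) : Nat.card T ≤ E.ext.nF := by
  have := X.fin
  have hfin : Finite E.ext.D := @Fintype.finite _ E.ext.fin
  let ψ : E.ext.D → T := Sum.elim (fun d => ι (Quot.mk _ d)) (fun p => F (B4_kap p))
  have hψ0 : ∀ d, ψ d = ψ (E.ext.t0 d) := by
    rintro (d | ⟨i, s⟩)
    · show ι (Quot.mk _ d) = ψ (E.T0 (Sum.inl d))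
      rcases E.cases_old d with ⟨i, h⟩ | ⟨i, h⟩ | ⟨h, h'⟩
      · rw [E.T0_true h]
        exact (hg i d h).1.symm
      · rw [E.T0_false h]
        have h2 := (hg i _ h).2
        rw [X.t2_t2] at h2
        exact h2.symm
      · rw [E.T0_old h h']
        exact congrArg ι (Quot.sound (Or.inl rfl))
    · show F (B4_kap (i, s)) = ψ (E.T0 (Sum.inr (i, s)))
      rcases E.cases_new i with h | ⟨x, h⟩
      · rw [E.T0_inr_none (p := (i, s)) h]
        rfl
      · cases s
        · rw [E.T0_inr_false h]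
          exact (hg i x h).2
        · rw [E.T0_inr_true h]
          exact (hg i x h).1
  have hψ : ∀ d e, E.ext.faceRel d e → ψ d = ψ e := by
    rintro d e (rfl | rfl | h)
    · exact hψ0 d
    · rcases d with d | p
      · exact congrArg ι (Quot.sound (Or.inr (Or.inl rfl)))
      · exact congrArg F (B4_kap_T1 p).symm
    · exact hl d e h
  have hs' : Function.Surjective (Quot.lift ψ hψ) := by
    intro t
    rcases hs t with ⟨q, hq⟩ | ⟨i, hi⟩
    · induction q using Quot.ind with
      | mk d => exact ⟨Quot.mk _ (Sum.inl d), hq⟩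
    · refine ⟨Quot.mk _ (Sum.inr (i, true)), ?_⟩
      exact hi
  exact Nat.card_le_card_of_surjective _ hs'

theorem chain_old {T : Type} (ψ : X.D ⊕ (Fin k × Bool) → T) (z : X.D)
    (Z : X.D ⊕ (Fin k × Bool)) (hZ : ψ Z = ψ (Sum.inl z)) (l : List X.D) : ∀ a : X.D,
    (∀ p ∈ chainL X.t2 a l z, ψ (Sum.inl p.1) = ψ (Sum.inl p.2)) →
    ∀ p ∈ chainL E.T2 (Sum.inl a) (l.map Sum.inl) Z, ψ p.1 = ψ p.2 := by
  induction l with
  | nil =>
    intro a h p hp
    have h1 := h (X.t2 a, z) (by simp [chainL])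
    rw [List.map_nil, chainL, List.mem_singleton] at hp
    subst hp
    exact h1.trans hZ.symm
  | cons b l ih =>
    intro a h p hp
    rw [List.map_cons, chainL, List.mem_cons] at hp
    rcases hp with rfl | hp
    · exact h (X.t2 a, b) (by simp [chainL])
    · exact ih b (fun p hp => h p (by rw [chainL]; exact List.mem_cons_of_mem _ hp)) p hp

theorem anc_old {n : ℕ} {d : X.D} (h : X.Anc n d) : E.ext.Anc n (Sum.inl d) := by
  induction h with
  | zero d h => exact PD.Anc.zero (X := E.ext) (Sum.inl d) h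
  | succ n d _ h0 hc ih =>
    have e : E.ext.t0 (Sum.inl d) = Sum.inl (X.t0 d) := E.T0_of_ne h0
    have h1 := PD.Anc.succ (X := E.ext) n (Sum.inl d) ih
      (by rw [e]; exact fun h => h0 (Sum.inl.inj h)) (by rw [e]; exact hc)
    rw [e] at h1
    exact h1

theorem chi_ext {c e : ℕ} (h : X.chiOK c) (hL : X.L ≠ []) (hL' : E.L' ≠ [])
    (hF : X.nF + e ≤ E.ext.nF)
    (hn : 2 * k + 2 * E.L'.length ≤ 2 * X.L.length + 4 * e + 4) : E.ext.chiOK c := by
  unfold PD.chiOK at h ⊢
  have h1 := E.card_ext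
  have h2 := E.nV_le
  rw [if_neg hL] at h
  have h3 : E.ext.L ≠ [] := hL'
  have h4 : E.ext.L.length = E.L'.length := rfl
  rw [if_neg h3, h1, h4]
  omega

theorem cr_ext (e f : Sym2 V) : E.ext.cr e f = X.cr e f +
    Nat.card {p : Fin k × Bool // E.c0 ∧ (E.lb p.1).edge = e ∧ (E.lb (B4_T1 p).1).edge = f} := by
  have := X.fin
  have h1 : E.ext.cr e f = Nat.card ({d : X.D // X.cross d ∧ (X.lab d).edge = e ∧
      (X.lab (X.t1 d)).edge = f} ⊕ {p : Fin k × Bool // E.c0 ∧ (E.lb p.1).edge = e ∧
        (E.lb (B4_T1 p).1).edge = f}) :=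
    Nat.card_congr (Equiv.subtypeSum (p := fun d : X.D ⊕ (Fin k × Bool) => E.ext.cross d ∧
      (E.ext.lab d).edge = e ∧ (E.ext.lab (E.ext.t1 d)).edge = f))
  rw [h1, Nat.card_sum]
  rfl

theorem chain_new {T : Type} (ψ : X.D ⊕ (Fin k × Bool) → T) (F : Fin k → T)
    (hψ : ∀ p, ψ (Sum.inr p) = F (B4_kap p)) : ∀ (l : List (Fin k)) (i : Fin k)
    (W : X.D ⊕ (Fin k × Bool)), List.IsChain (fun a b => b = a + 1) (i :: l) →
    ψ W = F ((i :: l).getLast (List.cons_ne_nil _ _)) →
    ∀ p ∈ chainL E.T2 (Sum.inr (i, false)) (l.map fun j => Sum.inr (j, false)) W,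
      ψ p.1 = ψ p.2 := by
  intro l
  induction l with
  | nil =>
    intro i W _ hW p hp
    rw [List.map_nil, chainL, List.mem_singleton] at hp
    subst hp
    exact (hψ (i, true)).trans hW.symm
  | cons j l ih =>
    intro i W hch hW p hp
    rw [List.map_cons, chainL, List.mem_cons] at hp
    rw [List.isChain_cons_cons] at hch
    rcases hp with rfl | hp
    · show ψ (Sum.inr (i, true)) = ψ (Sum.inr (j, false))
      rw [hψ, hψ]
      congr 1
      rw [hch.1]
      simp [B4_kap]
    · exact ih j W hch.2 (by rw [hW, List.getLast_cons (List.cons_ne_nil _ _)]) p hp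

end B4_Data

theorem B4_chain (m : ℕ) : List.IsChain (fun a b : Fin (m + 1) => b = a + 1)
    ((List.finRange m).map Fin.succ) := by
  rw [List.isChain_iff_getElem]
  intro n hn
  have hn' : n + 1 < m := by simpa using hn
  simp only [List.getElem_map, List.getElem_finRange]
  apply Fin.ext
  rw [Fin.val_add]
  simp
  rw [Nat.mod_eq_of_lt (by omega)]

theorem B4_last (m : ℕ) (h : (List.finRange (m + 1)).map Fin.succ ≠ []) :
    ((List.finRange (m + 1)).map Fin.succ).getLast h = Fin.last (m + 1) := by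
  rw [List.getLast_eq_getElem]
  simp only [List.getElem_map, List.getElem_finRange]
  apply Fin.ext
  simp

/-- Let `X.L = x :: B`, `lab x = a`, `m = ls.length ≥ 1`, `v = a.snd`. New flags: `D' = X.D ⊕ (Fin (m+1) × Bool)`; the
dart number `i` of the new vertex has the label `(a.symm :: ls)[i]`; `cross` is `False` on the new flags.
* `t2 (inr (i,s)) = inr (i, !s)`; `t1 (inr (i,true)) = inr (i+1, false)`, `t1 (inr (i,false)) = inr (i-1, true)` (cyclic in
  `Fin (m+1)`); `t1, t2` on `inl` as before.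
* `t0 (inl x) = inr (0,true)`, `t0 (inl (t2 x)) = inr (0,false)` and back; `t0 (inl d) = inl (t0 d)` otherwise;
  `t0 (inr (i,s)) = inr (i,s)` for `i ≠ 0` (open).
* `L' = [inr (1,false), …, inr (m,false)] ++ B.map inl`.
* faces: `nF' ≥ nF + (m-1)`: the map to `Quot X.faceRel ⊕ Fin (m-1)`: `inl d ↦ [d]`; `inr (0,true), inr (1,false) ↦ [x]`;
  `inr (0,false), inr (m,true) ↦ [t2 x]`; `inr (i,true), inr (i+1,false) ↦ i-1` for `1 ≤ i < m` is constant on the classes of the new
  relation [links: `((i,true),(i+1,false))`; `((m,true), first of B)`: `[t2 x] = [b₁]` by the old link; `(t2 last, (1,false))`: old link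
  `(t2 last, x)`; if `B = []`: `((m,true),(1,false))`: `[t2 x] = [x]` by the old link `(t2 x, x)`] and surjective.
* `nV' ≥ nV + 1`: map to `Option (Quot …)`, `inr ↦ none`.
* `chiOK`: `|D'| = |D| + 2(m+1)`, length `+ (m - 1)`, both sides grow by `4m`.
* `vert_uniq`, `fst_conn`, `placed`: the old noncross flags have `(lab d).fst ∈ U`, the new ones `(lab d).fst = v ∉ U`.
* `Anc`: old ones persist (`inl`, induction); new flags are noncross: `Anc 0`. `cr` unchanged (no new cross flags; equivalence of the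
  two subtypes). `conn`: from `inl x` one reaches the new flags, and the old `P` is recovered by `P ∘ inl` being closed. -/
theorem Reach.grow {U : Set V} {a : G.Dart} {l ls : List G.Dart} {c : ℕ}
    {p : Sym2 V → Sym2 V → ZMod 2} (h : Reach G U (a :: l) c p) (hv : a.snd ∉ U) (hne : ls ≠ [])
    (hnd : (a.symm :: ls).Nodup) (hls : ∀ b : G.Dart, b ∈ a.symm :: ls ↔ b.fst = a.snd) :
    Reach G (insert a.snd U) (ls ++ l) c p := by
  classical
  obtain ⟨X, hX, hl, hchi, hcr⟩ := h
  obtain ⟨x, B, hL, hx, hB⟩ : ∃ x B, X.L = x :: B ∧ X.lab x = a ∧ B.map X.lab = l :=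
    List.map_eq_cons_iff.1 hl
  obtain ⟨b0, ls', rfl⟩ := List.exists_cons_of_ne_nil hne
  have hndL : X.L.Nodup := (List.nodup_append.1 X.L_nodup).1
  rw [hL] at hndL
  have hxB : x ∉ B := (List.nodup_cons.1 hndL).1
  have hxL : x ∈ X.L := by rw [hL]; exact List.mem_cons_self
  have hget : ∀ i : Fin (ls'.length + 1 + 1), ((a.symm :: b0 :: ls').get i).fst = a.snd :=
    fun i => (hls _).1 (List.get_mem (a.symm :: b0 :: ls') i)
  let E : B4_Data X (ls'.length + 1 + 1) :=
    { g := fun i => if i = 0 then some x else none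
      N := (List.finRange (ls'.length + 1)).map Fin.succ
      B := B
      c0 := False
      lb := (a.symm :: b0 :: ls').get
      g_mem := by
        intro i y h
        split_ifs at h with h0
        rw [← Option.some.inj h]
        exact hxL
      g_inj := by
        intro i j y h h'
        split_ifs at h h' with h0 h1
        rw [h0, h1]
      g_ex := ⟨0, x, if_pos rfl⟩
      N_iff := by
        intro i
        rw [List.mem_map]
        constructor
        · rintro ⟨j, -, rfl⟩
          rw [if_neg (Fin.succ_ne_zero j)]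
        · intro h
          have h0 : i ≠ 0 := by
            rintro rfl
            rw [if_pos rfl] at h
            cases h
          obtain ⟨j, hj⟩ := Fin.exists_succ_eq.2 h0
          exact ⟨j, List.mem_finRange j, hj⟩
      N_nodup := (List.nodup_finRange _).map (Fin.succ_injective _)
      B_iff := by
        intro d
        rw [hL, List.mem_cons]
        constructor
        · intro h
          refine ⟨Or.inr h, fun i hi => ?_⟩
          split_ifs at hi with h0
          rw [← Option.some.inj hi] at h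
          exact hxB h
        · rintro ⟨h | h, h'⟩
          · exact absurd (by rw [if_pos rfl, h]) (h' 0)
          · exact h
      B_nodup := (List.nodup_cons.1 hndL).2
      lb_g := by
        intro i y h
        split_ifs at h with h0
        rw [← Option.some.inj h, h0, hx]
        rfl
      h_four := fun h => h.elim
      h_opp := fun h => h.elim
      h_ne := fun h => h.elim
      h_fst := fun _ i j => (hget i).trans (hget j).symm
      h_inj := fun _ => List.nodup_iff_injective_get.1 hnd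
      h_new := fun _ i d hd h => hv (by
        rw [← hget i, ← h]
        exact (hX.placed _).1 ⟨d, hd, rfl⟩) }
  have hlb : ∀ i, (E.lb i).fst = a.snd := hget
  have hkap0 : B4_kap (((0 : Fin (ls'.length + 1)).succ, false) : Fin (ls'.length + 1 + 1) × Bool) =
      0 := by
    show (0 : Fin (ls'.length + 1)).succ - 1 = 0
    rw [Fin.succ_zero_eq_one, sub_self]
  have hlast : (0 : Fin (ls'.length + 1 + 1)) - 1 = Fin.last (ls'.length + 1) := by
    rw [sub_eq_iff_eq_add, Fin.last_add_one]
  have hlen : E.L'.length = ls'.length + 1 + B.length := by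
    unfold B4_Data.L'
    rw [List.length_append, List.length_map, List.length_map]
    rw [List.length_map, List.length_finRange]
  have hL'ne : E.L' ≠ [] := by
    intro h
    rw [h, List.length_nil] at hlen
    omega
  -- the faces
  have hF : X.nF + ls'.length ≤ E.ext.nF := by
    have := X.fin
    let F : Fin (ls'.length + 1 + 1) → Quot X.faceRel ⊕ Fin ls'.length := fun i =>
      if i = 0 then Sum.inl (Quot.mk _ x) else
        if h : i.val - 1 < ls'.length then Sum.inr ⟨i.val - 1, h⟩
        else Sum.inl (Quot.mk _ (X.t2 x))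
    have hF0 : F 0 = Sum.inl (Quot.mk _ x) := if_pos rfl
    have hFl : F (Fin.last (ls'.length + 1)) = Sum.inl (Quot.mk _ (X.t2 x)) := by
      show (if _ then _ else _) = _
      rw [if_neg (by intro h; have := congrArg Fin.val h; simp at this), dif_neg (by simp)]
    let ψ : X.D ⊕ (Fin (ls'.length + 1 + 1) × Bool) → Quot X.faceRel ⊕ Fin ls'.length :=
      Sum.elim (fun d => Sum.inl (Quot.mk _ d)) (fun p => F (B4_kap p))
    have hlink : ∀ u v, (u, v) ∈ links X.t2 X.L → Quot.mk X.faceRel u = Quot.mk X.faceRel v :=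
      fun u v h => Quot.sound (Or.inr (Or.inr h))
    have h1 := E.nF_le (T := Quot X.faceRel ⊕ Fin ls'.length) Sum.inl F ?_ ?_ ?_
    · rw [Nat.card_sum, Nat.card_eq_fintype_card (α := Fin ls'.length), Fintype.card_fin] at h1
      exact h1
    · intro i y h
      have h2 : i = 0 ∧ x = y := by
        have h3 : (if i = 0 then some x else none) = some y := h
        split_ifs at h3 with h0
        exact ⟨h0, Option.some.inj h3⟩
      rw [h2.1, ← h2.2, hlast]
      exact ⟨hF0, hFl⟩
    · intro u v huv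
      have key : ∀ q ∈ links E.T2 E.L', ψ q.1 = ψ q.2 := by
        have hN : E.N = (0 : Fin (ls'.length + 1)).succ ::
            ((List.finRange ls'.length).map Fin.succ).map Fin.succ := by
          show (List.finRange (ls'.length + 1)).map Fin.succ = _
          rw [List.finRange_succ, List.map_cons]
        have hch : List.IsChain (fun a b => b = a + 1) ((0 : Fin (ls'.length + 1)).succ ::
            ((List.finRange ls'.length).map Fin.succ).map Fin.succ) := by
          rw [← hN]
          exact B4_chain _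
        have hgl : ((0 : Fin (ls'.length + 1)).succ ::
            ((List.finRange ls'.length).map Fin.succ).map Fin.succ).getLast
            (List.cons_ne_nil _ _) = Fin.last (ls'.length + 1) := by
          have h3 := B4_last ls'.length (by rw [List.finRange_succ]; simp)
          rw [← h3]
          congr 1
          exact hN.symm
        have hL1 : E.L' = Sum.inr ((0 : Fin (ls'.length + 1)).succ, false) ::
            ((((List.finRange ls'.length).map Fin.succ).map Fin.succ).map
              (fun j => (Sum.inr (j, false) : X.D ⊕ (Fin (ls'.length + 1 + 1) × Bool))) ++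
              B.map Sum.inl) := by
          show E.N.map _ ++ _ = _
          rw [hN, List.map_cons, List.cons_append]
        rw [hL1, links]
        have hW0 : ψ (Sum.inr ((0 : Fin (ls'.length + 1)).succ, false)) =
            Sum.inl (Quot.mk _ x) := by
          show F (B4_kap _) = _
          rw [hkap0, hF0]
        rcases B with _ | ⟨b, B⟩
        · rw [List.map_nil, List.append_nil]
          refine E.chain_new ψ F (fun _ => rfl) _ _ _ hch ?_
          rw [hgl, hFl, hW0]
          congr 1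
          refine (hlink _ _ ?_).symm
          rw [hL]
          simp [links, chainL]
        · rw [List.map_cons, chainL_append]
          intro q hq
          rcases List.mem_append.1 hq with hq | hq
          · refine E.chain_new ψ F (fun _ => rfl) _ _ _ hch ?_ q hq
            rw [hgl, hFl]
            show Sum.inl (Quot.mk _ b) = _
            congr 1
            refine (hlink _ _ ?_).symm
            rw [hL]
            simp [links, chainL]
          · refine E.chain_old ψ x _ hW0 _ b ?_ q hq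
            intro q hq
            show Sum.inl (Quot.mk _ q.1) = Sum.inl (Quot.mk _ q.2)
            congr 1
            refine hlink _ _ ?_
            rw [hL]
            exact List.mem_cons_of_mem _ hq
      exact key (u, v) huv
    · rintro (q | j)
      · exact Or.inl ⟨q, rfl⟩
      · refine Or.inr ⟨⟨j.val + 1, by omega⟩, ?_⟩
        show (if _ then _ else _) = _
        rw [if_neg (by intro h; have := congrArg Fin.val h; simp at this), dif_pos (by simp)]
        rfl
  refine ⟨E.ext, ⟨?_, ?_, ?_⟩, ?_, ?_, ?_⟩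
  · intro b
    constructor
    · rintro ⟨d | q, hd, rfl⟩
      · exact Or.inr ((hX.placed _).1 ⟨d, hd, rfl⟩)
      · exact Or.inl (hlb q.1)
    · rintro (h | h)
      · obtain ⟨i, hi⟩ := List.mem_iff_get.1 ((hls b).2 h)
        exact ⟨Sum.inr (i, true), fun h => h, hi⟩
      · obtain ⟨d, hd, hd'⟩ := (hX.placed b).2 h
        exact ⟨Sum.inl d, hd, hd'⟩
  · rintro (d | q) hd
    · have h0 : X.t0 d = d := by
        by_contra h0
        have h1 : E.ext.t0 (Sum.inl d) = Sum.inl (X.t0 d) := E.T0_of_ne h0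
        rw [h1] at hd
        exact h0 (Sum.inl.inj hd)
      obtain ⟨n, hn⟩ := hX.anc_open d h0
      exact ⟨n, E.anc_old hn⟩
    · exact ⟨0, PD.Anc.zero (X := E.ext) _ (fun h => h)⟩
  · rintro (d | q) hd
    · rcases hX.anc_all d hd with ⟨n, hn⟩ | ⟨n, hn⟩
      · exact Or.inl ⟨n, E.anc_old hn⟩
      · exact Or.inr ⟨n, E.anc_old hn⟩
    · exact hd.elim
  · show (E.N.map _ ++ E.B.map Sum.inl).map E.lab' = b0 :: ls' ++ l
    rw [List.map_append, List.map_map, List.map_map]
    congr 1
    · exact List.map_get_finRange (b0 :: ls')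
    · rw [List.map_map]
      exact hB
  · refine E.chi_ext (e := ls'.length) hchi (by rw [hL]; exact List.cons_ne_nil _ _) hL'ne hF ?_
    rw [hlen, hL, List.length_cons]
    omega
  · intro e f hef
    obtain ⟨n, hn1, hn2⟩ := hcr e f hef
    refine ⟨n, ?_, hn2⟩
    rw [E.cr_ext, hn1]
    have : IsEmpty {p : Fin (ls'.length + 1 + 1) × Bool // E.c0 ∧ (E.lb p.1).edge = e ∧
        (E.lb (B4_T1 p).1).edge = f} := ⟨fun p => p.2.1⟩
    rw [Nat.card_of_isEmpty, add_zero]

end Pool.Agent.NHT
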