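import Pool.Agent.NHT.B7

set_option autoImplicit false

/-!
NHT-B8: crosscaps for the columns of `Y`, then capping everything.
-/

namespace Pool.Agent.NHT

open Pool.Agent.HTE
open scoped Classical

variable {V : Type} {G : SimpleGraph V}

theorem b8_ecount_append (e : Sym2 V) (l₁ l₂ : List G.Dart) :
    ecount e (l₁ ++ l₂) = ecount e l₁ + ecount e l₂ := by
  unfold ecount
  rw [List.countP_append]

theorem b8_ecount_single (e : Sym2 V) (a : G.Dart) :
    ecount e [a] = if a.edge = e then 1 else 0 := by
  unfold ecount
  rw [List.countP_singleton]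
  simp

theorem b8_ecount_perm (e : Sym2 V) {l l' : List G.Dart} (h : l.Perm l') :
    ecount e l = ecount e l' := by
  unfold ecount
  exact h.countP_eq _

theorem b8_ecount_pos {e : Sym2 V} {l : List G.Dart} {b : G.Dart} (hb : b ∈ l) (h : b.edge = e) :
    ecount e l ≠ 0 := by
  unfold ecount
  rw [Ne, List.countP_eq_zero]
  push Not
  exact ⟨b, hb, by simpa using h⟩

theorem b8_gather_aux {l : List G.Dart} {c : ℕ} {κ : Sym2 V → Sym2 V → ZMod 2}
    (hd : Dbl l) (Q : Set (Sym2 V)) (R : List G.Dart) :
    ∀ F C : List G.Dart, RK G (F ++ (C ++ R)) c κ → (F ++ (C ++ R)).Perm l →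
      (∀ e, e ∉ Q → ecount e F = 0) → (∀ e, ecount e F ≤ 1) →
      (∀ e ∈ Q, ecount e C ≠ 0 → ecount e F = 1) →
    ∃ l₁ l₂ : List G.Dart, RK G (l₁ ++ l₂) c κ ∧ (l₁ ++ l₂).Perm l ∧
      ∀ e, ecount e l₁ = if e ∈ Q ∧ ecount e l ≠ 0 then 1 else 0 := by
  induction R with
  | nil =>
    intro F C h hp h1 h2 h3
    rw [List.append_nil] at h hp
    refine ⟨F, C, h, hp, ?_⟩
    intro e
    have hl : ecount e l = ecount e F + ecount e C := by
      rw [← b8_ecount_perm e hp, b8_ecount_append]
    split_ifs with hc
    · obtain ⟨hQ, hne⟩ := hc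
      by_cases hF : ecount e F = 0
      · exact h3 e hQ (by omega)
      · have := h2 e
        omega
    · by_cases hQ : e ∈ Q
      · have : ecount e l = 0 := by
          by_contra hh
          exact hc ⟨hQ, hh⟩
        omega
      · exact h1 e hQ
  | cons a R ih =>
    intro F C h hp h1 h2 h3
    by_cases hc : a.edge ∈ Q ∧ ecount a.edge F = 0
    · obtain ⟨hQ, hF⟩ := hc
      have hC : ∀ b ∈ C, b.edge ≠ a.edge := by
        intro b hb hba
        have := h3 a.edge hQ (b8_ecount_pos hb hba)
        omega
      have hmove := RK.move h (hd.perm hp.symm) hC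
      have hperm : (F ++ a :: (C ++ R)).Perm (F ++ (C ++ a :: R)) :=
        List.Perm.append_left F List.perm_middle.symm
      refine ih (F ++ [a]) C ?_ ?_ ?_ ?_ ?_
      · simpa using hmove
      · have := hperm.trans hp
        simpa using this
      · intro e he
        rw [b8_ecount_append, b8_ecount_single, h1 e he, if_neg]
        rintro rfl
        exact he hQ
      · intro e
        rw [b8_ecount_append, b8_ecount_single]
        split_ifs with hae
        · rw [← hae, hF]
        · have := h2 e
          omega
      · intro e he hCe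
        have h4 := h3 e he hCe
        rw [b8_ecount_append, b8_ecount_single, h4, if_neg]
        rintro rfl
        omega
    · refine ih F (C ++ [a]) ?_ ?_ h1 h2 ?_
      · simpa using h
      · simpa using hp
      · intro e he hCe
        rw [b8_ecount_append, b8_ecount_single] at hCe
        by_cases hae : a.edge = e
        · rw [hae] at hc
          have h5 : ecount e F ≠ 0 := fun h6 => hc ⟨he, h6⟩
          have := h2 e
          omega
        · rw [if_neg hae] at hCe
          exact h3 e he (by omega)

/-- Bring the first occurrences of the edges of `Q` to the front. Statement for the induction on `R`: the list is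
`F ++ (C ++ R)`, `F` = the selected ones so far; for every edge of `Q`, `C` has an end of it only if `F` has the other end. Next
end `a` of `R = a :: R'`: if `a.edge ∈ Q` and `a.symm ∉ F`, move `a` left over `C` (`RK.move`; `C` has no end of `a.edge`), so
`F := F ++ [a]`; else `C := C ++ [a]`. At the end `R = []`: `l₁ = F`, `l₂ = C`. -/
theorem RK.gather {l : List G.Dart} {c : ℕ} {κ : Sym2 V → Sym2 V → ZMod 2}
    (h : RK G l c κ) (hd : Dbl l) (Q : Set (Sym2 V)) :
    ∃ l₁ l₂ : List G.Dart, RK G (l₁ ++ l₂) c κ ∧ (l₁ ++ l₂).Perm l ∧
      ∀ e, ecount e l₁ = if e ∈ Q ∧ ecount e l ≠ 0 then 1 else 0 := by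
  refine b8_gather_aux hd Q l [] [] (by simpa using h) (by simp) ?_ ?_ ?_
  · intro e _
    rfl
  · intro e
    exact Nat.zero_le _
  · intro e _ h0
    exact absurd rfl h0

/-- Induction on the number of columns: `gather` with `Q = {e | y e = 1}`, then `RK.flip`;
`ecount e l₁ = y e` because `y` vanishes on the edges that do not occur in `l`. -/
theorem RK.columns {l : List G.Dart} {c : ℕ} {κ : Sym2 V → Sym2 V → ZMod 2}
    (h : RK G l c κ) (hd : Dbl l) (r : ℕ) (y : Fin r → Sym2 V → ZMod 2)
    (hy : ∀ i e, ecount e l = 0 → y i e = 0) :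
    ∃ l' : List G.Dart, l'.Perm l ∧ RK G l' (c + r) (fun e f => κ e f + ∑ i, y i e * y i f) := by
  induction r generalizing l c κ with
  | zero =>
    refine ⟨l, List.Perm.refl _, ?_⟩
    simpa using h
  | succ r ih =>
    obtain ⟨l₁, l₂, h1, hp, hc⟩ := h.gather hd {e | y 0 e = 1}
    have hec : ∀ e, (ecount e l₁ : ZMod 2) = y 0 e := by
      intro e
      rw [hc e]
      have h01 : ∀ z : ZMod 2, z = 0 ∨ z = 1 := by decide
      rcases h01 (y 0 e) with h0 | h0
      · rw [if_neg]
        · rw [h0]
          simp
        · rintro ⟨hQ, _⟩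
          have : y 0 e = 1 := hQ
          rw [h0] at this
          exact absurd this (by decide)
      · rw [if_pos, h0]
        · simp
        · refine ⟨h0, ?_⟩
          intro hz
          have := hy 0 e hz
          rw [h0] at this
          exact absurd this (by decide)
    have h2 := h1.flip
    have hp2 : (l₁.reverse ++ l₂).Perm l :=
      (List.Perm.append_right l₂ (List.reverse_perm l₁)).trans hp
    obtain ⟨l', hl', h3⟩ := ih h2 (hd.perm hp2.symm) (fun i => y i.succ) (by
      intro i e he
      exact hy i.succ e (by rw [← b8_ecount_perm e hp2]; exact he))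
    refine ⟨l', hl'.trans hp2, ?_⟩
    have e1 : c + 1 + r = c + (r + 1) := by omega
    rw [e1] at h3
    convert h3 using 3 with e f
    rw [Fin.sum_univ_succ, hec e, hec f, add_assoc]

/-- Strong induction on the length: `l = a :: (C ++ a.symm :: B)` (`Dbl`, `List.append_of_mem`), move `a.symm` left over `C`
(`RK.move`; no end of the same edge in `C` since the list has no repetition), cap. -/
theorem RK.capAll {l : List G.Dart} {c : ℕ} {κ : Sym2 V → Sym2 V → ZMod 2}
    (h : RK G l c κ) (hd : Dbl l) : RK G [] c κ := by
  induction hn : l.length using Nat.strong_induction_on generalizing l with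
  | _ n ih =>
    cases l with
    | nil => exact h
    | cons a t =>
      have hne : a.symm ≠ a := SimpleGraph.Dart.symm_ne a
      have hmem : a.symm ∈ t := by
        have := hd.2 a (List.mem_cons_self)
        rcases List.mem_cons.mp this with h1 | h1
        · exact absurd h1 hne
        · exact h1
      obtain ⟨C, B, rfl⟩ := List.append_of_mem hmem
      have hnd := hd.1
      rw [List.nodup_cons] at hnd
      obtain ⟨hat, hnd2⟩ := hnd
      have hnd3 : (a.symm :: (C ++ B)).Nodup := (List.perm_middle.nodup_iff).mp hnd2
      rw [List.nodup_cons] at hnd3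
      obtain ⟨hst, hnd4⟩ := hnd3
      have hnotA : a ∉ C ++ B := by
        intro h1
        apply hat
        rw [List.mem_append] at h1 ⊢
        rcases h1 with h1 | h1
        · exact Or.inl h1
        · exact Or.inr (List.mem_cons_of_mem _ h1)
      have hC : ∀ b ∈ C, b.edge ≠ a.symm.edge := by
        intro b hb hba
        rw [SimpleGraph.Dart.edge_symm] at hba
        rcases (SimpleGraph.dart_edge_eq_iff b a).mp hba with h1 | h1
        · apply hnotA
          rw [← h1]
          exact List.mem_append.mpr (Or.inl hb)
        · apply hst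
          rw [← h1]
          exact List.mem_append.mpr (Or.inl hb)
      have hmove := RK.move (A := [a]) (C := C) (B := B) (a := a.symm) h hd hC
      have hcap : RK G (C ++ B) c κ := RK.cap hmove
      refine ih (C ++ B).length ?_ hcap ?_ rfl
      · rw [← hn]
        simp
      · refine ⟨hnd4, ?_⟩
        intro b hb
        have hb2 : b.symm ∈ a :: (C ++ a.symm :: B) := by
          apply hd.2
          apply List.mem_cons_of_mem
          rw [List.mem_append] at hb ⊢
          rcases hb with h1 | h1
          · exact Or.inl h1
          · exact Or.inr (List.mem_cons_of_mem _ h1)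
        rcases List.mem_cons.mp hb2 with h1 | h1
        · exfalso
          apply hst
          rw [← h1, SimpleGraph.Dart.symm_symm]
          exact hb
        · rw [List.mem_append] at h1 ⊢
          rcases h1 with h1 | h1
          · exact Or.inl h1
          · rcases List.mem_cons.mp h1 with h2 | h2
            · exfalso
              apply hnotA
              have : b = a := by
                have := congrArg SimpleGraph.Dart.symm h2
                rwa [SimpleGraph.Dart.symm_symm, SimpleGraph.Dart.symm_symm] at this
              rw [← this]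
              exact hb
            · exact Or.inr h2

/-- `κ₀ = cntp · · l`, columns, capAll, `Reach.final`. -/
theorem Reach.finish {l : List G.Dart} (h : Reach G Set.univ l 0 (fun _ _ => 0)) (hd : Dbl l)
    (r : ℕ) (y : Fin r → Sym2 V → ZMod 2) (hy : ∀ i e, ecount e l = 0 → y i e = 0) :
    ∃ M : Drawing G, 2 - (r : ℤ) ≤ M.chi ∧
      ∀ e f, e ≠ f → ((M.crossings e f : ℕ) : ZMod 2) = cntp e f l + ∑ i, y i e * y i f := by
  have h0 : RK G l 0 (fun e f => cntp e f l) := by
    unfold RK
    convert h using 3 with e f
    have h2 : ∀ z : ZMod 2, z + z = 0 := by decide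
    exact h2 _
  obtain ⟨l', hp, h1⟩ := h0.columns hd r y hy
  have h2 := h1.capAll (hd.perm hp.symm)
  unfold RK at h2
  obtain ⟨M, hM, hM2⟩ := Reach.final h2
  refine ⟨M, ?_, ?_⟩
  · simpa using hM
  · intro e f hef
    rw [hM2 e f hef]
    simp [cntp]

end Pool.Agent.NHT
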