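import Pool.Agent.NHT.Graph

set_option autoImplicit false

/-!
NHT-B9: the darts of `GG(u, H)`, and the plane drawing of the grid with the legs as open ends.
-/

namespace Pool.Agent.NHT

variable {N : ℕ} [NeZero N] {S : Type}

theorem b9_one_ne (hN : 3 ≤ N) : (1 : Fin N) ≠ 0 := by
  intro h
  have h1 := congrArg Fin.val h
  rw [Fin.val_one', Fin.val_zero, Nat.mod_eq_of_lt (by omega)] at h1
  exact one_ne_zero h1

theorem b9_two_ne (hN : 3 ≤ N) : (1 + 1 : Fin N) ≠ 0 := by
  intro h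
  have h1 := congrArg Fin.val h
  rw [Fin.val_add, Fin.val_one', Fin.val_zero, Nat.mod_eq_of_lt (by omega : 1 < N),
    Nat.mod_eq_of_lt (by omega)] at h1
  omega

theorem b9_add (hN : 3 ≤ N) (i : Fin N) : i + 1 ≠ i := by
  intro h
  exact b9_one_ne hN (add_eq_left.1 h)

theorem b9_sub (hN : 3 ≤ N) (i : Fin N) : i - 1 ≠ i := by
  intro h
  exact b9_one_ne hN (sub_eq_self.1 h)

theorem b9_addsub (hN : 3 ≤ N) (i : Fin N) : i - 1 ≠ i + 1 := by
  intro h
  apply b9_two_ne hN
  have h1 : i + (1 + 1) = i := by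
    calc i + (1 + 1) = (i + 1) + 1 := by rw [add_assoc]
      _ = (i - 1) + 1 := by rw [← h]
      _ = i := sub_add_cancel i 1
  exact add_eq_left.1 h1

theorem adj_ring (hN : 3 ≤ N) (u : Fin N → S) (H : ℕ) (i : Fin N) (l : Fin (H + 1)) :
    (GG u H).Adj (Sum.inr (i, l)) (Sum.inr (i + 1, l)) := by
  rw [GG, SimpleGraph.fromRel_adj]
  refine ⟨fun h => ?_, Or.inl (Or.inl ⟨rfl, rfl⟩)⟩
  exact b9_add hN i (Prod.mk.inj (Sum.inr.inj h)).1.symm

theorem adj_up (u : Fin N → S) (H : ℕ) (i : Fin N) (l : Fin H) :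
    (GG u H).Adj (Sum.inr (i, l.castSucc)) (Sum.inr (i, l.succ)) := by
  rw [GG, SimpleGraph.fromRel_adj]
  refine ⟨fun h => ?_, Or.inl (Or.inr ⟨rfl, rfl⟩)⟩
  have h1 := congrArg Fin.val (Prod.mk.inj (Sum.inr.inj h)).2
  rw [Fin.val_castSucc, Fin.val_succ] at h1
  omega

theorem adj_leg (u : Fin N → S) (H : ℕ) (i : Fin N) :
    (GG u H).Adj (Sum.inr (i, 0)) (Sum.inl (u i)) := by
  rw [GG, SimpleGraph.fromRel_adj]
  exact ⟨fun h => Sum.inr_ne_inl h, Or.inr ⟨rfl, rfl⟩⟩

/-- Right, left, up, down darts and the legs. -/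
def dR (hN : 3 ≤ N) (u : Fin N → S) (H : ℕ) (i : Fin N) (l : Fin (H + 1)) : (GG u H).Dart :=
  ⟨(Sum.inr (i, l), Sum.inr (i + 1, l)), adj_ring hN u H i l⟩

def dU (u : Fin N → S) (H : ℕ) (i : Fin N) (l : Fin H) : (GG u H).Dart :=
  ⟨(Sum.inr (i, l.castSucc), Sum.inr (i, l.succ)), adj_up u H i l⟩

def dLeg (u : Fin N → S) (H : ℕ) (i : Fin N) : (GG u H).Dart :=
  ⟨(Sum.inr (i, 0), Sum.inl (u i)), adj_leg u H i⟩

/-- The left dart at `(i, l)`. -/
def dL (hN : 3 ≤ N) (u : Fin N → S) (H : ℕ) (i : Fin N) (l : Fin (H + 1)) : (GG u H).Dart :=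
  (dR hN u H (i - 1) l).symm

/-- The dart leaving `(i, l)` downwards: the leg for `l = 0`. -/
def dDn (u : Fin N → S) (H : ℕ) (i : Fin N) (l : Fin (H + 1)) : (GG u H).Dart :=
  Fin.cases (motive := fun _ => (GG u H).Dart) (dLeg u H i) (fun l' => (dU u H i l').symm) l

theorem dL_fst (hN : 3 ≤ N) (u : Fin N → S) (H : ℕ) (i : Fin N) (l : Fin (H + 1)) :
    (dL hN u H i l).fst = Sum.inr (i, l) := by
  change (Sum.inr (i - 1 + 1, l) : GV N H S) = Sum.inr (i, l)
  rw [sub_add_cancel]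

theorem dDn_fst (u : Fin N → S) (H : ℕ) (i : Fin N) (l : Fin (H + 1)) :
    (dDn u H i l).fst = Sum.inr (i, l) := by
  cases l using Fin.cases with
  | zero => rfl
  | succ l' => rfl

theorem b9_dDn_snd (u : Fin N → S) (H : ℕ) (i : Fin N) (l : Fin (H + 1)) :
    (l = 0 ∧ (dDn u H i l).snd = Sum.inl (u i)) ∨
      ∃ l' : Fin H, l = l'.succ ∧ (dDn u H i l).snd = Sum.inr (i, l'.castSucc) := by
  cases l using Fin.cases with
  | zero => exact Or.inl ⟨rfl, rfl⟩
  | succ l' => exact Or.inr ⟨l', rfl, rfl⟩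

theorem b9_ext {u : Fin N → S} {H : ℕ} {b c : (GG u H).Dart} (h1 : b.fst = c.fst)
    (h2 : b.snd = c.snd) : b = c :=
  SimpleGraph.Dart.ext _ _ (Prod.ext h1 h2)

theorem b9_all (hN : 3 ≤ N) (u : Fin N → S) (H : ℕ) (i : Fin N) (l : Fin (H + 1))
    (b : (GG u H).Dart) (hb : b.fst = Sum.inr (i, l)) :
    b = dL hN u H i l ∨ b = dDn u H i l ∨ b = dR hN u H i l ∨
      ∃ l' : Fin H, l = l'.castSucc ∧ b = dU u H i l' := by
  have hadj : (SimpleGraph.fromRel (GAdj u H)).Adj (Sum.inr (i, l)) b.snd := by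
    rw [← hb]
    exact b.adj
  rw [SimpleGraph.fromRel_adj] at hadj
  obtain ⟨hne, hadj⟩ := hadj
  rcases hw : b.snd with s | ⟨i', l''⟩
  · rw [hw] at hadj
    rcases hadj with h | h
    · exact h.elim
    · obtain ⟨h1, h2⟩ : l = 0 ∧ u i = s := h
      refine Or.inr (Or.inl (b9_ext (hb.trans (dDn_fst u H i l).symm) ?_))
      rcases b9_dDn_snd u H i l with ⟨_, h3⟩ | ⟨l', h3, _⟩
      · rw [hw, h3, h2]
      · rw [h1] at h3
        exact absurd h3.symm (Fin.succ_ne_zero l')
  · rw [hw] at hadj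
    rcases hadj with h | h
    · have h' : (i' = i + 1 ∧ l'' = l) ∨ (i' = i ∧ l''.val = l.val + 1) := h
      rcases h' with ⟨h1, h2⟩ | ⟨h1, h2⟩
      · refine Or.inr (Or.inr (Or.inl (b9_ext hb ?_)))
        rw [hw, h1, h2]
        rfl
      · have hl : l.val < H := by
          have := l''.isLt
          omega
        refine Or.inr (Or.inr (Or.inr ⟨⟨l.val, hl⟩, Fin.ext rfl, b9_ext ?_ ?_⟩))
        · rw [hb]
          rfl
        · rw [hw, h1]
          change (Sum.inr (i, l'') : GV N H S) = Sum.inr (i, Fin.succ ⟨l.val, hl⟩)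
          congr 2
          exact Fin.ext h2
    · have h' : (i = i' + 1 ∧ l = l'') ∨ (i = i' ∧ l.val = l''.val + 1) := h
      rcases h' with ⟨h1, h2⟩ | ⟨h1, h2⟩
      · refine Or.inl (b9_ext (hb.trans (dL_fst hN u H i l).symm) ?_)
        rw [hw]
        change (Sum.inr (i', l'') : GV N H S) = Sum.inr (i - 1, l)
        rw [h1, h2, add_sub_cancel_right]
      · refine Or.inr (Or.inl (b9_ext (hb.trans (dDn_fst u H i l).symm) ?_))
        rcases b9_dDn_snd u H i l with ⟨h3, _⟩ | ⟨l', h3, h4⟩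
        · have h5 := congrArg Fin.val h3
          rw [Fin.val_zero] at h5
          omega
        · rw [hw, h4, h1]
          congr 2
          refine Fin.ext ?_
          have h5 := congrArg Fin.val h3
          rw [Fin.val_succ] at h5
          rw [Fin.val_castSucc]
          omega

theorem b9_LR (hN : 3 ≤ N) (u : Fin N → S) (H : ℕ) (i : Fin N) (l : Fin (H + 1)) :
    [dL hN u H i l, dDn u H i l, dR hN u H i l].Nodup := by
  have h1 : dL hN u H i l ≠ dDn u H i l := by
    intro h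
    have h2 : (Sum.inr (i - 1, l) : GV N H S) = (dDn u H i l).snd := congrArg (fun d => d.snd) h
    rcases b9_dDn_snd u H i l with ⟨_, h3⟩ | ⟨l', _, h3⟩
    · rw [h3] at h2
      exact Sum.inr_ne_inl h2
    · rw [h3] at h2
      exact b9_sub hN i (Prod.mk.inj (Sum.inr.inj h2)).1
  have h2 : dL hN u H i l ≠ dR hN u H i l := by
    intro h
    have h2 : (Sum.inr (i - 1, l) : GV N H S) = Sum.inr (i + 1, l) := congrArg (fun d => d.snd) h
    exact b9_addsub hN i (Prod.mk.inj (Sum.inr.inj h2)).1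
  have h3 : dDn u H i l ≠ dR hN u H i l := by
    intro h
    have h2 : (dDn u H i l).snd = (Sum.inr (i + 1, l) : GV N H S) := congrArg (fun d => d.snd) h
    rcases b9_dDn_snd u H i l with ⟨_, h3⟩ | ⟨l', _, h3⟩
    · rw [h3] at h2
      exact Sum.inl_ne_inr h2
    · rw [h3] at h2
      exact b9_add hN i (Prod.mk.inj (Sum.inr.inj h2)).1.symm
  simp only [List.nodup_cons, List.mem_cons, List.not_mem_nil, or_false, not_or, not_false_eq_true,
    List.nodup_nil, and_true]
  exact ⟨⟨h1, h2⟩, h3⟩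

/-- The darts at a grid vertex below the top level: up, left, down, right, all different (`N ≥ 3`). -/
theorem darts_mid (hN : 3 ≤ N) (u : Fin N → S) (H : ℕ) (i : Fin N) (l : Fin H) (b : (GG u H).Dart) :
    b ∈ [dU u H i l, dL hN u H i l.castSucc, dDn u H i l.castSucc, dR hN u H i l.castSucc] ↔
      b.fst = Sum.inr (i, l.castSucc) := by
  simp only [List.mem_cons, List.not_mem_nil, or_false]
  constructor
  · rintro (h | h | h | h)
    · rw [h]
      rfl
    · rw [h]
      exact dL_fst hN u H i _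
    · rw [h]
      exact dDn_fst u H i _
    · rw [h]
      rfl
  · intro hb
    rcases b9_all hN u H i l.castSucc b hb with h | h | h | ⟨l', h1, h⟩
    · exact Or.inr (Or.inl h)
    · exact Or.inr (Or.inr (Or.inl h))
    · exact Or.inr (Or.inr (Or.inr h))
    · left
      rw [h, Fin.castSucc_injective H h1]

theorem darts_mid_nodup (hN : 3 ≤ N) (u : Fin N → S) (H : ℕ) (i : Fin N) (l : Fin H) :
    [dU u H i l, dL hN u H i l.castSucc, dDn u H i l.castSucc, dR hN u H i l.castSucc].Nodup := by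
  refine List.nodup_cons.2 ⟨?_, b9_LR hN u H i l.castSucc⟩
  simp only [List.mem_cons, List.not_mem_nil, or_false, not_or]
  refine ⟨?_, ?_, ?_⟩
  · intro h
    have h2 : (Sum.inr (i, l.succ) : GV N H S) = Sum.inr (i - 1, l.castSucc) :=
      congrArg (fun d => d.snd) h
    have h3 := congrArg Fin.val (Prod.mk.inj (Sum.inr.inj h2)).2
    rw [Fin.val_castSucc, Fin.val_succ] at h3
    omega
  · intro h
    have h2 : (Sum.inr (i, l.succ) : GV N H S) = (dDn u H i l.castSucc).snd :=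
      congrArg (fun d => d.snd) h
    rcases b9_dDn_snd u H i l.castSucc with ⟨_, h3⟩ | ⟨l', h4, h3⟩
    · rw [h3] at h2
      exact Sum.inr_ne_inl h2
    · rw [h3] at h2
      have h5 := congrArg Fin.val (Prod.mk.inj (Sum.inr.inj h2)).2
      have h6 := congrArg Fin.val h4
      rw [Fin.val_castSucc, Fin.val_succ] at h5 h6
      omega
  · intro h
    have h2 : (Sum.inr (i, l.succ) : GV N H S) = Sum.inr (i + 1, l.castSucc) :=
      congrArg (fun d => d.snd) h
    have h3 := congrArg Fin.val (Prod.mk.inj (Sum.inr.inj h2)).2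
    rw [Fin.val_castSucc, Fin.val_succ] at h3
    omega

/-- The darts at a vertex of the top level. -/
theorem darts_top (hN : 3 ≤ N) (u : Fin N → S) (H : ℕ) (i : Fin N) (b : (GG u H).Dart) :
    b ∈ [dL hN u H i (Fin.last H), dDn u H i (Fin.last H), dR hN u H i (Fin.last H)] ↔
      b.fst = Sum.inr (i, Fin.last H) := by
  simp only [List.mem_cons, List.not_mem_nil, or_false]
  constructor
  · rintro (h | h | h)
    · rw [h]
      exact dL_fst hN u H i _
    · rw [h]
      exact dDn_fst u H i _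
    · rw [h]
      rfl
  · intro hb
    rcases b9_all hN u H i (Fin.last H) b hb with h | h | h | ⟨l', h1, h⟩
    · exact Or.inl h
    · exact Or.inr (Or.inl h)
    · exact Or.inr (Or.inr h)
    · exact absurd h1.symm (Fin.castSucc_lt_last l').ne

theorem darts_top_nodup (hN : 3 ≤ N) (u : Fin N → S) (H : ℕ) (i : Fin N) :
    [dL hN u H i (Fin.last H), dDn u H i (Fin.last H), dR hN u H i (Fin.last H)].Nodup :=
  b9_LR hN u H i (Fin.last H)

end Pool.Agent.NHT
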