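import Pool.Agent.NHT.B2
import Pool.Agent.NHT.B2b
import Pool.Agent.NHT.B3b
import Pool.Agent.NHT.B4
import Pool.Agent.NHT.B9

set_option autoImplicit false

/-!
NHT-B9b: the plane drawing of the grid with the legs as open ends.
-/

namespace Pool.Agent.NHT

variable {N : ℕ} [NeZero N] {S : Type}

theorem b9b_rot_last {α : Type*} (l : List α) (a : α) : (l ++ [a]) ~r (a :: l) := by
  refine ⟨l.length, ?_⟩
  rw [List.rotate_append_length_eq]
  rfl

theorem b9b_rot_append {α : Type*} (l l' : List α) : (l ++ l') ~r (l' ++ l) := by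
  refine ⟨l.length, ?_⟩
  rw [List.rotate_append_length_eq]

omit [NeZero N] in
theorem b9b_take (k : ℕ) (hk : k < N) :
    (List.finRange N).take (k + 1) = (List.finRange N).take k ++ [⟨k, hk⟩] := by
  have h : k < (List.finRange N).length := by simpa using hk
  rw [List.take_succ_eq_append_getElem h]
  simp

omit [NeZero N] in
theorem b9b_drop (k : ℕ) (hk : k < N) :
    (List.finRange N).drop k = ⟨k, hk⟩ :: (List.finRange N).drop (k + 1) := by
  have h : k < (List.finRange N).length := by simpa using hk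
  rw [List.drop_eq_getElem_cons h]
  simp

theorem b9b_succ (hN : 3 ≤ N) (k : ℕ) (hk : k + 1 < N) :
    (⟨k, by omega⟩ : Fin N) + 1 = ⟨k + 1, hk⟩ := by
  ext
  rw [Fin.val_add]
  have h1 : ((1 : Fin N) : ℕ) = 1 := by
    have h2 : ((1 : Fin N) : ℕ) = 1 % N := rfl
    rw [h2]
    exact Nat.mod_eq_of_lt (by omega)
  rw [h1]
  exact Nat.mod_eq_of_lt hk

theorem b9b_zero_sub (hN : 3 ≤ N) :
    (0 : Fin N) - 1 = ⟨N - 1, by omega⟩ := by
  rw [sub_eq_iff_eq_add]
  ext
  rw [Fin.val_add]
  have h1 : ((1 : Fin N) : ℕ) = 1 := by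
    have h2 : ((1 : Fin N) : ℕ) = 1 % N := rfl
    rw [h2]
    exact Nat.mod_eq_of_lt (by omega)
  rw [h1]
  have : N - 1 + 1 = N := by omega
  simp [this]

theorem b9b_dL_succ (hN : 3 ≤ N) (u : Fin N → S) (H : ℕ) (l : Fin (H + 1)) (k : ℕ) (hk : k + 1 < N) :
    dL hN u H ⟨k + 1, hk⟩ l = (dR hN u H ⟨k, by omega⟩ l).symm := by
  unfold dL
  rw [← b9b_succ hN k hk, add_sub_cancel_right]

theorem b9b_dL_zero (hN : 3 ≤ N) (u : Fin N → S) (H : ℕ) (l : Fin (H + 1)) :
    dL hN u H 0 l = (dR hN u H ⟨N - 1, by omega⟩ l).symm := by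
  unfold dL
  rw [b9b_zero_sub hN]

theorem b9b_top_aux (hN : 3 ≤ N) (u : Fin N → S) (H : ℕ) (k : ℕ) (hk : k < N) :
    Reach (GG u H) {x | ∃ j : Fin N, j.val ≤ k ∧ x = Sum.inr (j, Fin.last H)}
      (dL hN u H 0 (Fin.last H) ::
        (((List.finRange N).take (k + 1)).map (fun i => dDn u H i (Fin.last H)) ++
          [dR hN u H ⟨k, hk⟩ (Fin.last H)])) 0 (fun _ _ => 0) := by
  induction k with
  | zero =>
    have h := Reach.init (G := GG u H) (v := Sum.inr ((0 : Fin N), Fin.last H))
      (ls := [dL hN u H 0 (Fin.last H), dDn u H 0 (Fin.last H), dR hN u H 0 (Fin.last H)])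
      (by simp) (darts_top_nodup hN u H 0) (fun a => darts_top hN u H 0 a)
    have hU : ({x | ∃ j : Fin N, j.val ≤ 0 ∧ x = Sum.inr (j, Fin.last H)} : Set (GV N H S)) =
        {Sum.inr ((0 : Fin N), Fin.last H)} := by
      ext x
      simp only [Set.mem_ofPred_eq, Set.mem_singleton_iff]
      constructor
      · rintro ⟨j, hj, rfl⟩
        have : j = 0 := by
          ext
          simpa using hj
        rw [this]
      · rintro rfl
        exact ⟨0, by simp, rfl⟩
    have h0 : (⟨0, hk⟩ : Fin N) = 0 := by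
      ext
      simp
    rw [b9b_take 0 hk, h0, hU]
    simpa using h
  | succ k ih =>
    have hk' : k < N := by omega
    have h := ih hk'
    have h1 := Reach.rotate h
      (b9b_rot_last (dL hN u H 0 (Fin.last H) ::
        ((List.finRange N).take (k + 1)).map (fun i => dDn u H i (Fin.last H)))
        (dR hN u H ⟨k, hk'⟩ (Fin.last H)))
    have hsnd : (dR hN u H ⟨k, hk'⟩ (Fin.last H)).snd = Sum.inr (⟨k + 1, hk⟩, Fin.last H) := by
      show Sum.inr ((⟨k, hk'⟩ : Fin N) + 1, Fin.last H) = _
      rw [b9b_succ hN k hk]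
    have h2 := Reach.grow h1 (ls := [dDn u H ⟨k + 1, hk⟩ (Fin.last H), dR hN u H ⟨k + 1, hk⟩ (Fin.last H)])
      (by
        rw [hsnd]
        rintro ⟨j, hj, hj2⟩
        have := Prod.mk.inj (Sum.inr.inj hj2)
        have h3 := congrArg Fin.val this.1
        simp only at h3
        omega)
      (by simp)
      (by
        rw [← b9b_dL_succ hN u H (Fin.last H) k hk]
        exact darts_top_nodup hN u H ⟨k + 1, hk⟩)
      (by
        intro b
        rw [← b9b_dL_succ hN u H (Fin.last H) k hk, hsnd]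
        exact darts_top hN u H ⟨k + 1, hk⟩ b)
    have hU : (insert (dR hN u H ⟨k, hk'⟩ (Fin.last H)).snd
        {x | ∃ j : Fin N, j.val ≤ k ∧ x = Sum.inr (j, Fin.last H)} : Set (GV N H S)) =
        {x | ∃ j : Fin N, j.val ≤ k + 1 ∧ x = Sum.inr (j, Fin.last H)} := by
      rw [hsnd]
      ext x
      simp only [Set.mem_insert_iff, Set.mem_ofPred_eq]
      constructor
      · rintro (rfl | ⟨j, hj, rfl⟩)
        · exact ⟨⟨k + 1, hk⟩, le_refl _, rfl⟩
        · exact ⟨j, by omega, rfl⟩
      · rintro ⟨j, hj, rfl⟩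
        rcases Nat.lt_or_ge j.val (k + 1) with h | h
        · exact Or.inr ⟨j, by omega, rfl⟩
        · left
          have : j = ⟨k + 1, hk⟩ := by
            ext
            simp only
            omega
          rw [this]
    rw [hU] at h2
    refine Reach.rotate h2 ?_
    rw [b9b_take (k + 1) hk]
    simp only [List.map_append, List.map_cons, List.map_nil]
    have := b9b_rot_append [dDn u H ⟨k + 1, hk⟩ (Fin.last H), dR hN u H ⟨k + 1, hk⟩ (Fin.last H)]
      (dL hN u H 0 (Fin.last H) ::
        ((List.finRange N).take (k + 1)).map (fun i => dDn u H i (Fin.last H)))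
    simpa using this

/-- The top level. Let `L = last`. `Reach.init` at `(0, L)` with the list `[left₀, down₀, right₀]`. Then for `i = 1, …, N-1`:
the list is `left₀ :: [down₀, …, down_{i-1}] ++ [right_{i-1}]` (placed: `(0,L), …, (i-1,L)`); rotate `right_{i-1}` to the front, it
leads to `(i, L)`, not placed; `Reach.grow` with `ls = [down_i, right_i]` (`right_{i-1}.symm = left_i`; `darts_top`), rotate back:
`left₀ :: [down₀, …, down_i] ++ [right_i]`. At the end `i = N`: rotate `right_{N-1}` to the front: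
`right_{N-1} :: left₀ :: …` with `left₀ = right_{N-1}.symm` (`0 - 1 = N - 1` in `Fin N`), `Reach.cap`. Here `down_i = dDn u H i L`. -/
theorem level_top (hN : 3 ≤ N) (u : Fin N → S) (H : ℕ) :
    Reach (GG u H) {x | ∃ i, x = Sum.inr (i, Fin.last H)}
      ((List.finRange N).map (fun i => dDn u H i (Fin.last H))) 0 (fun _ _ => 0) := by
  have h := b9b_top_aux hN u H (N - 1) (by omega)
  have hU : ({x | ∃ j : Fin N, j.val ≤ N - 1 ∧ x = Sum.inr (j, Fin.last H)} : Set (GV N H S)) =
      {x | ∃ i, x = Sum.inr (i, Fin.last H)} := by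
    ext x
    simp only [Set.mem_ofPred_eq]
    constructor
    · rintro ⟨j, _, rfl⟩
      exact ⟨j, rfl⟩
    · rintro ⟨j, rfl⟩
      exact ⟨j, by have := j.isLt; omega, rfl⟩
  rw [hU] at h
  have ht : (List.finRange N).take (N - 1 + 1) = List.finRange N := by
    apply List.take_of_length_le
    simp
    omega
  rw [ht] at h
  have h1 := Reach.rotate h
      (b9b_rot_last (dL hN u H 0 (Fin.last H) ::
        (List.finRange N).map (fun i => dDn u H i (Fin.last H)))
        (dR hN u H ⟨N - 1, by omega⟩ (Fin.last H)))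
  rw [b9b_dL_zero hN u H (Fin.last H)] at h1
  exact Reach.cap h1

theorem b9b_step_aux (hN : 3 ≤ N) (u : Fin N → S) (H : ℕ) (l : Fin H)
    (h : Reach (GG u H) {x | ∃ i m, x = Sum.inr (i, m) ∧ l.succ ≤ m}
      ((List.finRange N).map (fun i => dDn u H i l.succ)) 0 (fun _ _ => 0)) (k : ℕ) (hk : k < N) :
    Reach (GG u H) ({x | ∃ i m, x = Sum.inr (i, m) ∧ l.succ ≤ m} ∪
        {x | ∃ j : Fin N, j.val ≤ k ∧ x = Sum.inr (j, l.castSucc)})
      (((List.finRange N).drop (k + 1)).map (fun i => dDn u H i l.succ) ++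
        (dL hN u H 0 l.castSucc ::
        (((List.finRange N).take (k + 1)).map (fun i => dDn u H i l.castSucc) ++
          [dR hN u H ⟨k, hk⟩ l.castSucc]))) 0 (fun _ _ => 0) := by
  have hdn : ∀ i : Fin N, dDn u H i l.succ = (dU u H i l).symm := by
    intro i
    unfold dDn
    rw [Fin.cases_succ]
  have hsym : ∀ i : Fin N, (dDn u H i l.succ).symm = dU u H i l := by
    intro i
    rw [hdn i, SimpleGraph.Dart.symm_symm]
  have hsnd : ∀ i : Fin N, (dDn u H i l.succ).snd = Sum.inr (i, l.castSucc) := by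
    intro i
    rw [hdn i]
    rfl
  induction k with
  | zero =>
    have h0 : (⟨0, hk⟩ : Fin N) = 0 := by
      ext
      simp
    have hl : (List.finRange N) = ⟨0, hk⟩ :: (List.finRange N).drop 1 := by
      have := b9b_drop (N := N) 0 hk
      simpa using this
    rw [hl, List.map_cons] at h
    have h2 := Reach.grow h (ls := [dL hN u H ⟨0, hk⟩ l.castSucc, dDn u H ⟨0, hk⟩ l.castSucc,
        dR hN u H ⟨0, hk⟩ l.castSucc])
      (by
        rw [hsnd]
        rintro ⟨i, m, h3, h4⟩
        have := Prod.mk.inj (Sum.inr.inj h3)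
        rw [← this.2] at h4
        exact absurd h4 (not_le.mpr (Fin.castSucc_lt_succ)))
      (by simp)
      (by
        rw [hsym]
        exact darts_mid_nodup hN u H ⟨0, hk⟩ l)
      (by
        intro b
        rw [hsym, hsnd]
        exact darts_mid hN u H ⟨0, hk⟩ l b)
    have hU : (insert (dDn u H ⟨0, hk⟩ l.succ).snd
        {x | ∃ i m, x = Sum.inr (i, m) ∧ l.succ ≤ m} : Set (GV N H S)) =
        ({x | ∃ i m, x = Sum.inr (i, m) ∧ l.succ ≤ m} ∪
        {x | ∃ j : Fin N, j.val ≤ 0 ∧ x = Sum.inr (j, l.castSucc)}) := by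
      rw [hsnd]
      ext x
      simp only [Set.mem_insert_iff, Set.mem_union, Set.mem_ofPred_eq]
      constructor
      · rintro (rfl | hx)
        · exact Or.inr ⟨⟨0, hk⟩, le_refl _, rfl⟩
        · exact Or.inl hx
      · rintro (hx | ⟨j, hj, rfl⟩)
        · exact Or.inr hx
        · left
          have : j = ⟨0, hk⟩ := by
            ext
            simp only
            omega
          rw [this]
    rw [hU] at h2
    refine Reach.rotate h2 ?_
    rw [b9b_take 0 hk, ← h0]
    have := b9b_rot_append [dL hN u H ⟨0, hk⟩ l.castSucc, dDn u H ⟨0, hk⟩ l.castSucc,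
        dR hN u H ⟨0, hk⟩ l.castSucc]
      (((List.finRange N).drop 1).map (fun i => dDn u H i l.succ))
    simpa using this
  | succ k ih =>
    have hk' : k < N := by omega
    have h1 := ih hk'
    rw [b9b_drop (k + 1) hk, List.map_cons, List.cons_append] at h1
    have h2 := Reach.grow h1 (ls := [dL hN u H ⟨k + 1, hk⟩ l.castSucc, dDn u H ⟨k + 1, hk⟩ l.castSucc,
        dR hN u H ⟨k + 1, hk⟩ l.castSucc])
      (by
        rw [hsnd]
        rintro (⟨i, m, h3, h4⟩ | ⟨j, hj, hj2⟩)
        · have := Prod.mk.inj (Sum.inr.inj h3)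
          rw [← this.2] at h4
          exact absurd h4 (not_le.mpr (Fin.castSucc_lt_succ))
        · have := Prod.mk.inj (Sum.inr.inj hj2)
          have h3 := congrArg Fin.val this.1
          simp only at h3
          omega)
      (by simp)
      (by
        rw [hsym]
        exact darts_mid_nodup hN u H ⟨k + 1, hk⟩ l)
      (by
        intro b
        rw [hsym, hsnd]
        exact darts_mid hN u H ⟨k + 1, hk⟩ l b)
    have hU : (insert (dDn u H ⟨k + 1, hk⟩ l.succ).snd
        ({x | ∃ i m, x = Sum.inr (i, m) ∧ l.succ ≤ m} ∪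
        {x | ∃ j : Fin N, j.val ≤ k ∧ x = Sum.inr (j, l.castSucc)}) : Set (GV N H S)) =
        ({x | ∃ i m, x = Sum.inr (i, m) ∧ l.succ ≤ m} ∪
        {x | ∃ j : Fin N, j.val ≤ k + 1 ∧ x = Sum.inr (j, l.castSucc)}) := by
      rw [hsnd]
      ext x
      simp only [Set.mem_insert_iff, Set.mem_union, Set.mem_ofPred_eq]
      constructor
      · rintro (rfl | hx | ⟨j, hj, rfl⟩)
        · exact Or.inr ⟨⟨k + 1, hk⟩, le_refl _, rfl⟩
        · exact Or.inl hx
        · exact Or.inr ⟨j, by omega, rfl⟩
      · rintro (hx | ⟨j, hj, rfl⟩)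
        · exact Or.inr (Or.inl hx)
        · rcases Nat.lt_or_ge j.val (k + 1) with h | h
          · exact Or.inr (Or.inr ⟨j, by omega, rfl⟩)
          · left
            have : j = ⟨k + 1, hk⟩ := by
              ext
              simp only
              omega
            rw [this]
    rw [hU] at h2
    have h3 : Reach (GG u H) ({x | ∃ i m, x = Sum.inr (i, m) ∧ l.succ ≤ m} ∪
        {x | ∃ j : Fin N, j.val ≤ k + 1 ∧ x = Sum.inr (j, l.castSucc)})
        (dR hN u H ⟨k, hk'⟩ l.castSucc :: (dR hN u H ⟨k, hk'⟩ l.castSucc).symm ::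
          ([dDn u H ⟨k + 1, hk⟩ l.castSucc, dR hN u H ⟨k + 1, hk⟩ l.castSucc] ++
            (((List.finRange N).drop (k + 1 + 1)).map (fun i => dDn u H i l.succ) ++
              (dL hN u H 0 l.castSucc ::
                ((List.finRange N).take (k + 1)).map (fun i => dDn u H i l.castSucc))))) 0
        (fun _ _ => 0) := by
      refine Reach.rotate h2 ?_
      have := b9b_rot_last ([dL hN u H ⟨k + 1, hk⟩ l.castSucc, dDn u H ⟨k + 1, hk⟩ l.castSucc,
        dR hN u H ⟨k + 1, hk⟩ l.castSucc] ++
            (((List.finRange N).drop (k + 1 + 1)).map (fun i => dDn u H i l.succ) ++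
              (dL hN u H 0 l.castSucc ::
                ((List.finRange N).take (k + 1)).map (fun i => dDn u H i l.castSucc))))
        (dR hN u H ⟨k, hk'⟩ l.castSucc)
      rw [b9b_dL_succ hN u H l.castSucc k hk] at this
      rw [b9b_dL_succ hN u H l.castSucc k hk]
      simpa using this
    have h4 := Reach.cap h3
    refine Reach.rotate h4 ?_
    rw [b9b_take (k + 1) hk]
    have := b9b_rot_append [dDn u H ⟨k + 1, hk⟩ l.castSucc, dR hN u H ⟨k + 1, hk⟩ l.castSucc]
      (((List.finRange N).drop (k + 1 + 1)).map (fun i => dDn u H i l.succ) ++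
              (dL hN u H 0 l.castSucc ::
                ((List.finRange N).take (k + 1)).map (fun i => dDn u H i l.castSucc)))
    simpa using this

/-- From level `l + 1` to level `l` (`l : Fin H`; `down'_i = dDn i l.succ = (dU i l).symm`, `down_i = dDn i l.castSucc`).
Start: `[down'_0, …, down'_{N-1}]`. `Reach.grow` at `down'_0` with `ls = [left₀, down₀, right₀]` (the back dart is
`down'_0.symm = dU 0 l`; `darts_mid`). After `(0,l), …, (i,l)` are placed the list is, up to rotation,
`[down'_{i+1}, …, down'_{N-1}] ++ left₀ :: [down₀, …, down_i] ++ [right_i]`. Next: grow at `down'_{i+1}` with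
`ls = [left_{i+1}, down_{i+1}, right_{i+1}]`; rotate so that `right_i :: left_{i+1} :: …` is at the front (`right_i` is the last element and
`left_{i+1}` the first) and cap (`left_{i+1} = right_i.symm`). At the end `right_{N-1} :: left₀` is capped too. -/
theorem level_step (hN : 3 ≤ N) (u : Fin N → S) (H : ℕ) (l : Fin H)
    (h : Reach (GG u H) {x | ∃ i m, x = Sum.inr (i, m) ∧ l.succ ≤ m}
      ((List.finRange N).map (fun i => dDn u H i l.succ)) 0 (fun _ _ => 0)) :
    Reach (GG u H) {x | ∃ i m, x = Sum.inr (i, m) ∧ l.castSucc ≤ m}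
      ((List.finRange N).map (fun i => dDn u H i l.castSucc)) 0 (fun _ _ => 0) := by
  have h1 := b9b_step_aux hN u H l h (N - 1) (by omega)
  have hU : ({x | ∃ i m, x = Sum.inr (i, m) ∧ l.succ ≤ m} ∪
        {x | ∃ j : Fin N, j.val ≤ N - 1 ∧ x = Sum.inr (j, l.castSucc)} : Set (GV N H S)) =
        {x | ∃ i m, x = Sum.inr (i, m) ∧ l.castSucc ≤ m} := by
    ext x
    simp only [Set.mem_union, Set.mem_ofPred_eq]
    constructor
    · rintro (⟨i, m, rfl, hm⟩ | ⟨j, hj, rfl⟩)
      · exact ⟨i, m, rfl, le_trans (le_of_lt (Fin.castSucc_lt_succ)) hm⟩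
      · exact ⟨j, l.castSucc, rfl, le_refl _⟩
    · rintro ⟨i, m, rfl, hm⟩
      rcases eq_or_lt_of_le hm with h2 | h2
      · right
        exact ⟨i, by have := i.isLt; omega, by rw [h2]⟩
      · left
        exact ⟨i, m, rfl, Fin.castSucc_lt_iff_succ_le.mp h2⟩
  rw [hU] at h1
  have ht : (List.finRange N).take (N - 1 + 1) = List.finRange N := by
    apply List.take_of_length_le
    simp
    omega
  have hd : (List.finRange N).drop (N - 1 + 1) = [] := by
    apply List.drop_of_length_le
    simp
    omega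
  rw [ht, hd, List.map_nil, List.nil_append] at h1
  have h2 := Reach.rotate h1
      (b9b_rot_last (dL hN u H 0 l.castSucc ::
        (List.finRange N).map (fun i => dDn u H i l.castSucc))
        (dR hN u H ⟨N - 1, by omega⟩ l.castSucc))
  rw [b9b_dL_zero hN u H l.castSucc] at h2
  exact Reach.cap h2

/-- Downward induction on the level from `level_top` by `level_step`. -/
theorem level_all (hN : 3 ≤ N) (u : Fin N → S) (H : ℕ) :
    Reach (GG u H) {x | ∃ y, x = Sum.inr y} ((List.finRange N).map (dLeg u H)) 0 (fun _ _ => 0) := by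
  have key : ∀ l : Fin (H + 1), Reach (GG u H) {x | ∃ i m, x = Sum.inr (i, m) ∧ l ≤ m}
      ((List.finRange N).map (fun i => dDn u H i l)) 0 (fun _ _ => 0) := by
    intro l
    induction l using Fin.reverseInduction with
    | last =>
      have h := level_top hN u H
      have hU : ({x | ∃ i, x = Sum.inr (i, Fin.last H)} : Set (GV N H S)) =
          {x | ∃ i m, x = Sum.inr (i, m) ∧ Fin.last H ≤ m} := by
        ext x
        simp only [Set.mem_ofPred_eq]
        constructor
        · rintro ⟨i, rfl⟩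
          exact ⟨i, Fin.last H, rfl, le_refl _⟩
        · rintro ⟨i, m, rfl, hm⟩
          exact ⟨i, by rw [Fin.last_le_iff.mp hm]⟩
      rw [hU] at h
      exact h
    | cast l ih => exact level_step hN u H l ih
  have h := key 0
  have hU : ({x | ∃ i m, x = Sum.inr (i, m) ∧ (0 : Fin (H + 1)) ≤ m} : Set (GV N H S)) =
      {x | ∃ y, x = Sum.inr y} := by
    ext x
    simp only [Set.mem_ofPred_eq]
    constructor
    · rintro ⟨i, m, rfl, _⟩
      exact ⟨(i, m), rfl⟩
    · rintro ⟨⟨i, m⟩, rfl⟩
      exact ⟨i, m, rfl, Fin.zero_le _⟩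
  rw [hU] at h
  exact h

end Pool.Agent.NHT
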