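import Pool.Agent.NHT.B8
import Pool.Agent.NHT.B10b

set_option autoImplicit false

/-!
NHT-BF: THEOREM II (drawing).
-/

namespace Pool.Agent.NHT

open Pool.Agent.HTE
open scoped Classical

theorem bf_cntp_zero {V : Type} {G : SimpleGraph V} (e f : Sym2 V) (l : List G.Dart)
    (h : ecount e l = 0 ∨ ecount f l = 0) : cntp e f l = 0 := by
  induction l with
  | nil => rfl
  | cons a l ih =>
    unfold ecount at h
    rw [List.countP_cons, List.countP_cons] at h
    rw [cntp]
    rcases h with h | h
    · have h1 : ecount e l = 0 := by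
        unfold ecount
        omega
      have h2 : ¬ a.edge = e := by
        intro h3
        rw [if_pos (by simpa using h3)] at h
        omega
      rw [if_neg h2, ih (Or.inl h1), add_zero]
    · have h1 : ecount f l = 0 := by
        unfold ecount
        omega
      rw [h1, ih (Or.inr h1)]
      simp

theorem bf_leg_edge {N : ℕ} [NeZero N] {S : Type} (u : Fin N → S) (H : ℕ) (i j : Fin N)
    (h : (dLeg u H i).edge = (dLeg u H j).edge) : i = j := by
  rcases SimpleGraph.dart_edge_eq_iff _ _ |>.1 h with h1 | h1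
  · have h2 : (dLeg u H i).fst = (dLeg u H j).fst := by rw [h1]
    have h3 : (Sum.inr (i, (0 : Fin (H + 1))) : GV N H S) = Sum.inr (j, 0) := h2
    simpa using h3
  · have h2 : (dLeg u H i).fst = ((dLeg u H j).symm).fst := by rw [h1]
    have h3 : (Sum.inr (i, (0 : Fin (H + 1))) : GV N H S) = Sum.inl (u j) := h2
    simp at h3

theorem bf_mem_edge {N : ℕ} [NeZero N] {S : Type} (u : Fin N → S) (H : ℕ) (j : Fin N) :
    (Sum.inl (u j) : GV N H S) ∈ (dLeg u H j).edge := by
  have h : (dLeg u H j).edge = s(Sum.inr (j, (0 : Fin (H + 1))), Sum.inl (u j)) := rfl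
  rw [h]
  exact Sym2.mem_mk_right _ _

/-- the nontree leg `j` occurs in the base word -/
theorem bf_count_ne {N : ℕ} [NeZero N] {S : Type} [DecidableEq S] (u : Fin N → S) (H : ℕ)
    (t : S → Fin N) (j : Fin N) (hj : j ≠ t (u j)) :
    ecount (dLeg u H j).edge (lw u H t (fun _ => True)) ≠ 0 := by
  intro h
  unfold ecount at h
  rw [List.countP_eq_zero] at h
  have hmem : dLeg u H j ∈ lw u H t (fun _ => True) := by
    unfold lw
    rw [List.mem_flatMap]
    refine ⟨j, List.mem_finRange _, ?_⟩
    rw [if_neg (fun h => hj h.1)]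
    exact List.mem_singleton.2 rfl
  exact h _ hmem (by simp)

/-- `Reach.finish` for `base` with `y i e = Y j i` if `e` is the edge of the nontree leg `j`, `0` otherwise (the edges of different legs
are different). Let `e, f` be independent edges (so `e ≠ f`). If both are nontree legs `j, k`: `u j ≠ u k` (else they share the star),
parity `chord + ∑ Y Y = 0` (`cntp_lw`, `hY`). If one of them, say `e`, is not a nontree leg: `ecount e = 0`, so `cntp e f = cntp f e = 0` (a `cntp` with an
edge that does not occur vanishes, by induction) and `y i e = 0`. Even number of crossings: `ZMod.natCast_eq_zero_iff_even`. -/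
theorem exists_drawing {N : ℕ} [NeZero N] {S : Type} [Fintype S] [DecidableEq S] (hN : 3 ≤ N)
    (u : Fin N → S) (htwo : ∀ i, ∃ j, j ≠ i ∧ u j = u i) (t : S → Fin N) (ht : ∀ s, u (t s) = s)
    (r : ℕ) (Y : Fin N → Fin r → ZMod 2)
    (hY : ∀ j k, j ≠ t (u j) → k ≠ t (u k) → u j ≠ u k → ∑ l, Y j l * Y k l = chord u t j k)
    (H : ℕ) (hH : 1 ≤ H) :
    ∃ M : Drawing (GG u H), 2 - (r : ℤ) ≤ M.chi ∧ M.IndependentlyEven := by
  -- the function on the edges
  let y : Fin r → Sym2 (GV N H S) → ZMod 2 := fun i e =>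
    if h : ∃ j, j ≠ t (u j) ∧ (dLeg u H j).edge = e then Y h.choose i else 0
  have y_leg : ∀ (i : Fin r) (j : Fin N), j ≠ t (u j) → y i (dLeg u H j).edge = Y j i := by
    intro i j hj
    have hex : ∃ j', j' ≠ t (u j') ∧ (dLeg u H j').edge = (dLeg u H j).edge := ⟨j, hj, rfl⟩
    have h1 : hex.choose = j := bf_leg_edge u H _ _ hex.choose_spec.2
    show (if h : ∃ j', j' ≠ t (u j') ∧ (dLeg u H j').edge = (dLeg u H j).edge then
      Y h.choose i else 0) = Y j i
    rw [dif_pos hex, h1]
  have y_not : ∀ (i : Fin r) (e : Sym2 (GV N H S)),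
      (∀ j, j ≠ t (u j) → (dLeg u H j).edge ≠ e) → y i e = 0 := by
    intro i e he
    show (if h : ∃ j', j' ≠ t (u j') ∧ (dLeg u H j').edge = e then Y h.choose i else 0) = 0
    rw [dif_neg]
    rintro ⟨j, hj, h⟩
    exact he j hj h
  have hy : ∀ i e, ecount e (lw u H t (fun _ => True)) = 0 → y i e = 0 := by
    intro i e h0
    apply y_not
    intro j hj hje
    rw [← hje] at h0
    exact bf_count_ne u H t j hj h0
  obtain ⟨M, hM1, hM2⟩ := Reach.finish (base hN u H t htwo ht) (dbl_lw u H t ht) r y hy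
  refine ⟨M, hM1, ?_⟩
  intro e he f hf hef
  have hne : e ≠ f := by
    rintro rfl
    induction e using Sym2.ind with
    | _ a b => exact hef a (Sym2.mem_mk_left _ _) (Sym2.mem_mk_left _ _)
  rw [← ZMod.natCast_eq_zero_iff_even, hM2 e f hne]
  by_cases h1 : ∃ j, j ≠ t (u j) ∧ (dLeg u H j).edge = e
  · by_cases h2 : ∃ k, k ≠ t (u k) ∧ (dLeg u H k).edge = f
    · obtain ⟨j, hj, rfl⟩ := h1
      obtain ⟨k, hk, rfl⟩ := h2
      have hjk : u j ≠ u k := by
        intro h
        refine hef (Sum.inl (u j)) (bf_mem_edge u H j) ?_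
        rw [h]
        exact bf_mem_edge u H k
      rw [cntp_lw u H t ht j k hj hk hjk]
      have h3 : ∑ i, y i (dLeg u H j).edge * y i (dLeg u H k).edge = chord u t j k := by
        rw [← hY j k hj hk hjk]
        refine Finset.sum_congr rfl fun i _ => ?_
        rw [y_leg i j hj, y_leg i k hk]
      rw [h3]
      generalize chord u t j k = x
      revert x
      decide
    · have h3 : ∀ k, k ≠ t (u k) → (dLeg u H k).edge ≠ f := fun k hk hkf => h2 ⟨k, hk, hkf⟩
      rw [bf_cntp_zero _ _ _ (Or.inr (ecount_lw u H t ht f h3)), zero_add]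
      refine Finset.sum_eq_zero fun i _ => ?_
      rw [y_not i f h3, mul_zero]
  · have h3 : ∀ k, k ≠ t (u k) → (dLeg u H k).edge ≠ e := fun k hk hkf => h1 ⟨k, hk, hkf⟩
    rw [bf_cntp_zero _ _ _ (Or.inl (ecount_lw u H t ht e h3)), zero_add]
    refine Finset.sum_eq_zero fun i _ => ?_
    rw [y_not i e h3, zero_mul]

end Pool.Agent.NHT
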