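import Pool.Agent.NHT.B9

set_option autoImplicit false

/-!
Part III of NHT (NHT_proof.md, section III): no embedding. Definitions.
-/

namespace Pool.Agent.NHT.NE

open Pool.Agent.HTE

/-- One step along a face. -/
def rho (M : GMap) (d : M.D) : M.D := M.t1 (M.t0 d)

/-- The flag lies in a face of length `4` (or `1`, `2`). -/
def Gd (M : GMap) (d : M.D) : Prop := rho M (rho M (rho M (rho M d))) = d

variable {N : ℕ} [NeZero N] {S : Type} {u : Fin N → S} {H : ℕ}

/-- The dart lies on a horizontal edge (both ends on the same level) off level `l`. -/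
def Hor (l : Fin (H + 1)) (a : (GG u H).Dart) : Prop :=
  ∃ i j k, k ≠ l ∧ a.fst = Sum.inr (i, k) ∧ a.snd = Sum.inr (j, k)

/-- The relation `R`: `t0`, `t1`, and `t2` on the horizontal edges off level `l`. -/
def relR (M : Drawing (GG u H)) (l : Fin (H + 1)) (d e : M.D) : Prop :=
  e = M.t0 d ∨ e = M.t1 d ∨ (Hor l (M.lab d) ∧ e = M.t2 d)

/-- The `R`-class of a flag. -/
def cls (M : Drawing (GG u H)) (l : Fin (H + 1)) (d : M.D) : Quot (relR M l) := Quot.mk _ d

theorem cls_t0 (M : Drawing (GG u H)) (l : Fin (H + 1)) (d : M.D) :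
    cls M l (M.t0 d) = cls M l d :=
  (Quot.sound (r := relR M l) (Or.inl rfl : relR M l d (M.t0 d))).symm

theorem cls_t1 (M : Drawing (GG u H)) (l : Fin (H + 1)) (d : M.D) :
    cls M l (M.t1 d) = cls M l d :=
  (Quot.sound (r := relR M l) (Or.inr (Or.inl rfl) : relR M l d (M.t1 d))).symm

theorem cls_t2 (M : Drawing (GG u H)) (l : Fin (H + 1)) (d : M.D) (h : Hor l (M.lab d)) :
    cls M l (M.t2 d) = cls M l d :=
  (Quot.sound (r := relR M l) (Or.inr (Or.inr ⟨h, rfl⟩) : relR M l d (M.t2 d))).symm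

/-- The flags around level `l`, where `k'.succ = k.castSucc = l`, in an embedding in which this level is
flat: at `(i, l)` the rotation is up, right, down, left. `U i` = flag of the up dart on the right side, `Rt i` =
flag of the right dart on the upper side, `Dn i` = flag of the down dart on the right side, `Lf i` = flag of the left
dart on the upper side. -/
structure Flat (h3 : 3 ≤ N) (M : Drawing (GG u H)) (k' k : Fin H) where
  U : Fin N → M.D
  Rt : Fin N → M.D
  Dn : Fin N → M.D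
  Lf : Fin N → M.D
  lab_U : ∀ i, M.lab (U i) = dU u H i k
  lab_Rt : ∀ i, M.lab (Rt i) = dR h3 u H i k.castSucc
  lab_Dn : ∀ i, M.lab (Dn i) = (dU u H i k').symm
  lab_Lf : ∀ i, M.lab (Lf i) = dL h3 u H i k.castSucc
  t1_U : ∀ i, M.t1 (U i) = Rt i
  t1_Rt : ∀ i, M.t1 (M.t2 (Rt i)) = Dn i
  t1_Dn : ∀ i, M.t1 (M.t2 (Dn i)) = M.t2 (Lf i)
  t1_Lf : ∀ i, M.t1 (Lf i) = M.t2 (U i)
  t0_Rt : ∀ i, M.t0 (Rt i) = Lf (i + 1)

end Pool.Agent.NHT.NE
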