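import Pool.Agent.HTE.Defs

set_option autoImplicit false

/-!
NHT-C1: toolkit for embeddings of a graph.
-/

namespace Pool.Agent.NHT.NE

open Pool.Agent.HTE

section

variable {V : Type} {G : SimpleGraph V} {M : Drawing G}

/-- `vert_same` for `d` and `t1 d` (the same vertex of the map, `Quot.sound`). -/
theorem fst_t1 (hM : M.IsEmbedding) (d : M.D) : (M.lab (M.t1 d)).fst = (M.lab d).fst := by
  refine ((M.vert_same d (M.t1 d) (hM _) (hM _)).1 ?_).symm
  exact Quot.sound (Or.inl rfl)

/-- `vert_uniq`. -/
theorem eq_or_t2 (hM : M.IsEmbedding) {d e : M.D} (h : M.lab d = M.lab e) :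
    e = d ∨ e = M.t2 d := by
  exact M.vert_uniq d e (hM _) (hM _) h

/-- `vert_ex`. -/
theorem exists_flag (a : G.Dart) : ∃ d, M.lab d = a := by
  obtain ⟨d, -, h⟩ := M.vert_ex a
  exact ⟨d, h⟩

/-- Flags whose labels start at the same vertex are in one orbit of `t1`, `t2`: `vert_same`,
`Quot.eqvGen_exact`, induction on `EqvGen` (`P` is also closed backwards: `t1`, `t2` are involutions). -/
theorem orbit (hM : M.IsEmbedding) {d e : M.D} (h : (M.lab d).fst = (M.lab e).fst)
    (P : M.D → Prop) (hP : ∀ x, P x → P (M.t1 x) ∧ P (M.t2 x)) (hd : P d) : P e := by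
  have h1 := Quot.eqvGen_exact ((M.vert_same d e (hM _) (hM _)).2 h)
  have key : ∀ x y : M.D, Relation.EqvGen (fun d e : M.D => e = M.t1 d ∨ e = M.t2 d) x y →
      (P x ↔ P y) := by
    intro x y hxy
    induction hxy with
    | rel x y h =>
      rcases h with rfl | rfl
      · exact ⟨fun h => (hP x h).1, fun h => by have := (hP _ h).1; rwa [M.t1_t1] at this⟩
      · exact ⟨fun h => (hP x h).2, fun h => by have := (hP _ h).2; rwa [M.t2_t2] at this⟩
    | refl x => exact Iff.rfl
    | symm x y _ ih => exact ih.symm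
    | trans x y z _ _ ih1 ih2 => exact ih1.trans ih2
  exact (key d e h1).1 hd

/-- If `lab (t1 d) = lab d` then `t1 d = t2 d` (`eq_or_t2`, `t1_ne`), so `{d, t2 d}` is closed under `t1`, `t2`
and contains all flags at the vertex (`orbit`), in particular a flag with label `b`. -/
theorem lab_t1_ne (hM : M.IsEmbedding) (d : M.D)
    (h : ∃ b : G.Dart, b.fst = (M.lab d).fst ∧ b ≠ M.lab d) : M.lab (M.t1 d) ≠ M.lab d := by
  intro h1
  obtain ⟨b, hb, hbd⟩ := h
  have h2 : M.t1 d = M.t2 d := by
    rcases eq_or_t2 hM h1.symm with h2 | h2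
    · exact absurd h2 (M.t1_ne d)
    · exact h2
  obtain ⟨e, he⟩ := exists_flag (M := M) b
  have h3 := orbit hM (d := d) (e := e) (by rw [he, hb]) (fun x => x = d ∨ x = M.t2 d)
    (by
      rintro x (rfl | rfl)
      · exact ⟨Or.inr h2, Or.inr rfl⟩
      · refine ⟨Or.inl ?_, Or.inl (M.t2_t2 d)⟩
        rw [← h2, M.t1_t1]) (Or.inl rfl)
  rcases h3 with rfl | rfl
  · exact hbd he.symm
  · rw [M.lab_t2] at he
    exact hbd he.symm

/-- `Vert → V`, induced by `d ↦ (lab d).fst`, is injective (`vert_same`). -/
theorem card_vert_le [Finite V] (hM : M.IsEmbedding) : Nat.card M.Vert ≤ Nat.card V := by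
  let f : M.Vert → V := Quot.lift (fun d : M.D => (M.lab d).fst) (by
    rintro d e (rfl | rfl)
    · exact (fst_t1 hM d).symm
    · rw [M.lab_t2])
  refine Nat.card_le_card_of_injective f ?_
  intro x y
  induction x using Quot.ind with | _ d =>
  induction y using Quot.ind with | _ e =>
  intro h
  exact (M.vert_same d e (hM _) (hM _)).2 h

/-- `d ↦ lab d` is onto and every fibre is `{d, t2 d}`. -/
theorem card_flags [Finite V] (hM : M.IsEmbedding) : Nat.card M.D = 2 * Nat.card G.Dart := by
  classical
  have : Fintype M.D := M.fin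
  have : Fintype V := Fintype.ofFinite V
  have : Finite G.Dart := by
    refine Finite.of_injective (fun a : G.Dart => a.toProd) ?_
    intro a b h
    exact SimpleGraph.Dart.toProd_injective h
  have : Fintype G.Dart := Fintype.ofFinite G.Dart
  rw [Nat.card_eq_fintype_card, Nat.card_eq_fintype_card]
  have h1 : ∀ a : G.Dart, (Finset.univ.filter fun d : M.D => M.lab d = a).card = 2 := by
    intro a
    obtain ⟨d, hd⟩ := exists_flag (M := M) a
    have h2 : (Finset.univ.filter fun x : M.D => M.lab x = a) = {d, M.t2 d} := by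
      ext x
      simp only [Finset.mem_filter, Finset.mem_univ, true_and, Finset.mem_insert,
        Finset.mem_singleton]
      constructor
      · intro hx
        exact eq_or_t2 hM (hd.trans hx.symm)
      · rintro (rfl | rfl)
        · exact hd
        · rw [M.lab_t2, hd]
    rw [h2]
    exact Finset.card_pair (M.t2_ne d).symm
  have h3 := Finset.card_eq_sum_card_fiberwise (f := M.lab) (s := (Finset.univ : Finset M.D))
    (t := (Finset.univ : Finset G.Dart)) (fun _ _ => Finset.mem_coe.2 (Finset.mem_univ _))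
  rw [← Finset.card_univ, h3, Finset.sum_congr rfl (fun a _ => h1 a), Finset.sum_const, smul_eq_mul,
    Finset.card_univ, mul_comm]

end

end Pool.Agent.NHT.NE
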