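import Pool.Agent.HTE.Defs

set_option autoImplicit false

/-!
NHT-C1b: number of edges of a map; parity of sets closed under an involution; adding links.
-/

namespace Pool.Agent.NHT.NE

open Pool.Agent.HTE

private theorem c1b_orbit (M : GMap) (d e : M.D)
    (h : (Quot.mk (fun d e : M.D => e = M.t0 d ∨ e = M.t2 d) e : M.Edge) = Quot.mk _ d) :
    e = d ∨ e = M.t0 d ∨ e = M.t2 d ∨ e = M.t0 (M.t2 d) := by
  have h2 := Quot.eqvGen_exact h
  have h02 : ∀ x, M.t2 (M.t0 x) = M.t0 (M.t2 x) := fun x => (M.t0_t2 x).symm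
  have hP : ∀ x, (x = d ∨ x = M.t0 d ∨ x = M.t2 d ∨ x = M.t0 (M.t2 d)) →
      (M.t0 x = d ∨ M.t0 x = M.t0 d ∨ M.t0 x = M.t2 d ∨ M.t0 x = M.t0 (M.t2 d)) ∧
      (M.t2 x = d ∨ M.t2 x = M.t0 d ∨ M.t2 x = M.t2 d ∨ M.t2 x = M.t0 (M.t2 d)) := by
    rintro x (rfl | rfl | rfl | rfl)
    · exact ⟨Or.inr (Or.inl rfl), Or.inr (Or.inr (Or.inl rfl))⟩
    · exact ⟨Or.inl (M.t0_t0 d), Or.inr (Or.inr (Or.inr (h02 d)))⟩
    · exact ⟨Or.inr (Or.inr (Or.inr rfl)), Or.inl (M.t2_t2 d)⟩
    · exact ⟨Or.inr (Or.inr (Or.inl (M.t0_t0 _))), Or.inr (Or.inl (by rw [h02, M.t2_t2]))⟩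
  have key : ∀ x y : M.D, Relation.EqvGen (fun d e : M.D => e = M.t0 d ∨ e = M.t2 d) x y →
      ((x = d ∨ x = M.t0 d ∨ x = M.t2 d ∨ x = M.t0 (M.t2 d)) ↔
        (y = d ∨ y = M.t0 d ∨ y = M.t2 d ∨ y = M.t0 (M.t2 d))) := by
    intro x y hxy
    induction hxy with
    | rel x y hxy =>
      rcases hxy with rfl | rfl
      · refine ⟨fun hx => (hP x hx).1, fun hx => ?_⟩
        have := (hP _ hx).1
        rwa [M.t0_t0] at this
      · refine ⟨fun hx => (hP x hx).2, fun hx => ?_⟩
        have := (hP _ hx).2
        rwa [M.t2_t2] at this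
    | refl x => exact Iff.rfl
    | symm x y _ ih => exact ih.symm
    | trans x y z _ _ ih1 ih2 => exact ih1.trans ih2
  exact (key e d h2).2 (Or.inl rfl)

/-- Every edge orbit is `{d, t0 d, t2 d, t0 (t2 d)}` with four different elements. -/
theorem card_edge (M : GMap) : 4 * Nat.card M.Edge = Nat.card M.D := by
  classical
  have := M.fin
  have hfE : Finite M.Edge := inferInstanceAs (Finite (Quot _))
  have : Fintype M.Edge := Fintype.ofFinite _
  rw [Nat.card_eq_fintype_card, Nat.card_eq_fintype_card]
  let f : M.D → M.Edge := fun d => Quot.mk _ d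
  have h1 := Finset.card_eq_sum_card_fiberwise (f := f) (s := (Finset.univ : Finset M.D))
    (t := (Finset.univ : Finset M.Edge)) (fun x _ => Finset.mem_univ _)
  have h2 : ∀ a ∈ (Finset.univ : Finset M.Edge),
      (Finset.univ.filter (fun d : M.D => f d = a)).card = 4 := by
    intro a _
    induction a using Quot.ind with
    | mk d =>
      have h02 : ∀ x, M.t2 (M.t0 x) = M.t0 (M.t2 x) := fun x => (M.t0_t2 x).symm
      have e0 : ∀ x, f (M.t0 x) = f x := fun x =>
        (Quot.sound (r := fun d e : M.D => e = M.t0 d ∨ e = M.t2 d) (a := x) (b := M.t0 x)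
          (Or.inl rfl)).symm
      have e2 : ∀ x, f (M.t2 x) = f x := fun x =>
        (Quot.sound (r := fun d e : M.D => e = M.t0 d ∨ e = M.t2 d) (a := x) (b := M.t2 x)
          (Or.inr rfl)).symm
      have h3 : Finset.univ.filter (fun e : M.D => f e = Quot.mk _ d) =
          {d, M.t0 d, M.t2 d, M.t0 (M.t2 d)} := by
        ext e
        simp only [Finset.mem_filter, Finset.mem_univ, true_and, Finset.mem_insert,
          Finset.mem_singleton]
        constructor
        · intro he
          exact c1b_orbit M d e he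
        · rintro (rfl | rfl | rfl | rfl)
          · rfl
          · exact e0 d
          · exact e2 d
          · exact (e0 _).trans (e2 d)
      rw [h3]
      have n1 : d ≠ M.t0 d := (M.t0_ne d).symm
      have n2 : d ≠ M.t2 d := (M.t2_ne d).symm
      have n3 : d ≠ M.t0 (M.t2 d) := (M.t0_t2_ne d).symm
      have n4 : M.t0 d ≠ M.t2 d := by
        intro h
        apply n3
        rw [← h, M.t0_t0]
      have n5 : M.t0 d ≠ M.t0 (M.t2 d) := by
        rw [M.t0_t2]
        exact (M.t2_ne _).symm
      have n6 : M.t2 d ≠ M.t0 (M.t2 d) := (M.t0_ne _).symm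
      rw [Finset.card_insert_of_notMem, Finset.card_insert_of_notMem, Finset.card_insert_of_notMem,
        Finset.card_singleton]
      · simpa using n6
      · simp only [Finset.mem_insert, Finset.mem_singleton, not_or]
        exact ⟨n4, n5⟩
      · simp only [Finset.mem_insert, Finset.mem_singleton, not_or]
        exact ⟨n1, n2, n3⟩
  rw [← Finset.card_univ (α := M.D), h1, Finset.sum_congr rfl h2, Finset.sum_const,
    Finset.card_univ, smul_eq_mul, mul_comm]

/-- A finite set closed under a fixed point free involution has an even number of elements. -/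
theorem even_invol {D : Type} [Finite D] (f : D → D) (K : Set D) (hK : ∀ d ∈ K, f d ∈ K)
    (hf : ∀ d ∈ K, f (f d) = d) (hne : ∀ d ∈ K, f d ≠ d) : Even K.ncard := by
  classical
  have hfin : K.Finite := Set.toFinite K
  have h1 : ∑ x ∈ hfin.toFinset, (1 : ZMod 2) = 0 := by
    refine Finset.sum_involution (fun a _ => f a) ?_ ?_ ?_ ?_
    · intro a _
      decide
    · intro a ha _
      exact hne a (hfin.mem_toFinset.1 ha)
    · intro a ha
      exact hfin.mem_toFinset.2 (hK a (hfin.mem_toFinset.1 ha))
    · intro a ha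
      exact hf a (hfin.mem_toFinset.1 ha)
  rw [Finset.sum_const, nsmul_eq_mul, mul_one] at h1
  rw [Set.ncard_eq_toFinset_card K hfin]
  exact (ZMod.natCast_eq_zero_iff_even).1 h1

private theorem c1b_step {D : Type} [Finite D] (r : D → D → Prop) (p q : D) :
    Nat.card (Quot r) ≤ Nat.card (Quot (fun x y => r x y ∨ (x = p ∧ y = q))) + 1 := by
  classical
  let P : Quot r := Quot.mk r p
  let Q : Quot r := Quot.mk r q
  let g : Quot (fun x y => r x y ∨ (x = p ∧ y = q)) → Quot r :=
    Quot.lift (fun d => if Quot.mk r d = Q then P else Quot.mk r d) (by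
      rintro x y (h | ⟨rfl, rfl⟩)
      · have : Quot.mk r x = Quot.mk r y := Quot.sound h
        simp only [this]
      · by_cases h : P = Q
        · simp only [P, Q] at h ⊢
          simp [h]
        · simp only [P, Q] at h ⊢
          simp [h])
  have h1 : (Set.univ : Set (Quot r)) ⊆ insert Q (Set.range g) := by
    intro x _
    by_cases hx : x = Q
    · exact Or.inl hx
    · right
      induction x using Quot.ind with
      | mk d =>
        refine ⟨Quot.mk _ d, ?_⟩
        exact if_neg hx
  have h2 : (Set.univ : Set (Quot r)).ncard ≤ (Set.range g).ncard + 1 :=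
    (Set.ncard_le_ncard h1 (Set.toFinite _)).trans (Set.ncard_insert_le _ _)
  have h3 : (Set.range g).ncard ≤ Nat.card (Quot (fun x y => r x y ∨ (x = p ∧ y = q))) := by
    rw [← Set.image_univ]
    refine (Set.ncard_image_le (Set.toFinite _)).trans ?_
    rw [Set.ncard_univ]
  rw [Set.ncard_univ] at h2
  omega

/-- One more pair of related elements lowers the number of classes by at most `1`; induction on the
number of pairs. (For one pair `(p, q)`: the map `Quot r → Quot r'` is onto, and two classes with the same image are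
equal or both in `{[p], [q]}`: let `P` be the set of elements of `Quot r`; the relation `x = y ∨ {x, y} = {[p], [q]}` is an
equivalence relation that contains the images of `r'`.) -/
theorem card_quot_le {D ι : Type} [Finite D] [Finite ι] (r : D → D → Prop) (p q : ι → D) :
    Nat.card (Quot r) ≤
      Nat.card (Quot (fun x y => r x y ∨ ∃ i, x = p i ∧ y = q i)) + Nat.card ι := by
  classical
  have : Fintype ι := Fintype.ofFinite ι
  have key : ∀ T : Finset ι, Nat.card (Quot r) ≤
      Nat.card (Quot (fun x y => r x y ∨ ∃ i ∈ T, x = p i ∧ y = q i)) + T.card := by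
    intro T
    induction T using Finset.induction_on with
    | empty =>
      have h : (fun x y => r x y ∨ ∃ i ∈ (∅ : Finset ι), x = p i ∧ y = q i) = r := by
        funext x y
        simp
      rw [h]
      simp
    | insert a T ha ih =>
      have h1 := c1b_step (fun x y => r x y ∨ ∃ i ∈ T, x = p i ∧ y = q i) (p a) (q a)
      have h : (fun x y => (r x y ∨ ∃ i ∈ T, x = p i ∧ y = q i) ∨ (x = p a ∧ y = q a)) =
          (fun x y => r x y ∨ ∃ i ∈ insert a T, x = p i ∧ y = q i) := by
        funext x y
        simp only [Finset.mem_insert, eq_iff_iff]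
        constructor
        · rintro ((h | ⟨i, hi, h⟩) | h)
          · exact Or.inl h
          · exact Or.inr ⟨i, Or.inr hi, h⟩
          · exact Or.inr ⟨a, Or.inl rfl, h⟩
        · rintro (h | ⟨i, rfl | hi, h⟩)
          · exact Or.inl (Or.inl h)
          · exact Or.inr h
          · exact Or.inl (Or.inr ⟨i, hi, h⟩)
      rw [h] at h1
      rw [Finset.card_insert_of_notMem ha]
      omega
  have h := key Finset.univ
  rw [Finset.card_univ, ← Nat.card_eq_fintype_card] at h
  simpa using h

end Pool.Agent.NHT.NE
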