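import Pool.Agent.NHT.C0

set_option autoImplicit false

/-!
NHT-C3: facts about the graph `GG(u, H)`.
-/

namespace Pool.Agent.NHT.NE

variable {N : ℕ} [NeZero N] {S : Type} {u : Fin N → S} {H : ℕ}

private theorem c3_one (h3 : 3 ≤ N) : ((1 : Fin N)).val = 1 := by
  rw [Fin.val_one']
  exact Nat.mod_eq_of_lt (by omega)

private theorem c3_n1 (h3 : 3 ≤ N) (i : Fin N) : i + 1 ≠ i := by
  intro h
  have h1 : (1 : Fin N) = 0 := by
    have h2 : i + 1 = i + 0 := by rw [h, add_zero]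
    exact add_left_cancel h2
  have h2 := congrArg Fin.val h1
  rw [c3_one h3] at h2
  simp at h2

private theorem c3_n2 (h3 : 3 ≤ N) (i : Fin N) : i + 1 + 1 ≠ i := by
  intro h
  have h1 : (1 + 1 : Fin N) = 0 := by
    have h2 : i + (1 + 1) = i + 0 := by rw [← add_assoc, h, add_zero]
    exact add_left_cancel h2
  have h2 := congrArg Fin.val h1
  rw [Fin.val_add, c3_one h3, Nat.mod_eq_of_lt (by omega)] at h2
  simp at h2

private theorem c3_n3 (h5 : 5 ≤ N) (i : Fin N) : i + 1 + 1 + 1 ≠ i := by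
  intro h
  have h1 : (1 + 1 + 1 : Fin N) = 0 := by
    have h2 : i + (1 + 1 + 1) = i + 0 := by rw [← add_assoc, ← add_assoc, h, add_zero]
    exact add_left_cancel h2
  have h2 := congrArg Fin.val h1
  rw [Fin.val_add, Fin.val_add, c3_one (by omega), Nat.mod_eq_of_lt (show 1 + 1 < N by omega),
    Nat.mod_eq_of_lt (show 1 + 1 + 1 < N by omega)] at h2
  simp at h2

private theorem c3_n4 (h5 : 5 ≤ N) (i : Fin N) : i + 1 + 1 + 1 + 1 ≠ i := by
  intro h
  have h1 : (1 + 1 + 1 + 1 : Fin N) = 0 := by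
    have h2 : i + (1 + 1 + 1 + 1) = i + 0 := by
      rw [← add_assoc, ← add_assoc, ← add_assoc, h, add_zero]
    exact add_left_cancel h2
  have h2 := congrArg Fin.val h1
  rw [Fin.val_add, Fin.val_add, Fin.val_add, c3_one (by omega),
    Nat.mod_eq_of_lt (show 1 + 1 < N by omega), Nat.mod_eq_of_lt (show 1 + 1 + 1 < N by omega),
    Nat.mod_eq_of_lt (show 1 + 1 + 1 + 1 < N by omega)] at h2
  simp at h2

/-- The neighbours of a grid vertex. -/
theorem adj_inr (h3 : 3 ≤ N) (i : Fin N) (l : Fin (H + 1)) (z : GV N H S) :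
    (GG u H).Adj (Sum.inr (i, l)) z ↔
      z = Sum.inr (i + 1, l) ∨ z = Sum.inr (i - 1, l) ∨ (∃ m : Fin (H + 1), m.val = l.val + 1 ∧
        z = Sum.inr (i, m)) ∨ (∃ m : Fin (H + 1), l.val = m.val + 1 ∧ z = Sum.inr (i, m)) ∨
        (l = 0 ∧ z = Sum.inl (u i)) := by
  unfold GG
  rw [SimpleGraph.fromRel_adj]
  rcases z with s | ⟨i', l'⟩
  · simp only [GAdj, false_or]
    constructor
    · rintro ⟨_, h1, h2⟩
      exact Or.inr (Or.inr (Or.inr (Or.inr ⟨h1, by rw [h2]⟩)))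
    · rintro (h | h | ⟨m, _, h⟩ | ⟨m, _, h⟩ | ⟨h1, h⟩)
      · cases h
      · cases h
      · cases h
      · cases h
      · refine ⟨by simp, h1, ?_⟩
        exact (Sum.inl.inj h).symm
  · simp only [GAdj]
    constructor
    · rintro ⟨_, (⟨rfl, rfl⟩ | ⟨rfl, h⟩) | (⟨h, h'⟩ | ⟨h, h'⟩)⟩
      · exact Or.inl rfl
      · exact Or.inr (Or.inr (Or.inl ⟨l', h, rfl⟩))
      · refine Or.inr (Or.inl ?_)
        rw [h, h', add_sub_cancel_right]
      · exact Or.inr (Or.inr (Or.inr (Or.inl ⟨l', h', by rw [h]⟩)))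
    · rintro (h | h | ⟨m, hm, h⟩ | ⟨m, hm, h⟩ | ⟨h1, h⟩)
      · have h' := Sum.inr.inj h
        obtain ⟨rfl, rfl⟩ := Prod.mk.inj h'
        refine ⟨?_, Or.inl (Or.inl ⟨rfl, rfl⟩)⟩
        intro hc
        exact c3_n1 h3 i (Prod.mk.inj (Sum.inr.inj hc)).1.symm
      · have h' := Sum.inr.inj h
        obtain ⟨rfl, rfl⟩ := Prod.mk.inj h'
        refine ⟨?_, Or.inr (Or.inl ⟨by rw [sub_add_cancel], rfl⟩)⟩
        intro hc
        have h4 := (Prod.mk.inj (Sum.inr.inj hc)).1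
        apply c3_n1 h3 (i - 1)
        rw [sub_add_cancel]
        exact h4
      · have h' := Sum.inr.inj h
        obtain ⟨rfl, rfl⟩ := Prod.mk.inj h'
        refine ⟨?_, Or.inl (Or.inr ⟨rfl, hm⟩)⟩
        intro hc
        have h4 := (Prod.mk.inj (Sum.inr.inj hc)).2
        rw [h4] at hm
        omega
      · have h' := Sum.inr.inj h
        obtain ⟨rfl, rfl⟩ := Prod.mk.inj h'
        refine ⟨?_, Or.inr (Or.inr ⟨rfl, hm⟩)⟩
        intro hc
        have h4 := (Prod.mk.inj (Sum.inr.inj hc)).2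
        rw [h4] at hm
        omega
      · cases h

theorem adj_inl (s : S) (z : GV N H S) :
    (GG u H).Adj (Sum.inl s) z ↔ ∃ i, u i = s ∧ z = Sum.inr (i, 0) := by
  unfold GG
  rw [SimpleGraph.fromRel_adj]
  rcases z with s' | ⟨i', l'⟩
  · simp only [GAdj, or_self, and_false, false_iff, not_exists, not_and]
    intro i _ h
    cases h
  · simp only [GAdj, or_false]
    constructor
    · rintro ⟨_, rfl, h2⟩
      exact ⟨i', h2, rfl⟩
    · rintro ⟨i, hi, h⟩
      obtain ⟨rfl, rfl⟩ := Prod.mk.inj (Sum.inr.inj h)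
      exact ⟨by simp, rfl, hi⟩

/-- A triangle with a star `s` would contain `(i, 0)`, `(i + 1, 0)` with `u i = u (i + 1) = s`. -/
private theorem c3_tri_star (h5 : 5 ≤ N) (hne : ∀ i, u i ≠ u (i + 1)) (s : S) (y z : GV N H S)
    (h1 : (GG u H).Adj (Sum.inl s) y) (h2 : (GG u H).Adj y z) (h3 : (GG u H).Adj z (Sum.inl s)) :
    False := by
  rw [adj_inl] at h1
  have h3' := h3.symm
  rw [adj_inl] at h3'
  obtain ⟨i, hi, rfl⟩ := h1
  obtain ⟨j, hj, rfl⟩ := h3'
  rw [adj_inr (by omega)] at h2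
  rcases h2 with h | h | ⟨m, hm, h⟩ | ⟨m, hm, h⟩ | ⟨_, h⟩
  · obtain ⟨rfl, _⟩ := Prod.mk.inj (Sum.inr.inj h)
    exact hne i (hi.trans hj.symm)
  · obtain ⟨rfl, _⟩ := Prod.mk.inj (Sum.inr.inj h)
    apply hne (i - 1)
    rw [sub_add_cancel]
    exact hj.trans hi.symm
  · obtain ⟨_, rfl⟩ := Prod.mk.inj (Sum.inr.inj h)
    simp at hm
  · obtain ⟨_, rfl⟩ := Prod.mk.inj (Sum.inr.inj h)
    simp at hm
  · cases h

/-- A triangle with a star `s` would contain `(i, 0)`, `(i + 1, 0)` with `u i = u (i + 1) = s`. A triangle of grid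
vertices: all on one level (`3 = N`, excluded) or two in one column: their common neighbours ... none. -/
theorem tri (h5 : 5 ≤ N) (hne : ∀ i, u i ≠ u (i + 1)) (x y z : GV N H S)
    (h1 : (GG u H).Adj x y) (h2 : (GG u H).Adj y z) (h3 : (GG u H).Adj z x) : False := by
  rcases x with s | ⟨i, l⟩
  · exact c3_tri_star h5 hne s y z h1 h2 h3
  rcases y with s | ⟨j, m⟩
  · exact c3_tri_star h5 hne s z _ h2 h3 h1
  rcases z with s | ⟨k, n⟩
  · exact c3_tri_star h5 hne s _ _ h3 h1 h2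
  rw [adj_inr (by omega)] at h1 h2 h3
  have hs : ∀ a : Fin N, a - 1 + 1 = a := fun a => sub_add_cancel a 1
  rcases h1 with h1 | h1 | ⟨m1, hm1, h1⟩ | ⟨m1, hm1, h1⟩ | ⟨_, h1⟩ <;>
  rcases h2 with h2 | h2 | ⟨m2, hm2, h2⟩ | ⟨m2, hm2, h2⟩ | ⟨_, h2⟩ <;>
  rcases h3 with h3 | h3 | ⟨m3, hm3, h3⟩ | ⟨m3, hm3, h3⟩ | ⟨_, h3⟩ <;>
  first
  | (cases h1; done)
  | (cases h2; done)
  | (cases h3; done)
  | (have e1 := (Prod.mk.inj (Sum.inr.inj h1)).1
     have f1 := congrArg Fin.val (Prod.mk.inj (Sum.inr.inj h1)).2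
     have e2 := (Prod.mk.inj (Sum.inr.inj h2)).1
     have f2 := congrArg Fin.val (Prod.mk.inj (Sum.inr.inj h2)).2
     have e3 := (Prod.mk.inj (Sum.inr.inj h3)).1
     have f3 := congrArg Fin.val (Prod.mk.inj (Sum.inr.inj h3)).2
     first
     | omega
     | (rw [e2, e1] at e3; exact c3_n3 h5 i e3.symm)
     | (rw [e2, e1] at e3; exact c3_n3 h5 (i - 1 - 1 - 1) (by rw [hs, hs, hs]; exact e3))
     | (rw [e2, e1] at e3; exact c3_n1 (by omega) i (by rw [← hs (i + 1)]; exact e3.symm))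
     | (rw [e2, e1] at e3; exact c3_n1 (by omega) i (by simpa using e3.symm)))

/-- Every vertex has at least two neighbours: a grid vertex its left and right neighbours, a star two
legs (`htwo`; a dart starting at the star `s` ends at `(i, 0)` with `u i = s`). -/
theorem deg (h5 : 5 ≤ N) (htwo : ∀ i, ∃ j, j ≠ i ∧ u j = u i) (a : (GG u H).Dart) :
    ∃ b : (GG u H).Dart, b.fst = a.fst ∧ b ≠ a := by
  have key : ∀ v w : GV N H S, (GG u H).Adj v w →
      ∃ b : (GG u H).Dart, b.fst = v ∧ b.snd ≠ w := by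
    intro v w hvw
    rcases v with s | ⟨i, l⟩
    · rw [adj_inl] at hvw
      obtain ⟨i, hi, rfl⟩ := hvw
      obtain ⟨j, hj, hj2⟩ := htwo i
      refine ⟨⟨(Sum.inl s, Sum.inr (j, 0)), (adj_inl _ _).2 ⟨j, hj2.trans hi, rfl⟩⟩, rfl, ?_⟩
      intro h
      exact hj (Prod.mk.inj (Sum.inr.inj h)).1
    · by_cases hw : w = Sum.inr (i + 1, l)
      · refine ⟨⟨(Sum.inr (i, l), Sum.inr (i - 1, l)),
          (adj_inr (by omega) _ _ _).2 (Or.inr (Or.inl rfl))⟩, rfl, ?_⟩
        rw [hw]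
        intro h
        have h1 := (Prod.mk.inj (Sum.inr.inj h)).1
        apply c3_n2 (by omega) (i - 1)
        rw [sub_add_cancel]
        exact h1.symm
      · exact ⟨⟨(Sum.inr (i, l), Sum.inr (i + 1, l)),
          (adj_inr (by omega) _ _ _).2 (Or.inl rfl)⟩, rfl, fun h => hw h.symm⟩
  obtain ⟨b, hb1, hb2⟩ := key a.fst a.snd a.adj
  refine ⟨b, hb1, ?_⟩
  rintro rfl
  exact hb2 rfl

section

variable {k' k : Fin H}

/-- Common neighbours of the upper and the lower neighbour of `(i, l)`, `l = k'.succ = k.castSucc`. -/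
theorem common_ud (h5 : 5 ≤ N) (hk : k'.succ = k.castSucc) (i : Fin N) (z : GV N H S)
    (h1 : (GG u H).Adj (Sum.inr (i, k.succ)) z) (h2 : (GG u H).Adj z (Sum.inr (i, k'.castSucc))) :
    z = Sum.inr (i, k.castSucc) := by
  have h2' := h2.symm
  rw [adj_inr (by omega)] at h1 h2'
  have hkv := congrArg Fin.val hk
  rw [Fin.val_succ, Fin.val_castSucc] at hkv
  rcases h1 with rfl | rfl | ⟨m1, hm1, rfl⟩ | ⟨m1, hm1, rfl⟩ | ⟨h0, rfl⟩
  · rcases h2' with h | h | ⟨m2, hm2, h⟩ | ⟨m2, hm2, h⟩ | ⟨_, h⟩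
    · have f := congrArg Fin.val (Prod.mk.inj (Sum.inr.inj h)).2
      rw [Fin.val_succ, Fin.val_castSucc] at f
      omega
    · have f := congrArg Fin.val (Prod.mk.inj (Sum.inr.inj h)).2
      rw [Fin.val_succ, Fin.val_castSucc] at f
      omega
    · exact absurd (Prod.mk.inj (Sum.inr.inj h)).1 (c3_n1 (by omega) i)
    · exact absurd (Prod.mk.inj (Sum.inr.inj h)).1 (c3_n1 (by omega) i)
    · cases h
  · rcases h2' with h | h | ⟨m2, hm2, h⟩ | ⟨m2, hm2, h⟩ | ⟨_, h⟩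
    · have f := congrArg Fin.val (Prod.mk.inj (Sum.inr.inj h)).2
      rw [Fin.val_succ, Fin.val_castSucc] at f
      omega
    · have f := congrArg Fin.val (Prod.mk.inj (Sum.inr.inj h)).2
      rw [Fin.val_succ, Fin.val_castSucc] at f
      omega
    · have e := (Prod.mk.inj (Sum.inr.inj h)).1
      exact absurd (by rw [sub_add_cancel]; exact e.symm) (c3_n1 (by omega) (i - 1))
    · have e := (Prod.mk.inj (Sum.inr.inj h)).1
      exact absurd (by rw [sub_add_cancel]; exact e.symm) (c3_n1 (by omega) (i - 1))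
    · cases h
  · rcases h2' with h | h | ⟨m2, hm2, h⟩ | ⟨m2, hm2, h⟩ | ⟨_, h⟩
    · exact absurd (Prod.mk.inj (Sum.inr.inj h)).1.symm (c3_n1 (by omega) i)
    · have e := (Prod.mk.inj (Sum.inr.inj h)).1
      exact absurd (by rw [sub_add_cancel]; exact e) (c3_n1 (by omega) (i - 1))
    · have f := (Prod.mk.inj (Sum.inr.inj h)).2
      rw [← f, hm1, Fin.val_succ, Fin.val_castSucc] at hm2
      omega
    · have f := (Prod.mk.inj (Sum.inr.inj h)).2
      rw [← f, hm1, Fin.val_succ, Fin.val_castSucc] at hm2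
      omega
    · cases h
  · have : m1 = k.castSucc := by
      apply Fin.ext
      rw [Fin.val_succ] at hm1
      rw [Fin.val_castSucc]
      omega
    rw [this]
  · exact absurd h0 (Fin.succ_ne_zero k)

/-- Common neighbours of the right and the left neighbour of `(i, l)`, for a level `l ≥ 1` (level `0` would also
have the stars). -/
theorem common_rl (h5 : 5 ≤ N) (hk : k'.succ = k.castSucc) (i : Fin N) (z : GV N H S)
    (h1 : (GG u H).Adj (Sum.inr (i + 1, k.castSucc)) z)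
    (h2 : (GG u H).Adj z (Sum.inr (i - 1, k.castSucc))) :
    z = Sum.inr (i, k.castSucc) := by
  have h2' := h2.symm
  rw [adj_inr (by omega)] at h1 h2'
  have hs : ∀ a : Fin N, a - 1 + 1 = a := fun a => sub_add_cancel a 1
  have hne : i + 1 ≠ i - 1 := by
    intro h
    apply c3_n2 (by omega) (i - 1)
    rw [hs, h]
  rcases h1 with rfl | rfl | ⟨m1, hm1, rfl⟩ | ⟨m1, hm1, rfl⟩ | ⟨h0, rfl⟩
  · rcases h2' with h | h | ⟨m2, hm2, h⟩ | ⟨m2, hm2, h⟩ | ⟨_, h⟩
    · have e := (Prod.mk.inj (Sum.inr.inj h)).1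
      rw [hs] at e
      exact absurd e (c3_n2 (by omega) i)
    · have e := (Prod.mk.inj (Sum.inr.inj h)).1
      exact absurd (show i - 1 - 1 + 1 + 1 + 1 + 1 = i - 1 - 1 by rw [hs, hs]; exact e)
        (c3_n4 h5 (i - 1 - 1))
    · have e := (Prod.mk.inj (Sum.inr.inj h)).1
      exact absurd (show i - 1 + 1 + 1 + 1 = i - 1 by rw [hs]; exact e) (c3_n3 h5 (i - 1))
    · have e := (Prod.mk.inj (Sum.inr.inj h)).1
      exact absurd (show i - 1 + 1 + 1 + 1 = i - 1 by rw [hs]; exact e) (c3_n3 h5 (i - 1))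
    · cases h
  · rw [add_sub_cancel_right]
  · rcases h2' with h | h | ⟨m2, hm2, h⟩ | ⟨m2, hm2, h⟩ | ⟨_, h⟩
    · have e := (Prod.mk.inj (Sum.inr.inj h)).1
      rw [hs] at e
      exact absurd e (c3_n1 (by omega) i)
    · have e := (Prod.mk.inj (Sum.inr.inj h)).1
      exact absurd (show i - 1 - 1 + 1 + 1 + 1 = i - 1 - 1 by rw [hs, hs]; exact e)
        (c3_n3 h5 (i - 1 - 1))
    · exact absurd (Prod.mk.inj (Sum.inr.inj h)).1 hne
    · exact absurd (Prod.mk.inj (Sum.inr.inj h)).1 hne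
    · cases h
  · rcases h2' with h | h | ⟨m2, hm2, h⟩ | ⟨m2, hm2, h⟩ | ⟨_, h⟩
    · have e := (Prod.mk.inj (Sum.inr.inj h)).1
      rw [hs] at e
      exact absurd e (c3_n1 (by omega) i)
    · have e := (Prod.mk.inj (Sum.inr.inj h)).1
      exact absurd (show i - 1 - 1 + 1 + 1 + 1 = i - 1 - 1 by rw [hs, hs]; exact e)
        (c3_n3 h5 (i - 1 - 1))
    · exact absurd (Prod.mk.inj (Sum.inr.inj h)).1 hne
    · exact absurd (Prod.mk.inj (Sum.inr.inj h)).1 hne
    · cases h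
  · rw [← hk] at h0
    exact absurd h0 (Fin.succ_ne_zero k')

/-- Common neighbours of the upper and the right neighbour. -/
theorem common_ur (h5 : 5 ≤ N) (hk : k'.succ = k.castSucc) (i : Fin N) (z : GV N H S)
    (h1 : (GG u H).Adj (Sum.inr (i, k.succ)) z)
    (h2 : (GG u H).Adj z (Sum.inr (i + 1, k.castSucc))) :
    z = Sum.inr (i, k.castSucc) ∨ z = Sum.inr (i + 1, k.succ) := by
  have h2' := h2.symm
  rw [adj_inr (by omega)] at h1 h2'
  have hs : ∀ a : Fin N, a - 1 + 1 = a := fun a => sub_add_cancel a 1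
  rcases h1 with rfl | rfl | ⟨m1, hm1, rfl⟩ | ⟨m1, hm1, rfl⟩ | ⟨h0, rfl⟩
  · exact Or.inr rfl
  · rcases h2' with h | h | ⟨m2, hm2, h⟩ | ⟨m2, hm2, h⟩ | ⟨_, h⟩
    · have f := congrArg Fin.val (Prod.mk.inj (Sum.inr.inj h)).2
      rw [Fin.val_succ, Fin.val_castSucc] at f
      omega
    · have f := congrArg Fin.val (Prod.mk.inj (Sum.inr.inj h)).2
      rw [Fin.val_succ, Fin.val_castSucc] at f
      omega
    · have e := (Prod.mk.inj (Sum.inr.inj h)).1
      exact absurd (show i - 1 + 1 + 1 = i - 1 by rw [hs]; exact e.symm) (c3_n2 (by omega) (i - 1))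
    · have e := (Prod.mk.inj (Sum.inr.inj h)).1
      exact absurd (show i - 1 + 1 + 1 = i - 1 by rw [hs]; exact e.symm) (c3_n2 (by omega) (i - 1))
    · cases h
  · rcases h2' with h | h | ⟨m2, hm2, h⟩ | ⟨m2, hm2, h⟩ | ⟨_, h⟩
    · have f := congrArg Fin.val (Prod.mk.inj (Sum.inr.inj h)).2
      rw [Fin.val_castSucc] at f
      rw [Fin.val_succ] at hm1
      omega
    · have f := congrArg Fin.val (Prod.mk.inj (Sum.inr.inj h)).2
      rw [Fin.val_castSucc] at f
      rw [Fin.val_succ] at hm1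
      omega
    · exact absurd (Prod.mk.inj (Sum.inr.inj h)).1.symm (c3_n1 (by omega) i)
    · exact absurd (Prod.mk.inj (Sum.inr.inj h)).1.symm (c3_n1 (by omega) i)
    · cases h
  · left
    have : m1 = k.castSucc := by
      apply Fin.ext
      rw [Fin.val_succ] at hm1
      rw [Fin.val_castSucc]
      omega
    rw [this]
  · exact absurd h0 (Fin.succ_ne_zero k)

end

end Pool.Agent.NHT.NE
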