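import Pool.Agent.NHT.C1
import Pool.Agent.NHT.C1b
import Pool.Agent.NHT.C3

set_option autoImplicit false

/-!
NHT-C8: turnaround: the two flags of the up dart at level `l` are in the same `R`-class.
-/

namespace Pool.Agent.NHT.NE

open Pool.Agent.HTE

variable {N : ℕ} [NeZero N] {S : Type} {u : Fin N → S} {H : ℕ}

theorem C8_dU_symm_not_hor (l : Fin (H + 1)) (i : Fin N) (m : Fin H) :
    ¬ Hor l (dU u H i m).symm := by
  rintro ⟨i', j', k', _, h1, h2⟩
  change (Sum.inr (i, m.succ) : GV N H S) = Sum.inr (i', k') at h1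
  change (Sum.inr (i, m.castSucc) : GV N H S) = Sum.inr (j', k') at h2
  have g1 := (Prod.mk.inj (Sum.inr.inj h1)).2
  have g2 := (Prod.mk.inj (Sum.inr.inj h2)).2
  exact (Fin.castSucc_lt_succ (i := m)).ne (g2.trans g1.symm)

theorem C8_dU_not_hor (l : Fin (H + 1)) (i : Fin N) (m : Fin H) :
    ¬ Hor l (dU u H i m) := by
  rintro ⟨i', j', k', _, h1, h2⟩
  change (Sum.inr (i, m.castSucc) : GV N H S) = Sum.inr (i', k') at h1
  change (Sum.inr (i, m.succ) : GV N H S) = Sum.inr (j', k') at h2
  have g1 := (Prod.mk.inj (Sum.inr.inj h1)).2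
  have g2 := (Prod.mk.inj (Sum.inr.inj h2)).2
  exact (Fin.castSucc_lt_succ (i := m)).ne (g1.trans g2.symm)

/-- The vertical darts above level `k.castSucc`. -/
theorem C8_vert (h3 : 3 ≤ N) (k : Fin H) (i : Fin N) (a : (GG u H).Dart) (m : Fin (H + 1))
    (hm : k.castSucc < m) (ha : a.fst = Sum.inr (i, m)) (hh : ¬ Hor k.castSucc a) :
    (∃ m' : Fin H, m'.castSucc = m ∧ a = dU u H i m') ∨
      (∃ m' : Fin H, m'.succ = m ∧ a = (dU u H i m').symm) := by
  have hL : a ≠ dL h3 u H i m := by
    rintro rfl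
    exact hh ⟨i, i - 1, m, hm.ne', dL_fst h3 u H i m, rfl⟩
  have hR : a ≠ dR h3 u H i m := by
    rintro rfl
    exact hh ⟨i, i + 1, m, hm.ne', rfl, rfl⟩
  have hD : a = dDn u H i m → ∃ m' : Fin H, m'.succ = m ∧ a = (dU u H i m').symm := by
    intro h
    induction m using Fin.cases with
    | zero => exact absurd hm (Fin.not_lt_zero _)
    | succ m' => exact ⟨m', rfl, h⟩
  rcases Fin.eq_castSucc_or_eq_last m with ⟨m', rfl⟩ | rfl
  · have h1 := (darts_mid h3 u H i m' a).2 ha
    simp only [List.mem_cons, List.not_mem_nil, or_false] at h1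
    rcases h1 with g | g | g | g
    · exact Or.inl ⟨m', rfl, g⟩
    · exact absurd g hL
    · exact Or.inr (hD g)
    · exact absurd g hR
  · have h1 := (darts_top h3 u H i a).2 ha
    simp only [List.mem_cons, List.not_mem_nil, or_false] at h1
    rcases h1 with g | g | g
    · exact absurd g hL
    · exact Or.inr (hD g)
    · exact absurd g hR

/-- `l = k.castSucc`. Let `K = {y | (lab y).fst = (i, m) with m > l, cls y = cls d}`. `K` is closed under `t1`, and under `t2` for
horizontal labels (they are `Hor l` since `m ≠ l`). So `K.ncard` is even and the number of horizontal flags in `K` is even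
(`even_invol`); hence the number of vertical flags in `K` is even. A vertical flag of `K` whose label is not `(dU i k).symm` has the
label `dU i m` or `(dU i m).symm` with `m > k`, and `t0` maps it to a flag of the same kind in `K` (`cls_t0`), so their number is
even (`even_invol` for `t0`). Hence the number of flags of `K` with the label `(dU i k).symm` is even. `t0 d` is one of them;
by `eq_or_t2` the only other candidate is `t2 (t0 d)`. So `cls (t2 (t0 d)) = cls d`, and `t2 (t0 d) = t0 (t2 d)`. -/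
theorem turn (h3 : 3 ≤ N) (M : Drawing (GG u H)) (hM : M.IsEmbedding) (k : Fin H) (i : Fin N)
    (d : M.D) (hd : M.lab d = dU u H i k) :
    cls M k.castSucc (M.t2 d) = cls M k.castSucc d := by
  classical
  have : Finite M.D := @Finite.of_fintype _ M.fin
  let l : Fin (H + 1) := k.castSucc
  let P : M.D → Prop := fun y => (∃ m, k.castSucc < m ∧ (M.lab y).fst = Sum.inr (i, m)) ∧
    cls M k.castSucc y = cls M k.castSucc d
  let K : Set M.D := {y | P y}
  let Kh : Set M.D := {y | P y ∧ Hor k.castSucc (M.lab y)}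
  let A : Set M.D := {y | P y ∧ ¬ Hor k.castSucc (M.lab y) ∧ M.lab y = (dU u H i k).symm}
  let B : Set M.D := {y | P y ∧ ¬ Hor k.castSucc (M.lab y) ∧ M.lab y ≠ (dU u H i k).symm}
  have hK1 : Even K.ncard := by
    apply even_invol M.t1 K
    · rintro y ⟨⟨m, hm, hy1⟩, hy2⟩
      exact ⟨⟨m, hm, (fst_t1 hM y).trans hy1⟩, (cls_t1 M _ y).trans hy2⟩
    · intro y _
      exact M.t1_t1 y
    · intro y _
      exact M.t1_ne y
  have hK2 : Even Kh.ncard := by
    apply even_invol M.t2 Kh
    · rintro y ⟨⟨⟨m, hm, hy1⟩, hy2⟩, hy3⟩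
      refine ⟨⟨⟨m, hm, ?_⟩, (cls_t2 M _ y hy3).trans hy2⟩, ?_⟩
      · rw [M.lab_t2]; exact hy1
      · rw [M.lab_t2]; exact hy3
    · intro y _
      exact M.t2_t2 y
    · intro y _
      exact M.t2_ne y
  have hB : Even B.ncard := by
    apply even_invol M.t0 B
    · rintro y ⟨⟨⟨m, hm, hy1⟩, hy2⟩, hy3, hy4⟩
      rcases C8_vert h3 k i (M.lab y) m hm hy1 hy3 with ⟨m', hm', g⟩ | ⟨m', hm', g⟩
      · have hl0 : M.lab (M.t0 y) = (dU u H i m').symm := by rw [M.lab_t0, g]
        refine ⟨⟨⟨m'.succ, ?_, ?_⟩, (cls_t0 M _ y).trans hy2⟩, ?_, ?_⟩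
        · rw [← hm'] at hm
          exact hm.trans (Fin.castSucc_lt_succ (i := m'))
        · rw [hl0]; rfl
        · rw [hl0]; exact C8_dU_symm_not_hor _ i m'
        · rw [hl0]
          intro h
          have h1 := congrArg (fun a : (GG u H).Dart => a.snd) h
          change (Sum.inr (i, m'.castSucc) : GV N H S) = Sum.inr (i, k.castSucc) at h1
          have h2 := (Prod.mk.inj (Sum.inr.inj h1)).2
          rw [← hm', h2] at hm
          exact absurd hm (lt_irrefl _)
      · have hl0 : M.lab (M.t0 y) = dU u H i m' := by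
          rw [M.lab_t0, g]
          rfl
        have hkm : k.castSucc < m'.castSucc := by
          rw [← hm'] at hm
          have h1 : k.val < m'.val + 1 := by
            have := Fin.lt_def.1 hm
            simpa using this
          have h2 : k ≠ m' := by
            rintro rfl
            exact hy4 g
          have h3' : k.val ≠ m'.val := fun h => h2 (Fin.ext h)
          rw [Fin.lt_def]
          change k.val < m'.val
          omega
        refine ⟨⟨⟨m'.castSucc, hkm, ?_⟩, (cls_t0 M _ y).trans hy2⟩, ?_, ?_⟩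
        · rw [hl0]; rfl
        · rw [hl0]; exact C8_dU_not_hor _ i m'
        · rw [hl0]
          intro h
          have h1 := congrArg (fun a : (GG u H).Dart => a.snd) h
          change (Sum.inr (i, m'.succ) : GV N H S) = Sum.inr (i, k.castSucc) at h1
          have h2 := (Prod.mk.inj (Sum.inr.inj h1)).2
          have h4 := hkm.trans (Fin.castSucc_lt_succ (i := m'))
          rw [h2] at h4
          exact absurd h4 (lt_irrefl _)
    · intro y _
      exact M.t0_t0 y
    · intro y _
      exact M.t0_ne y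
  have hsum : K.ncard = Kh.ncard + (A.ncard + B.ncard) := by
    rw [← Set.ncard_union_eq (s := A) (t := B) ?_ (Set.toFinite _) (Set.toFinite _),
      ← Set.ncard_union_eq ?_ (Set.toFinite _) (Set.toFinite _)]
    · congr 1
      ext y
      change P y ↔ (P y ∧ Hor k.castSucc (M.lab y)) ∨
        ((P y ∧ ¬ Hor k.castSucc (M.lab y) ∧ M.lab y = (dU u H i k).symm) ∨
        (P y ∧ ¬ Hor k.castSucc (M.lab y) ∧ M.lab y ≠ (dU u H i k).symm))
      constructor
      · intro hy
        by_cases p1 : Hor k.castSucc (M.lab y)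
        · exact Or.inl ⟨hy, p1⟩
        · by_cases p2 : M.lab y = (dU u H i k).symm
          · exact Or.inr (Or.inl ⟨hy, p1, p2⟩)
          · exact Or.inr (Or.inr ⟨hy, p1, p2⟩)
      · rintro (h | h | h)
        · exact h.1
        · exact h.1
        · exact h.1
    · rw [Set.disjoint_left]
      rintro y ⟨_, hy⟩ (⟨_, hy', _⟩ | ⟨_, hy', _⟩)
      · exact hy' hy
      · exact hy' hy
    · rw [Set.disjoint_left]
      rintro y ⟨_, _, hy⟩ ⟨_, _, hy'⟩
      exact hy' hy
  have hA : Even A.ncard := by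
    rcases hK1 with ⟨r1, hr1⟩
    rcases hK2 with ⟨r2, hr2⟩
    rcases hB with ⟨r3, hr3⟩
    rw [Nat.even_iff]
    omega
  have hl0 : M.lab (M.t0 d) = (dU u H i k).symm := by rw [M.lab_t0, hd]
  have hdA : M.t0 d ∈ A := by
    refine ⟨⟨⟨k.succ, Fin.castSucc_lt_succ (i := k), ?_⟩, cls_t0 M _ d⟩, ?_, hl0⟩
    · rw [hl0]; rfl
    · rw [hl0]; exact C8_dU_symm_not_hor _ i k
  have hpos : 0 < A.ncard := (Set.ncard_pos (Set.toFinite _)).2 ⟨_, hdA⟩
  have h1 : 1 < A.ncard := by
    rcases hA with ⟨r, hr⟩
    omega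
  obtain ⟨z, hz, hzy⟩ := Set.exists_ne_of_one_lt_ncard h1 (M.t0 d)
  rcases eq_or_t2 hM (hl0.trans hz.2.2.symm) with h | h
  · exact absurd h hzy
  · have h4 : cls M k.castSucc (M.t2 (M.t0 d)) = cls M k.castSucc d := by
      rw [← h]
      exact hz.1.2
    rw [← M.t0_t2, cls_t0] at h4
    exact h4

end Pool.Agent.NHT.NE
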