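import Pool.Agent.NHT.C7
import Pool.Agent.NHT.C8

set_option autoImplicit false

/-!
NHT-C9: moving along the columns; every class meets level `l`.
-/

namespace Pool.Agent.NHT.NE

open Pool.Agent.HTE

variable {N : ℕ} [NeZero N] {S : Type} {u : Fin N → S} {H : ℕ}

/-- For `m ≤ l` and a flag `d` with label `dDn i m` there is an equivalent flag with label `(dLeg i).symm`: induction on
`m`. `m = 0`: `t0 d`. `m = m'.succ`: `t0 d` has the label `dU i m'` and lies at `(i, m'.castSucc)`, `m'.castSucc < l`: `to_dn`. -/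
theorem down_to_star (h3 : 3 ≤ N) (M : Drawing (GG u H)) (hM : M.IsEmbedding)
    (l m : Fin (H + 1)) (hm : m ≤ l) (i : Fin N) (d : M.D) (hd : M.lab d = dDn u H i m) :
    ∃ e, M.lab e = (dLeg u H i).symm ∧ cls M l e = cls M l d := by
  revert hm d
  refine Fin.induction ?_ (fun m' ih => ?_) m
  · intro _ d hd
    refine ⟨M.t0 d, ?_, cls_t0 M l d⟩
    rw [M.lab_t0, hd]
    rfl
  · intro hm d hd
    have hlt : m'.castSucc < l := lt_of_lt_of_le Fin.castSucc_lt_succ hm
    have h1 : M.lab (M.t0 d) = dU u H i m' := by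
      rw [M.lab_t0, hd]
      exact SimpleGraph.Dart.symm_symm _
    obtain ⟨e', he', hc'⟩ := to_dn h3 M hM l m'.castSucc hlt.ne i (M.t0 d) (by rw [h1]; rfl)
    obtain ⟨e, he, hc⟩ := ih hlt.le e' he'
    exact ⟨e, he, hc.trans (hc'.trans (cls_t0 M l d))⟩

/-- For `m ≤ l` a flag `d` with label `(dLeg i).symm` is equivalent to a flag with label `dDn i m`: induction on `m`.
`m = 0`: `t0 d`. From `dDn i m'.castSucc`, `m'.castSucc < l`: `to_up` gives a flag with label `dU i m'`, its `t0` has the label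
`(dU i m').symm = dDn i m'.succ`. -/
theorem star_to_level (h3 : 3 ≤ N) (M : Drawing (GG u H)) (hM : M.IsEmbedding)
    (l m : Fin (H + 1)) (hm : m ≤ l) (i : Fin N) (d : M.D)
    (hd : M.lab d = (dLeg u H i).symm) :
    ∃ e, M.lab e = dDn u H i m ∧ cls M l e = cls M l d := by
  revert hm
  refine Fin.induction ?_ (fun m' ih => ?_) m
  · intro _
    refine ⟨M.t0 d, ?_, cls_t0 M l d⟩
    rw [M.lab_t0, hd]
    exact SimpleGraph.Dart.symm_symm _
  · intro hm
    have hlt : m'.castSucc < l := lt_of_lt_of_le Fin.castSucc_lt_succ hm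
    obtain ⟨e', he', hc'⟩ := ih hlt.le
    obtain ⟨e, he, hc⟩ := to_up h3 M hM l m' hlt.ne i e' (by rw [he', dDn_fst])
    refine ⟨M.t0 e, ?_, (cls_t0 M l e).trans (hc.trans hc')⟩
    rw [M.lab_t0, he]
    rfl

/-- Every flag is equivalent to a flag at level `l`. A flag at a star: `star_to_level`. A flag at `(i, k)`, `k < l`: go up
(`to_up`, `t0`), induction on `l - k`; `k > l`: go down (`to_dn`, `t0`), induction on `k - l`. -/
theorem to_level (h3 : 3 ≤ N) (M : Drawing (GG u H)) (hM : M.IsEmbedding) (l : Fin (H + 1))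
    (d : M.D) : ∃ e i, (M.lab e).fst = Sum.inr (i, l) ∧ cls M l e = cls M l d := by
  have up : ∀ n : ℕ, ∀ (d : M.D) (i : Fin N) (k : Fin (H + 1)), k.val + n = l.val →
      (M.lab d).fst = Sum.inr (i, k) →
      ∃ e i, (M.lab e).fst = Sum.inr (i, l) ∧ cls M l e = cls M l d := by
    intro n
    induction n with
    | zero =>
      intro d i k hk hd
      have : k = l := Fin.ext (by omega)
      subst this
      exact ⟨d, i, hd, rfl⟩
    | succ n ih =>
      intro d i k hk hd
      have hkH : k.val < H := by have := l.isLt; omega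
      obtain ⟨k0, rfl⟩ : ∃ k0 : Fin H, k = k0.castSucc := ⟨⟨k.val, hkH⟩, rfl⟩
      have hne : k0.castSucc ≠ l := fun h => by
        have := congrArg Fin.val h
        omega
      obtain ⟨e, he, hc⟩ := to_up h3 M hM l k0 hne i d hd
      obtain ⟨e', i', h1, h2⟩ := ih (M.t0 e) i k0.succ
        (by simp only [Fin.val_succ, Fin.val_castSucc] at hk ⊢; omega)
        (by rw [M.lab_t0, he]; rfl)
      exact ⟨e', i', h1, h2.trans ((cls_t0 M l e).trans hc)⟩
  have dn : ∀ n : ℕ, ∀ (d : M.D) (i : Fin N) (k : Fin (H + 1)), k.val = l.val + n →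
      (M.lab d).fst = Sum.inr (i, k) →
      ∃ e i, (M.lab e).fst = Sum.inr (i, l) ∧ cls M l e = cls M l d := by
    intro n
    induction n with
    | zero =>
      intro d i k hk hd
      have : k = l := Fin.ext (by omega)
      subst this
      exact ⟨d, i, hd, rfl⟩
    | succ n ih =>
      intro d i k hk hd
      have hk0 : k ≠ 0 := fun h => by
        rw [h] at hk
        simp at hk
      obtain ⟨k0, rfl⟩ := Fin.exists_succ_eq.2 hk0
      have hne : k0.succ ≠ l := fun h => by
        have := congrArg Fin.val h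
        omega
      obtain ⟨e, he, hc⟩ := to_dn h3 M hM l k0.succ hne i d hd
      obtain ⟨e', i', h1, h2⟩ := ih (M.t0 e) i k0.castSucc
        (by simp only [Fin.val_succ, Fin.val_castSucc] at hk ⊢; omega)
        (by rw [M.lab_t0, he]; rfl)
      exact ⟨e', i', h1, h2.trans ((cls_t0 M l e).trans hc)⟩
  rcases hv : (M.lab d).fst with s | ⟨i, k⟩
  · have h1 := (M.lab d).adj
    rw [hv] at h1
    obtain ⟨i, hi, h2⟩ := (adj_inl s _).1 h1
    have h4 : M.lab d = (dLeg u H i).symm := by
      refine SimpleGraph.Dart.ext _ _ (Prod.ext ?_ ?_)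
      · rw [hv, ← hi]
        rfl
      · exact h2
    obtain ⟨e, he, hc⟩ := star_to_level h3 M hM l l le_rfl i d h4
    exact ⟨e, i, by rw [he, dDn_fst], hc⟩
  · rcases le_total k.val l.val with h | h
    · obtain ⟨n, hn⟩ := Nat.exists_eq_add_of_le h
      exact up n d i k hn.symm hv
    · obtain ⟨n, hn⟩ := Nat.exists_eq_add_of_le h
      exact dn n d i k hn hv

end Pool.Agent.NHT.NE
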