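import Pool.Agent.NHT.C5
import Pool.Agent.NHT.C9

set_option autoImplicit false

/-!
NHT-C10: the classes around a flat level.
-/

namespace Pool.Agent.NHT.NE

open Pool.Agent.HTE

variable {N : ℕ} [NeZero N] {S : Type} {u : Fin N → S} {H : ℕ}

section

variable {h3 : 3 ≤ N} {M : Drawing (GG u H)} {k' k : Fin H}

/-- All upper flags are equivalent: `U i ~ t1 (U i) = Rt i ~ t0 (Rt i) = Lf (i + 1) ~ t1 (Lf (i + 1)) = t2 (U (i + 1)) ~ U (i + 1)` (`turn`);
induction along the ring (`Fin N`: from `0`). -/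
theorem upper (hM : M.IsEmbedding) (F : Flat h3 M k' k) (i j : Fin N) :
    cls M k.castSucc (F.U i) = cls M k.castSucc (F.U j) := by
  have step : ∀ i : Fin N, cls M k.castSucc (F.U (i + 1)) = cls M k.castSucc (F.U i) := by
    intro i
    rw [← turn h3 M hM k (i + 1) (F.U (i + 1)) (F.lab_U (i + 1)), ← F.t1_Lf, cls_t1, ← F.t0_Rt,
      cls_t0, ← F.t1_U, cls_t1]
  have all : ∀ n : ℕ, ∀ h : n < N, cls M k.castSucc (F.U ⟨n, h⟩) = cls M k.castSucc (F.U 0) := by
    intro n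
    induction n with
    | zero => intro h; rfl
    | succ n ih =>
      intro h
      have e : (⟨n + 1, h⟩ : Fin N) = ⟨n, Nat.lt_of_succ_lt h⟩ + 1 := by
        apply Fin.ext
        rw [Fin.val_add, Fin.val_one', Nat.add_mod_mod, Nat.mod_eq_of_lt h]
      rw [e, step, ih]
  rw [all i.val i.isLt, all j.val j.isLt]

/-- `Dn i = t1 (t2 (Rt i))`, `t0 (t2 (Rt i)) = t2 (t0 (Rt i)) = t2 (Lf (i + 1)) = t1 (t2 (Dn (i + 1)))`. -/
theorem lower (hM : M.IsEmbedding) (F : Flat h3 M k' k) (i : Fin N) :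
    cls M k.castSucc (M.t2 (F.Dn (i + 1))) = cls M k.castSucc (F.Dn i) := by
  rw [← F.t1_Rt i, cls_t1, ← cls_t0 M k.castSucc (M.t2 (F.Rt i)), M.t0_t2, F.t0_Rt, ← F.t1_Dn,
    cls_t1]

/-- Every flag `d` is equivalent to `U 0` or to some `Dn i`: `to_level`, the flags at `(i, l)` are `U i, t2 (U i)`, `Rt i`, `t2 (Rt i)`,
`Dn i`, `t2 (Dn i)`, `Lf i`, `t2 (Lf i)` (`lab_cases`, `eq_or_t2`); use `upper`, `lower`, `turn`, `cls_t1`. -/
theorem flag_cases (hM : M.IsEmbedding) (hk : k'.succ = k.castSucc) (F : Flat h3 M k' k)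
    (d : M.D) : cls M k.castSucc d = cls M k.castSucc (F.U 0) ∨
      ∃ i, cls M k.castSucc d = cls M k.castSucc (F.Dn i) := by
  have low : ∀ i : Fin N, cls M k.castSucc (M.t2 (F.Dn i)) =
      cls M k.castSucc (F.Dn (i - 1)) := by
    intro i
    have h := lower hM F (i - 1)
    rwa [sub_add_cancel] at h
  have tU : ∀ i : Fin N, cls M k.castSucc (M.t2 (F.U i)) = cls M k.castSucc (F.U 0) := by
    intro i
    rw [turn h3 M hM k i (F.U i) (F.lab_U i), upper hM F i 0]
  obtain ⟨e, i, he, hc⟩ := to_level h3 M hM k.castSucc d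
  rw [← hc]
  rcases lab_cases h3 M hk i e he with h | h | h | h
  · left
    rcases eq_or_t2 hM (d := F.U i) (e := e) (by rw [F.lab_U, h]) with h1 | h1
    · rw [h1, upper hM F i 0]
    · rw [h1, tU]
  · rcases eq_or_t2 hM (d := F.Lf i) (e := e) (by rw [F.lab_Lf, h]) with h1 | h1
    · left
      rw [h1, ← cls_t1, F.t1_Lf, tU]
    · right
      exact ⟨i - 1, by rw [h1, ← F.t1_Dn, cls_t1, low]⟩
  · right
    rcases eq_or_t2 hM (d := F.Dn i) (e := e) (by rw [F.lab_Dn, h]) with h1 | h1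
    · exact ⟨i, by rw [h1]⟩
    · exact ⟨i - 1, by rw [h1, low]⟩
  · rcases eq_or_t2 hM (d := F.Rt i) (e := e) (by rw [F.lab_Rt, h]) with h1 | h1
    · left
      rw [h1, ← F.t1_U, cls_t1, upper hM F i 0]
    · right
      exact ⟨i, by rw [h1, ← F.t1_Rt, cls_t1]⟩

theorem card_classes (hM : M.IsEmbedding) (hk : k'.succ = k.castSucc) (F : Flat h3 M k' k) :
    Nat.card (Quot (relR M k.castSucc)) ≤
      (Set.range (fun i => cls M k.castSucc (F.Dn i))).ncard + 1 := by
  have hfin : Finite M.D := @Finite.of_fintype _ M.fin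
  have hsub : (Set.univ : Set (Quot (relR M k.castSucc))) ⊆
      insert (cls M k.castSucc (F.U 0)) (Set.range (fun i => cls M k.castSucc (F.Dn i))) := by
    rintro ⟨d⟩ -
    rcases flag_cases hM hk F d with h | ⟨i, h⟩
    · exact Set.mem_insert_iff.2 (Or.inl h)
    · exact Set.mem_insert_iff.2 (Or.inr ⟨i, h.symm⟩)
  rw [← Set.ncard_univ]
  exact (Set.ncard_le_ncard hsub (Set.toFinite _)).trans (Set.ncard_insert_le _ _)

end

end Pool.Agent.NHT.NE
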