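import Pool.Agent.NHT.C10

set_option autoImplicit false

/-!
NHT-C10b: condition EC.
-/

namespace Pool.Agent.NHT.NE

open Pool.Agent.HTE

variable {N : ℕ} [NeZero N] {S : Type} {u : Fin N → S} {H : ℕ}

variable {h3 : 3 ≤ N} {M : Drawing (GG u H)} {k' k : Fin H}

private theorem c10b_key (hk : k'.succ = k.castSucc) (i : Fin N) :
    dDn u H i k.castSucc = (dU u H i k').symm := by
  rw [← hk]
  rfl

private theorem c10b_gen (h5 : 5 ≤ N) (htwo : ∀ i, ∃ j, j ≠ i ∧ u j = u i) (hM : M.IsEmbedding)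
    (hk : k'.succ = k.castSucc) (F : Flat h3 M k' k) (i : Fin N) (d : M.D)
    (hd : M.lab d = dDn u H i k.castSucc) :
    ∃ j, j ≠ i ∧ u j = u i ∧ (cls M k.castSucc (F.Dn j) = cls M k.castSucc d ∨
      cls M k.castSucc (F.Dn (j - 1)) = cls M k.castSucc d) := by
  obtain ⟨e, he, hce⟩ := down_to_star h3 M hM k.castSucc k.castSucc le_rfl i d hd
  have h1 : (M.lab (M.t1 e)).fst = Sum.inl (u i) := by
    rw [fst_t1 hM e, he]
    rfl
  have h2 : M.lab (M.t1 e) ≠ M.lab e := lab_t1_ne hM e (deg h5 htwo _)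
  have h4 : (GG u H).Adj (Sum.inl (u i)) (M.lab (M.t1 e)).snd := by
    rw [← h1]
    exact (M.lab (M.t1 e)).adj
  obtain ⟨j, hj, hz⟩ := (adj_inl (u i) _).1 h4
  have h5' : M.lab (M.t1 e) = (dLeg u H j).symm := by
    apply SimpleGraph.Dart.ext
    apply Prod.ext
    · show (M.lab (M.t1 e)).fst = _
      rw [h1, ← hj]
      rfl
    · show (M.lab (M.t1 e)).snd = _
      rw [hz]
      rfl
  have hji : j ≠ i := by
    rintro rfl
    exact h2 (by rw [h5', he])
  obtain ⟨e2, he2, hce2⟩ := star_to_level h3 M hM k.castSucc k.castSucc le_rfl j _ h5'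
  have hcls : cls M k.castSucc e2 = cls M k.castSucc d := by
    rw [hce2, cls_t1, hce]
  refine ⟨j, hji, hj, ?_⟩
  have h6 : M.lab (F.Dn j) = M.lab e2 := by
    rw [he2, F.lab_Dn, c10b_key hk]
  rcases eq_or_t2 hM h6 with h7 | h7
  · left
    rw [← hcls, h7]
  · right
    have h8 := lower hM F (j - 1)
    rw [sub_add_cancel] at h8
    rw [← hcls, h7, h8]

/-- Condition EC. Write `w i = cls (Dn i)`; `w i = cls (t2 (Dn (i + 1)))` (`lower`). A flag with label `(dU i k').symm = dDn i l`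
(`l = k'.succ = k.castSucc`) is `Dn i` or `t2 (Dn i)`, so its class is `w i` or `w (i - 1)`. From `Dn i` go down to the star `u i`
(`down_to_star`): `e` with label `(dLeg i).symm`. `t1 e` has the same class, its label starts at the star `u i` and is not `(dLeg i).symm`
(`lab_t1_ne`, `deg`): `adj_inl` gives `lab (t1 e) = (dLeg j).symm`, `u j = u i`, `j ≠ i`. `star_to_level` with `m = l`: the class is `w j` or
`w (j - 1)`. For the second part start with `t2 (Dn (i + 1))`. -/
theorem ec (h5 : 5 ≤ N) (htwo : ∀ i, ∃ j, j ≠ i ∧ u j = u i) (hM : M.IsEmbedding)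
    (hk : k'.succ = k.castSucc) (F : Flat h3 M k' k) :
    EC u (fun i => cls M k.castSucc (F.Dn i)) := by
  intro i
  constructor
  · exact c10b_gen h5 htwo hM hk F i (F.Dn i) (by rw [F.lab_Dn, c10b_key hk])
  · obtain ⟨j, h1, h2, h4⟩ := c10b_gen h5 htwo hM hk F (i + 1) (M.t2 (F.Dn (i + 1)))
      (by rw [M.lab_t2, F.lab_Dn, c10b_key hk])
    rw [lower hM F i] at h4
    exact ⟨j, h1, h2, h4⟩

end Pool.Agent.NHT.NE
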