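import Pool.Agent.NHT.C3

set_option autoImplicit false

/-!
NHT-C11: `GG(u, H)` is connected.
-/

namespace Pool.Agent.NHT

/-- Every vertex is connected to `(0, 0)`: along the column to level `0`, along the ring of level `0`; a star to
one of its legs. -/
theorem GG_connected {N : ℕ} [NeZero N] {S : Type} (hN : 3 ≤ N)
    (u : Fin N → S) (hsurj : Function.Surjective u) (H : ℕ) : (GG u H).Connected := by
  have col : ∀ (i : Fin N) (l : Fin (H + 1)),
      (GG u H).Reachable (Sum.inr (i, 0)) (Sum.inr (i, l)) := by
    intro i l
    induction l using Fin.induction with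
    | zero => exact SimpleGraph.Reachable.refl _
    | succ k ih => exact ih.trans (adj_up u H i k).reachable
  have ring : ∀ n : ℕ,
      (GG u H).Reachable (Sum.inr (0, 0)) (Sum.inr (Fin.ofNat N n, 0)) := by
    intro n
    induction n with
    | zero =>
      have e : Fin.ofNat N 0 = 0 := by ext; simp
      rw [e]
    | succ n ih =>
      have h := (adj_ring hN u H (Fin.ofNat N n) 0).reachable
      have e : Fin.ofNat N (n + 1) = Fin.ofNat N n + 1 := by
        ext
        simp [Fin.val_add, Fin.val_one']
      rw [e]
      exact ih.trans h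
  have all : ∀ v, (GG u H).Reachable (Sum.inr (0, 0)) v := by
    have h1 : ∀ i : Fin N, (GG u H).Reachable (Sum.inr (0, 0)) (Sum.inr (i, 0)) := by
      intro i
      have h := ring i.val
      have e : Fin.ofNat N i.val = i := by
        ext
        simp [Nat.mod_eq_of_lt i.isLt]
      rwa [e] at h
    rintro (s | ⟨i, l⟩)
    · obtain ⟨i, rfl⟩ := hsurj s
      exact (h1 i).trans (adj_leg u H i).reachable
    · exact (h1 i).trans (col i l)
  haveI : Nonempty (GV N H S) := ⟨Sum.inr (0, 0)⟩
  exact SimpleGraph.Connected.mk (fun a b => (all a).symm.trans (all b))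

end Pool.Agent.NHT
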