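import Pool.Agent.NHT.C0
import Pool.Agent.NHT.C1

set_option autoImplicit false

/-!
NHT-C2: lengths of faces in an embedding of a triangle-free graph of minimum degree at least two.
-/

namespace Pool.Agent.NHT.NE

open Pool.Agent.HTE

section

variable (M : GMap)

theorem rho_t0 (d : M.D) : rho M (M.t0 (rho M d)) = M.t0 d := by
  unfold rho
  rw [M.t0_t0, M.t1_t1]

private theorem c2_inj : Function.Injective (rho M) := by
  intro a b h
  have h1 : M.t1 (M.t0 a) = M.t1 (M.t0 b) := h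
  have h2 : M.t0 a = M.t0 b := by
    rw [← M.t1_t1 (M.t0 a), h1, M.t1_t1]
  rw [← M.t0_t0 a, h2, M.t0_t0]

/-- Induction on `k` (`k → k - 2`): `ρ^0 d = t0 d` contradicts `t0_ne`; `ρ d = t1 (t0 d) = t0 d` contradicts `t1_ne`;
if `ρ^(k+2) d = t0 d` then `ρ^k (ρ d) = t0 (ρ d)`, because `ρ (t0 (ρ d)) = t0 d` (`rho_t0`), and `ρ` is injective. -/
theorem rho_iter_ne_t0 (k : ℕ) (d : M.D) : (rho M)^[k] d ≠ M.t0 d := by
  induction k using Nat.twoStepInduction generalizing d with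
  | zero => exact (M.t0_ne d).symm
  | one => exact M.t1_ne (M.t0 d)
  | more k ih _ =>
    intro h
    rw [Function.iterate_succ_apply, Function.iterate_succ_apply', ← rho_t0 M d] at h
    exact ih (rho M d) (c2_inj M h)

theorem rho_injective : Function.Injective (rho M) := c2_inj M

/-- `t0 ∘ ρ^i = (ρ⁻¹)^i ∘ t0`. -/
theorem gd_t0 (d : M.D) (h : Gd M d) : Gd M (M.t0 d) := by
  unfold Gd at h ⊢
  have h1 := rho_t0 M d
  have h2 := rho_t0 M (rho M d)
  have h3 := rho_t0 M (rho M (rho M d))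
  have h4 := rho_t0 M (rho M (rho M (rho M d)))
  rw [h] at h4
  rw [h4, h3, h2, h1]

theorem gd_t1 (d : M.D) (h : Gd M d) : Gd M (M.t1 d) := by
  have h1 := gd_t0 M d h
  have h2 : rho M (M.t0 d) = M.t1 d := by
    unfold rho
    rw [M.t0_t0]
  unfold Gd at h1 ⊢
  rw [← h2, h1]

end

variable {V : Type} {G : SimpleGraph V} {M : Drawing G}

theorem lab_rho (hM : M.IsEmbedding) (d : M.D) :
    (M.lab (rho M.toGMap d)).fst = (M.lab d).snd := by
  have h1 := fst_t1 hM (M.t0 d)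
  rw [M.lab_t0] at h1
  exact h1

theorem lab_rho_ne (hM : M.IsEmbedding) (hdeg : ∀ a : G.Dart, ∃ b : G.Dart, b.fst = a.fst ∧ b ≠ a)
    (d : M.D) : (M.lab (rho M.toGMap d)).snd ≠ (M.lab d).fst := by
  intro h
  have h1 := lab_t1_ne hM (M.t0 d) (hdeg _)
  apply h1
  have h2 := lab_rho hM d
  have h3 : M.lab (M.t1 (M.t0 d)) = M.lab (rho M.toGMap d) := rfl
  rw [h3, M.lab_t0]
  ext
  · exact h2
  · exact h

/-- `ρ^k d ≠ d` for `k = 1, 2, 3`: the face would be a closed walk of length `1` (a loop), `2` (`lab_rho_ne`) or `3`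
(a triangle). -/
theorem rho_iter_ne (hM : M.IsEmbedding)
    (hdeg : ∀ a : G.Dart, ∃ b : G.Dart, b.fst = a.fst ∧ b ≠ a)
    (htri : ∀ x y z, G.Adj x y → G.Adj y z → G.Adj z x → False) (k : ℕ) (hk : 1 ≤ k) (hk' : k ≤ 3)
    (d : M.D) : (rho M.toGMap)^[k] d ≠ d := by
  intro h
  have e1 := lab_rho hM d
  have e2 := lab_rho hM (rho M.toGMap d)
  have e3 := lab_rho hM (rho M.toGMap (rho M.toGMap d))
  have hc : k = 1 ∨ k = 2 ∨ k = 3 := by omega
  rcases hc with rfl | rfl | rfl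
  · have h' : rho M.toGMap d = d := h
    rw [h'] at e1
    have := (M.lab d).adj
    rw [← e1] at this
    exact (G.irrefl this)
  · have h' : rho M.toGMap (rho M.toGMap d) = d := h
    rw [h'] at e2
    exact lab_rho_ne hM hdeg d e2.symm
  · have h' : rho M.toGMap (rho M.toGMap (rho M.toGMap d)) = d := h
    rw [h'] at e3
    have a1 := (M.lab d).adj
    have a2 := (M.lab (rho M.toGMap d)).adj
    have a3 := (M.lab (rho M.toGMap (rho M.toGMap d))).adj
    rw [e1] at a2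
    rw [e2, ← e3] at a3
    exact htri _ _ _ a1 a2 a3

/-- A good flag `d` at the vertex `v`: the ends of `lab d` and of `lab (t1 d)` have a common neighbour different from
`v`, namely the end `z` of `lab (ρ d)`. (`ρ^4 d = d` gives `t0 (ρ^3 d) = t1 d`, so `lab (t1 d) = (lab (ρ^3 d)).symm`, and
`lab (ρ^2 d)` goes from `z` to the start of `lab (ρ^3 d)`, which is the end of `lab (t1 d)`.) -/
theorem common_nbr (hM : M.IsEmbedding)
    (hdeg : ∀ a : G.Dart, ∃ b : G.Dart, b.fst = a.fst ∧ b ≠ a) (d : M.D)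
    (hg : Gd M.toGMap d) :
    (M.lab (rho M.toGMap d)).snd ≠ (M.lab d).fst ∧
      G.Adj (M.lab d).snd (M.lab (rho M.toGMap d)).snd ∧
      G.Adj (M.lab (rho M.toGMap d)).snd (M.lab (M.t1 d)).snd := by
  have e1 := lab_rho hM d
  have e2 := lab_rho hM (rho M.toGMap d)
  have e3 := lab_rho hM (rho M.toGMap (rho M.toGMap d))
  refine ⟨lab_rho_ne hM hdeg d, ?_, ?_⟩
  · have a2 := (M.lab (rho M.toGMap d)).adj
    rwa [e1] at a2
  · have a3 := (M.lab (rho M.toGMap (rho M.toGMap d))).adj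
    have h1 : M.t1 (M.t0 (rho M.toGMap (rho M.toGMap (rho M.toGMap d)))) = d := hg
    have h2 : M.t0 (rho M.toGMap (rho M.toGMap (rho M.toGMap d))) = M.t1 d := by
      rw [← M.t1_t1 (M.t0 (rho M.toGMap (rho M.toGMap (rho M.toGMap d)))), h1]
    have h3 : (M.lab (M.t1 d)).snd = (M.lab (rho M.toGMap (rho M.toGMap (rho M.toGMap d)))).fst := by
      rw [← h2, M.lab_t0]
      rfl
    rw [h3, e3]
    rwa [e2] at a3

end Pool.Agent.NHT.NE
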