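import Pool.Agent.NHT.C2

set_option autoImplicit false

/-!
NHT-C2b: the weights of the faces.
-/

namespace Pool.Agent.NHT.NE

open Pool.Agent.HTE

variable {V : Type} {G : SimpleGraph V} {M : Drawing G}

private theorem c2b_t0 (M : GMap) (d : M.D) :
    (Quot.mk (fun d e : M.D => e = M.t0 d ∨ e = M.t1 d) (M.t0 d) : Quot _) = Quot.mk _ d :=
  (Quot.sound (r := fun d e : M.D => e = M.t0 d ∨ e = M.t1 d) (a := d) (b := M.t0 d)
    (Or.inl rfl)).symm

private theorem c2b_t1 (M : GMap) (d : M.D) :
    (Quot.mk (fun d e : M.D => e = M.t0 d ∨ e = M.t1 d) (M.t1 d) : Quot _) = Quot.mk _ d :=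
  (Quot.sound (r := fun d e : M.D => e = M.t0 d ∨ e = M.t1 d) (a := d) (b := M.t1 d)
    (Or.inr rfl)).symm

private theorem c2b_rho (M : GMap) (d : M.D) (k : ℕ) :
    (Quot.mk (fun d e : M.D => e = M.t0 d ∨ e = M.t1 d) ((rho M)^[k] d) : Quot _) =
      Quot.mk _ d := by
  induction k with
  | zero => rfl
  | succ k ih =>
    rw [Function.iterate_succ_apply']
    unfold rho at ih ⊢
    rw [c2b_t1, c2b_t0]
    exact ih

/-- The flags `ρ^i d`, `t0 (ρ^i d)`, `i < s`, are different and lie in the face of `d`: `ρ^i d = ρ^j d` with `i < j`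
gives `ρ^(j-i) d = d` (`rho_injective`); `t0 (ρ^i d) = ρ^j d` contradicts `rho_iter_ne_t0` (for `j ≥ i` apply it to
`ρ^i d`, for `j < i` to `ρ^j d`). -/
theorem face_card_ge (M : GMap) (d : M.D) (s : ℕ)
    (hs : ∀ j, 1 ≤ j → j < s → (rho M)^[j] d ≠ d) :
    2 * s ≤ Nat.card {e : M.D // Quot.mk (fun d e : M.D => e = M.t0 d ∨ e = M.t1 d) e =
      Quot.mk _ d} := by
  have := M.fin
  have hnat : Nat.card (Fin s ⊕ Fin s) = 2 * s := by
    rw [Nat.card_eq_fintype_card, Fintype.card_sum, Fintype.card_fin]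
    ring
  rw [← hnat]
  let f : Fin s ⊕ Fin s → {e : M.D // Quot.mk (fun d e : M.D => e = M.t0 d ∨ e = M.t1 d) e =
      Quot.mk _ d} := fun x => match x with
    | Sum.inl i => ⟨(rho M)^[i.val] d, c2b_rho M d i.val⟩
    | Sum.inr i => ⟨M.t0 ((rho M)^[i.val] d), (c2b_t0 M _).trans (c2b_rho M d i.val)⟩
  have hlt : ∀ i j : ℕ, i < j → j < s → (rho M)^[i] d ≠ (rho M)^[j] d := by
    intro i j hij hj h
    have h1 : (rho M)^[i] ((rho M)^[j - i] d) = (rho M)^[i] d := by
      rw [← Function.iterate_add_apply, show i + (j - i) = j by omega, h]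
    exact hs (j - i) (by omega) (by omega) ((rho_injective M).iterate i h1)
  have hne : ∀ i j : ℕ, i < s → j < s → (rho M)^[i] d = (rho M)^[j] d → i = j := by
    intro i j hi hj h
    by_contra hc
    rcases Nat.lt_or_gt_of_ne hc with h1 | h1
    · exact hlt i j h1 hj h
    · exact hlt j i h1 hi h.symm
  have hmix : ∀ i j : ℕ, (rho M)^[i] d ≠ M.t0 ((rho M)^[j] d) := by
    intro i j h
    rcases le_or_gt j i with h1 | h1
    · apply rho_iter_ne_t0 M (i - j) ((rho M)^[j] d)
      rw [← Function.iterate_add_apply, show i - j + j = i by omega, h]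
    · apply rho_iter_ne_t0 M (j - i) ((rho M)^[i] d)
      rw [← Function.iterate_add_apply, show j - i + i = j by omega, h, M.t0_t0]
  refine Nat.card_le_card_of_injective f ?_
  rintro (i | i) (j | j) h
  · have h1 : (rho M)^[i.val] d = (rho M)^[j.val] d := congrArg Subtype.val h
    exact congrArg Sum.inl (Fin.ext (hne _ _ i.2 j.2 h1))
  · have h1 : (rho M)^[i.val] d = M.t0 ((rho M)^[j.val] d) := congrArg Subtype.val h
    exact absurd h1 (hmix _ _)
  · have h1 : M.t0 ((rho M)^[i.val] d) = (rho M)^[j.val] d := congrArg Subtype.val h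
    exact absurd h1.symm (hmix _ _)
  · have h1 : M.t0 ((rho M)^[i.val] d) = M.t0 ((rho M)^[j.val] d) := congrArg Subtype.val h
    have h2 : (rho M)^[i.val] d = (rho M)^[j.val] d := by
      rw [← M.t0_t0 ((rho M)^[i.val] d), h1, M.t0_t0]
    exact congrArg Sum.inr (Fin.ext (hne _ _ i.2 j.2 h2))

private theorem c2b_gd (M : GMap) (d e : M.D)
    (h : (Quot.mk (fun d e : M.D => e = M.t0 d ∨ e = M.t1 d) e : Quot _) = Quot.mk _ d) :
    Gd M e ↔ Gd M d := by
  have h2 := Quot.eqvGen_exact h
  clear h
  induction h2 with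
  | rel x y hxy =>
    rcases hxy with rfl | rfl
    · refine ⟨gd_t0 M x, fun hx => ?_⟩
      have := gd_t0 M _ hx
      rwa [M.t0_t0] at this
    · refine ⟨gd_t1 M x, fun hx => ?_⟩
      have := gd_t1 M _ hx
      rwa [M.t1_t1] at this
  | refl x => exact Iff.rfl
  | symm x y _ ih => exact ih.symm
  | trans x y z _ _ ih1 ih2 => exact ih1.trans ih2

/-- Give the weight `5` to the flags with `Gd` and `4` to the others; the total weight is
`5 card D - #{¬ Gd}`. Every face has weight at least `40`: all its flags are `Gd` or none is (`gd_t0`, `gd_t1`); in the first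
case it has at least `8` flags, in the second case at least `10` (`face_card_ge` with `s = 4`, `5`; if `¬ Gd d` then
`ρ^4 e ≠ e` for all `e` in the face of `d`). -/
theorem face_weight (hM : M.IsEmbedding)
    (hdeg : ∀ a : G.Dart, ∃ b : G.Dart, b.fst = a.fst ∧ b ≠ a)
    (htri : ∀ x y z, G.Adj x y → G.Adj y z → G.Adj z x → False) :
    40 * Nat.card M.Face + Nat.card {d : M.D // ¬ Gd M.toGMap d} ≤ 5 * Nat.card M.D := by
  classical
  have := M.fin
  have hfF : Finite M.Face := inferInstanceAs (Finite (Quot _))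
  have : Fintype M.Face := Fintype.ofFinite _
  let f : M.D → M.Face := fun d => Quot.mk _ d
  have h1 := Finset.card_eq_sum_card_fiberwise (f := f) (s := (Finset.univ : Finset M.D))
    (t := (Finset.univ : Finset M.Face)) (fun x _ => Finset.mem_univ _)
  have h2 := Finset.card_eq_sum_card_fiberwise (f := f)
    (s := (Finset.univ.filter (fun d : M.D => ¬ Gd M.toGMap d)))
    (t := (Finset.univ : Finset M.Face)) (fun x _ => Finset.mem_univ _)
  have h3 : Nat.card {d : M.D // ¬ Gd M.toGMap d} =
      (Finset.univ.filter (fun d : M.D => ¬ Gd M.toGMap d)).card := by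
    rw [Nat.card_eq_fintype_card, Fintype.card_subtype]
  rw [h3, h2, Nat.card_eq_fintype_card, Nat.card_eq_fintype_card, ← Finset.card_univ (α := M.D), h1,
    Finset.mul_sum]
  have h4 : 40 * Fintype.card M.Face = ∑ _x : M.Face, 40 := by
    rw [Finset.sum_const, Finset.card_univ, smul_eq_mul, mul_comm]
  rw [h4, ← Finset.sum_add_distrib]
  refine Finset.sum_le_sum fun c _ => ?_
  induction c using Quot.ind with
  | mk d =>
    have hcard : ∀ s : ℕ, (∀ j, 1 ≤ j → j < s → (rho M.toGMap)^[j] d ≠ d) →
        2 * s ≤ (Finset.univ.filter (fun e : M.D => f e = Quot.mk _ d)).card := by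
      intro s hs
      have h5 := face_card_ge M.toGMap d s hs
      rw [Nat.card_eq_fintype_card, Fintype.card_subtype] at h5
      exact h5
    by_cases hg : Gd M.toGMap d
    · have h6 : ((Finset.univ.filter (fun d : M.D => ¬ Gd M.toGMap d)).filter
          (fun e : M.D => f e = Quot.mk _ d)).card = 0 := by
        rw [Finset.card_eq_zero, Finset.filter_eq_empty_iff]
        intro e he hf
        rw [Finset.mem_filter] at he
        exact he.2 ((c2b_gd M.toGMap d e hf).2 hg)
      have h7 := hcard 4 (fun j hj1 hj2 => rho_iter_ne hM hdeg htri j hj1 (by omega) d)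
      omega
    · have h6 : ((Finset.univ.filter (fun d : M.D => ¬ Gd M.toGMap d)).filter
          (fun e : M.D => f e = Quot.mk _ d)).card ≤
          (Finset.univ.filter (fun e : M.D => f e = Quot.mk _ d)).card :=
        Finset.card_le_card (Finset.filter_subset_filter _ (Finset.filter_subset _ _))
      have h7 := hcard 5 (fun j hj1 hj2 => by
        by_cases h4 : j = 4
        · subst h4
          exact hg
        · exact rho_iter_ne hM hdeg htri j hj1 (by omega) d)
      omega

end Pool.Agent.NHT.NE
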