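import Pool.Agent.NHT.C0

set_option autoImplicit false

/-!
NHT-C3b: numbers of vertices and darts of `GG(u, H)`.
-/

namespace Pool.Agent.NHT.NE

variable {N : ℕ} [NeZero N] {S : Type} {u : Fin N → S} {H : ℕ}

private theorem c3b_n1 (h3 : 3 ≤ N) (i : Fin N) : i + 1 ≠ i := by
  intro h
  have h1 : (1 : Fin N) = 0 := by
    have h2 : i + 1 = i + 0 := by rw [h, add_zero]
    exact add_left_cancel h2
  have h2 := congrArg Fin.val h1
  rw [Fin.val_one', Nat.mod_eq_of_lt (by omega)] at h2
  simp at h2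

private theorem c3b_n2 (h3 : 3 ≤ N) (i : Fin N) : i + 1 + 1 ≠ i := by
  intro h
  have h1 : (1 + 1 : Fin N) = 0 := by
    have h2 : i + (1 + 1) = i + 0 := by rw [← add_assoc, h, add_zero]
    exact add_left_cancel h2
  have h2 := congrArg Fin.val h1
  rw [Fin.val_add, Fin.val_one', Nat.mod_eq_of_lt (show 1 < N by omega),
    Nat.mod_eq_of_lt (show 1 + 1 < N by omega)] at h2
  simp at h2

/-- The end of the down dart is not a grid vertex of a level `≥ l`. -/
private theorem c3b_snd (i j : Fin N) (l m : Fin (H + 1)) (h : (dDn u H i l).snd = Sum.inr (j, m)) :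
    m.val < l.val := by
  induction l using Fin.cases with
  | zero => cases h
  | succ l' =>
    have h1 : (Sum.inr (i, l'.castSucc) : GV N H S) = Sum.inr (j, m) := h
    have h2 := (Prod.mk.inj (Sum.inr.inj h1)).2
    rw [← h2, Fin.val_castSucc, Fin.val_succ]
    omega

/-- The darts `dR i l`, `(dR i l).symm` (`N (H + 1)` each), `dU i k`, `(dU i k).symm` (`N H` each), `dLeg i`,
`(dLeg i).symm` (`N` each) are different. -/
theorem card_dart (h5 : 5 ≤ N) [Finite S] : 4 * (N * (H + 1)) ≤ Nat.card (GG u H).Dart := by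
  have h3 : 3 ≤ N := by omega
  have : Finite (GG u H).Dart := by
    have : Finite (GV N H S) := inferInstanceAs (Finite (S ⊕ (Fin N × Fin (H + 1))))
    exact Finite.of_injective (fun a : (GG u H).Dart => a.toProd) (fun a b h => by
      ext
      · exact congrArg Prod.fst h
      · exact congrArg Prod.snd h)
  have hc : Nat.card (Fin 4 × (Fin N × Fin (H + 1))) = 4 * (N * (H + 1)) := by
    simp [Nat.card_eq_fintype_card]
  rw [← hc]
  let f : Fin 4 × (Fin N × Fin (H + 1)) → (GG u H).Dart := fun x =>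
    if x.1 = 0 then dR h3 u H x.2.1 x.2.2
    else if x.1 = 1 then (dR h3 u H x.2.1 x.2.2).symm
    else if x.1 = 2 then dDn u H x.2.1 x.2.2
    else (dDn u H x.2.1 x.2.2).symm
  have rf : ∀ i l, (dR h3 u H i l).fst = Sum.inr (i, l) := fun i l => rfl
  have rs : ∀ i l, (dR h3 u H i l).snd = Sum.inr (i + 1, l) := fun i l => rfl
  have df : ∀ i l, (dDn u H i l).fst = Sum.inr (i, l) := fun i l => dDn_fst u H i l
  have inj : ∀ {i j : Fin N} {l m : Fin (H + 1)},
      (Sum.inr (i, l) : GV N H S) = Sum.inr (j, m) → i = j ∧ l = m := fun h =>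
    Prod.mk.inj (Sum.inr.inj h)
  have RR : ∀ i l j m, dR h3 u H i l = dR h3 u H j m → (i, l) = (j, m) := by
    intro i l j m h
    have h1 := congrArg (fun a => a.fst) h
    simp only [rf] at h1
    exact Sum.inr.inj h1
  have RRs : ∀ i l j m, dR h3 u H i l ≠ (dR h3 u H j m).symm := by
    intro i l j m h
    have h1 : (dR h3 u H i l).fst = (dR h3 u H j m).snd := congrArg (fun a => a.fst) h
    have h2 : (dR h3 u H i l).snd = (dR h3 u H j m).fst := congrArg (fun a => a.snd) h
    rw [rf, rs] at h1 h2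
    obtain ⟨e1, -⟩ := inj h1
    obtain ⟨e2, -⟩ := inj h2
    rw [e1] at e2
    exact c3b_n2 h3 j e2
  have RD : ∀ i l j m, dR h3 u H i l ≠ dDn u H j m := by
    intro i l j m h
    have h1 : (dR h3 u H i l).fst = (dDn u H j m).fst := congrArg (fun a => a.fst) h
    have h2 : (dR h3 u H i l).snd = (dDn u H j m).snd := congrArg (fun a => a.snd) h
    rw [rf, df] at h1
    rw [rs] at h2
    obtain ⟨-, e1⟩ := inj h1
    have h3' := c3b_snd j (i + 1) m l h2.symm
    rw [e1] at h3'
    exact lt_irrefl _ h3'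
  have RDs : ∀ i l j m, dR h3 u H i l ≠ (dDn u H j m).symm := by
    intro i l j m h
    have h1 : (dR h3 u H i l).fst = (dDn u H j m).snd := congrArg (fun a => a.fst) h
    have h2 : (dR h3 u H i l).snd = (dDn u H j m).fst := congrArg (fun a => a.snd) h
    rw [rf] at h1
    rw [rs, df] at h2
    obtain ⟨-, e1⟩ := inj h2
    have h3' := c3b_snd j i m l h1.symm
    rw [e1] at h3'
    exact lt_irrefl _ h3'
  have DD : ∀ i l j m, dDn u H i l = dDn u H j m → (i, l) = (j, m) := by
    intro i l j m h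
    have h1 : (dDn u H i l).fst = (dDn u H j m).fst := congrArg (fun a => a.fst) h
    rw [df, df] at h1
    exact Sum.inr.inj h1
  have DDs : ∀ i l j m, dDn u H i l ≠ (dDn u H j m).symm := by
    intro i l j m h
    have h1 : (dDn u H i l).fst = (dDn u H j m).snd := congrArg (fun a => a.fst) h
    have h2 : (dDn u H i l).snd = (dDn u H j m).fst := congrArg (fun a => a.snd) h
    rw [df] at h1 h2
    have e1 := c3b_snd j i m l h1.symm
    have e2 := c3b_snd i j l m h2
    omega
  have symi : ∀ a b : (GG u H).Dart, a.symm = b.symm → a = b := by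
    intro a b h
    have := congrArg (fun d => d.symm) h
    simpa using this
  have syms : ∀ a b : (GG u H).Dart, a.symm = b → a = b.symm := by
    intro a b h
    rw [← h]
    simp
  refine Nat.card_le_card_of_injective f ?_
  rintro ⟨x, i, l⟩ ⟨y, j, m⟩ h
  fin_cases x <;> fin_cases y
  · exact Prod.ext rfl (RR _ _ _ _ h)
  · exact absurd h (RRs _ _ _ _)
  · exact absurd h (RD _ _ _ _)
  · exact absurd h (RDs _ _ _ _)
  · exact absurd (syms _ _ h) (RRs _ _ _ _)
  · exact Prod.ext rfl (RR _ _ _ _ (symi _ _ h))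
  · exact absurd (syms _ _ h) (RDs _ _ _ _)
  · exact absurd (symi _ _ h) (RD _ _ _ _)
  · exact absurd h.symm (RD _ _ _ _)
  · exact absurd h.symm (fun h' => RDs _ _ _ _ (syms _ _ h'))
  · exact Prod.ext rfl (DD _ _ _ _ h)
  · exact absurd h (DDs _ _ _ _)
  · exact absurd h.symm (RDs _ _ _ _)
  · exact absurd (symi _ _ h).symm (RD _ _ _ _)
  · exact absurd (syms _ _ h) (DDs _ _ _ _)
  · exact Prod.ext rfl (DD _ _ _ _ (symi _ _ h))

theorem card_GV [Fintype S] : Nat.card (GV N H S) = Fintype.card S + N * (H + 1) := by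
  simp [Nat.card_eq_fintype_card]

end Pool.Agent.NHT.NE
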