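import Pool.Agent.NHT.C0

set_option autoImplicit false

/-!
NHT-C4: a level without bad flags (pigeonhole).
-/

namespace Pool.Agent.NHT.NE

open Pool.Agent.HTE

variable {N : ℕ} [NeZero N] {S : Type} {u : Fin N → S} {H : ℕ}

/-- Otherwise choose for every level `1 ≤ l ≤ H - 1` a bad flag at a vertex of this level: an injection of a set with
`H - 1` elements into the set of bad flags. (`M.D` is finite: `M.fin`.) -/
theorem good_level (M : Drawing (GG u H)) (h : Nat.card {d : M.D // ¬ Gd M.toGMap d} + 1 < H) :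
    ∃ k' k : Fin H, k'.succ = k.castSucc ∧
      ∀ (d : M.D) (i : Fin N), (M.lab d).fst = Sum.inr (i, k.castSucc) → Gd M.toGMap d := by
  classical
  haveI : Fintype M.D := M.fin
  by_contra hcon
  push Not at hcon
  have key : ∀ m : Fin (H - 1), ∃ d : {d : M.D // ¬ Gd M.toGMap d}, ∃ i : Fin N,
      (M.lab d.1).fst = Sum.inr (i, (⟨m.val + 1, by omega⟩ : Fin (H + 1))) := by
    intro m
    obtain ⟨d, i, hd, hg⟩ := hcon ⟨m.val, by omega⟩ ⟨m.val + 1, by omega⟩ (by ext; simp)
    exact ⟨⟨d, hg⟩, i, hd⟩
  choose f g hf using key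
  have hinj : Function.Injective f := by
    intro a b hab
    have h1 := hf a
    rw [hab, hf b] at h1
    have h2 := congrArg Fin.val (Prod.mk.inj (Sum.inr.inj h1)).2
    simp only [add_left_inj] at h2
    exact Fin.ext h2.symm
  have h3 := Nat.card_le_card_of_injective f hinj
  rw [Nat.card_fin] at h3
  omega

end Pool.Agent.NHT.NE
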