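import Pool.Agent.NHT.C2
import Pool.Agent.NHT.C3

set_option autoImplicit false

/-!
NHT-C5: a level all of whose flags are good is flat.
-/

namespace Pool.Agent.NHT.NE

open Pool.Agent.HTE

variable {N : ℕ} [NeZero N] {S : Type} {u : Fin N → S} {H : ℕ}

theorem c5_dDn {k' k : Fin H} (hk : k'.succ = k.castSucc) (i : Fin N) :
    dDn u H i k.castSucc = (dU u H i k').symm := by
  rw [← hk]
  unfold dDn
  rw [Fin.cases_succ]

/-- The labels of the flags at `(i, l)`, `l = k'.succ = k.castSucc`: up, left, down, right (`darts_mid`;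
`dDn i k.castSucc = dDn i k'.succ = (dU i k').symm`). -/
theorem lab_cases (h3 : 3 ≤ N) (M : Drawing (GG u H)) {k' k : Fin H}
    (hk : k'.succ = k.castSucc) (i : Fin N) (d : M.D)
    (hd : (M.lab d).fst = Sum.inr (i, k.castSucc)) :
    M.lab d = dU u H i k ∨ M.lab d = dL h3 u H i k.castSucc ∨ M.lab d = (dU u H i k').symm ∨
      M.lab d = dR h3 u H i k.castSucc := by
  have h := (darts_mid h3 u H i k (M.lab d)).2 hd
  rw [c5_dDn hk i] at h
  simpa only [List.mem_cons, List.not_mem_nil, or_false] using h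

theorem c5_fstU (i : Fin N) (k : Fin H) : (dU u H i k).fst = Sum.inr (i, k.castSucc) := rfl

theorem c5_fstD {k' k : Fin H} (hk : k'.succ = k.castSucc) (i : Fin N) :
    (dU u H i k').symm.fst = Sum.inr (i, k.castSucc) := by
  rw [← hk]; rfl

theorem c5_fstR (h3 : 3 ≤ N) (i : Fin N) (l : Fin (H + 1)) :
    (dR h3 u H i l).fst = Sum.inr (i, l) := rfl

theorem c5_sndU (i : Fin N) (k : Fin H) : (dU u H i k).snd = Sum.inr (i, k.succ) := rfl

theorem c5_sndD (i : Fin N) (k' : Fin H) :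
    (dU u H i k').symm.snd = Sum.inr (i, k'.castSucc) := rfl

theorem c5_sndR (h3 : 3 ≤ N) (i : Fin N) (l : Fin (H + 1)) :
    (dR h3 u H i l).snd = Sum.inr (i + 1, l) := rfl

theorem c5_sndL (h3 : 3 ≤ N) (i : Fin N) (l : Fin (H + 1)) :
    (dL h3 u H i l).snd = Sum.inr (i - 1, l) := rfl

/-- The four possible labels of `t1 d`, the label of `d` excluded, and the common neighbour. -/
theorem c5_main (h3 : 3 ≤ N) (h5 : 5 ≤ N) (htwo : ∀ i, ∃ j, j ≠ i ∧ u j = u i)
    (M : Drawing (GG u H)) (hM : M.IsEmbedding) {k' k : Fin H} (hk : k'.succ = k.castSucc)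
    (hg : ∀ (d : M.D) (i : Fin N), (M.lab d).fst = Sum.inr (i, k.castSucc) → Gd M.toGMap d)
    (i : Fin N) (d : M.D) (hd : (M.lab d).fst = Sum.inr (i, k.castSucc)) :
    (M.lab (M.t1 d) = dU u H i k ∨ M.lab (M.t1 d) = dL h3 u H i k.castSucc ∨
      M.lab (M.t1 d) = (dU u H i k').symm ∨ M.lab (M.t1 d) = dR h3 u H i k.castSucc) ∧
    M.lab (M.t1 d) ≠ M.lab d ∧
    ∃ z, z ≠ Sum.inr (i, k.castSucc) ∧ (GG u H).Adj (M.lab d).snd z ∧
      (GG u H).Adj z (M.lab (M.t1 d)).snd := by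
  refine ⟨lab_cases h3 M hk i (M.t1 d) ?_, lab_t1_ne hM d (deg h5 htwo _), ?_⟩
  · rw [fst_t1 hM d, hd]
  · obtain ⟨a1, a2, a3⟩ := common_nbr hM (fun a => deg h5 htwo a) d (hg d i hd)
    rw [hd] at a1
    exact ⟨_, a1, a2, a3⟩

/-- A corner of a good flag at `(i, l)` never joins up and down, nor left and right, nor a dart with itself
(`common_nbr`, `common_ud`, `common_rl`, `lab_t1_ne`). -/
theorem corner_up (h3 : 3 ≤ N) (h5 : 5 ≤ N) (htwo : ∀ i, ∃ j, j ≠ i ∧ u j = u i)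
    (M : Drawing (GG u H)) (hM : M.IsEmbedding) {k' k : Fin H} (hk : k'.succ = k.castSucc)
    (hg : ∀ (d : M.D) (i : Fin N), (M.lab d).fst = Sum.inr (i, k.castSucc) → Gd M.toGMap d)
    (i : Fin N) (d : M.D) (hd : M.lab d = dU u H i k) :
    M.lab (M.t1 d) = dL h3 u H i k.castSucc ∨ M.lab (M.t1 d) = dR h3 u H i k.castSucc := by
  obtain ⟨hc, hne, z, hz, z1, z2⟩ := c5_main h3 h5 htwo M hM hk hg i d (by rw [hd]; rfl)
  rw [hd] at hne z1
  rcases hc with h | h | h | h
  · exact absurd h hne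
  · exact Or.inl h
  · rw [h] at z2
    exact absurd (common_ud h5 hk i z z1 z2) hz
  · exact Or.inr h

theorem corner_dn (h3 : 3 ≤ N) (h5 : 5 ≤ N) (htwo : ∀ i, ∃ j, j ≠ i ∧ u j = u i)
    (M : Drawing (GG u H)) (hM : M.IsEmbedding) {k' k : Fin H} (hk : k'.succ = k.castSucc)
    (hg : ∀ (d : M.D) (i : Fin N), (M.lab d).fst = Sum.inr (i, k.castSucc) → Gd M.toGMap d)
    (i : Fin N) (d : M.D) (hd : M.lab d = (dU u H i k').symm) :
    M.lab (M.t1 d) = dL h3 u H i k.castSucc ∨ M.lab (M.t1 d) = dR h3 u H i k.castSucc := by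
  obtain ⟨hc, hne, z, hz, z1, z2⟩ := c5_main h3 h5 htwo M hM hk hg i d
    (by rw [hd]; exact c5_fstD hk i)
  rw [hd] at hne z1
  rcases hc with h | h | h | h
  · rw [h] at z2
    exact absurd (common_ud h5 hk i z z2.symm z1.symm) hz
  · exact Or.inl h
  · exact absurd h hne
  · exact Or.inr h

theorem corner_rt (h3 : 3 ≤ N) (h5 : 5 ≤ N) (htwo : ∀ i, ∃ j, j ≠ i ∧ u j = u i)
    (M : Drawing (GG u H)) (hM : M.IsEmbedding) {k' k : Fin H} (hk : k'.succ = k.castSucc)
    (hg : ∀ (d : M.D) (i : Fin N), (M.lab d).fst = Sum.inr (i, k.castSucc) → Gd M.toGMap d)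
    (i : Fin N) (d : M.D)
    (hd : M.lab d = dL h3 u H i k.castSucc ∨ M.lab d = dR h3 u H i k.castSucc) :
    M.lab (M.t1 d) = dU u H i k ∨ M.lab (M.t1 d) = (dU u H i k').symm := by
  have hf : (M.lab d).fst = Sum.inr (i, k.castSucc) := by
    rcases hd with hd | hd
    · rw [hd]; exact dL_fst h3 u H i _
    · rw [hd]; rfl
  obtain ⟨hc, hne, z, hz, z1, z2⟩ := c5_main h3 h5 htwo M hM hk hg i d hf
  rcases hc with h | h | h | h
  · exact Or.inl h
  · rcases hd with hd | hd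
    · rw [hd] at hne
      exact absurd h hne
    · rw [hd] at z1
      rw [h] at z2
      exact absurd (common_rl h5 hk i z z1 z2) hz
  · exact Or.inr h
  · rcases hd with hd | hd
    · rw [hd] at z1
      rw [h] at z2
      exact absurd (common_rl h5 hk i z z2.symm z1.symm) hz
    · rw [hd] at hne
      exact absurd h hne

end Pool.Agent.NHT.NE
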