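import Pool.Agent.NHT.C5

set_option autoImplicit false

/-!
NHT-C5b: the rotation at a vertex of a good level.
-/

namespace Pool.Agent.NHT.NE

open Pool.Agent.HTE

variable {N : ℕ} [NeZero N] {S : Type} {u : Fin N → S} {H : ℕ}

/-- The four darts at `(i, l)` are different. -/
theorem c5b_ne (h3 : 3 ≤ N) {k' k : Fin H} (hk : k'.succ = k.castSucc) (i : Fin N) :
    dU u H i k ≠ dL h3 u H i k.castSucc ∧ dU u H i k ≠ (dU u H i k').symm ∧
      dU u H i k ≠ dR h3 u H i k.castSucc ∧ dL h3 u H i k.castSucc ≠ (dU u H i k').symm ∧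
      dL h3 u H i k.castSucc ≠ dR h3 u H i k.castSucc ∧
      (dU u H i k').symm ≠ dR h3 u H i k.castSucc := by
  have h := darts_mid_nodup h3 u H i k
  have e : dDn u H i k.castSucc = (dU u H i k').symm := by
    rw [← hk]
    rfl
  rw [e] at h
  simp only [List.nodup_cons, List.mem_cons, List.not_mem_nil, or_false, not_or] at h
  exact ⟨h.1.1, h.1.2.1, h.1.2.2, h.2.1.1, h.2.1.2, h.2.2.1⟩

/-- If both corners of the dart of `x` join it with the same dart, there are only two darts. -/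
theorem c5b_two {V : Type} {G : SimpleGraph V} {M : Drawing G} (hM : M.IsEmbedding) (x : M.D)
    (h : M.lab (M.t1 x) = M.lab (M.t1 (M.t2 x))) (b : G.Dart) (hb : b.fst = (M.lab x).fst) :
    b = M.lab x ∨ b = M.lab (M.t1 x) := by
  obtain ⟨e, he⟩ := exists_flag (M := M) b
  have h2 : M.t1 (M.t2 x) = M.t2 (M.t1 x) := by
    rcases eq_or_t2 hM h with h1 | h1
    · exfalso
      apply M.t2_ne x
      rw [← M.t1_t1 (M.t2 x), h1, M.t1_t1]
    · exact h1
  have h3 := orbit hM (d := x) (e := e) (by rw [he, hb])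
    (fun y => y = x ∨ y = M.t2 x ∨ y = M.t1 x ∨ y = M.t1 (M.t2 x))
    (by
      rintro y (rfl | rfl | rfl | rfl)
      · exact ⟨Or.inr (Or.inr (Or.inl rfl)), Or.inr (Or.inl rfl)⟩
      · exact ⟨Or.inr (Or.inr (Or.inr rfl)), Or.inl (M.t2_t2 x)⟩
      · exact ⟨Or.inl (M.t1_t1 x), Or.inr (Or.inr (Or.inr h2.symm))⟩
      · refine ⟨Or.inr (Or.inl (M.t1_t1 _)), Or.inr (Or.inr (Or.inl ?_))⟩
        rw [h2, M.t2_t2])
    (Or.inl rfl)
  rw [← he]
  rcases h3 with rfl | rfl | rfl | rfl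
  · exact Or.inl rfl
  · exact Or.inl (M.lab_t2 x)
  · exact Or.inr rfl
  · exact Or.inr h.symm

/-- At `(i, l)`: let `x`, `t2 x` be the up flags. `t1 x`, `t1 (t2 x)` are flags of the left or right dart (`corner_up`).
They cannot both be right flags: then `t1 (t2 x) = t2 (t1 x)` (`eq_or_t2`) and `{x, t2 x, t1 x, t1 (t2 x)}` is closed under `t1`,
`t2`, but all flags at the vertex are in one orbit (`orbit`) and there is a left flag; in the same way not both are left flags. So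
let `U` be the up flag for which `Rt := t1 U` is a right flag; `t1 (t2 U)` is a left flag. `t1 (t2 Rt)` is an up or down flag
(`corner_rt`); if it were up it would be `U` (then `t2 Rt = t1 U = Rt`) or `t2 U` (then `t2 Rt = t1 (t2 U)`, a left flag); so
`Dn := t1 (t2 Rt)` is a down flag. `t1 (t2 Dn)` is a left or right flag (`corner_dn`); right is impossible in the same way
(`= Rt`: `t2 Dn = t1 Rt = U`; `= t2 Rt`: `t2 Dn = t1 (t2 Rt) = Dn`); put `Lf := t2 (t1 (t2 Dn))`. `t1 Lf` is up or down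
(`corner_rt`); `= Dn`: `Lf = t1 Dn = t2 Rt`, no; `= t2 Dn`: `Lf = t1 (t2 Dn) = t2 Lf`, no; `= U`: `Lf = t1 U = Rt`, no; so
`t1 Lf = t2 U`. -/
theorem exists_local (h3 : 3 ≤ N) (h5 : 5 ≤ N) (htwo : ∀ i, ∃ j, j ≠ i ∧ u j = u i)
    (M : Drawing (GG u H)) (hM : M.IsEmbedding) {k' k : Fin H} (hk : k'.succ = k.castSucc)
    (hg : ∀ (d : M.D) (i : Fin N), (M.lab d).fst = Sum.inr (i, k.castSucc) → Gd M.toGMap d)
    (i : Fin N) : ∃ U Rt Dn Lf : M.D, M.lab U = dU u H i k ∧ M.lab Rt = dR h3 u H i k.castSucc ∧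
      M.lab Dn = (dU u H i k').symm ∧ M.lab Lf = dL h3 u H i k.castSucc ∧ M.t1 U = Rt ∧
      M.t1 (M.t2 Rt) = Dn ∧ M.t1 (M.t2 Dn) = M.t2 Lf ∧ M.t1 Lf = M.t2 U := by
  obtain ⟨hUL, hUD, hUR, hLD, hLR, hDR⟩ := c5b_ne (u := u) h3 hk i
  have fstL : (dL h3 u H i k.castSucc).fst = Sum.inr (i, k.castSucc) := dL_fst h3 u H i _
  have fstR : (dR h3 u H i k.castSucc).fst = Sum.inr (i, k.castSucc) := rfl
  have fstU : (dU u H i k).fst = Sum.inr (i, k.castSucc) := rfl
  obtain ⟨U, hU, hUR1, hUL1⟩ : ∃ U : M.D, M.lab U = dU u H i k ∧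
      M.lab (M.t1 U) = dR h3 u H i k.castSucc ∧
      M.lab (M.t1 (M.t2 U)) = dL h3 u H i k.castSucc := by
    obtain ⟨x, hx⟩ := exists_flag (M := M) (dU u H i k)
    have hx2 : M.lab (M.t2 x) = dU u H i k := by rw [M.lab_t2, hx]
    rcases corner_up h3 h5 htwo M hM hk hg i x hx with h1 | h1 <;>
      rcases corner_up h3 h5 htwo M hM hk hg i (M.t2 x) hx2 with h2 | h2
    · exfalso
      rcases c5b_two hM x (by rw [h1, h2]) (dR h3 u H i k.castSucc) (by rw [hx, fstR, fstU]) with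
        h | h
      · rw [hx] at h; exact hUR h.symm
      · rw [h1] at h; exact hLR h.symm
    · exact ⟨M.t2 x, hx2, h2, by rw [M.t2_t2, h1]⟩
    · exact ⟨x, hx, h1, h2⟩
    · exfalso
      rcases c5b_two hM x (by rw [h1, h2]) (dL h3 u H i k.castSucc) (by rw [hx, fstL, fstU]) with
        h | h
      · rw [hx] at h; exact hUL h.symm
      · rw [h1] at h; exact hLR h
  set Rt := M.t1 U with hRt
  have hRt2 : M.lab (M.t2 Rt) = dR h3 u H i k.castSucc := by rw [M.lab_t2, hUR1]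
  have hDn : M.lab (M.t1 (M.t2 Rt)) = (dU u H i k').symm := by
    rcases corner_rt h3 h5 htwo M hM hk hg i (M.t2 Rt) (Or.inr hRt2) with h | h
    · exfalso
      rcases eq_or_t2 hM (d := U) (e := M.t1 (M.t2 Rt)) (by rw [hU, h]) with h1 | h1
      · apply M.t2_ne Rt
        rw [← M.t1_t1 (M.t2 Rt), h1]
      · have h2 : M.t2 Rt = M.t1 (M.t2 U) := by rw [← h1, M.t1_t1]
        rw [h2, hUL1] at hRt2
        exact hLR hRt2
    · exact h
  set Dn := M.t1 (M.t2 Rt) with hDnd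
  have hDn2 : M.lab (M.t2 Dn) = (dU u H i k').symm := by rw [M.lab_t2, hDn]
  have hL : M.lab (M.t1 (M.t2 Dn)) = dL h3 u H i k.castSucc := by
    rcases corner_dn h3 h5 htwo M hM hk hg i (M.t2 Dn) hDn2 with h | h
    · exact h
    · exfalso
      rcases eq_or_t2 hM (d := Rt) (e := M.t1 (M.t2 Dn)) (by rw [hUR1, h]) with h1 | h1
      · have h2 : M.t2 Dn = U := by rw [← M.t1_t1 (M.t2 Dn), h1, hRt, M.t1_t1]
        rw [h2, hU] at hDn2
        exact hUD hDn2
      · apply M.t2_ne Dn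
        rw [← M.t1_t1 (M.t2 Dn), h1]
  refine ⟨U, Rt, Dn, M.t2 (M.t1 (M.t2 Dn)), hU, hUR1, hDn, by rw [M.lab_t2, hL], rfl, rfl,
    (M.t2_t2 _).symm, ?_⟩
  set Lf := M.t2 (M.t1 (M.t2 Dn)) with hLf
  have hLf1 : M.lab Lf = dL h3 u H i k.castSucc := by rw [hLf, M.lab_t2, hL]
  have hLf2 : M.t1 (M.t2 Dn) = M.t2 Lf := (M.t2_t2 _).symm
  rcases corner_rt h3 h5 htwo M hM hk hg i Lf (Or.inl hLf1) with h | h
  · rcases eq_or_t2 hM (d := U) (e := M.t1 Lf) (by rw [hU, h]) with h1 | h1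
    · exfalso
      have h2 : Lf = Rt := by rw [hRt, ← h1, M.t1_t1]
      rw [h2, hUR1] at hLf1
      exact hLR hLf1.symm
    · exact h1
  · exfalso
    rcases eq_or_t2 hM (d := Dn) (e := M.t1 Lf) (by rw [hDn, h]) with h1 | h1
    · have h2 : Lf = M.t2 Rt := by rw [← M.t1_t1 Lf, h1, hDnd, M.t1_t1]
      rw [h2, hRt2] at hLf1
      exact hLR hLf1.symm
    · apply M.t2_ne Lf
      rw [← hLf2, ← h1, M.t1_t1]

end Pool.Agent.NHT.NE
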