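import Pool.Agent.NHT.C5b

set_option autoImplicit false

/-!
NHT-C5c: a level all of whose flags are good is flat.
-/

namespace Pool.Agent.NHT.NE

open Pool.Agent.HTE

variable {N : ℕ} [NeZero N] {S : Type} {u : Fin N → S} {H : ℕ}

/-- `exists_local` for every `i` (choice). `t0_Rt`: `d := Rt i`, `z :=` end of `lab (ρ d)` (`ρ d = t1 (t0 d)` lies at `(i + 1, l)`) is a
common neighbour of `(i + 1, l)` and `(i, l + 1)` different from `(i, l)` (`common_nbr`; `t1 d = U i`), so `z = (i + 1, l + 1)`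
(`common_ur`) and `lab (t1 (t0 d)) = dU (i + 1) k`. `t0 d` has the label `(dR i l).symm = dL (i + 1) l`, so `t0 d` is `Lf (i + 1)` or
`t2 (Lf (i + 1))` (`eq_or_t2`); in the second case `t1 (t0 d) = t1 (t2 (Lf (i + 1))) = t2 (Dn (i + 1))`, a down flag. -/
theorem exists_flat (h3 : 3 ≤ N) (h5 : 5 ≤ N) (htwo : ∀ i, ∃ j, j ≠ i ∧ u j = u i)
    (M : Drawing (GG u H)) (hM : M.IsEmbedding) {k' k : Fin H} (hk : k'.succ = k.castSucc)
    (hg : ∀ (d : M.D) (i : Fin N), (M.lab d).fst = Sum.inr (i, k.castSucc) → Gd M.toGMap d) :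
    Nonempty (Flat h3 M k' k) := by
  choose U Rt Dn Lf h1 h2 h4 h6 h7 h8 h9 h10 using exists_local h3 h5 htwo M hM hk hg
  refine ⟨⟨U, Rt, Dn, Lf, h1, h2, h4, h6, h7, h8, h9, h10, fun i => ?_⟩⟩
  have e1 : M.lab (M.t0 (Rt i)) = dL h3 u H (i + 1) k.castSucc := by
    rw [M.lab_t0, h2, dL, add_sub_cancel_right]
  rcases eq_or_t2 hM (d := Lf (i + 1)) (e := M.t0 (Rt i)) (by rw [e1, h6]) with h | h
  · exact h
  · exfalso
    have e2 : M.t1 (M.t2 (Lf (i + 1))) = M.t2 (Dn (i + 1)) := by rw [← h9, M.t1_t1]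
    have e3 : rho M.toGMap (Rt i) = M.t2 (Dn (i + 1)) := by
      rw [rho, h, e2]
    have e4 : M.t1 (Rt i) = U i := by rw [← h7, M.t1_t1]
    have h11 := common_nbr hM (deg h5 htwo) (Rt i) (hg (Rt i) i (by rw [h2]; rfl))
    rw [e3, e4, h1, h2, M.lab_t2, h4] at h11
    have h12 := common_ur (u := u) h5 hk i _ h11.2.2.symm h11.2.1.symm
    rcases h12 with h13 | h13
    · exact h11.1 h13
    · change (Sum.inr (i + 1, k'.castSucc) : GV N H S) = Sum.inr (i + 1, k.succ) at h13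
      have h14 : k'.castSucc = k.succ := (Prod.mk.inj (Sum.inr.inj h13)).2
      have h15 := congrArg Fin.val h14
      have h16 := congrArg Fin.val hk
      simp only [Fin.val_castSucc, Fin.val_succ] at h15 h16
      omega

end Pool.Agent.NHT.NE
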