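import Pool.Agent.NHT.C1
import Pool.Agent.NHT.C1b
import Pool.Agent.NHT.C3

set_option autoImplicit false

/-!
NHT-C6: the number of faces is at most the number of `R`-classes plus `N H`.
-/

namespace Pool.Agent.NHT.NE

open Pool.Agent.HTE

variable {N : ℕ} [NeZero N] {S : Type} {u : Fin N → S} {H : ℕ}

/-- A dart with `Hor l` is `dR i k` or `(dR i k).symm` with `k ≠ l`. -/
theorem hor_iff (h3 : 3 ≤ N) (l : Fin (H + 1)) (a : (GG u H).Dart) :
    Hor l a ↔ ∃ i k, k ≠ l ∧ (a = dR h3 u H i k ∨ a = (dR h3 u H i k).symm) := by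
  constructor
  · rintro ⟨i, j, k, hk, h1, h2⟩
    have h4 := a.adj
    rw [h1, h2] at h4
    rcases (adj_inr h3 i k _).1 h4 with h | h | ⟨m, hm, h⟩ | ⟨m, hm, h⟩ | ⟨_, h⟩
    · refine ⟨i, k, hk, Or.inl ?_⟩
      exact SimpleGraph.Dart.ext _ _ (Prod.ext h1 (h2.trans h))
    · refine ⟨i - 1, k, hk, Or.inr ?_⟩
      refine SimpleGraph.Dart.ext _ _ (Prod.ext ?_ ?_)
      · rw [h1]
        change _ = (Sum.inr (i - 1 + 1, k) : GV N H S)
        rw [sub_add_cancel]
      · exact h2.trans h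
    · have := (Prod.mk.inj (Sum.inr.inj h)).2
      rw [this] at hm
      omega
    · have := (Prod.mk.inj (Sum.inr.inj h)).2
      rw [← this] at hm
      omega
    · exact absurd h (by simp)
  · rintro ⟨i, k, hk, rfl | rfl⟩
    · exact ⟨i, i + 1, k, hk, rfl, rfl⟩
    · exact ⟨i + 1, i, k, hk, rfl, rfl⟩

/-- Let `ι = {(i, k) : k ≠ l}` (`N H` elements), `p (i, k)` a flag with label `dR i k` (`exists_flag`), `q = t2 ∘ p`. Then
every pair of `relR` is in the equivalence relation generated by `t0`, `t1` and the pairs `(p, q)`: for a flag `d` with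
`Hor l (lab d)` one of `d`, `t2 d`, `t0 d`, `t0 (t2 d)` is `p (i, k)` (`hor_iff`, `eq_or_t2`), and `t0 (p) ~ p ~ t2 p ~ t0 (t2 p) =
t2 (t0 p)`. So `Quot (relR M l)` is a quotient of (has at least as many elements as ...) `Quot (…)`: the map
`Quot (relR M l) → Quot (r')`, `r'` = the relation with the pairs, is well defined and onto; `card_quot_le`. -/
theorem face_le (h3 : 3 ≤ N) (M : Drawing (GG u H)) (hM : M.IsEmbedding) (l : Fin (H + 1)) :
    Nat.card M.Face ≤ Nat.card (Quot (relR M l)) + N * H := by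
  classical
  have hfin : Finite M.D := @Finite.of_fintype _ M.fin
  let ι : Type := Fin N × {k : Fin (H + 1) // k ≠ l}
  have hex : ∀ x : ι, ∃ d, M.lab d = dR h3 u H x.1 x.2.1 := fun x => exists_flag _
  choose p hp using hex
  let r : M.D → M.D → Prop := fun d e => e = M.t0 d ∨ e = M.t1 d
  let r' : M.D → M.D → Prop := fun x y => r x y ∨ ∃ i, x = p i ∧ y = M.t2 (p i)
  have h1 := card_quot_le r p (fun x => M.t2 (p x))
  have hι : Nat.card ι = N * H := by
    rw [Nat.card_prod, Nat.card_eq_fintype_card, Nat.card_eq_fintype_card, Fintype.card_fin,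
      Fintype.card_subtype_compl, Fintype.card_fin, Fintype.card_unique, Nat.add_sub_cancel]
  rw [hι] at h1
  have mk0 : ∀ x, (Quot.mk r' (M.t0 x) : Quot r') = Quot.mk r' x := fun x =>
    (Quot.sound (r := r') (Or.inl (Or.inl rfl) : r' x (M.t0 x))).symm
  have mkp : ∀ i, (Quot.mk r' (M.t2 (p i)) : Quot r') = Quot.mk r' (p i) := fun i =>
    (Quot.sound (r := r') (Or.inr ⟨i, rfl, rfl⟩ : r' (p i) (M.t2 (p i)))).symm
  have mk2 : ∀ x (i : ι), M.lab x = dR h3 u H i.1 i.2.1 →
      (Quot.mk r' (M.t2 x) : Quot r') = Quot.mk r' x := by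
    intro x i hx
    rcases eq_or_t2 hM (d := p i) (e := x) (by rw [hp, hx]) with h | h
    · rw [h, mkp]
    · rw [h, M.t2_t2, mkp]
  have hr : ∀ x y, relR M l x y → (Quot.mk r' x : Quot r') = Quot.mk r' y := by
    rintro x y (rfl | rfl | ⟨hh, rfl⟩)
    · exact (mk0 x).symm
    · exact Quot.sound (r := r') (Or.inl (Or.inr rfl) : r' x (M.t1 x))
    · obtain ⟨i, k, hk, h | h⟩ := (hor_iff h3 l _).1 hh
      · exact (mk2 x (i, ⟨k, hk⟩) h).symm
      · have h4 : M.lab (M.t0 x) = dR h3 u H i k := by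
          rw [M.lab_t0, h, SimpleGraph.Dart.symm_symm]
        rw [← mk0 x, ← mk2 (M.t0 x) (i, ⟨k, hk⟩) h4, ← M.t0_t2, mk0]
  have h2 : Nat.card (Quot r') ≤ Nat.card (Quot (relR M l)) := by
    refine Nat.card_le_card_of_surjective (Quot.lift (fun x => (Quot.mk r' x : Quot r')) hr) ?_
    rintro ⟨x⟩
    exact ⟨Quot.mk _ x, rfl⟩
  exact h1.trans (Nat.add_le_add_right h2 _)

end Pool.Agent.NHT.NE
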