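import Pool.Agent.NHT.C1
import Pool.Agent.NHT.C1b
import Pool.Agent.NHT.C3

set_option autoImplicit false

/-!
NHT-C7: the local lemma: at a grid vertex off level `l` the class of a flag contains flags of all vertical
darts.
-/

namespace Pool.Agent.NHT.NE

open Pool.Agent.HTE

variable {N : ℕ} [NeZero N] {S : Type} {u : Fin N → S} {H : ℕ}

theorem C7_dR_hor (h3 : 3 ≤ N) (l k : Fin (H + 1)) (hk : k ≠ l) (i : Fin N) :
    Hor l (dR h3 u H i k) := ⟨i, i + 1, k, hk, rfl, rfl⟩

theorem C7_dL_hor (h3 : 3 ≤ N) (l k : Fin (H + 1)) (hk : k ≠ l) (i : Fin N) :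
    Hor l (dL h3 u H i k) := ⟨i, i - 1, k, hk, dL_fst h3 u H i k, rfl⟩

/-- At most two vertical darts at a grid vertex. -/
theorem C7_two (h3 : 3 ≤ N) (l k : Fin (H + 1)) (hk : k ≠ l) (i : Fin N) (b : (GG u H).Dart)
    (hb : b.fst = Sum.inr (i, k)) (hb' : ∀ j, b.snd ≠ Sum.inr (j, k)) :
    ∃ b' : (GG u H).Dart, ∀ a : (GG u H).Dart, a.fst = Sum.inr (i, k) → ¬ Hor l a →
      a = b ∨ a = b' := by
  have hbL : b ≠ dL h3 u H i k := by
    rintro rfl
    exact hb' (i - 1) rfl
  have hbR : b ≠ dR h3 u H i k := by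
    rintro rfl
    exact hb' (i + 1) rfl
  rcases Fin.eq_castSucc_or_eq_last k with ⟨k', rfl⟩ | rfl
  · have hb1 := (darts_mid h3 u H i k' b).2 hb
    simp only [List.mem_cons, List.not_mem_nil, or_false] at hb1
    rcases hb1 with h | h | h | h
    · refine ⟨dDn u H i k'.castSucc, fun a ha hna => ?_⟩
      have ha1 := (darts_mid h3 u H i k' a).2 ha
      simp only [List.mem_cons, List.not_mem_nil, or_false] at ha1
      rcases ha1 with g | g | g | g
      · exact Or.inl (g.trans h.symm)
      · exact absurd (g ▸ C7_dL_hor h3 l _ hk i) hna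
      · exact Or.inr g
      · exact absurd (g ▸ C7_dR_hor h3 l _ hk i) hna
    · exact absurd h hbL
    · refine ⟨dU u H i k', fun a ha hna => ?_⟩
      have ha1 := (darts_mid h3 u H i k' a).2 ha
      simp only [List.mem_cons, List.not_mem_nil, or_false] at ha1
      rcases ha1 with g | g | g | g
      · exact Or.inr g
      · exact absurd (g ▸ C7_dL_hor h3 l _ hk i) hna
      · exact Or.inl (g.trans h.symm)
      · exact absurd (g ▸ C7_dR_hor h3 l _ hk i) hna
    · exact absurd h hbR
  · have hb1 := (darts_top h3 u H i b).2 hb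
    simp only [List.mem_cons, List.not_mem_nil, or_false] at hb1
    rcases hb1 with h | h | h
    · exact absurd h hbL
    · refine ⟨b, fun a ha hna => ?_⟩
      have ha1 := (darts_top h3 u H i a).2 ha
      simp only [List.mem_cons, List.not_mem_nil, or_false] at ha1
      rcases ha1 with g | g | g
      · exact absurd (g ▸ C7_dL_hor h3 l _ hk i) hna
      · exact Or.inl (g.trans h.symm)
      · exact absurd (g ▸ C7_dR_hor h3 l _ hk i) hna
    · exact absurd h hbR

/-- Let `v = (i, k)`, `k ≠ l`, and let `b` be a vertical dart at `v` (`dDn i k`, or `dU i k'` with `k = k'.castSucc`). The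
class of a flag `d` at `v` contains a flag with label `b` (at `v`).
Proof. `K = {y | (lab y).fst = v, cls y = cls d}` is closed under `t1` (`fst_t1`, `cls_t1`) and under `t2` for horizontal labels
(`cls_t2`; every dart at `v` with both ends on level `k` is `Hor l`). `K.ncard` is even (`even_invol` for `t1`), the number of
horizontal flags in `K` is even (`even_invol` for `t2`), so the number of vertical flags in `K` is even. There are at most two
vertical darts at `v` (`darts_mid`, `darts_top`): `b` and possibly one more, `b'`. If no flag of `K` has label `b`, the number of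
flags of `K` with label `b'` is even, i.e. `0` or `2` (they are `x`, `t2 x`; `eq_or_t2`), so `K` is closed under `t2`; then `K` contains all
flags at `v` (`orbit`), also those with label `b` (`exists_flag`), a contradiction. -/
theorem exit (h3 : 3 ≤ N) (M : Drawing (GG u H)) (hM : M.IsEmbedding) (l k : Fin (H + 1))
    (hk : k ≠ l) (i : Fin N) (b : (GG u H).Dart) (hb : b.fst = Sum.inr (i, k))
    (hb' : ∀ j, b.snd ≠ Sum.inr (j, k)) (d : M.D) (hd : (M.lab d).fst = Sum.inr (i, k)) :
    ∃ e, M.lab e = b ∧ cls M l e = cls M l d := by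
  classical
  by_contra hno
  push Not at hno
  have : Finite M.D := @Finite.of_fintype _ M.fin
  obtain ⟨b', hb2⟩ := C7_two (u := u) h3 l k hk i b hb hb'
  let K : Set M.D := {y | (M.lab y).fst = Sum.inr (i, k) ∧ cls M l y = cls M l d}
  let Kh : Set M.D := {y | ((M.lab y).fst = Sum.inr (i, k) ∧ cls M l y = cls M l d) ∧
    Hor l (M.lab y)}
  let Kv : Set M.D := {y | ((M.lab y).fst = Sum.inr (i, k) ∧ cls M l y = cls M l d) ∧
    ¬ Hor l (M.lab y)}
  have hK1 : Even K.ncard := by
    apply even_invol M.t1 K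
    · rintro y ⟨hy1, hy2⟩
      exact ⟨(fst_t1 hM y).trans hy1, (cls_t1 M l y).trans hy2⟩
    · intro y _
      exact M.t1_t1 y
    · intro y _
      exact M.t1_ne y
  have hK2 : Even Kh.ncard := by
    apply even_invol M.t2 Kh
    · rintro y ⟨⟨hy1, hy2⟩, hy3⟩
      refine ⟨⟨?_, (cls_t2 M l y hy3).trans hy2⟩, ?_⟩
      · rw [M.lab_t2]; exact hy1
      · rw [M.lab_t2]; exact hy3
    · intro y _
      exact M.t2_t2 y
    · intro y _
      exact M.t2_ne y
  have hsum : K.ncard = Kh.ncard + Kv.ncard := by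
    rw [← Set.ncard_union_eq ?_ (Set.toFinite _) (Set.toFinite _)]
    · congr 1
      ext y
      simp only [K, Kh, Kv, Set.mem_union, Set.mem_setOf_eq]
      tauto
    · rw [Set.disjoint_left]
      rintro y ⟨_, hy⟩ ⟨_, hy'⟩
      exact hy' hy
  have hK3 : Even Kv.ncard := by
    rw [hsum] at hK1
    exact (Nat.even_add.1 hK1).1 hK2
  have hKv : ∀ y ∈ Kv, M.t2 y ∈ Kv := by
    rintro y ⟨⟨hy1, hy2⟩, hy3⟩
    have hlab : ∀ z ∈ Kv, M.lab z = b' := by
      rintro z ⟨⟨hz1, hz2⟩, hz3⟩
      rcases hb2 _ hz1 hz3 with h | h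
      · exact absurd hz2 (hno z h)
      · exact h
    have hyv : y ∈ Kv := ⟨⟨hy1, hy2⟩, hy3⟩
    have hpos : 0 < Kv.ncard := (Set.ncard_pos (Set.toFinite _)).2 ⟨y, hyv⟩
    have h1 : 1 < Kv.ncard := by
      rcases hK3 with ⟨r, hr⟩
      omega
    obtain ⟨z, hz, hzy⟩ := Set.exists_ne_of_one_lt_ncard h1 y
    rcases eq_or_t2 hM ((hlab y hyv).trans (hlab z hz).symm) with h | h
    · exact absurd h hzy
    · rw [← h]
      exact hz
  have hall : ∀ e, (M.lab e).fst = Sum.inr (i, k) → e ∈ K := by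
    intro e he
    refine orbit hM (hd.trans he.symm) (fun x => x ∈ K) ?_ ⟨hd, rfl⟩
    intro x hx
    refine ⟨⟨(fst_t1 hM x).trans hx.1, (cls_t1 M l x).trans hx.2⟩, ?_⟩
    by_cases hh : Hor l (M.lab x)
    · refine ⟨?_, (cls_t2 M l x hh).trans hx.2⟩
      rw [M.lab_t2]
      exact hx.1
    · exact (hKv x ⟨hx, hh⟩).1
  obtain ⟨e, he⟩ := exists_flag (M := M) b
  exact hno e he (hall e (by rw [he]; exact hb)).2

theorem to_dn (h3 : 3 ≤ N) (M : Drawing (GG u H)) (hM : M.IsEmbedding) (l k : Fin (H + 1))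
    (hk : k ≠ l) (i : Fin N) (d : M.D) (hd : (M.lab d).fst = Sum.inr (i, k)) :
    ∃ e, M.lab e = dDn u H i k ∧ cls M l e = cls M l d := by
  refine exit h3 M hM l k hk i _ (dDn_fst u H i k) ?_ d hd
  intro j
  induction k using Fin.cases with
  | zero =>
    intro h
    change (Sum.inl (u i) : GV N H S) = Sum.inr (j, 0) at h
    cases h
  | succ k' =>
    intro h
    change (Sum.inr (i, k'.castSucc) : GV N H S) = Sum.inr (j, k'.succ) at h
    have h1 := (Prod.mk.inj (Sum.inr.inj h)).2
    exact (Fin.castSucc_lt_succ (i := k')).ne h1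

theorem to_up (h3 : 3 ≤ N) (M : Drawing (GG u H)) (hM : M.IsEmbedding) (l : Fin (H + 1))
    (k : Fin H) (hk : k.castSucc ≠ l) (i : Fin N) (d : M.D)
    (hd : (M.lab d).fst = Sum.inr (i, k.castSucc)) :
    ∃ e, M.lab e = dU u H i k ∧ cls M l e = cls M l d := by
  refine exit h3 M hM l k.castSucc hk i _ rfl ?_ d hd
  intro j h
  change (Sum.inr (i, k.succ) : GV N H S) = Sum.inr (j, k.castSucc) at h
  have h1 := (Prod.mk.inj (Sum.inr.inj h)).2
  exact (Fin.castSucc_lt_succ (i := k)).ne' h1

end Pool.Agent.NHT.NE
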