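import Pool.Agent.NHT.C2b
import Pool.Agent.NHT.C3b
import Pool.Agent.NHT.C4
import Pool.Agent.NHT.C5c
import Pool.Agent.NHT.C6
import Pool.Agent.NHT.C10b
import Pool.Agent.NHT.C11

set_option autoImplicit false

/-!
THEOREM III (no embedding), and connectedness (`GG_connected` in C11).
-/

namespace Pool.Agent.NHT

open Pool.Agent.HTE

theorem no_embedding {N : ℕ} [NeZero N] {S : Type} [Fintype S] [DecidableEq S] (hN : 5 ≤ N)
    (u : Fin N → S) (hne : ∀ i, u i ≠ u (i + 1)) (htwo : ∀ i, ∃ j, j ≠ i ∧ u j = u i)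
    (hsurj : Function.Surjective u) (F0 : ℕ)
    (hEC : ∀ (α : Type) (ω : Fin N → α), EC u ω → (Set.range ω).ncard ≤ F0)
    (H : ℕ) (hH : 40 * N + 2 ≤ H) (M : Drawing (GG u H)) (hM : M.IsEmbedding) :
    M.chi ≤ (Fintype.card S : ℤ) - N + F0 + 1 := by
  have h3 : 3 ≤ N := by omega
  have hV := NE.card_vert_le hM
  rw [NE.card_GV] at hV
  have hE := NE.card_edge M.toGMap
  have hD := NE.card_flags hM
  have hdart := NE.card_dart (u := u) (H := H) hN
  have hF := NE.face_weight hM (NE.deg hN htwo) (NE.tri hN hne)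
  by_contra hcon
  rw [not_le] at hcon
  have hchi : M.chi = (Nat.card M.Vert : ℤ) - Nat.card M.Edge + Nat.card M.Face := rfl
  have e1 : N * (H + 1) = N * H + N := by ring
  rw [e1] at hV hdart
  rw [hchi] at hcon
  have hbad : Nat.card {d : M.D // ¬ NE.Gd M.toGMap d} + 1 < H := by
    zify at hV hE hD hdart hF hH ⊢
    omega
  obtain ⟨k', k, hk, hg⟩ := NE.good_level M hbad
  obtain ⟨F⟩ := NE.exists_flat h3 hN htwo M hM hk hg
  have h1 := NE.face_le h3 M hM k.castSucc
  have h2 := NE.card_classes hM hk F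
  have h4 := hEC _ _ (NE.ec hN htwo hM hk F)
  zify at hV hE hD hdart h1 h2 h4
  omega

end Pool.Agent.NHT
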