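import Pool.Agent.NHT.E3

set_option autoImplicit false

/-!
NHT-E3b: the closed word of the code over `F_512` (section IV.3).
-/

namespace Pool.Agent.NHT

open Finset

section

variable {n : ℕ} [NeZero n]

theorem E3b_par (hn : 2 ∣ n) (i : Fin n) : (i + 1).val % 2 = (i.val + 1) % 2 := by
  rw [Fin.val_add, Nat.mod_mod_of_dvd _ hn, Fin.val_one']
  rw [Nat.add_mod, Nat.mod_mod_of_dvd _ hn, ← Nat.add_mod]

theorem E3b_par' (hn : 2 ∣ n) (i : Fin n) : i.val % 2 = ((i - 1).val + 1) % 2 := by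
  rw [← E3b_par hn (i - 1), sub_add_cancel]

variable {w : Fin n → W} {r : ℕ} {Y : Type*} {q : W → Y} {σ : W → W}

/-- `w i = σ (w (i - 1))` for the indices of parity `r`. -/
theorem E3b_prev (hn : 2 ∣ n) (hr : r < 2) (hσ : ∀ i : Fin n, i.val % 2 ≠ r → w (i + 1) = σ (w i))
    (i : Fin n) (hi : i.val % 2 = r) : w i = σ (w (i - 1)) := by
  have h1 := hσ (i - 1) (by have := E3b_par' hn i; omega)
  rw [sub_add_cancel] at h1
  exact h1

theorem E3b_q (hn : 2 ∣ n) (hr : r < 2) (hσ : ∀ i : Fin n, i.val % 2 ≠ r → w (i + 1) = σ (w i))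
    (hq : ∀ x, q (σ x) = q x) (i : Fin n) (hi : i.val % 2 = r) : q (w (i - 1)) = q (w i) := by
  rw [E3b_prev hn hr hσ i hi, hq]

/-- The sum over the legs of a star is the sum over the wires. -/
theorem E3b_sum [DecidableEq Y] (hn : 2 ∣ n) (hr : r < 2) (hw : Function.Bijective w)
    (hq : ∀ i : Fin n, i.val % 2 = r → q (w (i - 1)) = q (w i)) (F : W → ZMod 2) (p : Y) :
    ∑ i ∈ univ.filter (fun i : Fin n => i.val % 2 = r ∧ q (w i) = p), (F (w (i - 1)) + F (w i)) =
      ∑ x ∈ univ.filter (fun x => q x = p), F x := by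
  classical
  rw [Finset.sum_filter, Finset.sum_filter]
  have h1 : ∀ i : Fin n, (if i.val % 2 = r ∧ q (w i) = p then F (w (i - 1)) + F (w i) else 0) =
      (if i.val % 2 = r ∧ q (w (i - 1)) = p then F (w (i - 1)) else 0) +
      (if i.val % 2 = r ∧ q (w i) = p then F (w i) else 0) := by
    intro i
    by_cases hi : i.val % 2 = r
    · rw [hq i hi]
      by_cases hp : q (w i) = p
      · simp [hi, hp]
      · simp [hi, hp]
    · simp [hi]
  rw [Finset.sum_congr rfl (fun i _ => h1 i), Finset.sum_add_distrib]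
  have h2 : ∑ i : Fin n, (if i.val % 2 = r ∧ q (w (i - 1)) = p then F (w (i - 1)) else 0) =
      ∑ j : Fin n, (if j.val % 2 ≠ r ∧ q (w j) = p then F (w j) else 0) := by
    rw [← Equiv.sum_comp (Equiv.addRight (1 : Fin n))]
    refine Finset.sum_congr rfl fun j _ => ?_
    rw [Equiv.coe_addRight, add_sub_cancel_right]
    have h3 : (j + 1).val % 2 = r ↔ j.val % 2 ≠ r := by
      rw [E3b_par hn j]
      omega
    simp only [h3]
  rw [h2, ← Finset.sum_add_distrib]
  have h4 : ∀ j : Fin n, (if j.val % 2 ≠ r ∧ q (w j) = p then F (w j) else 0) +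
      (if j.val % 2 = r ∧ q (w j) = p then F (w j) else 0) = if q (w j) = p then F (w j) else 0 := by
    intro j
    by_cases hj : j.val % 2 = r
    · by_cases hp : q (w j) = p
      · simp [hj, hp]
      · simp [hj, hp]
    · by_cases hp : q (w j) = p
      · simp [hj, hp]
      · simp [hj, hp]
  rw [Finset.sum_congr rfl (fun i _ => h4 i)]
  exact (hw.sum_comp (fun x => if q x = p then F x else 0))

theorem E3b_trans (hn : 2 ∣ n) (hr : r < 2) (hw : Function.Bijective w)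
    (hσ : ∀ i : Fin n, i.val % 2 ≠ r → w (i + 1) = σ (w i)) (hT : Tv D q σ) {f : W → ZMod 2}
    (hf : f ∈ D) (p : Y)
    (h : ∀ i : Fin n, i.val % 2 = r → q (w i) = p → f (w (i - 1)) = f (w i)) (x y : W)
    (hx : q x = p) (hy : q y = p) : f x = f y := by
  refine hT.trans f hf p (fun x hx => ?_) x y hx hy
  obtain ⟨m, rfl⟩ := hw.2 x
  by_cases hm : m.val % 2 = r
  · have h1 := E3b_prev hn hr hσ m hm
    have h2 := h m hm hx
    have h3 : σ (w m) = w (m - 1) := by rw [h1, hT.inv]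
    rw [h3, h2]
  · have h1 := hσ m hm
    have h2 : (m + 1).val % 2 = r := by rw [E3b_par hn m]; omega
    have h3 : q (w (m + 1)) = p := by rw [h1, hT.fib]; exact hx
    have h4 := h (m + 1) h2 h3
    rw [add_sub_cancel_right, h1] at h4
    exact h4.symm

/-- Every fibre is the fibre of an index of parity `r`, and of another one. -/
theorem E3b_two (hn : 2 ∣ n) (hr : r < 2) (hw : Function.Bijective w)
    (hσ : ∀ i : Fin n, i.val % 2 ≠ r → w (i + 1) = σ (w i)) (hq : ∀ x, q (σ x) = q x) (p : Y)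
    (i : Fin n) (x : W) (hx : q x = p) (h1 : x ≠ w i) (h2 : x ≠ w (i - 1)) :
    ∃ j : Fin n, j ≠ i ∧ j.val % 2 = r ∧ q (w j) = p := by
  obtain ⟨m, rfl⟩ := hw.2 x
  by_cases hm : m.val % 2 = r
  · exact ⟨m, fun h => h1 (by rw [h]), hm, hx⟩
  · refine ⟨m + 1, fun h => h2 (by rw [← h, add_sub_cancel_right]), ?_, ?_⟩
    · rw [E3b_par hn m]; omega
    · rw [hσ m hm, hq]; exact hx

theorem E3b_surj (hn : 2 ∣ n) (hr : r < 2) (hw : Function.Bijective w)
    (hσ : ∀ i : Fin n, i.val % 2 ≠ r → w (i + 1) = σ (w i)) (hq : ∀ x, q (σ x) = q x) (p : Y)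
    (x : W) (hx : q x = p) : ∃ j : Fin n, j.val % 2 = r ∧ q (w j) = p := by
  obtain ⟨m, rfl⟩ := hw.2 x
  by_cases hm : m.val % 2 = r
  · exact ⟨m, hm, hx⟩
  · refine ⟨m + 1, ?_, ?_⟩
    · rw [E3b_par hn m]; omega
    · rw [hσ m hm, hq]; exact hx

end

theorem E3b_dvd : 2 ∣ 2 ^ 36 := ⟨2 ^ 35, by norm_num⟩

theorem E3b_inl {w : Fin (2 ^ 36) → W} {i : Fin (2 ^ 36)} {p : K × K × K} :
    ustar w i = Sum.inl p ↔ i.val % 2 = 1 ∧ pt (w i) = p := by
  unfold ustar
  by_cases h : i.val % 2 = 0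
  · simp [h]
  · have h1 : i.val % 2 = 1 := by omega
    simp [h1]

theorem E3b_inr {w : Fin (2 ^ 36) → W} {i : Fin (2 ^ 36)} {l : K × K × K} :
    ustar w i = Sum.inr l ↔ i.val % 2 = 0 ∧ ln (w i) = l := by
  unfold ustar
  by_cases h : i.val % 2 = 0
  · simp [h]
  · have h1 : i.val % 2 = 1 := by omega
    simp [h1]

/-- More than two wires in a star. -/
theorem E3b_more {Y : Type*} [DecidableEq Y] {q : W → Y} {p : Y}
    (h : (univ.filter (fun x => q x = p)).card = 512) (y z : W) : ∃ x, q x = p ∧ x ≠ y ∧ x ≠ z := by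
  classical
  by_contra hcon
  push Not at hcon
  have h1 : univ.filter (fun x => q x = p) ⊆ ({y, z} : Finset W) := by
    intro x hx
    rw [Finset.mem_filter] at hx
    rw [Finset.mem_insert, Finset.mem_singleton]
    by_contra h2
    push Not at h2
    exact h2.2 (hcon x hx.2 h2.1)
  have h2 := Finset.card_le_card h1
  have h3 := Finset.card_le_two (a := y) (b := z)
  omega

/-- The closed word. `u = ustar w`, `C = {f ∘ w | f ∈ D}` (`Submodule.map` or `comap` along
`LinearEquiv.funCongrLeft`/`LinearMap.funLeft`; `dim` from `finrank_D` as `w` is bijective).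
For even `i`: `ln (w (i-1)) = ln (w i)` (`i - 1` is odd also for `i = 0`: `i - 1 = 2^36 - 1`), for odd `i`:
`pt (w (i-1)) = pt (w i)`.
* `orth`: for a point star `s = inl p` the legs `i` at `s` are the odd `i` with `pt (w i) = p`, and
  `i ↦ w (i-1), w i` enumerates the wires with point `p`, each exactly once (the wire `w m` occurs in the leg `m` if
  `m` is odd and in the leg `m + 1` if `m` is even); `D_orth_pt`. Line stars similarly, `D_orth_ln`.
* `trans`: if `φ (i-1) = φ i` for all legs `i` of `s = inl p` then `f (τ x) = f x` for all wires `x` with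
  `pt x = p`, so `f` is constant on them (`Tv.trans`).
* `ne`: `u i`, `u (i+1)` are of different kind (`2^36` is even).
* `surj`: every point `p` is the point of a wire `w m`, take the leg `m` or `m + 1`. `two`: the star has `512`
  wires (`card_pt`), every leg covers two.
* `girth`: `eight_le_card` for `T' = T.image w`: for `i ∈ T` the stars `u i`, `u (i+1)` are, in some order,
  `inl (pt (w i))` and `inr (ln (w i))`; if `u j = u i` or `u (j+1) = u i`, and `u i = inl p` then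
  `pt (w j) = p = pt (w i)` (the stars `u j`, `u (j+1)` are `inl (pt (w j))`, `inr (ln (w j))` in some order). -/
theorem exists_CW : Nonempty (CW (2 ^ 36) S1 8687672299) := by
  classical
  obtain ⟨w, τ, τ', hw, hτ, hτ', h0, h1⟩ := exists_good
  have hd := E3b_dvd
  have k1 : ∀ i : Fin (2 ^ 36), i.val % 2 ≠ 1 → w (i + 1) = τ (w i) :=
    fun i hi => h0 i (by omega)
  have k0 : ∀ i : Fin (2 ^ 36), i.val % 2 ≠ 0 → w (i + 1) = τ' (w i) :=
    fun i hi => h1 i (by omega)
  have q1 : ∀ i : Fin (2 ^ 36), i.val % 2 = 1 → pt (w (i - 1)) = pt (w i) :=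
    E3b_q hd (by norm_num) k1 hτ.fib
  have q0 : ∀ i : Fin (2 ^ 36), i.val % 2 = 0 → ln (w (i - 1)) = ln (w i) :=
    E3b_q hd (by norm_num) k0 hτ'.fib
  let e : Fin (2 ^ 36) ≃ W := Equiv.ofBijective w hw
  have he : ∀ i, e i = w i := fun i => rfl
  have hmem : ∀ φ : Fin (2 ^ 36) → ZMod 2,
      φ ∈ D.map (LinearEquiv.funCongrLeft (ZMod 2) (ZMod 2) e).toLinearMap →
      ∃ f ∈ D, ∀ i, φ i = f (w i) := by
    intro φ hφ
    obtain ⟨f, hf, rfl⟩ := Submodule.mem_map.1 hφ
    exact ⟨f, hf, fun i => rfl⟩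
  have hend : ∀ i : Fin (2 ^ 36),
      (ustar w i = Sum.inl (pt (w i)) ∧ ustar w (i + 1) = Sum.inr (ln (w i))) ∨
      (ustar w i = Sum.inr (ln (w i)) ∧ ustar w (i + 1) = Sum.inl (pt (w i))) := by
    intro i
    have hp := E3b_par hd i
    rcases Nat.mod_two_eq_zero_or_one i.val with hi | hi
    · right
      refine ⟨E3b_inr.2 ⟨hi, rfl⟩, E3b_inl.2 ⟨by omega, ?_⟩⟩
      rw [h0 i hi, hτ.fib]
    · left
      refine ⟨E3b_inl.2 ⟨hi, rfl⟩, E3b_inr.2 ⟨by omega, ?_⟩⟩
      rw [h1 i hi, hτ'.fib]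
  have hpt : ∀ j p, (ustar w j = Sum.inl p ∨ ustar w (j + 1) = Sum.inl p) → pt (w j) = p := by
    intro j p h
    rcases hend j with ⟨h2, h3⟩ | ⟨h2, h3⟩ <;> rw [h2, h3] at h
    · rcases h with h | h
      · exact Sum.inl.inj h
      · exact absurd h (by simp)
    · rcases h with h | h
      · exact absurd h (by simp)
      · exact Sum.inl.inj h
  have hln : ∀ j l, (ustar w j = Sum.inr l ∨ ustar w (j + 1) = Sum.inr l) → ln (w j) = l := by
    intro j p h
    rcases hend j with ⟨h2, h3⟩ | ⟨h2, h3⟩ <;> rw [h2, h3] at h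
    · rcases h with h | h
      · exact absurd h (by simp)
      · exact Sum.inr.inj h
    · rcases h with h | h
      · exact Sum.inr.inj h
      · exact absurd h (by simp)
  refine ⟨{
    u := ustar w
    C := D.map (LinearEquiv.funCongrLeft (ZMod 2) (ZMod 2) e).toLinearMap
    one := ?_
    dim := ?_
    orth := ?_
    trans := ?_
    ne := ?_
    surj := ?_
    two := ?_
    girth := ?_ }⟩
  · exact Submodule.mem_map.2 ⟨1, one_mem_D, rfl⟩
  · rw [LinearEquiv.finrank_map_eq]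
    exact finrank_D
  · intro φ hφ ψ hψ s
    obtain ⟨f, hf, hφ'⟩ := hmem φ hφ
    obtain ⟨g, hg, hψ'⟩ := hmem ψ hψ
    rcases s with p | l
    · have h2 := E3b_sum hd (by norm_num) hw q1 (fun x => f x * g x) p
      rw [D_orth_pt hf hg p] at h2
      rw [← h2]
      refine Finset.sum_congr ?_ fun i _ => ?_
      · ext i
        simp only [Finset.mem_filter, Finset.mem_univ, true_and]
        exact E3b_inl
      · rw [hφ', hφ', hψ', hψ']
    · have h2 := E3b_sum hd (by norm_num) hw q0 (fun x => f x * g x) l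
      rw [D_orth_ln hf hg l] at h2
      rw [← h2]
      refine Finset.sum_congr ?_ fun i _ => ?_
      · ext i
        simp only [Finset.mem_filter, Finset.mem_univ, true_and]
        exact E3b_inr
      · rw [hφ', hφ', hψ', hψ']
  · intro φ hφ s h i j hi hj
    obtain ⟨f, hf, hφ'⟩ := hmem φ hφ
    rw [hφ', hφ']
    rcases s with p | l
    · refine E3b_trans hd (by norm_num) hw k1 hτ hf p (fun i hi hp => ?_) _ _ (E3b_inl.1 hi).2
        (E3b_inl.1 hj).2
      rw [← hφ', ← hφ']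
      exact h i (E3b_inl.2 ⟨hi, hp⟩)
    · refine E3b_trans hd (by norm_num) hw k0 hτ' hf l (fun i hi hp => ?_) _ _ (E3b_inr.1 hi).2
        (E3b_inr.1 hj).2
      rw [← hφ', ← hφ']
      exact h i (E3b_inr.2 ⟨hi, hp⟩)
  · intro i h
    rcases hend i with ⟨h2, h3⟩ | ⟨h2, h3⟩ <;> rw [h2, h3] at h <;> exact absurd h (by simp)
  · intro s
    rcases s with p | l
    · obtain ⟨j, hj, hq⟩ := E3b_surj hd (by norm_num) hw k1 hτ.fib p (p.1, 0, p.2.1, p.2.2) rfl
      exact ⟨j, E3b_inl.2 ⟨hj, hq⟩⟩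
    · obtain ⟨j, hj, hq⟩ := E3b_surj hd (by norm_num) hw k0 hτ'.fib l (0, l.1, l.2.1, l.2.2)
        (by simp [ln])
      exact ⟨j, E3b_inr.2 ⟨hj, hq⟩⟩
  · intro i
    rcases Nat.mod_two_eq_zero_or_one i.val with hi | hi
    · obtain ⟨x, hx, hx1, hx2⟩ := E3b_more (card_ln (ln (w i))) (w i) (w (i - 1))
      obtain ⟨j, hji, hj, hq⟩ := E3b_two hd (by norm_num) hw k0 hτ'.fib _ i x hx hx1 hx2
      exact ⟨j, hji, by rw [E3b_inr.2 ⟨hj, hq⟩, E3b_inr.2 ⟨hi, rfl⟩]⟩
    · obtain ⟨x, hx, hx1, hx2⟩ := E3b_more (card_pt (pt (w i))) (w i) (w (i - 1))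
      obtain ⟨j, hji, hj, hq⟩ := E3b_two hd (by norm_num) hw k1 hτ.fib _ i x hx hx1 hx2
      exact ⟨j, hji, by rw [E3b_inl.2 ⟨hj, hq⟩, E3b_inl.2 ⟨hi, rfl⟩]⟩
  · intro T hT hTT
    rw [← Finset.card_image_of_injective T hw.1]
    refine eight_le_card (T.image w) (hT.image w) (fun x hx => ?_) (fun x hx => ?_)
    · obtain ⟨i, hi, rfl⟩ := Finset.mem_image.1 hx
      obtain ⟨⟨j, hj, hji, hj'⟩, ⟨k, hk, hki, hk'⟩⟩ := hTT i hi
      rcases hend i with ⟨h2, h3⟩ | ⟨h2, h3⟩
      · rw [h2] at hj'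
        exact ⟨w j, Finset.mem_image_of_mem _ hj, fun h => hji (hw.1 h), hpt _ _ hj'⟩
      · rw [h3] at hk'
        exact ⟨w k, Finset.mem_image_of_mem _ hk, fun h => hki (hw.1 h), hpt _ _ hk'⟩
    · obtain ⟨i, hi, rfl⟩ := Finset.mem_image.1 hx
      obtain ⟨⟨j, hj, hji, hj'⟩, ⟨k, hk, hki, hk'⟩⟩ := hTT i hi
      rcases hend i with ⟨h2, h3⟩ | ⟨h2, h3⟩
      · rw [h3] at hk'
        exact ⟨w k, Finset.mem_image_of_mem _ hk, fun h => hki (hw.1 h), hln _ _ hk'⟩
      · rw [h2] at hj'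
        exact ⟨w j, Finset.mem_image_of_mem _ hj, fun h => hji (hw.1 h), hln _ _ hj'⟩

end Pool.Agent.NHT
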