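import Pool.Agent.NHT.E0

set_option autoImplicit false

/-!
NHT-E7: a symmetric bilinear form of rank `≤ r` over `F_2` is a sum of `r + 1` squares of linear
functionals (section IV.8).
-/

namespace Pool.Agent.NHT

open Finset Module

/-- Section IV.8, induction on `r` (strong). `B : V →ₗ V →ₗ ZMod 2` symmetric.
`r = 0`: `ker B = ⊤`, `B = 0`, take `0`.
If some `B x x = 1`: `B' = B - B x ⊗ B x` (`B' u v = B u v + B x u * B x v`), `ker B' ⊇ ker B + ⟨x⟩`, `x ∉ ker B`; so
`finrank (ker B') ≥ finrank (ker B) + 1`; the induction gives `r` functionals, add `B x`.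
Otherwise `B` is alternating; if `B = 0` take `0`s; else `B u v = 1`:
`B' x y = B x y + B u x * B v y + B v x * B u y` is symmetric with `ker B' ⊇ ker B + ⟨u, v⟩` (dimension `+2`), so
`r ≥ 2`; `B'` is the sum of `r - 1 ≥ 1` squares `y_i`; replace `y_0` by `y_0 + B u`, `y_0 + B v`, `y_0 + B u + B v`:
`(y+a)² + (y+b)² + (y+a+b)² = y² + ab + ba` in characteristic `2`. (If the rank is smaller than allowed pad with
zero functionals.) -/
theorem sum_squares {V : Type*} [AddCommGroup V] [Module (ZMod 2) V] [FiniteDimensional (ZMod 2) V]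
    (r : ℕ) (B : V →ₗ[ZMod 2] V →ₗ[ZMod 2] ZMod 2) (hsymm : ∀ u v, B u v = B v u)
    (hr : finrank (ZMod 2) V ≤ finrank (ZMod 2) (LinearMap.ker B) + r) :
    ∃ Y : Fin (r + 1) → (V →ₗ[ZMod 2] ZMod 2), ∀ u v, B u v = ∑ i, Y i u * Y i v := by
  induction r using Nat.strong_induction_on generalizing B with
  | _ r ih =>
    by_cases hB0 : B = 0
    · refine ⟨fun _ => 0, fun u v => ?_⟩
      rw [hB0]
      simp
    · have hkerV : finrank (ZMod 2) (LinearMap.ker B) < finrank (ZMod 2) V := by
        refine Submodule.finrank_lt ?_
        intro h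
        exact hB0 (LinearMap.ker_eq_top.1 h)
      by_cases hx : ∃ x, B x x = 1
      · obtain ⟨x, hx⟩ := hx
        obtain ⟨r', rfl⟩ : ∃ r', r = r' + 1 := ⟨r - 1, by omega⟩
        set B' : V →ₗ[ZMod 2] V →ₗ[ZMod 2] ZMod 2 := B + (B x).smulRight (B x) with hB'
        have hval : ∀ u v, B' u v = B u v + B x u * B x v := fun u v => rfl
        have hle : LinearMap.ker B ≤ LinearMap.ker B' := by
          intro v hv
          rw [LinearMap.mem_ker] at hv ⊢
          ext y
          rw [hval, hv, hsymm x v, hv]
          simp
        have hxk : x ∈ LinearMap.ker B' := by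
          rw [LinearMap.mem_ker]
          ext y
          rw [hval, hx, one_mul, CharTwo.add_self_eq_zero]
          rfl
        have hxn : x ∉ LinearMap.ker B := by
          intro h
          rw [LinearMap.mem_ker] at h
          rw [h] at hx
          exact zero_ne_one hx
        have hlt : finrank (ZMod 2) (LinearMap.ker B) < finrank (ZMod 2) (LinearMap.ker B') :=
          Submodule.finrank_lt_finrank_of_lt (lt_of_le_of_ne hle fun h => hxn (h ▸ hxk))
        obtain ⟨Y, hY⟩ := ih r' (by omega) B' (fun u v => by rw [hval, hval, hsymm u v, mul_comm]) (by omega)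
        refine ⟨Fin.cons (B x) Y, fun u v => ?_⟩
        rw [Fin.sum_univ_succ]
        simp only [Fin.cons_zero, Fin.cons_succ]
        rw [← hY, hval]
        have h2 : B x u * B x v + B x u * B x v = 0 := CharTwo.add_self_eq_zero _
        linear_combination -h2
      · push Not at hx
        have halt : ∀ x, B x x = 0 := by
          intro x
          have h := hx x
          have h3 : ∀ a : ZMod 2, a ≠ 1 → a = 0 := by decide
          exact h3 _ h
        obtain ⟨u, v, huv⟩ : ∃ u v, B u v = 1 := by
          by_contra hcon
          push Not at hcon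
          apply hB0
          ext u v
          have h3 : ∀ a : ZMod 2, a ≠ 1 → a = 0 := by decide
          exact h3 _ (hcon u v)
        set B' : V →ₗ[ZMod 2] V →ₗ[ZMod 2] ZMod 2 := B + (B u).smulRight (B v) + (B v).smulRight (B u) with hB'
        have hval : ∀ x y, B' x y = B x y + B u x * B v y + B v x * B u y := fun x y => rfl
        have hle : LinearMap.ker B ≤ LinearMap.ker B' := by
          intro x hx'
          rw [LinearMap.mem_ker] at hx' ⊢
          ext y
          rw [hval, hx', hsymm u x, hsymm v x, hx']
          simp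
        have hvu : B v u = 1 := by rw [hsymm]; exact huv
        have huk : u ∈ LinearMap.ker B' := by
          rw [LinearMap.mem_ker]
          ext y
          rw [hval, halt, hvu, zero_mul, one_mul, add_zero, CharTwo.add_self_eq_zero]
          rfl
        have hvk : v ∈ LinearMap.ker B' := by
          rw [LinearMap.mem_ker]
          ext y
          rw [hval, halt, huv, zero_mul, one_mul, add_zero, CharTwo.add_self_eq_zero]
          rfl
        have hun : u ∉ LinearMap.ker B := by
          intro h
          rw [LinearMap.mem_ker] at h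
          rw [h] at huv
          exact zero_ne_one huv
        set M : Submodule (ZMod 2) V := LinearMap.ker B ⊔ Submodule.span (ZMod 2) {u} with hM
        have hM1 : LinearMap.ker B < M := by
          refine lt_of_le_of_ne le_sup_left fun h => hun ?_
          rw [h]
          exact Submodule.mem_sup_right (Submodule.mem_span_singleton_self u)
        have hvM : v ∉ M := by
          intro h
          rw [hM, Submodule.mem_sup] at h
          obtain ⟨x, hx1, y, hy1, rfl⟩ := h
          obtain ⟨c, rfl⟩ := Submodule.mem_span_singleton.1 hy1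
          rw [LinearMap.mem_ker] at hx1
          rw [map_add, map_smul, halt, smul_zero, add_zero, hsymm, hx1] at huv
          exact zero_ne_one huv
        have hM2 : M < LinearMap.ker B' := by
          refine lt_of_le_of_ne ?_ fun h => hvM (h ▸ hvk)
          rw [hM]
          refine sup_le hle ?_
          rw [Submodule.span_singleton_le_iff_mem]
          exact huk
        have h1 := Submodule.finrank_lt_finrank_of_lt hM1
        have h2 := Submodule.finrank_lt_finrank_of_lt hM2
        have h3 := Submodule.finrank_le (LinearMap.ker B')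
        obtain ⟨r', rfl⟩ : ∃ r', r = r' + 2 := ⟨r - 2, by omega⟩
        obtain ⟨Y, hY⟩ := ih r' (by omega) B' (fun x y => by rw [hval, hval, hsymm x y]; ring) (by omega)
        refine ⟨Fin.cons (Y 0 + B u) (Fin.cons (Y 0 + B v) (Fin.cons (Y 0 + B u + B v) (fun i : Fin r' => Y i.succ))), fun x y => ?_⟩
        rw [Fin.sum_univ_succ, Fin.sum_univ_succ, Fin.sum_univ_succ]
        simp only [Fin.cons_zero, Fin.cons_succ, LinearMap.add_apply]
        have h4 := hY x y
        rw [Fin.sum_univ_succ, hval] at h4
        have h5 : (2 : ZMod 2) = 0 := by decide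
        linear_combination h4 - (Y 0 x * Y 0 y + Y 0 x * B u y + B u x * Y 0 y + Y 0 x * B v y + B v x * Y 0 y +
          B u x * B u y + B v x * B v y + B u x * B v y + B v x * B u y) * h5

/-- Matrix version: `V = J → ZMod 2`; `R` is a subspace of the radical. `B (e_j) (e_k) = B j k`. -/
theorem exists_Y {J : Type*} [Fintype J] [DecidableEq J] (B : J → J → ZMod 2)
    (hsymm : ∀ j k, B j k = B k j) (R : Submodule (ZMod 2) (J → ZMod 2))
    (hR : ∀ v ∈ R, ∀ k, ∑ j, v j * B j k = 0) (r : ℕ)
    (hr : Fintype.card J ≤ finrank (ZMod 2) R + r) :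
    ∃ Y : J → Fin (r + 1) → ZMod 2, ∀ j k, ∑ i, Y j i * Y k i = B j k := by
  let Bl : (J → ZMod 2) →ₗ[ZMod 2] (J → ZMod 2) →ₗ[ZMod 2] ZMod 2 :=
    LinearMap.mk₂ (ZMod 2) (fun v w => ∑ k, w k * ∑ j, v j * B j k)
      (fun v v' w => by
        simp only [Pi.add_apply, add_mul, Finset.sum_add_distrib, mul_add])
      (fun c v w => by
        simp only [Pi.smul_apply, smul_eq_mul, Finset.mul_sum]
        refine Finset.sum_congr rfl fun k _ => Finset.sum_congr rfl fun j _ => ?_
        ring)
      (fun v w w' => by
        simp only [Pi.add_apply, add_mul, Finset.sum_add_distrib])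
      (fun c v w => by
        simp only [Pi.smul_apply, smul_eq_mul, Finset.mul_sum]
        refine Finset.sum_congr rfl fun k _ => Finset.sum_congr rfl fun j _ => ?_
        ring)
  have hBl : ∀ v w, Bl v w = ∑ k, w k * ∑ j, v j * B j k := fun v w => rfl
  have hs : ∀ v w, Bl v w = Bl w v := by
    intro v w
    rw [hBl, hBl]
    simp only [Finset.mul_sum]
    rw [Finset.sum_comm]
    refine Finset.sum_congr rfl fun k _ => Finset.sum_congr rfl fun j _ => ?_
    rw [hsymm k j]
    ring
  have hk : R ≤ LinearMap.ker Bl := by
    intro v hv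
    rw [LinearMap.mem_ker]
    apply LinearMap.ext
    intro w
    rw [hBl]
    refine Finset.sum_eq_zero fun k _ => ?_
    rw [hR v hv k, mul_zero]
  have hfr := Submodule.finrank_mono hk
  obtain ⟨Y, hY⟩ := sum_squares r Bl hs (by rw [Module.finrank_pi]; omega)
  refine ⟨fun j i => Y i (Pi.single j 1), fun j k => ?_⟩
  rw [← hY, hBl]
  rw [Finset.sum_eq_single k, Finset.sum_eq_single j]
  · simp
  · intro b _ hb
    rw [Pi.single_eq_of_ne hb, zero_mul]
  · intro h
    exact absurd (Finset.mem_univ _) h
  · intro b _ hb
    rw [Pi.single_eq_of_ne hb, zero_mul]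
  · intro h
    exact absurd (Finset.mem_univ _) h

end Pool.Agent.NHT
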