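import Pool.Agent.NHT.E6b
import Pool.Agent.NHT.E7

set_option autoImplicit false

/-!
NHT-E8: the matrix `Y` and the bound for the labellings (sections IV.7, III.8).
-/

namespace Pool.Agent.NHT

open Finset Module

variable {n : ℕ} [NeZero n] {S : Type} [DecidableEq S] {k : ℕ}

/-- The number of nontree legs: `tj` is injective, so there are `j * |S|` tree legs. -/
theorem card_nontree (X : CW n S k) [Fintype S] (j : ℕ) :
    Fintype.card {i : Fin (j * n) // i ≠ tj X j (wj X j i)} + j * Fintype.card S = j * n := by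
  have e : {i : Fin (j * n) // i = tj X j (wj X j i)} ≃ Fin j × S :=
    { toFun := fun i => wj X j i.1
      invFun := fun s => ⟨tj X j s, by rw [wj_tj]⟩
      left_inv := fun i => Subtype.ext i.2.symm
      right_inv := fun s => wj_tj X j s }
  have h1 := Fintype.card_congr (Equiv.sumCompl (fun i : Fin (j * n) => i = tj X j (wj X j i)))
  have h2 := Fintype.card_congr e
  rw [Fintype.card_sum, Fintype.card_fin, h2, Fintype.card_prod, Fintype.card_fin] at h1
  rw [add_comm]
  exact h1

/-- `exists_form`, `exists_Y` for the type of nontree legs and `R =` the image of `Fj` under `φ ↦ z_φ` (restricted to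
the nontree legs), `finrank R = finrank Fj ≥ j (k-1)` (`Fj_inj`, `finrank_Fj`). -/
theorem exists_Yj (X : CW n S k) [Fintype S] {j : ℕ} [NeZero j] (r : ℕ)
    (hr : j * n ≤ j * Fintype.card S + j * (k - 1) + r) :
    ∃ Y : Fin (j * n) → Fin (r + 1) → ZMod 2, ∀ i i', i ≠ tj X j (wj X j i) →
      i' ≠ tj X j (wj X j i') → wj X j i ≠ wj X j i' →
      ∑ l, Y i l * Y i' l = chord (wj X j) (tj X j) i i' := by
  classical
  obtain ⟨B, hsymm, hch, hrad⟩ := exists_form X (j := j)
  let J : Type := {i : Fin (j * n) // i ≠ tj X j (wj X j i)}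
  let T : (Fin (j * n) → ZMod 2) →ₗ[ZMod 2] (J → ZMod 2) :=
    { toFun := fun φ x => zz φ x.1
      map_add' := fun φ ψ => by
        funext x
        simp only [zz, Pi.add_apply]
        ring
      map_smul' := fun a φ => by
        funext x
        simp only [zz, Pi.smul_apply, smul_eq_mul, RingHom.id_apply]
        ring }
  have hTinj : Function.Injective (T.domRestrict (Fj X j)) := by
    rw [← LinearMap.ker_eq_bot, LinearMap.ker_eq_bot']
    intro φ hφ
    apply Subtype.ext
    apply Fj_inj X φ.2
    intro i hi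
    exact congrFun hφ ⟨i, hi⟩
  have hfin : finrank (ZMod 2) (LinearMap.range (T.domRestrict (Fj X j))) =
      finrank (ZMod 2) (Fj X j) := LinearMap.finrank_range_of_inj hTinj
  have hcard : Fintype.card J + j * Fintype.card S = j * n := card_nontree X j
  have hF := finrank_Fj X (j := j)
  obtain ⟨Y, hY⟩ := exists_Y (J := J) (fun x y => B x.1 y.1) (fun x y => hsymm x.1 y.1)
    (LinearMap.range (T.domRestrict (Fj X j))) (by
      rintro v ⟨φ, rfl⟩ y
      have h := hrad φ.1 φ.2 y.1 y.2
      rw [← h]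
      rw [Finset.sum_subtype (univ.filter (fun i => i ≠ tj X j (wj X j i)))
        (p := fun i => i ≠ tj X j (wj X j i)) (by intro i; simp)]
      rfl) r (by
      rw [hfin]
      omega)
  refine ⟨fun i => if h : i ≠ tj X j (wj X j i) then Y ⟨i, h⟩ else 0, fun i i' hi hi' hne => ?_⟩
  rw [← hch i i' hi hi' hne]
  have e1 : (fun i => if h : i ≠ tj X j (wj X j i) then Y ⟨i, h⟩ else 0) i = Y ⟨i, hi⟩ := dif_pos hi
  have e2 : (fun i => if h : i ≠ tj X j (wj X j i) then Y ⟨i, h⟩ else 0) i' = Y ⟨i', hi'⟩ :=
    dif_pos hi'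
  rw [e1, e2]
  exact hY ⟨i, hi⟩ ⟨i', hi'⟩

end Pool.Agent.NHT
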