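import Pool.Agent.NHT.E6

set_option autoImplicit false

/-!
NHT-E8b: the bound for the labellings (section III.8).
-/

namespace Pool.Agent.NHT

open Finset

variable {n : ℕ} [NeZero n] {S : Type} [DecidableEq S] {k : ℕ}

/-- Section III.8. Let `ω` have `EC`. Call a wire `(c, -1)` a cut wire. A value `a` not taken on cut wires:
take `i₀ = (c, r₀)` with `ω i₀ = a`; `T = {r | ω (c, r) = a}` (all `r ≠ -1`). For `r ∈ T`, `i = (c, r)`: `EC` gives
`i' ≠ i` with `wj i' = wj i = (c, u r)` and `ω i' = a` or `ω (i'-1) = a`. In the first case `i' = (c, r')`, `r' ∈ T`, `r' ≠ r`,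
`u r' = u r`. In the second case `i' - 1` has value `a`, so it is not a cut wire, `i' = (c, r')`,
`i' - 1 = (c, r'-1)` (`r' ≠ 0`), `r' - 1 ∈ T`, `u ((r'-1)+1) = u r`, and `r' - 1 ≠ r` because otherwise
`u (r+1) = u r` (`X.ne`). Similarly at the star `u (r+1)` (here `i + 1 = (c, r+1)` since `i` is not a cut wire;
`i' ≠ i + 1`; first case: wire `i'` itself, if `i' = i` then `u r = u (r+1)`, contradiction; second case:
`i' - 1 ≠ i`). So `X.girth T` gives `|T| ≥ 8`: at least `8` wires have the value `a`. The number of values is at most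
`j + (j n) / 8`. -/
theorem EC_bound (X : CW n S k) {j : ℕ} [NeZero j] {α : Type} (ω : Fin (j * n) → α)
    (h : EC (wj X j) ω) : 8 * (Set.range ω).ncard ≤ 8 * j + j * n := by
  classical
  set R : Finset α := univ.image ω with hR
  set D : Finset α := univ.image (fun c : Fin j => ω (finProdFinEquiv (c, (-1 : Fin n)))) with hD
  have hRr : Set.range ω = (R : Set α) := by
    rw [hR, Finset.coe_image, Finset.coe_univ, Set.image_univ]
  rw [hRr, Set.ncard_coe_finset]
  have hDc : D.card ≤ j := by
    refine Finset.card_image_le.trans ?_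
    rw [Finset.card_univ, Fintype.card_fin]
  have hRD : R.card ≤ D.card + (R \ D).card := by
    have := Finset.card_le_card_sdiff_add_card (s := R) (t := D)
    omega
  have hfib : ∀ a ∈ R \ D, 8 ≤ (univ.filter (fun i => ω i = a)).card := by
    intro a ha
    rw [Finset.mem_sdiff, hR, Finset.mem_image] at ha
    obtain ⟨⟨i₀, -, hi₀⟩, haD⟩ := ha
    have hcut : ∀ c : Fin j, ω (finProdFinEquiv (c, (-1 : Fin n))) ≠ a := by
      intro c hc
      apply haD
      rw [hD, Finset.mem_image]
      exact ⟨c, Finset.mem_univ _, hc⟩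
    obtain ⟨⟨c, r₀⟩, hcr⟩ : ∃ x, finProdFinEquiv x = i₀ := finProdFinEquiv.surjective i₀
    set T : Finset (Fin n) := univ.filter (fun r => ω (finProdFinEquiv (c, r)) = a) with hT
    have hmT : ∀ r, r ∈ T ↔ ω (finProdFinEquiv (c, r)) = a := fun r => by
      rw [hT, Finset.mem_filter]
      exact ⟨fun h => h.2, fun h => ⟨Finset.mem_univ _, h⟩⟩
    have hTn : T.Nonempty := ⟨r₀, by rw [hmT, hcr, hi₀]⟩
    -- from a leg of the copy
    have hleg : ∀ (i' : Fin (j * n)) (s : S), wj X j i' = (c, s) → (ω i' = a ∨ ω (i' - 1) = a) →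
        ∃ r', i' = finProdFinEquiv (c, r') ∧ X.u r' = s ∧ (r' ∈ T ∨ (r' - 1 ∈ T ∧ X.u ((r' - 1) + 1) = s)) := by
      intro i' s hw ho
      obtain ⟨⟨c', r'⟩, rfl⟩ : ∃ x, finProdFinEquiv x = i' := finProdFinEquiv.surjective i'
      rw [wj_apply, Prod.mk.injEq] at hw
      obtain ⟨rfl, hs⟩ := hw
      refine ⟨r', rfl, hs, ?_⟩
      rcases ho with ho | ho
      · exact Or.inl ((hmT r').2 ho)
      · right
        have hr0 : r' ≠ 0 := by
          rintro rfl
          have h1 := add_one_last (n := n) (c' - 1)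
          rw [sub_add_cancel] at h1
          rw [← h1, add_sub_cancel_right] at ho
          exact hcut _ ho
        have h1 := add_one_copy (j := j) c' (r' - 1) (by rw [sub_add_cancel]; exact hr0)
        rw [sub_add_cancel] at h1
        rw [← h1, add_sub_cancel_right] at ho
        exact ⟨(hmT _).2 ho, by rw [sub_add_cancel]; exact hs⟩
    have hTc : 8 ≤ T.card := by
      refine X.girth T hTn fun r hr => ?_
      have hor := (hmT r).1 hr
      have hr1 : r + 1 ≠ 0 := by
        intro h0
        have hr' : r = -1 := eq_neg_of_add_eq_zero_left h0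
        rw [hr'] at hor
        exact hcut c hor
      obtain ⟨⟨i1, hi1, hw1, ho1⟩, ⟨i2, hi2, hw2, ho2⟩⟩ := h (finProdFinEquiv (c, r))
      rw [hor] at ho1 ho2
      rw [wj_apply] at hw1
      rw [add_one_copy c r hr1] at hi2 hw2
      rw [wj_apply] at hw2
      refine ⟨?_, ?_⟩
      · obtain ⟨r', he, hs, hcase⟩ := hleg i1 _ hw1 ho1
        have hrr : r' ≠ r := fun h0 => hi1 (by rw [he, h0])
        rcases hcase with h1 | ⟨h1, h2⟩
        · exact ⟨r', h1, hrr, Or.inl hs⟩
        · refine ⟨r' - 1, h1, ?_, Or.inr h2⟩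
          intro h3
          rw [h3] at h2
          exact X.ne r h2.symm
      · obtain ⟨r', he, hs, hcase⟩ := hleg i2 _ hw2 ho2
        have hrr : r' ≠ r + 1 := fun h0 => hi2 (by rw [he, h0])
        rcases hcase with h1 | ⟨h1, h2⟩
        · refine ⟨r', h1, ?_, Or.inl hs⟩
          intro h3
          rw [h3] at hs
          exact X.ne r hs
        · refine ⟨r' - 1, h1, ?_, Or.inr h2⟩
          intro h3
          exact hrr (eq_add_of_sub_eq h3)
    refine hTc.trans ?_
    refine Finset.card_le_card_of_injOn (fun r => finProdFinEquiv (c, r)) ?_ ?_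
    · intro r hr
      have h1 := (hmT r).1 hr
      rw [Finset.mem_coe, Finset.mem_filter]
      exact ⟨Finset.mem_univ _, h1⟩
    · intro r _ r' _ h1
      exact congrArg Prod.snd (finProdFinEquiv.injective h1)
  have hsum : 8 * (R \ D).card ≤ j * n := by
    have h1 : ∑ a ∈ R \ D, (univ.filter (fun i => ω i = a)).card ≤ (univ : Finset (Fin (j * n))).card := by
      rw [← Finset.card_biUnion]
      · exact Finset.card_le_card (Finset.subset_univ _)
      · intro a _ b _ hab
        show Disjoint _ _
        rw [Finset.disjoint_left]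
        intro i hi hi'
        rw [Finset.mem_filter] at hi hi'
        exact hab (hi.2.symm.trans hi'.2)
    have h2 : (R \ D).card * 8 ≤ ∑ a ∈ R \ D, (univ.filter (fun i => ω i = a)).card := by
      rw [← smul_eq_mul]
      exact Finset.card_nsmul_le_sum _ _ _ hfib
    rw [Finset.card_univ, Fintype.card_fin] at h1
    omega
  omega

end Pool.Agent.NHT
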