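import Pool.Agent.NHT.F0

set_option autoImplicit false

/-!
NHT-F1: adding a block `x y x y` of four legs at the end of the word.
-/

namespace Pool.Agent.NHT

variable {N : ℕ} [NeZero N] {S : Type} {r F : ℕ}

/-- The new word: `u` on the old positions `Fin.castAdd 4 i`, and `x y x y` (`x = inr 0`, `y = inr 1`) on the new positions
`Fin.natAdd N k`, `k = 0, 1, 2, 3`. -/
def uext (u : Fin N → S) : Fin (N + 4) → S ⊕ Fin 2 :=
  Fin.addCases (fun i => Sum.inl (u i)) (fun k : Fin 4 => Sum.inr (if k.val % 2 = 0 then 0 else 1))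

theorem uext_old (u : Fin N → S) (i : Fin N) : uext u (Fin.castAdd 4 i) = Sum.inl (u i) := by
  unfold uext
  rw [Fin.addCases_left]

theorem uext_new (u : Fin N → S) (k : Fin 4) :
    uext u (Fin.natAdd N k) = Sum.inr (if k.val % 2 = 0 then 0 else 1) := by
  unfold uext
  rw [Fin.addCases_right]

theorem F1_val_add_one {M : ℕ} [NeZero M] (i : Fin M) :
    (i + 1).val = if i.val + 1 = M then 0 else i.val + 1 := by
  rw [Fin.val_add, Fin.val_one', Nat.add_mod_mod]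
  have hi := i.isLt
  split_ifs with h
  · rw [h, Nat.mod_self]
  · exact Nat.mod_eq_of_lt (by omega)

theorem F1_val_sub_one {M : ℕ} [NeZero M] (i : Fin M) :
    (i - 1).val = if i.val = 0 then M - 1 else i.val - 1 := by
  have h1 := F1_val_add_one (i - 1)
  rw [sub_add_cancel] at h1
  have h2 := (i - 1).isLt
  have h3 := i.isLt
  split_ifs at h1 ⊢ <;> omega

theorem F1_val_zero {M : ℕ} [NeZero M] : ((0 : Fin M)).val = 0 := by simp

theorem F1_val_neg_one {M : ℕ} [NeZero M] : ((-1 : Fin M)).val = M - 1 := by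
  have h1 := F1_val_sub_one (0 : Fin M)
  rw [zero_sub] at h1
  rw [h1, if_pos F1_val_zero]

/-- Index arithmetic in `Fin (N+4)`. -/
theorem castAdd_add_one {i : Fin N} (hi : i + 1 ≠ 0) :
    (Fin.castAdd 4 i : Fin (N + 4)) + 1 = Fin.castAdd 4 (i + 1) := by
  have h1 : (i + 1).val ≠ 0 := fun h => hi (Fin.ext (by rw [h, F1_val_zero]))
  apply Fin.ext
  rw [F1_val_add_one, Fin.val_castAdd, Fin.val_castAdd]
  rw [F1_val_add_one] at h1 ⊢
  have h2 := i.isLt
  split_ifs at h1 ⊢ <;> omega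

theorem castAdd_last {i : Fin N} (hi : i + 1 = 0) :
    (Fin.castAdd 4 i : Fin (N + 4)) + 1 = Fin.natAdd N 0 := by
  have h1 : (i + 1).val = 0 := by rw [hi, F1_val_zero]
  apply Fin.ext
  rw [F1_val_add_one, Fin.val_castAdd, Fin.val_natAdd]
  rw [F1_val_add_one] at h1
  have h2 := i.isLt
  have h3 : (0 : Fin 4).val = 0 := rfl
  rw [h3]
  split_ifs at h1 ⊢ <;> omega

theorem natAdd_add_one (k : Fin 3) :
    (Fin.natAdd N k.castSucc : Fin (N + 4)) + 1 = Fin.natAdd N k.succ := by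
  apply Fin.ext
  rw [F1_val_add_one, Fin.val_natAdd, Fin.val_natAdd, Fin.val_castSucc, Fin.val_succ]
  have h2 := k.isLt
  split_ifs <;> omega

theorem natAdd_last : (Fin.natAdd N (3 : Fin 4) : Fin (N + 4)) + 1 = Fin.castAdd 4 0 := by
  apply Fin.ext
  rw [F1_val_add_one, Fin.val_natAdd, Fin.val_castAdd, F1_val_zero]
  have h3 : (3 : Fin 4).val = 3 := rfl
  rw [h3, if_pos rfl]

theorem F1_cases (j : Fin (N + 4)) : (∃ i : Fin N, j = Fin.castAdd 4 i) ∨
    j = Fin.natAdd N (0 : Fin 4) ∨ j = Fin.natAdd N (1 : Fin 4) ∨ j = Fin.natAdd N (2 : Fin 4) ∨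
    j = Fin.natAdd N (3 : Fin 4) := by
  refine Fin.addCases (fun i => Or.inl ⟨i, rfl⟩) (fun k => Or.inr ?_) j
  fin_cases k
  · exact Or.inl rfl
  · exact Or.inr (Or.inl rfl)
  · exact Or.inr (Or.inr (Or.inl rfl))
  · exact Or.inr (Or.inr (Or.inr rfl))

theorem F1_u0 (u : Fin N → S) : uext u (Fin.natAdd N (0 : Fin 4)) = Sum.inr 0 := by
  rw [uext_new]; rfl

theorem F1_u1 (u : Fin N → S) : uext u (Fin.natAdd N (1 : Fin 4)) = Sum.inr 1 := by
  rw [uext_new]; rfl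

theorem F1_u2 (u : Fin N → S) : uext u (Fin.natAdd N (2 : Fin 4)) = Sum.inr 0 := by
  rw [uext_new]; rfl

theorem F1_u3 (u : Fin N → S) : uext u (Fin.natAdd N (3 : Fin 4)) = Sum.inr 1 := by
  rw [uext_new]; rfl

theorem F1_n0 : (Fin.natAdd N (0 : Fin 4) : Fin (N + 4)) + 1 = Fin.natAdd N (1 : Fin 4) :=
  natAdd_add_one (N := N) 0

theorem F1_n1 : (Fin.natAdd N (1 : Fin 4) : Fin (N + 4)) + 1 = Fin.natAdd N (2 : Fin 4) :=
  natAdd_add_one (N := N) 1

theorem F1_n2 : (Fin.natAdd N (2 : Fin 4) : Fin (N + 4)) + 1 = Fin.natAdd N (3 : Fin 4) :=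
  natAdd_add_one (N := N) 2

theorem F1_c : (Fin.castAdd 4 (-1 : Fin N) : Fin (N + 4)) + 1 = Fin.natAdd N (0 : Fin 4) :=
  castAdd_last (by rw [neg_add_cancel])

/-- the legs of the first new star -/
theorem F1_star0 (u : Fin N → S) (j : Fin (N + 4)) (h : uext u j = Sum.inr 0) :
    j = Fin.natAdd N (0 : Fin 4) ∨ j = Fin.natAdd N (2 : Fin 4) := by
  rcases F1_cases j with ⟨i, h1⟩ | h1 | h1 | h1 | h1
  · rw [h1, uext_old] at h
    cases h
  · exact Or.inl h1
  · rw [h1, F1_u1] at h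
    exact absurd (Sum.inr.inj h) (by decide)
  · exact Or.inr h1
  · rw [h1, F1_u3] at h
    exact absurd (Sum.inr.inj h) (by decide)

/-- the legs of the second new star -/
theorem F1_star1 (u : Fin N → S) (j : Fin (N + 4)) (h : uext u j = Sum.inr 1) :
    j = Fin.natAdd N (1 : Fin 4) ∨ j = Fin.natAdd N (3 : Fin 4) := by
  rcases F1_cases j with ⟨i, h1⟩ | h1 | h1 | h1 | h1
  · rw [h1, uext_old] at h
    cases h
  · rw [h1, F1_u0] at h
    exact absurd (Sum.inr.inj h) (by decide)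
  · exact Or.inl h1
  · rw [h1, F1_u2] at h
    exact absurd (Sum.inr.inj h) (by decide)
  · exact Or.inr h1

/-- the legs of an old star -/
theorem F1_old (u : Fin N → S) (j : Fin (N + 4)) (s : S) (h : uext u j = Sum.inl s) :
    ∃ i : Fin N, j = Fin.castAdd 4 i ∧ u i = s := by
  rcases F1_cases j with ⟨i, h1⟩ | h1 | h1 | h1 | h1
  · rw [h1, uext_old] at h
    exact ⟨i, h1, Sum.inl.inj h⟩
  · rw [h1, F1_u0] at h
    cases h
  · rw [h1, F1_u1] at h
    cases h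
  · rw [h1, F1_u2] at h
    cases h
  · rw [h1, F1_u3] at h
    cases h

/-- Let `ω` have `EC` for `uext u`; let `w0` be the label of the wire `castAdd 4 (-1)` (between the last old leg and the first new
leg), `w1, w2, w3` those of the wires `natAdd N 0, 1, 2`, `w4` that of `natAdd N 3` (between the last new leg and the leg `0`). The star
`x` has the legs `natAdd N 0` (wires `w0 | w1`) and `natAdd N 2` (`w2 | w3`), `y` the legs `natAdd N 1` (`w1 | w2`) and `natAdd N 3`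
(`w3 | w4`). `EC` at `x`: `w0, w1 ∈ {w2, w3}`, `w2, w3 ∈ {w0, w1}`; at `y`: `w1, w2 ∈ {w3, w4}`, `w3, w4 ∈ {w1, w2}`.
Hence all are equal, or `w0 = w2 = w4` and `w1 = w3`. -/
theorem EC_block {α : Type*} {u : Fin N → S} {ω : Fin (N + 4) → α} (h : EC (uext u) ω) :
    ω (Fin.natAdd N 3) = ω (Fin.castAdd 4 (-1)) ∧ ω (Fin.natAdd N 1) = ω (Fin.castAdd 4 (-1)) ∧
      ω (Fin.natAdd N 2) = ω (Fin.natAdd N 0) := by
  have m0 : (Fin.natAdd N (0 : Fin 4) : Fin (N + 4)) - 1 = Fin.castAdd 4 (-1 : Fin N) := by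
    rw [← F1_c, add_sub_cancel_right]
  have m1 : (Fin.natAdd N (1 : Fin 4) : Fin (N + 4)) - 1 = Fin.natAdd N (0 : Fin 4) := by
    rw [← F1_n0, add_sub_cancel_right]
  have m2 : (Fin.natAdd N (2 : Fin 4) : Fin (N + 4)) - 1 = Fin.natAdd N (1 : Fin 4) := by
    rw [← F1_n1, add_sub_cancel_right]
  have m3 : (Fin.natAdd N (3 : Fin 4) : Fin (N + 4)) - 1 = Fin.natAdd N (2 : Fin 4) := by
    rw [← F1_n2, add_sub_cancel_right]
  -- the conditions
  have k0 : ∀ w, (∃ j, j ≠ Fin.natAdd N (0 : Fin 4) ∧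
      uext u j = uext u (Fin.natAdd N (0 : Fin 4)) ∧ (ω j = w ∨ ω (j - 1) = w)) →
      (ω (Fin.natAdd N (2 : Fin 4)) = w ∨ ω (Fin.natAdd N (1 : Fin 4)) = w) := by
    rintro w ⟨j, h1, h2, h3⟩
    rw [F1_u0] at h2
    rcases F1_star0 u j h2 with h4 | h4
    · exact absurd h4 h1
    · rw [h4, m2] at h3
      exact h3
  have k2 : ∀ w, (∃ j, j ≠ Fin.natAdd N (2 : Fin 4) ∧
      uext u j = uext u (Fin.natAdd N (2 : Fin 4)) ∧ (ω j = w ∨ ω (j - 1) = w)) →
      (ω (Fin.natAdd N (0 : Fin 4)) = w ∨ ω (Fin.castAdd 4 (-1 : Fin N)) = w) := by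
    rintro w ⟨j, h1, h2, h3⟩
    rw [F1_u2] at h2
    rcases F1_star0 u j h2 with h4 | h4
    · rw [h4, m0] at h3
      exact h3
    · exact absurd h4 h1
  have k1 : ∀ w, (∃ j, j ≠ Fin.natAdd N (1 : Fin 4) ∧
      uext u j = uext u (Fin.natAdd N (1 : Fin 4)) ∧ (ω j = w ∨ ω (j - 1) = w)) →
      (ω (Fin.natAdd N (3 : Fin 4)) = w ∨ ω (Fin.natAdd N (2 : Fin 4)) = w) := by
    rintro w ⟨j, h1, h2, h3⟩
    rw [F1_u1] at h2
    rcases F1_star1 u j h2 with h4 | h4
    · exact absurd h4 h1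
    · rw [h4, m3] at h3
      exact h3
  have k3 : ∀ w, (∃ j, j ≠ Fin.natAdd N (3 : Fin 4) ∧
      uext u j = uext u (Fin.natAdd N (3 : Fin 4)) ∧ (ω j = w ∨ ω (j - 1) = w)) →
      (ω (Fin.natAdd N (1 : Fin 4)) = w ∨ ω (Fin.natAdd N (0 : Fin 4)) = w) := by
    rintro w ⟨j, h1, h2, h3⟩
    rw [F1_u3] at h2
    rcases F1_star1 u j h2 with h4 | h4
    · rw [h4, m1] at h3
      exact h3
    · exact absurd h4 h1
  have hc := (h (Fin.castAdd 4 (-1 : Fin N))).2
  rw [F1_c] at hc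
  have a1 := k0 _ hc
  have a2 := k0 _ (h (Fin.natAdd N (0 : Fin 4))).1
  have h02 := (h (Fin.natAdd N (0 : Fin 4))).2
  rw [F1_n0] at h02
  have a3 := k1 _ h02
  have a4 := k1 _ (h (Fin.natAdd N (1 : Fin 4))).1
  have h12 := (h (Fin.natAdd N (1 : Fin 4))).2
  rw [F1_n1] at h12
  have a5 := k2 _ h12
  have a6 := k2 _ (h (Fin.natAdd N (2 : Fin 4))).1
  have h22 := (h (Fin.natAdd N (2 : Fin 4))).2
  rw [F1_n2] at h22
  have a7 := k3 _ h22
  have a8 := k3 _ (h (Fin.natAdd N (3 : Fin 4))).1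
  generalize ω (Fin.natAdd N (0 : Fin 4)) = w1 at *
  generalize ω (Fin.natAdd N (1 : Fin 4)) = w2 at *
  generalize ω (Fin.natAdd N (2 : Fin 4)) = w3 at *
  generalize ω (Fin.natAdd N (3 : Fin 4)) = w4 at *
  generalize ω (Fin.castAdd 4 (-1 : Fin N)) = w0 at *
  clear k0 k1 k2 k3 hc h02 h12 h22 h m0 m1 m2 m3
  grind

/-- The restriction of `ω` to the old positions has `EC` for `u`: the wire `-1` of the old word has the label `w0 = w4`. For an
old wire `i` the star `u i` has only old legs, so `EC` gives an old `j`, and `ω (j-1)` is the restriction at `j - 1` also for `j = 0`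
(`castAdd 0 - 1 = natAdd 3`, `w4 = w0`). For the wire `-1` the condition at the star `u 0` comes from the wire `natAdd N 3`. -/
theorem EC_restrict {α : Type*} {u : Fin N → S} {ω : Fin (N + 4) → α} (h : EC (uext u) ω) :
    EC u (fun i => ω (Fin.castAdd 4 i)) := by
  obtain ⟨hb, -, -⟩ := EC_block h
  have hm : ∀ j : Fin N, ω ((Fin.castAdd 4 j : Fin (N + 4)) - 1) = ω (Fin.castAdd 4 (j - 1)) := by
    intro j
    by_cases hj : j = 0
    · rw [hj, zero_sub, ← natAdd_last, add_sub_cancel_right, hb]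
    · have h1 : (Fin.castAdd 4 (j - 1) : Fin (N + 4)) + 1 = Fin.castAdd 4 j := by
        rw [castAdd_add_one (by rwa [sub_add_cancel]), sub_add_cancel]
      rw [← h1, add_sub_cancel_right]
  have key : ∀ (i : Fin N) (w : α), (∃ j, j ≠ Fin.castAdd 4 i ∧
      uext u j = uext u (Fin.castAdd 4 i) ∧ (ω j = w ∨ ω (j - 1) = w)) →
      ∃ j, j ≠ i ∧ u j = u i ∧ (ω (Fin.castAdd 4 j) = w ∨ ω (Fin.castAdd 4 (j - 1)) = w) := by
    rintro i w ⟨j, h1, h2, h3⟩
    rw [uext_old] at h2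
    obtain ⟨j', h4, h5⟩ := F1_old u j (u i) h2
    refine ⟨j', fun h6 => h1 (by rw [h4, h6]), h5, ?_⟩
    rw [h4, hm] at h3
    exact h3
  intro i
  constructor
  · exact key i _ (h (Fin.castAdd 4 i)).1
  · by_cases hi : i + 1 = 0
    · have h1 := (h (Fin.natAdd N (3 : Fin 4))).2
      rw [natAdd_last] at h1
      have h2 := key 0 _ h1
      have h3 : i = -1 := eq_neg_of_add_eq_zero_left hi
      rw [hb] at h2
      rw [hi, h3]
      exact h2
    · have h1 := (h (Fin.castAdd 4 i)).2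
      rw [castAdd_add_one hi] at h1
      exact key (i + 1) _ h1

/-- the new tree legs -/
def F1_t (t : S → Fin N) : S ⊕ Fin 2 → Fin (N + 4) :=
  Sum.elim (fun s => Fin.castAdd 4 (t s)) (fun x : Fin 2 => Fin.natAdd N (Fin.castLE (by norm_num) x))

/-- the new columns -/
def F1_Y (Y : Fin N → Fin r → ZMod 2) : Fin (N + 4) → Fin (r + 1) → ZMod 2 :=
  Fin.addCases (fun i => Fin.snoc (Y i) 0) (fun _ => Fin.snoc 0 1)

theorem F1_ne {a b : Fin 4} (h : a ≠ b) : (Fin.natAdd N a : Fin (N + 4)) ≠ Fin.natAdd N b := by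
  intro h1
  apply h
  apply Fin.ext
  have h2 := congrArg Fin.val h1
  rw [Fin.val_natAdd, Fin.val_natAdd] at h2
  omega

theorem F1_lt_cc (a b : Fin N) :
    ((Fin.castAdd 4 a : Fin (N + 4)) < Fin.castAdd 4 b) ↔ a < b := by
  rw [Fin.lt_def, Fin.lt_def, Fin.val_castAdd, Fin.val_castAdd]

theorem F1_lt_cn (a : Fin N) (b : Fin 4) : (Fin.castAdd 4 a : Fin (N + 4)) < Fin.natAdd N b := by
  rw [Fin.lt_def, Fin.val_castAdd, Fin.val_natAdd]
  have := a.isLt
  omega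

theorem F1_lt_nc (a : Fin N) (b : Fin 4) : ¬ ((Fin.natAdd N b : Fin (N + 4)) < Fin.castAdd 4 a) :=
  fun h => lt_asymm h (F1_lt_cn a b)

theorem F1_lt_nn (a b : Fin 4) :
    ((Fin.natAdd N a : Fin (N + 4)) < Fin.natAdd N b) ↔ a < b := by
  rw [Fin.lt_def, Fin.lt_def, Fin.val_natAdd, Fin.val_natAdd]
  omega

theorem F1_ind_congr {p q : Prop} [Decidable p] [Decidable q] (h : p ↔ q) : ind p = ind q := by
  unfold ind
  by_cases hp : p
  · rw [if_pos hp, if_pos (h.1 hp)]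
  · rw [if_neg hp, if_neg (fun hq => hp (h.2 hq))]

theorem F1_ind_t {p : Prop} [Decidable p] (h : p) : ind p = 1 := if_pos h

theorem F1_ind_f {p : Prop} [Decidable p] (h : ¬ p) : ind p = 0 := if_neg h

theorem F1_t_old (t : S → Fin N) (s : S) : F1_t t (Sum.inl s) = Fin.castAdd 4 (t s) := rfl

theorem F1_t_0 (t : S → Fin N) : F1_t t (Sum.inr 0) = Fin.natAdd N (0 : Fin 4) := rfl

theorem F1_t_1 (t : S → Fin N) : F1_t t (Sum.inr 1) = Fin.natAdd N (1 : Fin 4) := rfl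

theorem F1_Y_old (Y : Fin N → Fin r → ZMod 2) (i : Fin N) :
    F1_Y Y (Fin.castAdd 4 i) = Fin.snoc (Y i) 0 := by
  unfold F1_Y
  rw [Fin.addCases_left]

theorem F1_Y_new (Y : Fin N → Fin r → ZMod 2) (k : Fin 4) :
    F1_Y Y (Fin.natAdd N k) = Fin.snoc 0 1 := by
  unfold F1_Y
  rw [Fin.addCases_right]

theorem F1_sum_snoc (a b : Fin r → ZMod 2) (x y : ZMod 2) :
    ∑ l, (Fin.snoc a x : Fin (r + 1) → ZMod 2) l * (Fin.snoc b y : Fin (r + 1) → ZMod 2) l =
      ∑ l, a l * b l + x * y := by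
  rw [Fin.sum_univ_castSucc]
  simp only [Fin.snoc_castSucc, Fin.snoc_last]

theorem F1_new_mem (u : Fin N → S) (t : S → Fin N) (j : Fin (N + 4))
    (h : j ≠ F1_t t (uext u j)) : (∃ i : Fin N, j = Fin.castAdd 4 i ∧ i ≠ t (u i)) ∨
      j = Fin.natAdd N (2 : Fin 4) ∨ j = Fin.natAdd N (3 : Fin 4) := by
  rcases F1_cases j with ⟨i, h1⟩ | h1 | h1 | h1 | h1
  · refine Or.inl ⟨i, h1, fun h2 => h ?_⟩
    rw [h1, uext_old, F1_t_old, ← h2]
  · rw [h1, F1_u0, F1_t_0] at h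
    exact absurd rfl h
  · rw [h1, F1_u1, F1_t_1] at h
    exact absurd rfl h
  · exact Or.inr (Or.inl h1)
  · exact Or.inr (Or.inr h1)

theorem F1_chord (X : WD N S r F) (j k : Fin (N + 4)) (hj : j ≠ F1_t X.t (uext X.u j))
    (hk : k ≠ F1_t X.t (uext X.u k)) (hjk : uext X.u j ≠ uext X.u k) :
    ∑ l, F1_Y X.Y j l * F1_Y X.Y k l = chord (uext X.u) (F1_t X.t) j k := by
  rcases F1_new_mem X.u X.t j hj with ⟨j', rfl, hj'⟩ | rfl | rfl <;>
    rcases F1_new_mem X.u X.t k hk with ⟨k', rfl, hk'⟩ | rfl | rfl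
  · rw [F1_Y_old, F1_Y_old, F1_sum_snoc, zero_mul, add_zero]
    rw [uext_old, uext_old] at hjk
    rw [X.hY j' k' hj' hk' (fun h => hjk (by rw [h]))]
    unfold chord
    rw [uext_old, uext_old, F1_t_old, F1_t_old]
    rw [F1_ind_congr (F1_lt_cc j' k'), F1_ind_congr (F1_lt_cc j' _), F1_ind_congr (F1_lt_cc _ k'),
      F1_ind_congr (F1_lt_cc _ _)]
  · rw [F1_Y_old, F1_Y_new, F1_sum_snoc]
    unfold chord
    rw [uext_old, F1_u2, F1_t_old, F1_t_0, F1_ind_t (F1_lt_cn _ _), F1_ind_t (F1_lt_cn _ _),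
      F1_ind_t (F1_lt_cn _ _), F1_ind_t (F1_lt_cn _ _)]
    simp
    decide
  · rw [F1_Y_old, F1_Y_new, F1_sum_snoc]
    unfold chord
    rw [uext_old, F1_u3, F1_t_old, F1_t_1, F1_ind_t (F1_lt_cn _ _), F1_ind_t (F1_lt_cn _ _),
      F1_ind_t (F1_lt_cn _ _), F1_ind_t (F1_lt_cn _ _)]
    simp
    decide
  · rw [F1_Y_new, F1_Y_old, F1_sum_snoc]
    unfold chord
    rw [uext_old, F1_u2, F1_t_old, F1_t_0, F1_ind_f (F1_lt_nc _ _), F1_ind_f (F1_lt_nc _ _),
      F1_ind_f (F1_lt_nc _ _), F1_ind_f (F1_lt_nc _ _)]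
    simp
  · exact absurd rfl hjk
  · rw [F1_Y_new, F1_Y_new, F1_sum_snoc]
    unfold chord
    rw [F1_u2, F1_u3, F1_t_0, F1_t_1, F1_ind_congr (F1_lt_nn _ _), F1_ind_congr (F1_lt_nn _ _),
      F1_ind_congr (F1_lt_nn _ _), F1_ind_congr (F1_lt_nn _ _)]
    simp
    decide
  · rw [F1_Y_new, F1_Y_old, F1_sum_snoc]
    unfold chord
    rw [uext_old, F1_u3, F1_t_old, F1_t_1, F1_ind_f (F1_lt_nc _ _), F1_ind_f (F1_lt_nc _ _),
      F1_ind_f (F1_lt_nc _ _), F1_ind_f (F1_lt_nc _ _)]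
    simp
  · rw [F1_Y_new, F1_Y_new, F1_sum_snoc]
    unfold chord
    rw [F1_u2, F1_u3, F1_t_0, F1_t_1, F1_ind_congr (F1_lt_nn _ _), F1_ind_congr (F1_lt_nn _ _),
      F1_ind_congr (F1_lt_nn _ _), F1_ind_congr (F1_lt_nn _ _)]
    simp
    decide
  · exact absurd rfl hjk

/-- `Set.range ω ⊆ Set.range (restriction) ∪ {w1}`. Tree legs: `t' (inl s) = castAdd 4 (t s)`, `t' (inr 0) = natAdd N 0`,
`t' (inr 1) = natAdd N 1`. Chords: old ones as before (`Fin.castAdd` is monotone); the nontree leg `natAdd N 2` of `x` and an old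
leg have `chord = 0` (both positions of `x` are behind all old positions), same for `natAdd N 3` of `y`; `chord (natAdd N 2)
(natAdd N 3) = chord (natAdd N 3) (natAdd N 2) = 1` (`x y x y`). `Y'`: `Fin.snoc (Y i) 0` on old positions and `Fin.snoc 0 1` on the new ones
(`Fin.sum_univ_castSucc`). -/
theorem WD.ext (X : WD N S r F) : Nonempty (WD (N + 4) (S ⊕ Fin 2) (r + 1) (F + 1)) := by
  refine ⟨{
    u := uext X.u
    ne := ?_
    two := ?_
    t := F1_t X.t
    ht := ?_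
    Y := F1_Y X.Y
    hY := ?_
    hEC := ?_ }⟩
  · intro i
    rcases F1_cases i with ⟨i, h1⟩ | h1 | h1 | h1 | h1
    · rw [h1]
      by_cases hi : i + 1 = 0
      · rw [castAdd_last hi, uext_old, F1_u0]
        exact fun h => by cases h
      · rw [castAdd_add_one hi, uext_old, uext_old]
        exact fun h => X.ne i (Sum.inl.inj h)
    · rw [h1, F1_n0, F1_u0, F1_u1]
      exact fun h => absurd (Sum.inr.inj h) (by decide)
    · rw [h1, F1_n1, F1_u1, F1_u2]
      exact fun h => absurd (Sum.inr.inj h) (by decide)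
    · rw [h1, F1_n2, F1_u2, F1_u3]
      exact fun h => absurd (Sum.inr.inj h) (by decide)
    · rw [h1, natAdd_last, F1_u3, uext_old]
      exact fun h => by cases h
  · intro i
    rcases F1_cases i with ⟨i, h1⟩ | h1 | h1 | h1 | h1
    · obtain ⟨j, h2, h3⟩ := X.two i
      refine ⟨Fin.castAdd 4 j, ?_, ?_⟩
      · rw [h1]
        exact fun h => h2 (Fin.castAdd_injective N 4 h)
      · rw [h1, uext_old, uext_old, h3]
    · exact ⟨Fin.natAdd N (2 : Fin 4), by rw [h1]; exact F1_ne (by decide), by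
        rw [h1, F1_u0, F1_u2]⟩
    · exact ⟨Fin.natAdd N (3 : Fin 4), by rw [h1]; exact F1_ne (by decide), by
        rw [h1, F1_u1, F1_u3]⟩
    · exact ⟨Fin.natAdd N (0 : Fin 4), by rw [h1]; exact F1_ne (by decide), by
        rw [h1, F1_u0, F1_u2]⟩
    · exact ⟨Fin.natAdd N (1 : Fin 4), by rw [h1]; exact F1_ne (by decide), by
        rw [h1, F1_u1, F1_u3]⟩
  · rintro (s | x)
    · change uext X.u (Fin.castAdd 4 (X.t s)) = Sum.inl s
      rw [uext_old, X.ht]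
    · change uext X.u (Fin.natAdd N (Fin.castLE (by norm_num) x)) = Sum.inr x
      fin_cases x
      · exact F1_u0 X.u
      · exact F1_u1 X.u
  · exact F1_chord X
  · intro α ω hω
    have h1 := X.hEC α _ (EC_restrict hω)
    obtain ⟨h3, h4, h5⟩ := EC_block hω
    have h2 : Set.range ω ⊆ insert (ω (Fin.natAdd N (0 : Fin 4)))
        (Set.range (fun i : Fin N => ω (Fin.castAdd 4 i))) := by
      rintro w ⟨j, rfl⟩
      rcases F1_cases j with ⟨i, h6⟩ | h6 | h6 | h6 | h6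
      · rw [h6]
        exact Or.inr ⟨i, rfl⟩
      · rw [h6]
        exact Or.inl rfl
      · rw [h6, h4]
        exact Or.inr ⟨-1, rfl⟩
      · rw [h6, h5]
        exact Or.inl rfl
      · rw [h6, h3]
        exact Or.inr ⟨-1, rfl⟩
    calc (Set.range ω).ncard ≤ (insert (ω (Fin.natAdd N (0 : Fin 4)))
        (Set.range (fun i : Fin N => ω (Fin.castAdd 4 i)))).ncard :=
          Set.ncard_le_ncard h2 ((Set.finite_range _).insert _)
      _ ≤ (Set.range (fun i : Fin N => ω (Fin.castAdd 4 i))).ncard + 1 := Set.ncard_insert_le _ _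
      _ ≤ F + 1 := by omega

end Pool.Agent.NHT
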