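import Pool.Agent.NHT.BF
import Pool.Agent.NHT.CF
import Pool.Agent.NHT.E3b
import Pool.Agent.NHT.E8
import Pool.Agent.NHT.E8b
import Pool.Agent.NHT.F1

set_option autoImplicit false

/-!
The strong Hanani–Tutte theorem fails on all nonorientable surfaces with at least `6 * 10^10` crosscaps.
-/

namespace Pool.Agent.NHT

open Pool.Agent.HTE

/-- The word data of a closed word (one copy). -/
theorem exists_WD {n : ℕ} [NeZero n] {S : Type} [DecidableEq S] [Fintype S] {k : ℕ}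
    (X : CW n S k) (hnS : Fintype.card S + (k - 1) ≤ n) :
    Nonempty (WD (1 * n) (Fin 1 × S) (n - Fintype.card S - (k - 1) + 1) ((8 + n) / 8)) := by
  obtain ⟨Y, hY⟩ := exists_Yj X (j := 1) (n - Fintype.card S - (k - 1)) (by omega)
  refine ⟨⟨wj X 1, wj_ne X, wj_two X, tj X 1, wj_tj X 1, Y, hY, ?_⟩⟩
  intro α ω hω
  have := EC_bound X ω hω
  omega

/-- Adding `m` blocks. -/
theorem WD.iter {N : ℕ} [NeZero N] {S : Type} [Fintype S] {r F : ℕ} (X : WD N S r F) (m : ℕ) :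
    ∃ (N' : ℕ) (_ : NeZero N') (S' : Type) (_ : Fintype S'), N' = N + 4 * m ∧
      Fintype.card S' = Fintype.card S + 2 * m ∧ Nonempty (WD N' S' (r + m) (F + m)) := by
  induction m with
  | zero => exact ⟨N, inferInstance, S, inferInstance, rfl, rfl, ⟨X⟩⟩
  | succ m ih =>
    obtain ⟨N', hN', S', hS', h1, h2, ⟨X'⟩⟩ := ih
    refine ⟨N' + 4, inferInstance, S' ⊕ Fin 2, inferInstance, by omega, ?_, X'.ext⟩
    rw [Fintype.card_sum, Fintype.card_fin, h2]
    ring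

/-- The two bounds for the graph of word data. -/
theorem WD.bounds {N : ℕ} [NeZero N] {S : Type} [Fintype S] {r F : ℕ} (X : WD N S r F) (hN : 5 ≤ N) :
    ∃ (V : Type) (_ : Fintype V) (G : SimpleGraph V), G.Connected ∧
      (∃ M : Drawing G, 2 - (r : ℤ) ≤ M.chi ∧ M.IndependentlyEven) ∧
      ∀ M : Drawing G, M.IsEmbedding → M.chi ≤ (Fintype.card S : ℤ) - N + F + 1 := by
  classical
  have hsurj : Function.Surjective X.u := fun s => ⟨X.t s, X.ht s⟩
  obtain ⟨M, hM1, hM2⟩ := exists_drawing (by omega) X.u X.two X.t X.ht r X.Y X.hY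
    (40 * N + 2) (by omega)
  exact ⟨_, inferInstance, GG X.u (40 * N + 2), GG_connected (by omega) _ hsurj _,
    ⟨M, hM1, hM2⟩, fun M' hM' => no_embedding hN X.u X.ne X.two hsurj F X.hEC
      (40 * N + 2) le_rfl M' hM'⟩

theorem main (k : ℕ) (hk : 6 * 10 ^ 10 ≤ k) : ¬ StrongHananiTutteN k := by
  obtain ⟨m, rfl⟩ : ∃ m, k = 59763368984 + m := ⟨k - 59763368984, by omega⟩
  obtain ⟨X⟩ := exists_CW
  have hfin : Fintype S1 := Fintype.ofFinite S1
  have hS : Fintype.card S1 = 2 ^ 28 := by rw [← Nat.card_eq_fintype_card]; exact card_S1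
  obtain ⟨X0⟩ := exists_WD X (by rw [hS]; norm_num)
  obtain ⟨N', hN', S', hS', h1, h2, ⟨X'⟩⟩ := X0.iter m
  have h3 : 5 ≤ N' := by
    rw [h1]
    exact le_trans (by norm_num) (Nat.le_add_right _ _)
  obtain ⟨V, hV, G, hG, ⟨M, hM1, hM2⟩, hE⟩ := X'.bounds h3
  intro h
  have h4 : Fintype.card (Fin 1 × S1) = 2 ^ 28 := by
    rw [Fintype.card_prod, Fintype.card_fin, hS, one_mul]
  rw [h4] at h2
  rw [hS] at hM1
  rw [h1, h2] at hE
  clear X X0 X'
  have h7 : (2 ^ 36 - 2 ^ 28 - (8687672299 - 1) + 1 : ℕ) = 59763368983 := by norm_num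
  have h8 : ((8 + 2 ^ 36) / 8 : ℕ) = 8589934593 := by norm_num
  rw [h7] at hM1
  rw [h8] at hE
  have hM3 : 2 - ((59763368984 + m : ℕ) : ℤ) < M.chi := by
    refine lt_of_lt_of_le ?_ hM1
    push_cast
    linarith
  obtain ⟨M', hM'1, hM'2⟩ := h V G hG ⟨M, Or.inr hM3, hM2⟩
  have h9 := hE M' hM'2
  have h10 : 2 - ((59763368984 + m : ℕ) : ℤ) ≤ M'.chi := by
    rcases hM'1 with ⟨_, h⟩ | h
    · exact h
    · exact h.le
  push_cast at h9 h10
  linarith

end Pool.Agent.NHT
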