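import Mathlib

set_option autoImplicit false

/-!
Part IV of NHT (NHT_proof.md, sections 0 and IV): definitions.
-/

namespace Pool.Agent.NHT

open Finset

section word

variable {N : ℕ} [NeZero N] {S : Type}

/-- `z_φ(i) = φ(i-1) + φ(i)` (cyclic indices: arithmetic of `Fin N`). -/
def zz (φ : Fin N → ZMod 2) (i : Fin N) : ZMod 2 := φ (i - 1) + φ i

/-- `1` if `p`, else `0`. -/
def ind (p : Prop) [Decidable p] : ZMod 2 := if p then 1 else 0

/-- `ρ_k(φ) = φ(k-1) + ∑_{j < k, u j = u k} z_φ(j)`. -/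
def rr [DecidableEq S] (u : Fin N → S) (φ : Fin N → ZMod 2) (k : Fin N) : ZMod 2 :=
  φ (k - 1) + ∑ j ∈ univ.filter (fun j => u j = u k ∧ j < k), zz φ j

/-- The parity of the number of crossings of the chords `{j, t_j}` and `{k, t_k}`. -/
def chord (u : Fin N → S) (t : S → Fin N) (j k : Fin N) : ZMod 2 :=
  ind (j < k) + ind (j < t (u k)) + ind (t (u j) < k) + ind (t (u j) < t (u k))

/-- The property of the labellings of the wires that come from embeddings. Wire `i` has its ends at the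
stars `u i` and `u (i+1)`. -/
def EC {α : Type*} (u : Fin N → S) (ω : Fin N → α) : Prop :=
  ∀ i, (∃ j, j ≠ i ∧ u j = u i ∧ (ω j = ω i ∨ ω (j - 1) = ω i)) ∧
    (∃ j, j ≠ i + 1 ∧ u j = u (i + 1) ∧ (ω j = ω i ∨ ω (j - 1) = ω i))

end word

section

variable {ι α : Type*}

/-- A transversal matching of the fibres of `π` for the code `C`. -/
structure Tv (C : Submodule (ZMod 2) (ι → ZMod 2)) (π : ι → α) (τ : ι → ι) : Prop where
  fib : ∀ x, π (τ x) = π x
  inv : ∀ x, τ (τ x) = x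
  ne : ∀ x, τ x ≠ x
  trans : ∀ f ∈ C, ∀ p, (∀ x, π x = p → f (τ x) = f x) → ∀ x y, π x = p → π y = p → f x = f y

/-- `C` is self-orthogonal on the fibres of `π`. -/
def Orth [Fintype ι] [DecidableEq α] (C : Submodule (ZMod 2) (ι → ZMod 2)) (π : ι → α) : Prop :=
  ∀ f ∈ C, ∀ g ∈ C, ∀ p, ∑ x ∈ univ.filter (fun x => π x = p), f x * g x = 0

end

/-- A closed word (`n` legs, leg `i` at the star `u i`, wire `i` between the legs `i` and `i+1`) with a
code of functions of the wires; `C` is self-orthogonal at every star, transversal, contains `1` and has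
dimension at least `k`; the graph of stars and wires has girth at least `8`. -/
structure CW (n : ℕ) [NeZero n] (S : Type) [DecidableEq S] (k : ℕ) where
  u : Fin n → S
  C : Submodule (ZMod 2) (Fin n → ZMod 2)
  one : (1 : Fin n → ZMod 2) ∈ C
  dim : k ≤ Module.finrank (ZMod 2) C
  orth : ∀ φ ∈ C, ∀ ψ ∈ C, ∀ s, ∑ i ∈ univ.filter (fun i => u i = s),
    (φ (i - 1) * ψ (i - 1) + φ i * ψ i) = 0
  trans : ∀ φ ∈ C, ∀ s, (∀ i, u i = s → φ (i - 1) = φ i) → ∀ i j, u i = s → u j = s → φ i = φ j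
  ne : ∀ i, u i ≠ u (i + 1)
  surj : Function.Surjective u
  two : ∀ i, ∃ j, j ≠ i ∧ u j = u i
  girth : ∀ T : Finset (Fin n), T.Nonempty →
    (∀ i ∈ T, (∃ j ∈ T, j ≠ i ∧ (u j = u i ∨ u (j + 1) = u i)) ∧
      (∃ j ∈ T, j ≠ i ∧ (u j = u (i + 1) ∨ u (j + 1) = u (i + 1)))) → 8 ≤ T.card

/-- The word of `j` copies. -/
def wj {n : ℕ} [NeZero n] {S : Type} [DecidableEq S] {k : ℕ} (X : CW n S k) (j : ℕ) :
    Fin (j * n) → Fin j × S :=
  fun i => ((finProdFinEquiv.symm i).1, X.u (finProdFinEquiv.symm i).2)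

/-- The labels of `j` copies: each copy a codeword that vanishes on the last wire. -/
def Fj {n : ℕ} [NeZero n] {S : Type} [DecidableEq S] {k : ℕ} (X : CW n S k) (j : ℕ) :
    Submodule (ZMod 2) (Fin (j * n) → ZMod 2) where
  carrier := {φ | ∀ c : Fin j, (fun r : Fin n => φ (finProdFinEquiv (c, r))) ∈ X.C ∧
    φ (finProdFinEquiv (c, (-1 : Fin n))) = 0}
  add_mem' := fun {φ ψ} hφ hψ c => ⟨X.C.add_mem (hφ c).1 (hψ c).1, by
    have h1 := (hφ c).2
    have h2 := (hψ c).2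
    simp only [Pi.add_apply, h1, h2, add_zero]⟩
  zero_mem' := fun c => ⟨X.C.zero_mem, rfl⟩
  smul_mem' := fun a φ hφ c => ⟨X.C.smul_mem a (hφ c).1, by
    have h1 := (hφ c).2
    simp only [Pi.smul_apply, h1, smul_zero]⟩

end Pool.Agent.NHT
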