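import Pool.Agent.NHT.E0

set_option autoImplicit false

/-!
NHT-E1: transversal matchings (section IV.1).
-/

namespace Pool.Agent.NHT

open Finset

theorem E1_zmod (a : ZMod 2) : a = 0 ∨ a = 1 := by
  revert a
  decide

theorem E1_add_self (a : ZMod 2) : a + a = 0 := by
  revert a
  decide

theorem E1_ne {a b : ZMod 2} (h : a ≠ b) : a + b = 1 := by
  revert a b
  decide

theorem E1_eq {a b : ZMod 2} (h : a + b = 0) : a = b := by
  revert a b
  decide

/-- the pair of the induction step -/
theorem E1_pair {ι : Type*} [DecidableEq ι] (X : Finset ι) (hX : 2 < X.card)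
    (C : Submodule (ZMod 2) (ι → ZMod 2))
    (horth : ∀ f ∈ C, ∀ g ∈ C, ∑ x ∈ X, f x * g x = 0) :
    ∃ i ∈ X, ∃ j ∈ X, i ≠ j ∧
      ¬ ∃ f ∈ C, f i = 1 ∧ f j = 1 ∧ ∀ x ∈ X, x ≠ i → x ≠ j → f x = 0 := by
  by_contra hcon
  push Not at hcon
  obtain ⟨x, hx, y, hy, z, hz, hxy, hxz, hyz⟩ := Finset.two_lt_card.1 hX
  obtain ⟨f, hf, f1, f2, f3⟩ := hcon x hx y hy hxy
  obtain ⟨g, hg, g1, g2, g3⟩ := hcon y hy z hz hyz
  have h := horth f hf g hg
  rw [Finset.sum_eq_single y] at h
  · rw [f2, g1, mul_one] at h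
    exact one_ne_zero h
  · intro w hw hwy
    by_cases hwx : w = x
    · subst hwx
      rw [g3 w hw hwy hxz, mul_zero]
    · rw [f3 w hw hwx hwy, zero_mul]
  · intro h'
    exact absurd hy h'

/-- Section IV.1, induction on `|X|` (strong induction over `X.card`, all `C`). `|X| = 0`: `τ = id`.
`|X| = 2`: `X = {i, j}`, `τ = Equiv.swap i j`; `∑_X f * 1 = 0` gives `f i = f j`. `|X| ≥ 4`: there are
`i ≠ j` in `X` such that no `f ∈ C` has `f i = f j = 1` and `f = 0` on `X \ {i,j}`: otherwise take three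
distinct `x, y, z ∈ X` and `f` for `{x, y}`, `g` for `{y, z}`: `∑_X f g = 1`. Let `X' = X \ {i, j}`,
`C' = {f ∈ C | f i = f j}`, self-orthogonal on `X'`. Take `τ'` for `X', C'`, and `τ = τ'` on `X'`,
`τ i = j`, `τ j = i`. If `f ∈ C` is `τ`-invariant then `f ∈ C'`, `f = α` on `X'`, `f = β` on `{i,j}`; if
`α ≠ β` then `f + α • 1 ∈ C` is `1` on `{i,j}` and `0` on `X'`, contradiction. -/
theorem exists_match {ι : Type*} [DecidableEq ι] (X : Finset ι) (hX : Even X.card)
    (C : Submodule (ZMod 2) (ι → ZMod 2))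
    (horth : ∀ f ∈ C, ∀ g ∈ C, ∑ x ∈ X, f x * g x = 0) (h1 : (1 : ι → ZMod 2) ∈ C) :
    ∃ τ : ι → ι, (∀ x ∈ X, τ x ∈ X) ∧ (∀ x ∈ X, τ (τ x) = x) ∧ (∀ x ∈ X, τ x ≠ x) ∧
      ∀ f ∈ C, (∀ x ∈ X, f (τ x) = f x) → ∀ x ∈ X, ∀ y ∈ X, f x = f y := by
  induction hn : X.card using Nat.strong_induction_on generalizing X C with
  | _ n ih =>
    subst hn
    rcases (by omega : X.card = 0 ∨ X.card = 1 ∨ X.card = 2 ∨ 2 < X.card) with h | h | h | h
    · rw [Finset.card_eq_zero] at h
      subst h
      exact ⟨id, by simp, by simp, by simp, by simp⟩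
    · rw [h] at hX
      exact absurd hX (by decide)
    · obtain ⟨i, j, hij, rfl⟩ := Finset.card_eq_two.1 h
      refine ⟨fun x => if x = i then j else i, ?_, ?_, ?_, ?_⟩
      · intro x _
        by_cases hx : x = i
        · simp [hx]
        · simp [hx]
      · intro x hx
        rw [Finset.mem_insert, Finset.mem_singleton] at hx
        rcases hx with rfl | rfl
        · simp [Ne.symm hij]
        · simp [Ne.symm hij]
      · intro x hx
        rw [Finset.mem_insert, Finset.mem_singleton] at hx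
        rcases hx with rfl | rfl
        · simp [Ne.symm hij]
        · simp [Ne.symm hij, hij]
      · intro f hf hinv x hx y hy
        have h2 : f j = f i := by
          have h3 := hinv i (Finset.mem_insert_self _ _)
          simpa using h3
        rw [Finset.mem_insert, Finset.mem_singleton] at hx hy
        rcases hx with rfl | rfl <;> rcases hy with rfl | rfl <;> simp [h2]
    · obtain ⟨i, hi, j, hj, hij, hno⟩ := E1_pair X h C horth
      obtain ⟨X', hX'⟩ : ∃ X', X' = (X.erase i).erase j := ⟨_, rfl⟩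
      have hmem : ∀ x, x ∈ X' ↔ x ∈ X ∧ x ≠ i ∧ x ≠ j := by
        intro x
        rw [hX', Finset.mem_erase, Finset.mem_erase]
        tauto
      have hji : j ∈ X.erase i := Finset.mem_erase.2 ⟨Ne.symm hij, hj⟩
      have hcard : X'.card + 2 = X.card := by
        rw [hX', Finset.card_erase_of_mem hji, Finset.card_erase_of_mem hi]
        omega
      let C' : Submodule (ZMod 2) (ι → ZMod 2) :=
        { carrier := {f | f ∈ C ∧ f i = f j}
          add_mem' := fun {f g} hf hg => ⟨C.add_mem hf.1 hg.1, by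
            simp only [Pi.add_apply, hf.2, hg.2]⟩
          zero_mem' := ⟨C.zero_mem, rfl⟩
          smul_mem' := fun a f hf => ⟨C.smul_mem a hf.1, by
            simp only [Pi.smul_apply, hf.2]⟩ }
      have hC' : ∀ f, f ∈ C' ↔ f ∈ C ∧ f i = f j := fun f => Iff.rfl
      have horth' : ∀ f ∈ C', ∀ g ∈ C', ∑ x ∈ X', f x * g x = 0 := by
        intro f hf g hg
        rw [hC'] at hf hg
        have h2 := horth f hf.1 g hg.1
        rw [← Finset.add_sum_erase X _ hi, ← Finset.add_sum_erase (X.erase i) _ hji, ← hX', hf.2,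
          hg.2, ← add_assoc, E1_add_self, zero_add] at h2
        exact h2
      obtain ⟨τ', t1, t2, t3, t4⟩ := ih X'.card (by omega) X' (by
        rcases hX with ⟨r, hr⟩
        exact ⟨r - 1, by omega⟩) C' horth' ⟨h1, rfl⟩ rfl
      refine ⟨fun x => if x = i then j else if x = j then i else τ' x, ?_, ?_, ?_, ?_⟩
      · intro x hx
        by_cases hxi : x = i
        · simp only [hxi, if_true]
          exact hj
        · by_cases hxj : x = j
          · simp only [hxi, hxj, if_true, if_false]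
            split_ifs
            · exact hj
            · exact hi
          · simp only [hxi, hxj, if_false]
            exact ((hmem _).1 (t1 x ((hmem x).2 ⟨hx, hxi, hxj⟩))).1
      · intro x hx
        by_cases hxi : x = i
        · simp [hxi, Ne.symm hij]
        · by_cases hxj : x = j
          · simp [hxj, Ne.symm hij]
          · have h2 := (hmem _).1 (t1 x ((hmem x).2 ⟨hx, hxi, hxj⟩))
            simp only [hxi, hxj, if_false, h2.2.1, h2.2.2]
            exact t2 x ((hmem x).2 ⟨hx, hxi, hxj⟩)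
      · intro x hx
        by_cases hxi : x = i
        · simp [hxi, Ne.symm hij]
        · by_cases hxj : x = j
          · simp [hxj, Ne.symm hij, hij]
          · simp only [hxi, hxj, if_false]
            exact t3 x ((hmem x).2 ⟨hx, hxi, hxj⟩)
      · intro f hf hinv
        have hfij : f i = f j := by
          have h2 := hinv i hi
          simp only [if_true] at h2
          exact h2.symm
        have hconst := t4 f ((hC' f).2 ⟨hf, hfij⟩) (fun x hx => by
          have h2 := (hmem x).1 hx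
          have h3 := hinv x h2.1
          simp only [h2.2.1, h2.2.2, if_false] at h3
          exact h3)
        have hX'ne : X'.Nonempty := Finset.card_pos.1 (by omega)
        obtain ⟨x₀, hx₀⟩ := hX'ne
        have key : f x₀ = f i := by
          by_contra hne
          apply hno
          refine ⟨f + f x₀ • 1, C.add_mem hf (C.smul_mem _ h1), ?_, ?_, ?_⟩
          · change f i + f x₀ * 1 = 1
            rw [mul_one]
            exact E1_ne (Ne.symm hne)
          · change f j + f x₀ * 1 = 1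
            rw [mul_one, ← hfij]
            exact E1_ne (Ne.symm hne)
          · intro x hx hxi hxj
            change f x + f x₀ * 1 = 0
            rw [mul_one, hconst x ((hmem x).2 ⟨hx, hxi, hxj⟩) x₀ hx₀, E1_add_self]
        have hall : ∀ x ∈ X, f x = f i := by
          intro x hx
          by_cases hxi : x = i
          · rw [hxi]
          · by_cases hxj : x = j
            · rw [hxj, hfij]
            · rw [hconst x ((hmem x).2 ⟨hx, hxi, hxj⟩) x₀ hx₀, key]
        intro x hx y hy
        rw [hall x hx, hall y hy]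

/-- Apply `exists_match` to every fibre `univ.filter (π · = p)`; `τ x := τ_{π x} x`. -/
theorem exists_Tv {ι α : Type*} [Fintype ι] [DecidableEq ι] [DecidableEq α]
    (C : Submodule (ZMod 2) (ι → ZMod 2)) (π : ι → α) (horth : Orth C π)
    (h1 : (1 : ι → ZMod 2) ∈ C) (heven : ∀ p, Even (univ.filter (fun x => π x = p)).card) :
    ∃ τ, Tv C π τ := by
  have h := fun p => exists_match (univ.filter (fun x => π x = p)) (heven p) C
    (fun f hf g hg => horth f hf g hg p) h1
  choose T t1 t2 t3 t4 using h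
  have hm : ∀ x p, π x = p → x ∈ univ.filter (fun x => π x = p) := fun x p hx =>
    Finset.mem_filter.2 ⟨Finset.mem_univ x, hx⟩
  have hfib : ∀ x, π (T (π x) x) = π x := fun x =>
    (Finset.mem_filter.1 (t1 (π x) x (hm x _ rfl))).2
  refine ⟨fun x => T (π x) x, hfib, ?_, ?_, ?_⟩
  · intro x
    rw [hfib x]
    exact t2 (π x) x (hm x _ rfl)
  · intro x
    exact t3 (π x) x (hm x _ rfl)
  · intro f hf p hinv x y hx hy
    refine t4 p f hf (fun z hz => ?_) x (hm x p hx) y (hm y p hy)
    have hz' := (Finset.mem_filter.1 hz).2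
    have h2 := hinv z hz'
    change f (T (π z) z) = f z at h2
    rw [hz'] at h2
    exact h2

/-- the new matching -/
def E1_re {ι : Type*} [DecidableEq ι] (τ : ι → ι) (a c : ι) (x : ι) : ι :=
  if x = a then c else if x = c then a else if x = τ a then τ c else if x = τ c then τ a else τ x

section

variable {ι α : Type*} [DecidableEq ι] {C : Submodule (ZMod 2) (ι → ZMod 2)} {π : ι → α}
  {τ : ι → ι} (hτ : Tv C π τ) {a c : ι} (hac : π a = π c) (h1 : c ≠ a) (h2 : c ≠ τ a)

theorem E1_re_a : E1_re τ a c a = c := by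
  unfold E1_re
  rw [if_pos rfl]

include h1 in
theorem E1_re_c : E1_re τ a c c = a := by
  unfold E1_re
  rw [if_neg h1, if_pos rfl]

include hτ h2 in
theorem E1_re_b : E1_re τ a c (τ a) = τ c := by
  unfold E1_re
  rw [if_neg (hτ.ne a), if_neg (Ne.symm h2), if_pos rfl]

include hτ h1 h2 in
theorem E1_re_d : E1_re τ a c (τ c) = τ a := by
  have h3 : τ c ≠ a := by
    intro h
    apply h2
    rw [← h, hτ.inv]
  have h4 : τ c ≠ τ a := by
    intro h
    apply h1
    rw [← hτ.inv c, h, hτ.inv]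
  unfold E1_re
  rw [if_neg h3, if_neg (hτ.ne c), if_neg h4, if_pos rfl]

theorem E1_re_x {x : ι} (x1 : x ≠ a) (x2 : x ≠ τ a) (x3 : x ≠ c) (x4 : x ≠ τ c) :
    E1_re τ a c x = τ x := by
  unfold E1_re
  rw [if_neg x1, if_neg x3, if_neg x2, if_neg x4]

include hτ hac h1 h2 in
/-- if the new matching is not transversal -/
theorem E1_cases : Tv C π (E1_re τ a c) ∨
    ∃ f ∈ C, f a = f c ∧ f (τ a) = f (τ c) ∧ f a ≠ f (τ a) ∧
      ∀ x, π x = π a → x ≠ a → x ≠ τ a → x ≠ c → x ≠ τ c → f (τ x) = f x := by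
  have h3 : τ c ≠ a := by
    intro h
    apply h2
    rw [← h, hτ.inv]
  have h4 : τ c ≠ τ a := by
    intro h
    apply h1
    rw [← hτ.inv c, h, hτ.inv]
  have ra : E1_re τ a c a = c := E1_re_a
  have rc : E1_re τ a c c = a := E1_re_c h1
  have rb : E1_re τ a c (τ a) = τ c := E1_re_b hτ h2
  have rd : E1_re τ a c (τ c) = τ a := E1_re_d hτ h1 h2
  by_cases hT : Tv C π (E1_re τ a c)
  · exact Or.inl hT
  · right
    have hfib : ∀ x, π (E1_re τ a c x) = π x := by
      intro x
      by_cases x1 : x = a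
      · rw [x1, ra, hac]
      by_cases x2 : x = τ a
      · rw [x2, rb, hτ.fib, hτ.fib, hac]
      by_cases x3 : x = c
      · rw [x3, rc, hac]
      by_cases x4 : x = τ c
      · rw [x4, rd, hτ.fib, hτ.fib, hac]
      rw [E1_re_x x1 x2 x3 x4, hτ.fib]
    have hinv : ∀ x, E1_re τ a c (E1_re τ a c x) = x := by
      intro x
      by_cases x1 : x = a
      · rw [x1, ra, rc]
      by_cases x2 : x = τ a
      · rw [x2, rb, rd]
      by_cases x3 : x = c
      · rw [x3, rc, ra]
      by_cases x4 : x = τ c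
      · rw [x4, rd, rb]
      rw [E1_re_x x1 x2 x3 x4, E1_re_x, hτ.inv]
      · intro h
        apply x2
        rw [← h, hτ.inv]
      · intro h
        apply x1
        rw [← hτ.inv x, h, hτ.inv]
      · intro h
        apply x4
        rw [← h, hτ.inv]
      · intro h
        apply x3
        rw [← hτ.inv x, h, hτ.inv]
    have hne : ∀ x, E1_re τ a c x ≠ x := by
      intro x
      by_cases x1 : x = a
      · rw [x1, ra]
        exact h1
      by_cases x2 : x = τ a
      · rw [x2, rb]
        exact h4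
      by_cases x3 : x = c
      · rw [x3, rc]
        exact Ne.symm h1
      by_cases x4 : x = τ c
      · rw [x4, rd]
        exact Ne.symm h4
      rw [E1_re_x x1 x2 x3 x4]
      exact hτ.ne x
    have hnt : ¬ ∀ f ∈ C, ∀ p, (∀ x, π x = p → f (E1_re τ a c x) = f x) →
        ∀ x y, π x = p → π y = p → f x = f y := fun h => hT ⟨hfib, hinv, hne, h⟩
    push Not at hnt
    obtain ⟨f, hf, p, hfi, x, y, hx, hy, hxy⟩ := hnt
    have hp : p = π a := by
      by_contra hp
      apply hxy
      refine hτ.trans f hf p (fun z hz => ?_) x y hx hy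
      have hza : ∀ w, π w = π a → z ≠ w := by
        rintro w hw rfl
        exact hp (hz.symm.trans hw)
      have h5 := hfi z hz
      rw [E1_re_x (hza a rfl) (hza _ (hτ.fib a)) (hza c hac.symm)
        (hza _ ((hτ.fib c).trans hac.symm))] at h5
      exact h5
    subst hp
    have fac : f a = f c := by
      have h5 := hfi a rfl
      rw [ra] at h5
      exact h5.symm
    have fbd : f (τ a) = f (τ c) := by
      have h5 := hfi (τ a) (hτ.fib a)
      rw [rb] at h5
      exact h5.symm
    have frest : ∀ x, π x = π a → x ≠ a → x ≠ τ a → x ≠ c → x ≠ τ c → f (τ x) = f x := by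
      intro z hz z1 z2 z3 z4
      have h5 := hfi z hz
      rw [E1_re_x z1 z2 z3 z4] at h5
      exact h5
    refine ⟨f, hf, fac, fbd, ?_, frest⟩
    intro hab
    apply hxy
    refine hτ.trans f hf (π a) (fun z hz => ?_) x y hx hy
    by_cases z1 : z = a
    · rw [z1, hab]
    by_cases z2 : z = τ a
    · rw [z2, hτ.inv, hab]
    by_cases z3 : z = c
    · rw [z3, ← fbd, ← hab, fac]
    by_cases z4 : z = τ c
    · rw [z4, hτ.inv, ← fac, hab, fbd]
    exact frest z hz z1 z2 z3 z4

end

/-- Section IV.2 (i): re-pairing. Let `b = τ a`, `d = τ c` (`a, b, c, d` distinct, all in the fibre of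
`a`). `τ₁`: `a ↔ c`, `b ↔ d`; `τ₂`: `a ↔ d`, `b ↔ c`; elsewhere `τ`. One of them is transversal for
the fibre of `a` (the other fibres are unchanged): otherwise there are `f, g ∈ C`, `f` `τ₁`-invariant on the
fibre and not constant on it, `g` `τ₂`-invariant and not constant. `f a = f c`, `f b = f d`; if
`f a = f b` then `f` is `τ`-invariant, constant: contradiction. So `f a ≠ f b`; similarly
`g a = g d ≠ g b = g c`. The sum of `f g` over the fibre is the sum over `{a,b,c,d}` (the rest cancels in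
pairs `x, τ x`: `Finset.sum_involution` in characteristic `2`), which is
`(f a + f b) (g a + g b) = 1 ≠ 0`. -/
theorem Tv.repair {ι α : Type*} [Fintype ι] [DecidableEq ι] [DecidableEq α]
    {C : Submodule (ZMod 2) (ι → ZMod 2)} {π : ι → α} (horth : Orth C π) {τ : ι → ι}
    (hτ : Tv C π τ) {a c : ι} (hac : π a = π c) (h1 : c ≠ a) (h2 : c ≠ τ a) :
    ∃ τ', Tv C π τ' ∧ (∀ x, x ≠ a → x ≠ τ a → x ≠ c → x ≠ τ c → τ' x = τ x) ∧
      ((τ' a = c ∧ τ' (τ a) = τ c) ∨ (τ' a = τ c ∧ τ' (τ a) = c)) := by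
  have h3 : τ c ≠ a := by
    intro h
    apply h2
    rw [← h, hτ.inv]
  have h4 : τ c ≠ τ a := by
    intro h
    apply h1
    rw [← hτ.inv c, h, hτ.inv]
  have hfc : π (τ c) = π a := (hτ.fib c).trans hac.symm
  rcases E1_cases hτ hac h1 h2 with hT | ⟨f, hf, f1, f2, f3, f4⟩
  · exact ⟨_, hT, fun x x1 x2 x3 x4 => E1_re_x x1 x2 x3 x4, Or.inl ⟨E1_re_a, E1_re_b hτ h2⟩⟩
  rcases E1_cases hτ hfc.symm h3 h4 with hT | ⟨g, hg, g1, g2, g3, g4⟩
  · refine ⟨_, hT, fun x x1 x2 x3 x4 => E1_re_x x1 x2 x4 (by rw [hτ.inv]; exact x3),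
      Or.inr ⟨E1_re_a, ?_⟩⟩
    rw [E1_re_b hτ h4, hτ.inv]
  exfalso
  rw [hτ.inv] at g2
  have horth1 := horth f hf g hg (π a)
  obtain ⟨X, hX⟩ : ∃ X, X = univ.filter (fun x => π x = π a) := ⟨_, rfl⟩
  rw [← hX] at horth1
  have hm : ∀ x, x ∈ X ↔ π x = π a := by
    intro x
    rw [hX, Finset.mem_filter]
    simp
  obtain ⟨Y, hY⟩ : ∃ Y, Y = (((X.erase a).erase (τ a)).erase c).erase (τ c) := ⟨_, rfl⟩
  have hmY : ∀ x, x ∈ Y ↔ π x = π a ∧ x ≠ a ∧ x ≠ τ a ∧ x ≠ c ∧ x ≠ τ c := by
    intro x
    rw [hY, Finset.mem_erase, Finset.mem_erase, Finset.mem_erase, Finset.mem_erase, hm]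
    tauto
  have hYsum : ∑ x ∈ Y, f x * g x = 0 := by
    refine Finset.sum_involution (fun x _ => τ x) ?_ ?_ ?_ ?_
    · intro x hx
      obtain ⟨y0, y1, y2, y3, y4⟩ := (hmY x).1 hx
      rw [f4 x y0 y1 y2 y3 y4, g4 x y0 y1 y2 y4 (by rw [hτ.inv]; exact y3)]
      exact E1_add_self _
    · intro x _ _
      exact hτ.ne x
    · intro x hx
      obtain ⟨y0, y1, y2, y3, y4⟩ := (hmY x).1 hx
      rw [hmY]
      refine ⟨(hτ.fib x).trans y0, ?_, ?_, ?_, ?_⟩
      · intro h
        apply y2
        rw [← h, hτ.inv]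
      · intro h
        apply y1
        rw [← hτ.inv x, h, hτ.inv]
      · intro h
        apply y4
        rw [← h, hτ.inv]
      · intro h
        apply y3
        rw [← hτ.inv x, h, hτ.inv]
    · intro x _
      exact hτ.inv x
  have m1 : a ∈ X := (hm a).2 rfl
  have m2 : τ a ∈ X.erase a := Finset.mem_erase.2 ⟨hτ.ne a, (hm _).2 (hτ.fib a)⟩
  have m3 : c ∈ (X.erase a).erase (τ a) :=
    Finset.mem_erase.2 ⟨h2, Finset.mem_erase.2 ⟨h1, (hm _).2 hac.symm⟩⟩
  have m4 : τ c ∈ ((X.erase a).erase (τ a)).erase c :=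
    Finset.mem_erase.2 ⟨hτ.ne c, Finset.mem_erase.2 ⟨h4, Finset.mem_erase.2 ⟨h3, (hm _).2 hfc⟩⟩⟩
  rw [← Finset.add_sum_erase _ _ m1, ← Finset.add_sum_erase _ _ m2, ← Finset.add_sum_erase _ _ m3,
    ← Finset.add_sum_erase _ _ m4, ← hY, hYsum, add_zero, ← f1, ← f2, ← g1, ← g2] at horth1
  have e1 := E1_ne f3
  have e2 := E1_ne g3
  have e3 : f a * g a + (f (τ a) * g (τ a) + (f a * g (τ a) + f (τ a) * g a)) =
      (f a + f (τ a)) * (g a + g (τ a)) := by ring
  rw [e3, e1, e2, mul_one] at horth1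
  exact one_ne_zero horth1

end Pool.Agent.NHT
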