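import Pool.Agent.NHT.E1

set_option autoImplicit false

/-!
NHT-E2: one circuit (section IV.2, IV.3).
-/

namespace Pool.Agent.NHT

open Finset

/-- The relation of two involutions. -/
def Rel2 {ι : Type*} (τ τ' : ι → ι) (x y : ι) : Prop := y = τ x ∨ y = τ' x

/-- A finite set with a fixed point free involution has even cardinality. -/
theorem E2_even {ι : Type*} {K : Finset ι} {τ : ι → ι} (h1 : ∀ x ∈ K, τ x ∈ K)
    (h2 : ∀ x ∈ K, τ (τ x) = x) (h3 : ∀ x ∈ K, τ x ≠ x) : Even K.card := by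
  have h := Finset.sum_involution (s := K) (f := fun _ => (1 : ZMod 2)) (fun x _ => τ x)
    (fun x hx => by decide) (fun x hx _ => h3 x hx) (fun x hx => h1 x hx) (fun x hx => h2 x hx)
  rw [Finset.sum_const, nsmul_eq_mul, mul_one] at h
  exact (ZMod.natCast_eq_zero_iff_even).1 h

/-- Section IV.2 (ii): `a` and `b = τ a` are still connected without the link `a b` (and without the link
`c, τ c`, where `c` is in another class). Let `K` be the set of all `x` with `EqvGen R a x`, `R` the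
relation `y = τ' x`, or `y = τ x` and `x, y ∉ {a, τ a, c, τ c}`. `c, τ c ∉ K` since `K` is inside the class of `a`.
If `τ a ∉ K`: `τ'` is a fixed point free involution of `K`, so `|K|` is even, and `τ` one of `K \ {a}`: odd.
(Parity: `Finset.sum_involution` for `∑_{x ∈ K} (1 : ZMod 2)`.) -/
theorem still_connected {ι : Type*} [Fintype ι] {τ τ' : ι → ι} (hτ : ∀ x, τ (τ x) = x)
    (hτn : ∀ x, τ x ≠ x) (hτ' : ∀ x, τ' (τ' x) = x) (hτn' : ∀ x, τ' x ≠ x) {a c : ι}
    (hac : ¬ Relation.EqvGen (Rel2 τ τ') a c) :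
    Relation.EqvGen (fun x y => y = τ' x ∨ (y = τ x ∧ x ≠ a ∧ x ≠ τ a ∧ x ≠ c ∧ x ≠ τ c)) a (τ a) := by
  classical
  by_contra hcon
  set R : ι → ι → Prop := fun x y => y = τ' x ∨ (y = τ x ∧ x ≠ a ∧ x ≠ τ a ∧ x ≠ c ∧ x ≠ τ c) with hR
  have hsub : ∀ x y, Relation.EqvGen R x y → Relation.EqvGen (Rel2 τ τ') x y := by
    intro x y h
    refine h.mono (fun u v huv => ?_)
    rcases huv with h1 | ⟨h1, -⟩
    · exact Or.inr h1
    · exact Or.inl h1
  have hc : ¬ Relation.EqvGen R a c := fun h => hac (hsub _ _ h)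
  have hc' : ¬ Relation.EqvGen R a (τ c) := fun h => hac
    ((hsub _ _ h).trans _ _ _ (Relation.EqvGen.rel _ _ (Or.inl (hτ c).symm)))
  set K : Finset ι := univ.filter (fun x => Relation.EqvGen R a x) with hK
  have hmem : ∀ x, x ∈ K ↔ Relation.EqvGen R a x := fun x => by simp [hK]
  have hτK' : ∀ x ∈ K, τ' x ∈ K := by
    intro x hx
    rw [hmem] at hx ⊢
    exact hx.trans _ _ _ (Relation.EqvGen.rel _ _ (Or.inl rfl))
  have haK : a ∈ K := (hmem a).2 (Relation.EqvGen.refl a)
  have h1 : Even K.card := E2_even hτK' (fun x _ => hτ' x) (fun x _ => hτn' x)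
  have h2 : Even (K.erase a).card := by
    refine E2_even (τ := τ) (fun x hx => ?_) (fun x _ => hτ x) (fun x _ => hτn x)
    rw [Finset.mem_erase, hmem] at hx ⊢
    have hxa : x ≠ τ a := fun h => hcon (h ▸ hx.2)
    refine ⟨fun h => hxa (by rw [← h, hτ]), ?_⟩
    refine hx.2.trans _ _ _ (Relation.EqvGen.rel _ _ (Or.inr ⟨rfl, hx.1, hxa, ?_, ?_⟩))
    · intro h; exact hc (h ▸ hx.2)
    · intro h; exact hc' (h ▸ hx.2)
  have h3 := Finset.card_erase_add_one haK
  rw [← h3] at h1
  exact (Nat.not_even_iff_odd.2 (h2.add_one)) h1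

/-- The step: one fewer class. -/
theorem E2_step {ι α β : Type*} [Fintype ι] [DecidableEq ι] [DecidableEq α] [DecidableEq β]
    {C : Submodule (ZMod 2) (ι → ZMod 2)} {π : ι → α} {π' : ι → β} (horth : Orth C π)
    {τ τ' : ι → ι} (hτ : Tv C π τ) (hτ' : Tv C π' τ') {a c : ι} (hac : π a = π c)
    (hne : ¬ Relation.EqvGen (Rel2 τ τ') a c) :
    ∃ τ₁, Tv C π τ₁ ∧ Nat.card (Quot (Rel2 τ₁ τ')) < Nat.card (Quot (Rel2 τ τ')) := by
  have h1 : c ≠ a := fun h => hne (by rw [h]; exact Relation.EqvGen.refl a)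
  have h2 : c ≠ τ a := fun h => hne (Relation.EqvGen.rel _ _ (Or.inl h))
  obtain ⟨τ₁, ht, hsame, hcase⟩ := hτ.repair horth hac h1 h2
  refine ⟨τ₁, ht, ?_⟩
  -- links
  have hla : Relation.EqvGen (Rel2 τ₁ τ') a (τ a) := by
    refine (still_connected hτ.inv hτ.ne hτ'.inv hτ'.ne hne).mono (fun u v huv => ?_)
    rcases huv with h | ⟨h, h3, h4, h5, h6⟩
    · exact Or.inr h
    · exact Or.inl (by rw [h, hsame u h3 h4 h5 h6])
  have hlc : Relation.EqvGen (Rel2 τ₁ τ') c (τ c) := by
    refine (still_connected hτ.inv hτ.ne hτ'.inv hτ'.ne (fun h => hne (h.symm _ _))).mono (fun u v huv => ?_)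
    rcases huv with h | ⟨h, h3, h4, h5, h6⟩
    · exact Or.inr h
    · exact Or.inl (by rw [h, hsame u h5 h6 h3 h4])
  have hlac : Relation.EqvGen (Rel2 τ₁ τ') a c := by
    rcases hcase with ⟨h3, -⟩ | ⟨h3, -⟩
    · exact Relation.EqvGen.rel _ _ (Or.inl h3.symm)
    · have h4 : Relation.EqvGen (Rel2 τ₁ τ') a (τ c) := Relation.EqvGen.rel _ _ (Or.inl h3.symm)
      exact h4.trans _ _ _ (hlc.symm _ _)
  have hall : ∀ x y, Rel2 τ τ' x y → Relation.EqvGen (Rel2 τ₁ τ') x y := by
    intro x y hxy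
    rcases hxy with h | h
    · by_cases hxa : x = a
      · rw [h, hxa]; exact hla
      by_cases hxb : x = τ a
      · rw [h, hxb, hτ.inv]; exact hla.symm _ _
      by_cases hxc : x = c
      · rw [h, hxc]; exact hlc
      by_cases hxd : x = τ c
      · rw [h, hxd, hτ.inv]; exact hlc.symm _ _
      exact Relation.EqvGen.rel _ _ (Or.inl (by rw [h, hsame x hxa hxb hxc hxd]))
    · exact Relation.EqvGen.rel _ _ (Or.inr h)
  let F : Quot (Rel2 τ τ') → Quot (Rel2 τ₁ τ') :=
    Quot.lift (fun x => Quot.mk _ x) (fun x y hxy => Quot.eqvGen_sound (hall x y hxy))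
  have hFs : Function.Surjective F := by
    intro q
    obtain ⟨x, rfl⟩ := Quot.exists_rep q
    exact ⟨Quot.mk _ x, rfl⟩
  have hFi : ¬ Function.Injective F := by
    intro hF
    have h4 : F (Quot.mk _ a) = F (Quot.mk _ c) := Quot.eqvGen_sound hlac
    exact hne (Quot.eqvGen_exact (hF h4))
  have : Finite (Quot (Rel2 τ τ')) := Finite.of_surjective (Quot.mk _) Quot.exists_rep
  have : Finite (Quot (Rel2 τ₁ τ')) := Finite.of_surjective (Quot.mk _) Quot.exists_rep
  have hle : Nat.card (Quot (Rel2 τ₁ τ')) ≤ Nat.card (Quot (Rel2 τ τ')) :=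
    Nat.card_le_card_of_surjective F hFs
  refine lt_of_le_of_ne hle (fun heq => hFi ?_)
  exact ((Function.Surjective.bijective_of_nat_card_le hFs heq.symm.le)).1

/-- The two relations have the same classes. -/
theorem E2_swap {ι : Type*} (τ τ' : ι → ι) : Rel2 τ τ' = Rel2 τ' τ := by
  funext x y
  exact propext (or_comm)

/-- Section IV.2: among all pairs `(τ, τ')` of transversal matchings (they exist by `exists_Tv`) take one with
the least number of classes `Nat.card (Quot (Rel2 τ τ'))`. If there is more than one class then, by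
`hconn`, there are `a, c` in different classes with `π a = π c` or `π' a = π' c`; say `π a = π c`
(the other case is symmetric: exchange the roles; `Rel2 τ τ'` and `Rel2 τ' τ` have the same classes).
`Tv.repair` gives `τ₁`. All links of `Rel2 τ τ'` hold in the equivalence generated by `Rel2 τ₁ τ'`: for
`a, τ a` by `still_connected`, whose relation is contained in `Rel2 τ₁ τ'`; for `c, τ c` by
`still_connected` with the roles of `a` and `c` exchanged. And `a`, `c` are in one class for `Rel2 τ₁ τ'` (directly or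
through `τ c`). So the map `Quot (Rel2 τ τ') → Quot (Rel2 τ₁ τ')` is defined, surjective and not
injective: fewer classes. Contradiction. The conclusion is stated for closed predicates. -/
theorem exists_single {ι α β : Type*} [Fintype ι] [DecidableEq ι] [DecidableEq α] [DecidableEq β]
    (C : Submodule (ZMod 2) (ι → ZMod 2)) (π : ι → α) (π' : ι → β) (horth : Orth C π)
    (horth' : Orth C π') (h1 : (1 : ι → ZMod 2) ∈ C)
    (heven : ∀ p, Even (univ.filter (fun x => π x = p)).card)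
    (heven' : ∀ p, Even (univ.filter (fun x => π' x = p)).card)
    (hconn : ∀ P : ι → Prop, (∀ x y, π x = π y → P x → P y) → (∀ x y, π' x = π' y → P x → P y) →
      (∃ x, P x) → ∀ x, P x) :
    ∃ τ τ' : ι → ι, Tv C π τ ∧ Tv C π' τ' ∧
      ∀ P : ι → Prop, (∀ x, P x → P (τ x) ∧ P (τ' x)) → (∃ x, P x) → ∀ x, P x := by
  classical
  let Q : ℕ → Prop := fun n => ∃ τ τ' : ι → ι, Tv C π τ ∧ Tv C π' τ' ∧
    Nat.card (Quot (Rel2 τ τ')) = n
  have hQ : ∃ n, Q n := by
    obtain ⟨τ, hτ⟩ := exists_Tv C π horth h1 heven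
    obtain ⟨τ', hτ'⟩ := exists_Tv C π' horth' h1 heven'
    exact ⟨_, τ, τ', hτ, hτ', rfl⟩
  obtain ⟨τ, τ', hτ, hτ', hn⟩ := Nat.find_spec hQ
  have hmin : ∀ σ σ' : ι → ι, Tv C π σ → Tv C π' σ' →
      Nat.card (Quot (Rel2 τ τ')) ≤ Nat.card (Quot (Rel2 σ σ')) := by
    intro σ σ' h h'
    rw [hn]
    exact Nat.find_min' hQ ⟨σ, σ', h, h', rfl⟩
  refine ⟨τ, τ', hτ, hτ', fun P hP hex => ?_⟩
  -- one class
  have hone : ∀ x y, Relation.EqvGen (Rel2 τ τ') x y := by
    intro x
    refine hconn (fun y => Relation.EqvGen (Rel2 τ τ') x y) ?_ ?_ ⟨x, Relation.EqvGen.refl x⟩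
    · intro a c hac ha
      by_contra hc
      have hne : ¬ Relation.EqvGen (Rel2 τ τ') a c := fun h => hc (ha.trans _ _ _ h)
      obtain ⟨τ₁, h3, h4⟩ := E2_step horth hτ hτ' hac hne
      exact absurd (hmin τ₁ τ' h3 hτ') (not_le.2 h4)
    · intro a c hac ha
      by_contra hc
      have hne : ¬ Relation.EqvGen (Rel2 τ' τ) a c := fun h => hc (ha.trans _ _ _ (by
        rw [E2_swap τ τ']; exact h))
      obtain ⟨τ₁, h3, h4⟩ := E2_step horth' hτ' hτ hac hne
      rw [E2_swap τ₁ τ, E2_swap τ' τ] at h4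
      exact absurd (hmin τ τ₁ hτ h3) (not_le.2 h4)
  have hiff : ∀ x y, Relation.EqvGen (Rel2 τ τ') x y → (P x ↔ P y) := by
    intro x y h
    induction h with
    | rel x y h =>
      rcases h with h | h
      · subst h
        exact ⟨fun hx => (hP x hx).1, fun hx => by
          have := (hP _ hx).1
          rwa [hτ.inv] at this⟩
      · subst h
        exact ⟨fun hx => (hP x hx).2, fun hx => by
          have := (hP _ hx).2
          rwa [hτ'.inv] at this⟩
    | refl x => exact Iff.rfl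
    | symm x y _ ih => exact ih.symm
    | trans x y z _ _ ih1 ih2 => exact ih1.trans ih2
  obtain ⟨x₀, hx₀⟩ := hex
  exact fun x => (hiff x₀ x (hone x₀ x)).1 hx₀

end Pool.Agent.NHT
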