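import Pool.Agent.NHT.E0

set_option autoImplicit false

/-!
NHT-E2b: the enumeration of the circuit (section IV.3).
-/

namespace Pool.Agent.NHT

open Finset

section

variable {ι : Type*}

/-- The walk. -/
def E2b_w (τ τ' : ι → ι) (w₀ : ι) : ℕ → ι
  | 0 => w₀
  | i + 1 => if i % 2 = 0 then τ (E2b_w τ τ' w₀ i) else τ' (E2b_w τ τ' w₀ i)

theorem E2b_even (τ τ' : ι → ι) (w₀ : ι) {i : ℕ} (h : i % 2 = 0) :
    E2b_w τ τ' w₀ (i + 1) = τ (E2b_w τ τ' w₀ i) := by
  simp [E2b_w, h]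

theorem E2b_odd (τ τ' : ι → ι) (w₀ : ι) {i : ℕ} (h : i % 2 = 1) :
    E2b_w τ τ' w₀ (i + 1) = τ' (E2b_w τ τ' w₀ i) := by
  simp [E2b_w, h]

/-- Points at odd distance are different. -/
theorem E2b_ne {τ τ' : ι → ι} (hτ : ∀ x, τ (τ x) = x)
    (hτn : ∀ x, τ x ≠ x) (hτ' : ∀ x, τ' (τ' x) = x) (hτn' : ∀ x, τ' x ≠ x) (w₀ : ι) (d : ℕ) :
    ∀ i, E2b_w τ τ' w₀ (i + (2 * d + 1)) ≠ E2b_w τ τ' w₀ i := by
  induction d with
  | zero =>
    intro i h
    rcases Nat.mod_two_eq_zero_or_one i with hi | hi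
    · rw [mul_zero, zero_add, E2b_even _ _ _ hi] at h
      exact hτn _ h
    · rw [mul_zero, zero_add, E2b_odd _ _ _ hi] at h
      exact hτn' _ h
  | succ d ih =>
    intro i h
    refine ih (i + 1) ?_
    have e1 : i + (2 * (d + 1) + 1) = (i + 1 + (2 * d + 1)) + 1 := by ring
    rw [e1] at h
    rcases Nat.mod_two_eq_zero_or_one i with hi | hi
    · have hj : (i + 1 + (2 * d + 1)) % 2 = 0 := by omega
      rw [E2b_even _ _ _ hj] at h
      rw [E2b_even _ _ _ hi, ← h, hτ]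
    · have hj : (i + 1 + (2 * d + 1)) % 2 = 1 := by omega
      rw [E2b_odd _ _ _ hj] at h
      rw [E2b_odd _ _ _ hi, ← h, hτ']

/-- Equal points at even distance: shift down. -/
theorem E2b_down {τ τ' : ι → ι} (hτ : ∀ x, τ (τ x) = x)
    (hτ' : ∀ x, τ' (τ' x) = x) (w₀ : ι) (d : ℕ) :
    ∀ i, E2b_w τ τ' w₀ (i + 2 * d) = E2b_w τ τ' w₀ i → E2b_w τ τ' w₀ (2 * d) = w₀ := by
  intro i
  induction i with
  | zero => intro h; rw [zero_add] at h; exact h
  | succ i ih =>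
    intro h
    apply ih
    have e1 : i + 1 + 2 * d = (i + 2 * d) + 1 := by ring
    rw [e1] at h
    rcases Nat.mod_two_eq_zero_or_one i with hi | hi
    · have hj : (i + 2 * d) % 2 = 0 := by omega
      rw [E2b_even _ _ _ hj, E2b_even _ _ _ hi] at h
      rw [← hτ (E2b_w τ τ' w₀ (i + 2 * d)), h, hτ]
    · have hj : (i + 2 * d) % 2 = 1 := by omega
      rw [E2b_odd _ _ _ hj, E2b_odd _ _ _ hi] at h
      rw [← hτ' (E2b_w τ τ' w₀ (i + 2 * d)), h, hτ']

/-- Periodicity. -/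
theorem E2b_per {τ τ' : ι → ι} (w₀ : ι) {d : ℕ}
    (hd : E2b_w τ τ' w₀ (2 * d) = w₀) :
    ∀ i, E2b_w τ τ' w₀ (i + 2 * d) = E2b_w τ τ' w₀ i := by
  intro i
  induction i with
  | zero => rw [zero_add]; exact hd
  | succ i ih =>
    have e1 : i + 1 + 2 * d = (i + 2 * d) + 1 := by ring
    rw [e1]
    rcases Nat.mod_two_eq_zero_or_one i with hi | hi
    · have hj : (i + 2 * d) % 2 = 0 := by omega
      rw [E2b_even _ _ _ hj, E2b_even _ _ _ hi, ih]
    · have hj : (i + 2 * d) % 2 = 1 := by omega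
      rw [E2b_odd _ _ _ hj, E2b_odd _ _ _ hi, ih]

theorem E2b_mod {τ τ' : ι → ι} (w₀ : ι) {d : ℕ}
    (hd : E2b_w τ τ' w₀ (2 * d) = w₀) (i : ℕ) :
    E2b_w τ τ' w₀ (i % (2 * d)) = E2b_w τ τ' w₀ i := by
  have h : ∀ k r, E2b_w τ τ' w₀ (r + k * (2 * d)) = E2b_w τ τ' w₀ r := by
    intro k
    induction k with
    | zero => intro r; simp
    | succ k ih =>
      intro r
      have e1 : r + (k + 1) * (2 * d) = (r + k * (2 * d)) + 2 * d := by ring
      rw [e1, E2b_per w₀ hd, ih]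
  have h2 := h (i / (2 * d)) (i % (2 * d))
  rw [mul_comm (i / (2 * d)), Nat.mod_add_div] at h2
  exact h2.symm

end

/-- Section IV.3. Let `w₀` be any element and `w (i+1) = τ (w i)` for even `i`, `τ' (w i)` for odd `i`
(`i : ℕ`). With `σ = τ' ∘ τ` (a permutation of a finite set) `w (2 j) = σ^j w₀`; let `m ≥ 1` be least
with `σ^m w₀ = w₀`. Then `w (i + 2m) = w i`, the set of all `w i` is closed under `τ, τ'`
(`τ' w₀ = τ' (w (2m)) = w (2m-1)`), hence everything; `w 0, …, w (2m-1)` are distinct (section IV.3). So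
`n = 2m`, and `w : Fin n → ι`, `i ↦ w i.val` is bijective; for `i = n - 1` (odd) `w 0 = w n = τ' (w (n-1))`. -/
theorem exists_enum {ι : Type*} [Fintype ι] {n : ℕ} [NeZero n] (hn : Fintype.card ι = n)
    {τ τ' : ι → ι} (hτ : ∀ x, τ (τ x) = x)
    (hτn : ∀ x, τ x ≠ x) (hτ' : ∀ x, τ' (τ' x) = x) (hτn' : ∀ x, τ' x ≠ x)
    (hone : ∀ P : ι → Prop, (∀ x, P x → P (τ x) ∧ P (τ' x)) → (∃ x, P x) → ∀ x, P x) :
    ∃ w : Fin n → ι, Function.Bijective w ∧ Even n ∧
      (∀ i : Fin n, i.val % 2 = 0 → w (i + 1) = τ (w i)) ∧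
      (∀ i : Fin n, i.val % 2 = 1 → w (i + 1) = τ' (w i)) := by
  classical
  have hpos : 0 < Fintype.card ι := by rw [hn]; exact Nat.pos_of_ne_zero (NeZero.ne n)
  obtain ⟨w₀⟩ : Nonempty ι := Fintype.card_pos_iff.1 hpos
  set w := E2b_w τ τ' w₀ with hw
  -- a period
  have hex : ∃ d, 0 < d ∧ w (2 * d) = w₀ := by
    obtain ⟨x, y, hxy, hne⟩ : ∃ x y : ℕ, w (2 * x) = w (2 * y) ∧ x ≠ y := by
      by_contra hcon
      push Not at hcon
      exact not_injective_infinite_finite (fun x : ℕ => w (2 * x)) (fun x y h => hcon x y h)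
    rcases lt_or_gt_of_ne hne with h | h
    · refine ⟨y - x, by omega, ?_⟩
      apply E2b_down hτ hτ' w₀ (y - x) (2 * x)
      rw [show 2 * x + 2 * (y - x) = 2 * y by omega]
      exact hxy.symm
    · refine ⟨x - y, by omega, ?_⟩
      apply E2b_down hτ hτ' w₀ (x - y) (2 * y)
      rw [show 2 * y + 2 * (x - y) = 2 * x by omega]
      exact hxy
  obtain ⟨m, ⟨hm0, hm⟩, hmin⟩ : ∃ m, (0 < m ∧ w (2 * m) = w₀) ∧
      ∀ k, 0 < k ∧ w (2 * k) = w₀ → m ≤ k :=
    ⟨Nat.find hex, Nat.find_spec hex, fun k hk => Nat.find_min' hex hk⟩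
  -- injectivity
  have hinj : ∀ i j, i < j → j < 2 * m → w i ≠ w j := by
    intro i j hij hj h
    rcases Nat.mod_two_eq_zero_or_one (j - i) with h2 | h2
    · obtain ⟨d, hd⟩ : ∃ d, j - i = 2 * d := ⟨(j - i) / 2, by omega⟩
      have h3 : w (2 * d) = w₀ := by
        apply E2b_down hτ hτ' w₀ d i
        rw [show i + 2 * d = j by omega]
        exact h.symm
      have h4 := hmin d ⟨by omega, h3⟩
      omega
    · obtain ⟨d, hd⟩ : ∃ d, j - i = 2 * d + 1 := ⟨(j - i) / 2, by omega⟩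
      apply E2b_ne hτ hτn hτ' hτn' w₀ d i
      rw [show i + (2 * d + 1) = j by omega]
      exact h.symm
  -- surjectivity
  have hsurj : ∀ x, ∃ i, w i = x := by
    apply hone
    · rintro x ⟨i, rfl⟩
      have key : ∀ i, 0 < i → (∃ j, w j = τ (w i)) ∧ (∃ j, w j = τ' (w i)) := by
        intro i hi
        obtain ⟨k, rfl⟩ : ∃ k, i = k + 1 := ⟨i - 1, by omega⟩
        rcases Nat.mod_two_eq_zero_or_one k with hk | hk
        · have h1 : (k + 1) % 2 = 1 := by omega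
          refine ⟨⟨k, ?_⟩, ⟨k + 1 + 1, E2b_odd _ _ _ h1⟩⟩
          rw [hw, E2b_even _ _ _ hk, hτ]
        · have h1 : (k + 1) % 2 = 0 := by omega
          refine ⟨⟨k + 1 + 1, E2b_even _ _ _ h1⟩, ⟨k, ?_⟩⟩
          rw [hw, E2b_odd _ _ _ hk, hτ']
      rcases Nat.eq_zero_or_pos i with hi | hi
      · have h0 : w i = w (2 * m) := by
          rw [hi, hm]; rfl
        rw [h0]
        exact key (2 * m) (by omega)
      · exact key i hi
    · exact ⟨w₀, 0, rfl⟩
  have hmod : ∀ i, w (i % (2 * m)) = w i := fun i => E2b_mod w₀ hm i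
  -- the cardinality
  have hbij : Function.Bijective (fun i : Fin (2 * m) => w i.val) := by
    constructor
    · intro i j hij
      by_contra hne
      have hne' : i.val ≠ j.val := fun h => hne (Fin.ext h)
      rcases lt_or_gt_of_ne hne' with h | h
      · exact hinj _ _ h j.2 hij
      · exact hinj _ _ h i.2 hij.symm
    · intro x
      obtain ⟨i, rfl⟩ := hsurj x
      exact ⟨⟨i % (2 * m), Nat.mod_lt _ (by omega)⟩, hmod i⟩
  have hcard : 2 * m = n := by
    rw [← hn, ← Fintype.card_fin (2 * m)]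
    exact Fintype.card_of_bijective hbij
  subst hcard
  have hval : ∀ i : Fin (2 * m), w (i + 1).val = w (i.val + 1) := by
    intro i
    rw [Fin.val_add, ← hmod (i.val + 1)]
    congr 1
    have h1 : (1 : Fin (2 * m)).val = 1 := by
      rw [Fin.val_one']
      exact Nat.mod_eq_of_lt (by omega)
    rw [h1]
  refine ⟨fun i => w i.val, hbij, even_two_mul m, fun i hi => ?_, fun i hi => ?_⟩
  · show w (i + 1).val = τ (w i.val)
    rw [hval, hw, E2b_even _ _ _ hi]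
  · show w (i + 1).val = τ' (w i.val)
    rw [hval, hw, E2b_odd _ _ _ hi]

end Pool.Agent.NHT
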