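import Pool.Agent.NHT.E2
import Pool.Agent.NHT.E2b
import Pool.Agent.NHT.A2
import Pool.Agent.NHT.A9
import Pool.Agent.NHT.A10

set_option autoImplicit false

/-!
NHT-E3: the closed word of the code over `F_512` (section IV.3).
-/

namespace Pool.Agent.NHT

open Finset

instance : NeZero (2 ^ 36) := ⟨by norm_num⟩

/-- The stars: points (`inl`) and lines (`inr`). -/
abbrev S1 := (K × K × K) ⊕ (K × K × K)

noncomputable instance : DecidableEq S1 := Classical.decEq _

/-- The star of leg `i`: the line star of `w i` for even `i`, the point star of `w i` for odd `i`. -/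
noncomputable def ustar (w : Fin (2 ^ 36) → W) (i : Fin (2 ^ 36)) : S1 :=
  if i.val % 2 = 0 then Sum.inr (ln (w i)) else Sum.inl (pt (w i))

/-- A good enumeration: `exists_single` and `exists_enum` for `D`, `pt`, `ln` (`τ` preserves `pt`, `τ'`
preserves `ln`). For even `i` the wires `w i`, `w (i+1) = τ (w i)` have the same point; for odd `i` the
same line. -/
theorem exists_good : ∃ (w : Fin (2 ^ 36) → W) (τ τ' : W → W), Function.Bijective w ∧
    Tv D pt τ ∧ Tv D ln τ' ∧
    (∀ i : Fin (2 ^ 36), i.val % 2 = 0 → w (i + 1) = τ (w i)) ∧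
    (∀ i : Fin (2 ^ 36), i.val % 2 = 1 → w (i + 1) = τ' (w i)) := by
  classical
  obtain ⟨τ, τ', hτ, hτ', hone⟩ := exists_single D pt ln
    (fun f hf g hg p => D_orth_pt hf hg p) (fun f hf g hg l => D_orth_ln hf hg l) one_mem_D
    (fun p => by rw [card_pt]; decide) (fun l => by rw [card_ln]; decide) connected
  obtain ⟨w, hw, -, h0, h1⟩ := exists_enum (n := 2 ^ 36) card_W hτ.inv hτ.ne hτ'.inv hτ'.ne hone
  exact ⟨w, τ, τ', hw, hτ, hτ', h0, h1⟩

theorem card_S1 : Nat.card S1 = 2 ^ 28 := by
  rw [Nat.card_eq_fintype_card, Fintype.card_sum, card_K3]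
  norm_num

end Pool.Agent.NHT
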