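import Pool.Agent.NHT.E0

set_option autoImplicit false

/-!
NHT-E4: the form of one star (section IV.5).
-/

namespace Pool.Agent.NHT

open Finset

/-- `∑_{i ∈ I} z_φ(i) = 0` (orthogonality with `1`). -/
theorem sum_zz {n : ℕ} [NeZero n] (I : Finset (Fin n)) (C : Submodule (ZMod 2) (Fin n → ZMod 2))
    (one : (1 : Fin n → ZMod 2) ∈ C)
    (orth : ∀ φ ∈ C, ∀ ψ ∈ C, ∑ i ∈ I, (φ (i - 1) * ψ (i - 1) + φ i * ψ i) = 0)
    (φ : Fin n → ZMod 2) (hφ : φ ∈ C) : ∑ i ∈ I, zz φ i = 0 := by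
  have h := orth φ hφ 1 one
  simp only [Pi.one_apply, mul_one] at h
  simpa only [zz] using h

theorem e4_swap {n : ℕ} (I : Finset (Fin n)) (f g : Fin n → ZMod 2) :
    ∑ k ∈ I, f k * ∑ j ∈ I.filter (· < k), g j + ∑ k ∈ I, g k * ∑ j ∈ I.filter (· < k), f j =
      (∑ k ∈ I, f k) * (∑ j ∈ I, g j) + ∑ k ∈ I, f k * g k := by
  have h1 : ∑ k ∈ I, f k * ∑ j ∈ I.filter (· < k), g j =
      ∑ k ∈ I, ∑ j ∈ I, (if j < k then f k * g j else 0) := by
    refine Finset.sum_congr rfl fun k _ => ?_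
    rw [Finset.mul_sum, Finset.sum_filter]
  have h2 : ∑ k ∈ I, g k * ∑ j ∈ I.filter (· < k), f j =
      ∑ k ∈ I, ∑ j ∈ I, (if k < j then f k * g j else 0) := by
    rw [Finset.sum_comm]
    refine Finset.sum_congr rfl fun k _ => ?_
    rw [Finset.mul_sum, Finset.sum_filter]
    refine Finset.sum_congr rfl fun j _ => ?_
    by_cases h : j < k
    · simp [h, mul_comm]
    · simp [h]
  have h3 : ∑ k ∈ I, f k * g k = ∑ k ∈ I, ∑ j ∈ I, (if j = k then f k * g j else 0) := by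
    refine Finset.sum_congr rfl fun k hk => ?_
    rw [Finset.sum_ite_eq']
    simp [hk]
  have h4 : (∑ k ∈ I, f k) * (∑ j ∈ I, g j) = ∑ k ∈ I, ∑ j ∈ I, f k * g j := by
    rw [Finset.sum_mul_sum]
  rw [h1, h2, h3, h4, ← Finset.sum_add_distrib, ← Finset.sum_add_distrib]
  refine Finset.sum_congr rfl fun k _ => ?_
  rw [← Finset.sum_add_distrib, ← Finset.sum_add_distrib]
  refine Finset.sum_congr rfl fun j _ => ?_
  rcases lt_trichotomy j k with h | h | h
  · simp [h, h.ne, not_lt.mpr h.le]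
  · subst h
    simp [CharTwo.add_self_eq_zero]
  · simp [h, h.ne', not_lt.mpr h.le]

/-- `β(ψ, φ) = ∑_k z_ψ(k) (ρ_k(φ) + ρ_t(φ))` is symmetric on `C` (section IV.5), where
`ρ_k(φ) = φ(k-1) + ∑_{j ∈ I, j < k} z_φ(j)`. Since `∑ z_ψ = 0` the term `ρ_t` drops out;
`∑_{j<i} z'_i z_j + ∑_{j<i} z_i z'_j = ∑_{j≠i} z_j z'_i = (∑ z)(∑ z') + ∑ z_i z'_i`; and
`z'α + zα' + zz' = αα' + ββ'` for `z = α + β`, `z' = α' + β'`. -/
theorem beta_symm {n : ℕ} [NeZero n] (I : Finset (Fin n)) (t : Fin n)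
    (C : Submodule (ZMod 2) (Fin n → ZMod 2)) (one : (1 : Fin n → ZMod 2) ∈ C)
    (orth : ∀ φ ∈ C, ∀ ψ ∈ C, ∑ i ∈ I, (φ (i - 1) * ψ (i - 1) + φ i * ψ i) = 0)
    (φ ψ : Fin n → ZMod 2) (hφ : φ ∈ C) (hψ : ψ ∈ C) :
    ∑ k ∈ I, zz ψ k * ((φ (k - 1) + ∑ j ∈ I.filter (· < k), zz φ j) +
      (φ (t - 1) + ∑ j ∈ I.filter (· < t), zz φ j)) =
    ∑ k ∈ I, zz φ k * ((ψ (k - 1) + ∑ j ∈ I.filter (· < k), zz ψ j) +
      (ψ (t - 1) + ∑ j ∈ I.filter (· < t), zz ψ j)) := by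
  have hsφ := sum_zz I C one orth φ hφ
  have hsψ := sum_zz I C one orth ψ hψ
  have e1 : ∀ (a b : Fin n → ZMod 2), (∑ k ∈ I, zz a k = 0) →
      ∑ k ∈ I, zz a k * ((b (k - 1) + ∑ j ∈ I.filter (· < k), zz b j) +
        (b (t - 1) + ∑ j ∈ I.filter (· < t), zz b j)) =
      ∑ k ∈ I, zz a k * b (k - 1) + ∑ k ∈ I, zz a k * ∑ j ∈ I.filter (· < k), zz b j := by
    intro a b ha
    have : ∀ k ∈ I, zz a k * ((b (k - 1) + ∑ j ∈ I.filter (· < k), zz b j) +
        (b (t - 1) + ∑ j ∈ I.filter (· < t), zz b j)) =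
        zz a k * b (k - 1) + zz a k * ∑ j ∈ I.filter (· < k), zz b j +
          zz a k * (b (t - 1) + ∑ j ∈ I.filter (· < t), zz b j) := by
      intro k _
      ring
    rw [Finset.sum_congr rfl this, Finset.sum_add_distrib, Finset.sum_add_distrib,
      ← Finset.sum_mul, ha, zero_mul, add_zero]
  rw [e1 ψ φ hsψ, e1 φ ψ hsφ]
  have hsw := e4_swap I (zz ψ) (zz φ)
  rw [hsφ, hsψ, zero_mul, zero_add] at hsw
  have ho := orth φ hφ ψ hψ
  have hz : ∑ k ∈ I, zz ψ k * φ (k - 1) + ∑ k ∈ I, zz φ k * ψ (k - 1) +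
      ∑ k ∈ I, zz ψ k * zz φ k = 0 := by
    rw [← ho, ← Finset.sum_add_distrib, ← Finset.sum_add_distrib]
    refine Finset.sum_congr rfl fun k _ => ?_
    simp only [zz]
    generalize ψ (k - 1) = a
    generalize ψ k = b
    generalize φ (k - 1) = c
    generalize φ k = d
    revert a b c d
    decide
  have h2 : (∑ k ∈ I, zz ψ k * φ (k - 1) + ∑ k ∈ I, zz ψ k * ∑ j ∈ I.filter (· < k), zz φ j) +
      (∑ k ∈ I, zz φ k * ψ (k - 1) + ∑ k ∈ I, zz φ k * ∑ j ∈ I.filter (· < k), zz ψ j) = 0 := by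
    rw [← hz, ← hsw]
    ring
  exact CharTwo.add_eq_zero.mp h2

/-- Section IV.5. `R_k(φ) = ρ_k(φ) + ρ_t(φ)`, `R_t = 0`. The linear map `Z : C → (Fin n → ZMod 2)`,
`φ ↦ (z_φ(j) for j ∈ I.erase t, 0 elsewhere)`. If `Z φ = 0` then `z_φ = 0` on `I` (`sum_zz`), `φ` is
constant on the wires of `I` (`trans`, all `φ(i-1) = φ(i)`), and `R_k(φ) = 0` for all `k ∈ I`. Choose a linear
`L : (Fin n → ZMod 2) → C` with `Z (L (Z φ)) = Z φ` (a right inverse of `Z` onto its range, extended by a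
projection: `LinearMap.exists_leftInverse_of_injective` for the range, `exists_rightInverse_of_surjective`; or
`Submodule.exists_isCompl`). Then `R_k (L (Z φ)) = R_k (φ)` for `k ∈ I`. Define for `v, w : Fin n → ZMod 2`, with sums over
`k ∈ I.erase t`, `B(v,w) = ∑ w_k R_k(L v) + ∑ v_k R_k(L w) + ∑ (Z (L w))_k R_k(L v)`. It is bilinear;
symmetric, because `∑_k (Z (L w))_k R_k (L v) = β(L w, L v)` is symmetric (`beta_symm`, `R_t = 0`); and
`B(Z φ, w) = ∑ w_k R_k(φ) + β(φ, L w) + β(L w, φ) = ∑ w_k R_k(φ)` [use `R_k(L(Zφ)) = R_k(φ)` and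
`∑ (Zφ)_k R_k(L w) = β(φ, L w)`]. Put `B j k = B(e_j, e_k)`; for `k ∈ I.erase t`:
`∑_{j ∈ I.erase t} z_φ(j) B j k = B(Z φ, e_k) = R_k(φ)`. -/
theorem star_form {n : ℕ} [NeZero n] (I : Finset (Fin n)) (t : Fin n) (ht : t ∈ I)
    (C : Submodule (ZMod 2) (Fin n → ZMod 2)) (one : (1 : Fin n → ZMod 2) ∈ C)
    (orth : ∀ φ ∈ C, ∀ ψ ∈ C, ∑ i ∈ I, (φ (i - 1) * ψ (i - 1) + φ i * ψ i) = 0)
    (trans : ∀ φ ∈ C, (∀ i ∈ I, φ (i - 1) = φ i) → ∀ i ∈ I, ∀ j ∈ I, φ i = φ j) :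
    ∃ B : Fin n → Fin n → ZMod 2, (∀ j k, B j k = B k j) ∧
      ∀ φ ∈ C, ∀ k ∈ I.erase t, ∑ j ∈ I.erase t, zz φ j * B j k =
        (φ (k - 1) + ∑ j ∈ I.filter (· < k), zz φ j) +
          (φ (t - 1) + ∑ j ∈ I.filter (· < t), zz φ j) := by
  have zadd : ∀ (a b : Fin n → ZMod 2) (j : Fin n), zz (a + b) j = zz a j + zz b j := by
    intro a b j
    simp only [zz, Pi.add_apply]
    ring
  have zsmul : ∀ (c : ZMod 2) (a : Fin n → ZMod 2) (j : Fin n), zz (c • a) j = c * zz a j := by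
    intro c a j
    simp only [zz, Pi.smul_apply, smul_eq_mul]
    ring
  -- the linear map `R_k`
  let R : Fin n → (Fin n → ZMod 2) →ₗ[ZMod 2] ZMod 2 := fun k =>
    { toFun := fun φ => (φ (k - 1) + ∑ j ∈ I.filter (· < k), zz φ j) +
          (φ (t - 1) + ∑ j ∈ I.filter (· < t), zz φ j)
      map_add' := by
        intro a b
        simp only [zadd, Pi.add_apply, Finset.sum_add_distrib]
        ring
      map_smul' := by
        intro c a
        simp only [zsmul, Pi.smul_apply, smul_eq_mul, ← Finset.mul_sum, RingHom.id_apply]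
        ring }
  have hR : ∀ k φ, R k φ = (φ (k - 1) + ∑ j ∈ I.filter (· < k), zz φ j) +
          (φ (t - 1) + ∑ j ∈ I.filter (· < t), zz φ j) := fun k φ => rfl
  have hRt : ∀ φ, R t φ = 0 := by
    intro φ
    rw [hR]
    exact CharTwo.add_self_eq_zero _
  let Z : (Fin n → ZMod 2) →ₗ[ZMod 2] (Fin n → ZMod 2) :=
    { toFun := fun φ j => if j ∈ I.erase t then zz φ j else 0
      map_add' := by
        intro a b
        funext j
        by_cases h : j ∈ I.erase t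
        · simp only [h, if_true, Pi.add_apply, zadd]
        · simp only [h, if_false, Pi.add_apply, add_zero]
      map_smul' := by
        intro c a
        funext j
        by_cases h : j ∈ I.erase t
        · simp only [h, if_true, Pi.smul_apply, zsmul, smul_eq_mul, RingHom.id_apply]
        · simp only [h, if_false, Pi.smul_apply, smul_eq_mul, mul_zero, RingHom.id_apply] }
  have hZ : ∀ φ j, Z φ j = if j ∈ I.erase t then zz φ j else 0 := fun φ j => rfl
  -- the key fact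
  have F1 : ∀ φ ∈ C, Z φ = 0 → ∀ k ∈ I, R k φ = 0 := by
    intro φ hφ h0 k hk
    have h1 : ∀ j ∈ I.erase t, zz φ j = 0 := by
      intro j hj
      have := congrFun h0 j
      rw [hZ, if_pos hj] at this
      simpa using this
    have h2 : ∀ j ∈ I, zz φ j = 0 := by
      intro j hj
      by_cases hjt : j = t
      · subst hjt
        have := sum_zz I C one orth φ hφ
        rw [← Finset.add_sum_erase I _ hj, Finset.sum_eq_zero h1, add_zero] at this
        exact this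
      · exact h1 j (Finset.mem_erase.mpr ⟨hjt, hj⟩)
    have h3 : ∀ i ∈ I, φ (i - 1) = φ i := by
      intro i hi
      exact CharTwo.add_eq_zero.mp (h2 i hi)
    have h4 := trans φ hφ h3 k hk t ht
    rw [hR, Finset.sum_eq_zero (fun j hj => h2 j (Finset.mem_filter.mp hj).1),
      Finset.sum_eq_zero (fun j hj => h2 j (Finset.mem_filter.mp hj).1), h3 k hk, h3 t ht, h4]
    simp [CharTwo.add_self_eq_zero]
  -- the generalized inverse
  obtain ⟨L, hLC, hL⟩ : ∃ L : (Fin n → ZMod 2) →ₗ[ZMod 2] (Fin n → ZMod 2),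
      (∀ v, L v ∈ C) ∧ ∀ φ ∈ C, Z (L (Z φ)) = Z φ := by
    let ZC : C →ₗ[ZMod 2] (Fin n → ZMod 2) := Z.domRestrict C
    obtain ⟨s, hs⟩ := LinearMap.exists_rightInverse_of_surjective ZC.rangeRestrict
      (LinearMap.range_eq_top.mpr ZC.surjective_rangeRestrict)
    obtain ⟨p, hp⟩ := LinearMap.exists_leftInverse_of_injective (LinearMap.range ZC).subtype
      (Submodule.ker_subtype _)
    refine ⟨C.subtype.comp (s.comp p), fun v => (s (p v)).2, fun φ hφ => ?_⟩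
    have h1 : p (Z φ) = ZC.rangeRestrict ⟨φ, hφ⟩ := by
      exact LinearMap.congr_fun hp (ZC.rangeRestrict ⟨φ, hφ⟩)
    have h2 : ZC.rangeRestrict (s (p (Z φ))) = p (Z φ) := LinearMap.congr_fun hs _
    have h3 : ZC (s (p (Z φ))) = Z φ := by
      have := congrArg Subtype.val h2
      rw [h1] at this ⊢
      exact this
    exact h3
  have F2 : ∀ φ ∈ C, ∀ k ∈ I, R k (L (Z φ)) = R k φ := by
    intro φ hφ k hk
    have h1 : Z (L (Z φ) - φ) = 0 := by
      rw [map_sub, hL φ hφ, sub_self]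
    have h2 := F1 (L (Z φ) - φ) (C.sub_mem (hLC _) hφ) h1 k hk
    rw [map_sub] at h2
    exact sub_eq_zero.mp h2
  have F3 : ∀ φ ∈ C, ∀ ψ ∈ C, ∑ k ∈ I.erase t, zz ψ k * R k φ =
      ∑ k ∈ I.erase t, zz φ k * R k ψ := by
    intro φ hφ ψ hψ
    have h := beta_symm I t C one orth φ ψ hφ hψ
    have h1 : ∑ k ∈ I, zz ψ k * R k φ = ∑ k ∈ I, zz φ k * R k ψ := h
    rw [← Finset.add_sum_erase I _ ht, ← Finset.add_sum_erase I _ ht, hRt, hRt] at h1
    simpa using h1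
  let Bf : (Fin n → ZMod 2) → (Fin n → ZMod 2) → ZMod 2 := fun v w =>
    ∑ k ∈ I.erase t, w k * R k (L v) + ∑ k ∈ I.erase t, v k * R k (L w) +
      ∑ k ∈ I.erase t, zz (L w) k * R k (L v)
  have hBsymm : ∀ v w, Bf v w = Bf w v := by
    intro v w
    simp only [Bf]
    rw [F3 (L v) (hLC v) (L w) (hLC w)]
    ring
  have hBadd : ∀ v v' w, Bf (v + v') w = Bf v w + Bf v' w := by
    intro v v' w
    simp only [Bf, map_add, Pi.add_apply, mul_add, add_mul, Finset.sum_add_distrib]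
    ring
  have hBsmul : ∀ (c : ZMod 2) v w, Bf (c • v) w = c * Bf v w := by
    intro c v w
    simp only [Bf, map_smul, Pi.smul_apply, smul_eq_mul, mul_add, Finset.mul_sum]
    congr 1
    · congr 1
      · exact Finset.sum_congr rfl fun k _ => by ring
      · exact Finset.sum_congr rfl fun k _ => by ring
    · exact Finset.sum_congr rfl fun k _ => by ring
  let Bl : (Fin n → ZMod 2) → (Fin n → ZMod 2) →ₗ[ZMod 2] ZMod 2 := fun w =>
    { toFun := fun v => Bf v w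
      map_add' := fun a b => hBadd a b w
      map_smul' := fun c a => hBsmul c a w }
  have hBl : ∀ v w, Bl w v = Bf v w := fun v w => rfl
  have hZsum : ∀ φ, Z φ = ∑ j ∈ I.erase t, zz φ j • (Pi.single j (1 : ZMod 2) : Fin n → ZMod 2) := by
    intro φ
    funext i
    rw [hZ, Finset.sum_apply]
    simp only [Pi.smul_apply, Pi.single_apply, smul_eq_mul, mul_ite, mul_one, mul_zero]
    rw [Finset.sum_ite_eq]
  refine ⟨fun j k => Bf (Pi.single j 1) (Pi.single k 1), fun j k => hBsymm _ _, ?_⟩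
  intro φ hφ k hk
  have h1 : ∑ j ∈ I.erase t, zz φ j * Bf (Pi.single j 1) (Pi.single k 1) =
      Bf (Z φ) (Pi.single k 1) := by
    rw [← hBl (Z φ), hZsum, map_sum]
    refine Finset.sum_congr rfl fun j _ => ?_
    rw [map_smul, smul_eq_mul, hBl]
  have h2 : ∀ w, Bf (Z φ) w = ∑ j ∈ I.erase t, w j * R j φ := by
    intro w
    simp only [Bf]
    have a1 : ∑ k ∈ I.erase t, w k * R k (L (Z φ)) = ∑ j ∈ I.erase t, w j * R j φ :=
      Finset.sum_congr rfl fun j hj => by rw [F2 φ hφ j (Finset.mem_of_mem_erase hj)]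
    have a2 : ∑ k ∈ I.erase t, Z φ k * R k (L w) = ∑ k ∈ I.erase t, zz φ k * R k (L w) :=
      Finset.sum_congr rfl fun j hj => by rw [hZ, if_pos hj]
    have a3 : ∑ k ∈ I.erase t, zz (L w) k * R k (L (Z φ)) =
        ∑ k ∈ I.erase t, zz (L w) k * R k φ :=
      Finset.sum_congr rfl fun j hj => by rw [F2 φ hφ j (Finset.mem_of_mem_erase hj)]
    rw [a1, a2, a3, F3 φ hφ (L w) (hLC w), add_assoc, CharTwo.add_self_eq_zero, add_zero]
  rw [h1, h2]
  have h3 : ∑ j ∈ I.erase t, (Pi.single k (1 : ZMod 2) : Fin n → ZMod 2) j * R j φ = R k φ := by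
    rw [Finset.sum_eq_single k]
    · simp
    · intro b _ hb
      rw [Pi.single_apply, if_neg hb, zero_mul]
    · intro h
      exact absurd hk h
  rw [h3, hR]

end Pool.Agent.NHT
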