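import Pool.Agent.NHT.E0

set_option autoImplicit false

/-!
NHT-E5: the sum of chords (section IV.6).
-/

namespace Pool.Agent.NHT

open Finset

theorem E5_add {N : ℕ} [NeZero N] {m : ℕ} (hm : m + 1 < N) : (⟨m, by omega⟩ : Fin N) + 1 = ⟨m + 1, hm⟩ := by
  apply Fin.ext
  rw [Fin.val_add, Fin.val_one', Nat.mod_eq_of_lt (by omega : 1 < N)]
  exact Nat.mod_eq_of_lt hm

theorem E5_sub {N : ℕ} [NeZero N] {m : ℕ} (hm : m + 1 < N) : (⟨m + 1, hm⟩ : Fin N) - 1 = ⟨m, by omega⟩ :=
  (eq_sub_of_add_eq (E5_add hm)).symm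

/-- Telescoping: `∑_j z_φ(j) ([j < k] + [j < t]) = φ(k-1) + φ(t-1)` (cyclic `-1`). For one prefix:
`∑_{j < k} z_φ(j) = φ(-1) + φ(k-1)`, by induction on `k.val` (`k = 0`: `φ(-1) + φ(-1) = 0`). -/
theorem sum_zz_lt {N : ℕ} [NeZero N] (φ : Fin N → ZMod 2) (k : Fin N) :
    ∑ j, zz φ j * ind (j < k) = φ (-1) + φ (k - 1) := by
  have key : ∀ (m : ℕ) (hm : m < N), ∑ j, zz φ j * ind (j < (⟨m, hm⟩ : Fin N)) = φ (-1) + φ ((⟨m, hm⟩ : Fin N) - 1) := by
    intro m
    induction m with
    | zero =>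
      intro hm
      have h0 : (⟨0, hm⟩ : Fin N) = 0 := Fin.ext (by simp)
      rw [h0, zero_sub, CharTwo.add_self_eq_zero]
      refine Finset.sum_eq_zero fun j _ => ?_
      rw [ind, if_neg (by rw [Fin.lt_def]; simp), mul_zero]
    | succ m ih =>
      intro hm
      have h1 := ih (by omega)
      have h2 : (⟨m + 1, hm⟩ : Fin N) - 1 = ⟨m, by omega⟩ := E5_sub hm
      have h3 : ∀ j : Fin N, ind (j < (⟨m + 1, hm⟩ : Fin N)) = ind (j < (⟨m, by omega⟩ : Fin N)) + ind (j = (⟨m, by omega⟩ : Fin N)) := by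
        intro j
        unfold ind
        rcases lt_trichotomy j.val m with h | h | h
        · rw [if_pos (by rw [Fin.lt_def]; simp; omega), if_pos (by rw [Fin.lt_def]; exact h),
            if_neg (by rw [Fin.ext_iff]; simp; omega), add_zero]
        · rw [if_pos (by rw [Fin.lt_def]; simp; omega), if_neg (by rw [Fin.lt_def]; simp; omega),
            if_pos (by rw [Fin.ext_iff]; exact h), zero_add]
        · rw [if_neg (by rw [Fin.lt_def]; simp; omega), if_neg (by rw [Fin.lt_def]; simp; omega),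
            if_neg (by rw [Fin.ext_iff]; simp; omega), add_zero]
      have h4 : ∑ j, zz φ j * ind (j = (⟨m, by omega⟩ : Fin N)) = zz φ ⟨m, by omega⟩ := by
        simp only [ind, mul_ite, mul_one, mul_zero, Finset.sum_ite_eq', Finset.mem_univ, if_true]
      simp only [h3, mul_add, Finset.sum_add_distrib]
      rw [h1, h4, h2, zz]
      have h5 : φ ((⟨m, by omega⟩ : Fin N) - 1) + φ ((⟨m, by omega⟩ : Fin N) - 1) = 0 := CharTwo.add_self_eq_zero _
      linear_combination h5
  exact key k.val k.isLt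

/-- Section IV.6. Let `s = u k`, `τ = t s`. For a star `s' ≠ s`, with `t' = t s'` and `I' = {j | u j = s'}`:
`∑_{j ∈ I', j ≠ t'} z(j) ([j<k] + [j<τ] + [t'<k] + [t'<τ]) = ∑_{j ∈ I'} z(j) ([j<k] + [j<τ])`, because
`∑_{j ∈ I', j ≠ t'} z(j) = z(t')` (`hsum`). Sum over all `s' ≠ s` (`Finset.sum_fiberwise`):
`∑_{j : u j ≠ s} z(j) ([j<k] + [j<τ])`. The sum over all `j` is `φ(k-1) + φ(τ-1)` (`sum_zz_lt` twice); the
sum over `u j = s` is the difference: `∑_{u j = s, j < k} z + ∑_{u j = s, j < τ} z`. -/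
theorem chord_sum {N : ℕ} [NeZero N] {S : Type} [Fintype S] [DecidableEq S] (u : Fin N → S)
    (t : S → Fin N) (ht : ∀ s, u (t s) = s) (φ : Fin N → ZMod 2)
    (hsum : ∀ s, ∑ i ∈ univ.filter (fun i => u i = s), zz φ i = 0) (k : Fin N) :
    ∑ j ∈ univ.filter (fun j => j ≠ t (u j) ∧ u j ≠ u k), zz φ j * chord u t j k =
      rr u φ k + rr u φ (t (u k)) := by
  classical
  set A : Fin N → ZMod 2 := fun j => ind (j < k) + ind (j < t (u k)) with hA
  have hch : ∀ j, chord u t j k = A j + A (t (u j)) := by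
    intro j
    simp only [chord, hA]
    ring
  have e1 : ∑ j ∈ univ.filter (fun j => j ≠ t (u j) ∧ u j ≠ u k), zz φ j * chord u t j k =
      ∑ j ∈ univ.filter (fun j => u j ≠ u k), zz φ j * (A j + A (t (u j))) := by
    rw [Finset.sum_filter, Finset.sum_filter]
    refine Finset.sum_congr rfl fun j _ => ?_
    rw [hch]
    by_cases h1 : u j = u k
    · rw [if_neg (fun h => h.2 h1), if_neg (fun h => h h1)]
    · rw [if_pos h1]
      by_cases h2 : j = t (u j)
      · rw [if_neg (fun h => h.1 h2), ← h2, CharTwo.add_self_eq_zero, mul_zero]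
      · rw [if_pos ⟨h2, h1⟩]
  have e2 : ∑ j ∈ univ.filter (fun j => u j ≠ u k), zz φ j * A (t (u j)) = 0 := by
    rw [Finset.sum_filter, ← Finset.sum_fiberwise univ u]
    refine Finset.sum_eq_zero fun s _ => ?_
    by_cases hs : s = u k
    · refine Finset.sum_eq_zero fun j hj => ?_
      rw [Finset.mem_filter] at hj
      rw [if_neg (fun h => h (hj.2.trans hs))]
    · have h1 : ∀ j ∈ univ.filter (fun j => u j = s), (if u j ≠ u k then zz φ j * A (t (u j)) else 0) = zz φ j * A (t s) := by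
        intro j hj
        rw [Finset.mem_filter] at hj
        rw [if_pos (by rw [hj.2]; exact hs), hj.2]
      rw [Finset.sum_congr rfl h1, ← Finset.sum_mul, hsum s, zero_mul]
  have e3 : ∑ j ∈ univ.filter (fun j => u j ≠ u k), zz φ j * A j =
      (∑ j, zz φ j * A j) + ∑ j ∈ univ.filter (fun j => u j = u k), zz φ j * A j := by
    have h1 := Finset.sum_filter_add_sum_filter_not univ (fun j => u j = u k) (fun j => zz φ j * A j)
    rw [← h1]
    have h2 : ∑ j ∈ univ.filter (fun j => u j = u k), zz φ j * A j + ∑ j ∈ univ.filter (fun j => u j = u k), zz φ j * A j = 0 :=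
      CharTwo.add_self_eq_zero _
    linear_combination -h2
  have e4 : ∑ j, zz φ j * A j = φ (k - 1) + φ (t (u k) - 1) := by
    simp only [hA, mul_add, Finset.sum_add_distrib]
    rw [sum_zz_lt, sum_zz_lt]
    have h2 : φ (-1) + φ (-1) = 0 := CharTwo.add_self_eq_zero _
    linear_combination h2
  have e5 : ∀ m : Fin N, ∑ j ∈ univ.filter (fun j => u j = u k), zz φ j * ind (j < m) =
      ∑ j ∈ univ.filter (fun j => u j = u k ∧ j < m), zz φ j := by
    intro m
    rw [Finset.sum_filter, Finset.sum_filter]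
    refine Finset.sum_congr rfl fun j _ => ?_
    by_cases h1 : u j = u k
    · by_cases h2 : j < m
      · rw [if_pos h1, if_pos ⟨h1, h2⟩, ind, if_pos h2, mul_one]
      · rw [if_pos h1, if_neg (fun h => h2 h.2), ind, if_neg h2, mul_zero]
    · rw [if_neg h1, if_neg (fun h => h1 h.1)]
  have e6 : ∑ j ∈ univ.filter (fun j => u j = u k), zz φ j * A j =
      ∑ j ∈ univ.filter (fun j => u j = u k ∧ j < k), zz φ j + ∑ j ∈ univ.filter (fun j => u j = u k ∧ j < t (u k)), zz φ j := by
    simp only [hA, mul_add, Finset.sum_add_distrib]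
    rw [e5, e5]
  rw [e1]
  simp only [mul_add, Finset.sum_add_distrib]
  rw [e2, e3, e4, e6, rr, rr, ht]
  ring

end Pool.Agent.NHT
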