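import Pool.Agent.NHT.E4
import Pool.Agent.NHT.E5

set_option autoImplicit false

/-!
NHT-E6: the word of `j` copies (section IV.4, IV.6).
-/

namespace Pool.Agent.NHT

open Finset

variable {n : ℕ} [NeZero n] {S : Type} [DecidableEq S] {k : ℕ}

omit [NeZero n] in
theorem E6_val {j : ℕ} (c : Fin j) (r : Fin n) : (finProdFinEquiv (c, r) : Fin (j * n)).val = r.val + n * c.val := rfl

theorem E6_val_add_one {N : ℕ} [NeZero N] (x : Fin N) (h : x.val + 1 < N) : (x + 1).val = x.val + 1 := by
  rw [Fin.val_add, Fin.val_one', Nat.mod_eq_of_lt (by omega : 1 < N)]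
  exact Nat.mod_eq_of_lt h

theorem E6_add_zero {N : ℕ} [NeZero N] (x : Fin N) (h : x.val + 1 = N) : x + 1 = 0 := by
  apply Fin.ext
  rw [Fin.val_add, Fin.val_one', Nat.add_mod_mod, h, Nat.mod_self, Fin.val_zero]

theorem E6_neg_one {N : ℕ} [NeZero N] : (-1 : Fin N).val + 1 = N := by
  by_contra hcon
  have h1 : (-1 : Fin N).val + 1 < N := by
    have := (-1 : Fin N).isLt
    omega
  have h2 := E6_val_add_one _ h1
  rw [neg_add_cancel, Fin.val_zero] at h2
  omega

theorem E6_sum {A : Type*} [AddCommMonoid A] (X : CW n S k) {j : ℕ} (c : Fin j) (s₁ : S) (f : Fin (j * n) → A) :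
    ∑ i ∈ univ.filter (fun i => (finProdFinEquiv.symm i).1 = c ∧ X.u (finProdFinEquiv.symm i).2 = s₁), f i =
      ∑ r ∈ univ.filter (fun r => X.u r = s₁), f (finProdFinEquiv (c, r)) := by
  symm
  refine Finset.sum_nbij' (fun r => finProdFinEquiv (c, r)) (fun i => (finProdFinEquiv.symm i).2) ?_ ?_ ?_ ?_ ?_
  · intro r hr
    rw [Finset.mem_filter] at hr ⊢
    rw [Equiv.symm_apply_apply]
    exact ⟨Finset.mem_univ _, rfl, hr.2⟩
  · intro i hi
    rw [Finset.mem_filter] at hi ⊢
    exact ⟨Finset.mem_univ _, hi.2.2⟩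
  · intro r _
    rw [Equiv.symm_apply_apply]
  · intro i hi
    rw [Finset.mem_filter] at hi
    rw [← hi.2.1, Prod.mk.eta, Equiv.apply_symm_apply]
  · intro r _
    rfl

/-- Index arithmetic: the successor of `(c, r)` is `(c, r + 1)` if `r + 1 ≠ 0` (no wrap in the copy). -/
theorem add_one_copy {j : ℕ} [NeZero j] (c : Fin j) (r : Fin n) (hr : r + 1 ≠ 0) :
    (finProdFinEquiv (c, r) : Fin (j * n)) + 1 = finProdFinEquiv (c, r + 1) := by
  have hv := E6_val (j := j) c r
  have h1 : r.val + 1 < n := by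
    by_contra hcon
    exact hr (E6_add_zero r (by omega))
  have hc := c.isLt
  have h2 : (finProdFinEquiv (c, r) : Fin (j * n)).val + 1 < j * n := by
    rw [hv]
    nlinarith
  apply Fin.ext
  rw [E6_val_add_one _ h2, hv, E6_val, E6_val_add_one _ h1]
  ring

/-- The successor of `(c, -1)` is `(c + 1, 0)`. -/
theorem add_one_last {j : ℕ} [NeZero j] (c : Fin j) :
    (finProdFinEquiv (c, (-1 : Fin n)) : Fin (j * n)) + 1 = finProdFinEquiv (c + 1, 0) := by
  have hn : 0 < n := Nat.pos_of_ne_zero (NeZero.ne n)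
  have hv := E6_val (j := j) c (-1 : Fin n)
  have h1 : (-1 : Fin n).val + 1 = n := E6_neg_one
  have hc := c.isLt
  by_cases h : c.val + 1 < j
  · have h2 : (finProdFinEquiv (c, (-1 : Fin n)) : Fin (j * n)).val + 1 < j * n := by
      rw [hv]
      nlinarith
    apply Fin.ext
    rw [E6_val_add_one _ h2, hv, E6_val, E6_val_add_one _ h, Fin.val_zero]
    nlinarith
  · have h3 : c + 1 = 0 := E6_add_zero c (by omega)
    rw [h3]
    have h4 : (finProdFinEquiv (c, (-1 : Fin n)) : Fin (j * n)).val + 1 = j * n := by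
      rw [hv]
      have : j = c.val + 1 := by omega
      nlinarith
    rw [E6_add_zero _ h4]
    apply Fin.ext
    rw [E6_val, Fin.val_zero, Fin.val_zero, Fin.val_zero]
    ring

/-- For labels in `Fj`, `φ((c,r) - 1) = φ_c(r - 1)`: for `r ≠ 0` the predecessor is `(c, r-1)`; for `r = 0` it is
`(c-1, -1)`, where `φ` vanishes, and `φ_c(-1) = 0` too. -/
theorem Fj_pred (X : CW n S k) {j : ℕ} [NeZero j] {φ : Fin (j * n) → ZMod 2} (hφ : φ ∈ Fj X j)
    (c : Fin j) (r : Fin n) :
    φ ((finProdFinEquiv (c, r) : Fin (j * n)) - 1) = φ (finProdFinEquiv (c, r - 1)) := by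
  by_cases hr : r = 0
  · subst hr
    have h1 := add_one_last (n := n) (c - 1)
    rw [sub_add_cancel] at h1
    rw [← h1, add_sub_cancel_right, zero_sub, (hφ (c - 1)).2, (hφ c).2]
  · have h1 := add_one_copy (j := j) c (r - 1) (by rw [sub_add_cancel]; exact hr)
    rw [sub_add_cancel] at h1
    rw [← h1, add_sub_cancel_right]

theorem wj_apply (X : CW n S k) {j : ℕ} (c : Fin j) (r : Fin n) :
    wj X j (finProdFinEquiv (c, r)) = (c, X.u r) := by
  simp [wj]

theorem wj_surj (X : CW n S k) {j : ℕ} : Function.Surjective (wj X j) := by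
  rintro ⟨c, s⟩
  obtain ⟨r, hr⟩ := X.surj s
  exact ⟨finProdFinEquiv (c, r), by rw [wj_apply, hr]⟩

/-- Inside a copy `X.ne`; between `(c,-1)` and `(c+1,0)`: different copies if `j ≥ 2`; for `j = 1` it is `X.ne (-1)`. -/
theorem wj_ne (X : CW n S k) {j : ℕ} [NeZero j] (i : Fin (j * n)) : wj X j i ≠ wj X j (i + 1) := by
  obtain ⟨⟨c, r⟩, rfl⟩ := finProdFinEquiv.surjective i
  by_cases hr : r + 1 = 0
  · have hr' : r = -1 := eq_neg_of_add_eq_zero_left hr
    subst hr'
    rw [add_one_last, wj_apply, wj_apply]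
    intro h
    have h1 := X.ne (-1)
    rw [neg_add_cancel] at h1
    exact h1 (congrArg Prod.snd h)
  · rw [add_one_copy c r hr, wj_apply, wj_apply]
    intro h
    exact X.ne r (congrArg Prod.snd h)

theorem wj_two (X : CW n S k) {j : ℕ} (i : Fin (j * n)) :
    ∃ i', i' ≠ i ∧ wj X j i' = wj X j i := by
  obtain ⟨⟨c, r⟩, rfl⟩ := finProdFinEquiv.surjective i
  obtain ⟨r', h1, h2⟩ := X.two r
  refine ⟨finProdFinEquiv (c, r'), fun h => h1 ?_, by rw [wj_apply, wj_apply, h2]⟩
  have := finProdFinEquiv.injective h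
  exact congrArg Prod.snd this

/-- From `X.orth` with `ψ = 1` in the copy. -/
theorem Fj_sum (X : CW n S k) {j : ℕ} [NeZero j] {φ : Fin (j * n) → ZMod 2} (hφ : φ ∈ Fj X j)
    (s : Fin j × S) : ∑ i ∈ univ.filter (fun i => wj X j i = s), zz φ i = 0 := by
  obtain ⟨c, s₁⟩ := s
  have h1 := E6_sum X c s₁ (fun i => zz φ i)
  have h0 : (univ.filter (fun i => wj X j i = (c, s₁))) =
      univ.filter (fun i => (finProdFinEquiv.symm i).1 = c ∧ X.u (finProdFinEquiv.symm i).2 = s₁) := by
    refine Finset.filter_congr fun i _ => ?_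
    simp only [wj, Prod.mk.injEq]
  rw [h0, h1]
  have h2 := X.orth _ (hφ c).1 1 X.one s₁
  rw [← h2]
  refine Finset.sum_congr rfl fun r _ => ?_
  rw [zz, Fj_pred X hφ]
  simp

/-- The tree legs. -/
noncomputable def tj (X : CW n S k) (j : ℕ) (s : Fin j × S) : Fin (j * n) :=
  Classical.choose (wj_surj X s)

theorem wj_tj (X : CW n S k) (j : ℕ) (s : Fin j × S) : wj X j (tj X j s) = s :=
  Classical.choose_spec (wj_surj X s)

/-- The dimension of the labels: `Fj` is isomorphic to `Fin j → {φ ∈ C | φ (-1) = 0}`, and the latter has dimension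
`≥ k - 1` (kernel of one linear functional on `C`). -/
theorem finrank_Fj (X : CW n S k) {j : ℕ} [NeZero j] :
    j * (k - 1) ≤ Module.finrank (ZMod 2) (Fj X j) := by
  let ev : X.C →ₗ[ZMod 2] ZMod 2 := (LinearMap.proj (-1 : Fin n)).comp X.C.subtype
  have hker : k - 1 ≤ Module.finrank (ZMod 2) (LinearMap.ker ev) := by
    have h1 := LinearMap.finrank_range_add_finrank_ker ev
    have h2 : Module.finrank (ZMod 2) (LinearMap.range ev) ≤ 1 := by
      refine (Submodule.finrank_le _).trans ?_
      rw [Module.finrank_self]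
    have h3 := X.dim
    omega
  let F : (Fin j → LinearMap.ker ev) →ₗ[ZMod 2] Fj X j :=
    { toFun := fun f => ⟨fun i => ((f (finProdFinEquiv.symm i).1 : X.C) : Fin n → ZMod 2) (finProdFinEquiv.symm i).2, by
        intro c
        have e : (fun r : Fin n => ((f (finProdFinEquiv.symm (finProdFinEquiv (c, r))).1 : X.C) : Fin n → ZMod 2)
            (finProdFinEquiv.symm (finProdFinEquiv (c, r))).2) = ((f c : X.C) : Fin n → ZMod 2) := by
          ext r
          rw [Equiv.symm_apply_apply]
        refine ⟨?_, ?_⟩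
        · rw [e]
          exact (f c : X.C).2
        · exact (congrFun e (-1)).trans (f c).2⟩
      map_add' := fun f g => by
        apply Subtype.ext
        ext i
        rfl
      map_smul' := fun a f => by
        apply Subtype.ext
        ext i
        rfl }
  have hF : Function.Injective F := by
    intro f g hfg
    ext c r
    have h1 := congrArg (fun x : Fj X j => (x : Fin (j * n) → ZMod 2) (finProdFinEquiv (c, r))) hfg
    have h2 : ((f (finProdFinEquiv.symm (finProdFinEquiv (c, r))).1 : X.C) : Fin n → ZMod 2) (finProdFinEquiv.symm (finProdFinEquiv (c, r))).2 =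
      ((g (finProdFinEquiv.symm (finProdFinEquiv (c, r))).1 : X.C) : Fin n → ZMod 2) (finProdFinEquiv.symm (finProdFinEquiv (c, r))).2 := h1
    rw [Equiv.symm_apply_apply] at h2
    exact h2
  have h1 := LinearMap.finrank_le_finrank_of_injective hF
  rw [Module.finrank_pi_fintype] at h1
  simp only [Finset.sum_const, Finset.card_univ, Fintype.card_fin, smul_eq_mul] at h1
  exact (Nat.mul_le_mul_left j hker).trans h1

/-- `z` is injective on `Fj` even after restriction to the nontree legs: if `z_φ(i) = 0` for all nontree legs then also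
for the tree legs (`Fj_sum`), so `φ (i-1) = φ i` for all `i`, `φ` is constant, and `φ (c, -1) = 0`. -/
theorem Fj_inj (X : CW n S k) {j : ℕ} [NeZero j] {φ : Fin (j * n) → ZMod 2} (hφ : φ ∈ Fj X j)
    (h : ∀ i, i ≠ tj X j (wj X j i) → zz φ i = 0) : φ = 0 := by
  have hz : ∀ i, zz φ i = 0 := by
    intro i
    by_cases hi : i = tj X j (wj X j i)
    · have h1 := Fj_sum X hφ (wj X j i)
      rw [Finset.sum_eq_single (tj X j (wj X j i))] at h1
      · rw [← hi] at h1
        exact h1
      · intro b hb hne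
        rw [Finset.mem_filter] at hb
        exact h b (by rw [hb.2]; exact hne)
      · intro h2
        have h3 : tj X j (wj X j i) ∈ univ.filter (fun i' => wj X j i' = wj X j i) := by
          rw [Finset.mem_filter]
          exact ⟨Finset.mem_univ _, wj_tj X j _⟩
        exact absurd h3 h2
    · exact h i hi
  have hz' : ∀ i, φ (i - 1) = φ i := by
    intro i
    have h1 := hz i
    rw [zz] at h1
    exact CharTwo.add_eq_zero.1 h1
  have hconst : ∀ (m : ℕ) (hm : m < j * n), φ ⟨m, hm⟩ = φ 0 := by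
    intro m
    induction m with
    | zero =>
      intro hm
      congr 1
    | succ m ih =>
      intro hm
      rw [← hz' ⟨m + 1, hm⟩, E5_sub hm]
      exact ih (by omega)
  have h0 : φ 0 = 0 := by
    rw [← hconst _ (finProdFinEquiv ((0 : Fin j), (-1 : Fin n)) : Fin (j * n)).isLt]
    exact (hφ 0).2
  ext i
  rw [Pi.zero_apply, ← h0]
  exact hconst i.val i.isLt

end Pool.Agent.NHT
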