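import Pool.Agent.NHT.E6

set_option autoImplicit false

/-!
NHT-E6b: the form of the word of `j` copies (section IV.6).
-/

namespace Pool.Agent.NHT

open Finset

variable {n : ℕ} [NeZero n] {S : Type} [DecidableEq S] {k : ℕ}

/-- Sections IV.5, IV.6: the form. For a star `s = (c, s₁)` let `B_s` be the form of `star_form` for
`I = {r | X.u r = s₁}`, `t` the second component of `tj X j s`, in the copy `c`, transported by
`(c, r) ↔ r`; `B j k = B_s j k` if `wj j = wj k = s` and `chord` otherwise. Symmetric. For `φ ∈ Fj`, `k` a nontree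
leg: the terms `j` with `wj j ≠ wj k` give `rr k + rr (t)` (`chord_sum`, `Fj_sum`), the terms with `wj j = wj k`
give the same by `star_form` for `φ_c` (`Fj_pred`: `zz φ (c,r) = zz φ_c r`; the order of the indices in a copy is the order
of `r`). The sum is `0`. -/
theorem exists_form (X : CW n S k) [Fintype S] {j : ℕ} [NeZero j] :
    ∃ B : Fin (j * n) → Fin (j * n) → ZMod 2, (∀ i i', B i i' = B i' i) ∧
      (∀ i i', i ≠ tj X j (wj X j i) → i' ≠ tj X j (wj X j i') → wj X j i ≠ wj X j i' →
        B i i' = chord (wj X j) (tj X j) i i') ∧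
      ∀ φ ∈ Fj X j, ∀ i', i' ≠ tj X j (wj X j i') →
        ∑ i ∈ univ.filter (fun i => i ≠ tj X j (wj X j i)), zz φ i * B i i' = 0 := by
  classical
  -- the forms of the stars
  have hstar : ∀ s : Fin j × S, ∃ B : Fin n → Fin n → ZMod 2, (∀ j k, B j k = B k j) ∧
      ∀ φ ∈ X.C, ∀ k ∈ (univ.filter (fun r => X.u r = s.2)).erase (finProdFinEquiv.symm (tj X j s)).2,
        ∑ i ∈ (univ.filter (fun r => X.u r = s.2)).erase (finProdFinEquiv.symm (tj X j s)).2, zz φ i * B i k =
        (φ (k - 1) + ∑ i ∈ (univ.filter (fun r => X.u r = s.2)).filter (· < k), zz φ i) +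
          (φ ((finProdFinEquiv.symm (tj X j s)).2 - 1) +
            ∑ i ∈ (univ.filter (fun r => X.u r = s.2)).filter (· < (finProdFinEquiv.symm (tj X j s)).2), zz φ i) := by
    intro s
    have ht : X.u (finProdFinEquiv.symm (tj X j s)).2 = s.2 := congrArg Prod.snd (wj_tj X j s)
    refine star_form (univ.filter (fun r => X.u r = s.2)) _ (by rw [Finset.mem_filter]; exact ⟨Finset.mem_univ _, ht⟩) X.C X.one
      (fun φ hφ ψ hψ => X.orth φ hφ ψ hψ s.2) ?_
    intro φ hφ h i hi i' hi'
    rw [Finset.mem_filter] at hi hi'
    exact X.trans φ hφ s.2 (fun i hi => h i (by rw [Finset.mem_filter]; exact ⟨Finset.mem_univ _, hi⟩)) i i' hi.2 hi'.2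
  choose Bs hBs1 hBs2 using hstar
  have hwt := wj_tj X j
  have hchord : ∀ i i', wj X j i ≠ wj X j i' → chord (wj X j) (tj X j) i i' = chord (wj X j) (tj X j) i' i := by
    intro i i' hne
    have h1 : i ≠ i' := fun h => hne (by rw [h])
    have h2 : i ≠ tj X j (wj X j i') := fun h => hne (by
      have := congrArg (wj X j) h
      rwa [hwt] at this)
    have h3 : tj X j (wj X j i) ≠ i' := fun h => hne (by
      have := congrArg (wj X j) h
      rwa [hwt] at this)
    have h4 : tj X j (wj X j i) ≠ tj X j (wj X j i') := fun h => hne (by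
      have := congrArg (wj X j) h
      rwa [hwt, hwt] at this)
    have hfl : ∀ a b : Fin (j * n), a ≠ b → ind (a < b) = ind (b < a) + 1 := by
      intro a b hab
      unfold ind
      rcases lt_or_gt_of_ne hab with h | h
      · rw [if_pos h, if_neg (not_lt.2 h.le), zero_add]
      · rw [if_neg (not_lt.2 h.le), if_pos h]
        decide
    unfold chord
    rw [hfl _ _ h1, hfl _ _ h2, hfl _ _ h3, hfl _ _ h4]
    have h5 : (2 : ZMod 2) = 0 := by decide
    linear_combination 2 * h5
  refine ⟨fun i i' => if wj X j i = wj X j i' then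
    Bs (wj X j i) (finProdFinEquiv.symm i).2 (finProdFinEquiv.symm i').2 else chord (wj X j) (tj X j) i i', ?_, ?_, ?_⟩
  · intro i i'
    beta_reduce
    by_cases h : wj X j i = wj X j i'
    · rw [if_pos h, if_pos h.symm, hBs1, h]
    · rw [if_neg h, if_neg (fun h' => h h'.symm)]
      exact hchord i i' h
  · intro i i' _ _ h
    beta_reduce
    rw [if_neg h]
  · intro φ hφ i' hi'
    beta_reduce
    obtain ⟨⟨c, k'⟩, hck⟩ : ∃ x, finProdFinEquiv x = i' := finProdFinEquiv.surjective i'
    have hw' : wj X j i' = (c, X.u k') := by rw [← hck, wj_apply]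
    set t := (finProdFinEquiv.symm (tj X j (wj X j i'))).2 with ht
    have htj : tj X j (wj X j i') = finProdFinEquiv (c, t) := by
      have h1 : (finProdFinEquiv.symm (tj X j (wj X j i'))).1 = c := by
        have h2 := hwt (wj X j i')
        have h3 := congrArg Prod.fst h2
        rw [hw'] at h3 ⊢
        exact h3
      rw [← Equiv.symm_apply_eq]
      exact Prod.ext h1 rfl
    have hut : X.u t = X.u k' := by
      have h2 := congrArg Prod.snd (hwt (wj X j i'))
      rw [hw'] at h2
      rw [ht, hw']
      exact h2
    -- split the sum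
    have hsplit : ∑ i ∈ univ.filter (fun i => i ≠ tj X j (wj X j i)), zz φ i *
        (if wj X j i = wj X j i' then Bs (wj X j i) (finProdFinEquiv.symm i).2 (finProdFinEquiv.symm i').2
          else chord (wj X j) (tj X j) i i') =
        (∑ i ∈ univ.filter (fun i => i ≠ tj X j (wj X j i) ∧ wj X j i ≠ wj X j i'), zz φ i * chord (wj X j) (tj X j) i i') +
        ∑ r ∈ (univ.filter (fun r => X.u r = X.u k')).erase t, zz (fun r => φ (finProdFinEquiv (c, r))) r * Bs (wj X j i') r k' := by
      have e1 : ∑ r ∈ (univ.filter (fun r => X.u r = X.u k')).erase t,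
          zz (fun r => φ (finProdFinEquiv (c, r))) r * Bs (wj X j i') r k' =
          ∑ i ∈ univ.filter (fun i => i ≠ tj X j (wj X j i) ∧ wj X j i = wj X j i'), zz φ i *
            Bs (wj X j i') (finProdFinEquiv.symm i).2 (finProdFinEquiv.symm i').2 := by
        refine Finset.sum_nbij' (fun r => finProdFinEquiv (c, r)) (fun i => (finProdFinEquiv.symm i).2) ?_ ?_ ?_ ?_ ?_
        · intro r hr
          rw [Finset.mem_erase, Finset.mem_filter] at hr
          rw [Finset.mem_filter, wj_apply, hr.2.2, hw']
          refine ⟨Finset.mem_univ _, ?_, rfl⟩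
          rw [← hw', htj]
          intro h
          exact hr.1 (congrArg Prod.snd (finProdFinEquiv.injective h))
        · intro i hi
          rw [Finset.mem_filter] at hi
          obtain ⟨-, h1, h2⟩ := hi
          rw [Finset.mem_erase, Finset.mem_filter]
          have h3 : X.u (finProdFinEquiv.symm i).2 = X.u k' := by
            have := congrArg Prod.snd h2
            rw [hw'] at this
            exact this
          refine ⟨?_, Finset.mem_univ _, h3⟩
          intro h4
          apply h1
          rw [h2, htj, ← h4]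
          have h5 : (finProdFinEquiv.symm i).1 = c := by
            have := congrArg Prod.fst h2
            rw [hw'] at this
            exact this
          rw [← h5, Prod.mk.eta, Equiv.apply_symm_apply]
        · intro r _
          rw [Equiv.symm_apply_apply]
        · intro i hi
          rw [Finset.mem_filter] at hi
          have h5 : (finProdFinEquiv.symm i).1 = c := by
            have := congrArg Prod.fst hi.2.2
            rw [hw'] at this
            exact this
          rw [← h5, Prod.mk.eta, Equiv.apply_symm_apply]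
        · intro r _
          rw [Equiv.symm_apply_apply, ← hck, Equiv.symm_apply_apply, zz, zz, Fj_pred X hφ]
      rw [e1, Finset.sum_filter, Finset.sum_filter, Finset.sum_filter, ← Finset.sum_add_distrib]
      refine Finset.sum_congr rfl fun i _ => ?_
      by_cases h1 : i = tj X j (wj X j i)
      · rw [if_neg (fun h => h h1), if_neg (fun h => h.1 h1), if_neg (fun h => h.1 h1), add_zero]
      · by_cases h2 : wj X j i = wj X j i'
        · rw [if_pos h1, if_pos h2, if_neg (fun h => h.2 h2), if_pos ⟨h1, h2⟩, zero_add, h2]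
        · rw [if_pos h1, if_neg h2, if_pos ⟨h1, h2⟩, if_neg (fun h => h2 h.2), add_zero]
    rw [hsplit]
    rw [chord_sum (wj X j) (tj X j) hwt φ (Fj_sum X hφ) i']
    have hk' : k' ∈ (univ.filter (fun r => X.u r = X.u k')).erase t := by
      rw [Finset.mem_erase, Finset.mem_filter]
      refine ⟨?_, Finset.mem_univ _, rfl⟩
      intro h
      apply hi'
      rw [htj, ← hck, h]
    have h6 := hBs2 (wj X j i') (fun r => φ (finProdFinEquiv (c, r))) (hφ c).1 k' (by
      rw [← ht, hw']
      exact hk')
    rw [← ht] at h6
    have h7 : (wj X j i').2 = X.u k' := by rw [hw']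
    rw [h7] at h6
    rw [h6]
    -- the two values agree
    have hrr : ∀ m : Fin n, X.u m = X.u k' → rr (wj X j) φ (finProdFinEquiv (c, m)) =
        φ (finProdFinEquiv (c, m - 1)) + ∑ i ∈ (univ.filter (fun r => X.u r = X.u k')).filter (· < m),
          zz (fun r => φ (finProdFinEquiv (c, r))) i := by
      intro m hm
      rw [rr, Fj_pred X hφ]
      congr 1
      rw [wj_apply, hm]
      symm
      refine Finset.sum_nbij' (fun r => finProdFinEquiv (c, r)) (fun i => (finProdFinEquiv.symm i).2) ?_ ?_ ?_ ?_ ?_
      · intro r hr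
        rw [Finset.mem_filter, Finset.mem_filter] at hr
        rw [Finset.mem_filter, wj_apply, hr.1.2]
        refine ⟨Finset.mem_univ _, rfl, ?_⟩
        rw [Fin.lt_def, E6_val, E6_val]
        have := hr.2
        rw [Fin.lt_def] at this
        omega
      · intro i hi
        rw [Finset.mem_filter] at hi
        obtain ⟨-, h1, h2⟩ := hi
        rw [Finset.mem_filter, Finset.mem_filter]
        refine ⟨⟨Finset.mem_univ _, congrArg Prod.snd h1⟩, ?_⟩
        have h5 : (finProdFinEquiv.symm i).1 = c := congrArg Prod.fst h1
        have h6 : i = finProdFinEquiv (c, (finProdFinEquiv.symm i).2) := by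
          rw [← h5, Prod.mk.eta, Equiv.apply_symm_apply]
        rw [h6, Fin.lt_def, E6_val, E6_val] at h2
        rw [Fin.lt_def]
        omega
      · intro r _
        rw [Equiv.symm_apply_apply]
      · intro i hi
        rw [Finset.mem_filter] at hi
        have h5 : (finProdFinEquiv.symm i).1 = c := congrArg Prod.fst hi.2.1
        rw [← h5, Prod.mk.eta, Equiv.apply_symm_apply]
      · intro r _
        rw [zz, zz, Fj_pred X hφ]
    rw [htj, ← hck, hrr k' rfl, hrr t hut]
    exact CharTwo.add_self_eq_zero _

end Pool.Agent.NHT
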