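import Pool.Agent.NHT.E0

set_option autoImplicit false

/-!
Word data: everything that Theorems II and III need.
-/

namespace Pool.Agent.NHT

/-- A word `u` with tree legs `t`, a matrix `Y` with `r` columns that realises the parities of the chords, such that
every labelling with property `EC` takes at most `F` values. -/
structure WD (N : ℕ) [NeZero N] (S : Type) (r F : ℕ) where
  u : Fin N → S
  ne : ∀ i, u i ≠ u (i + 1)
  two : ∀ i, ∃ j, j ≠ i ∧ u j = u i
  t : S → Fin N
  ht : ∀ s, u (t s) = s
  Y : Fin N → Fin r → ZMod 2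
  hY : ∀ j k, j ≠ t (u j) → k ≠ t (u k) → u j ≠ u k → ∑ l, Y j l * Y k l = chord u t j k
  hEC : ∀ (α : Type) (ω : Fin N → α), EC u ω → (Set.range ω).ncard ≤ F

end Pool.Agent.NHT
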