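import Pool.Agent.NHT.E0
import Pool.Agent.HTE.Defs

set_option autoImplicit false

/-!
The graph `GG(u, H)` of NHT_proof.md, section 0, and the statement.
-/

namespace Pool.Agent.NHT

open Pool.Agent.HTE

/-- The strong Hanani–Tutte property of the nonorientable surface with `k` crosscaps, for connected
graphs. -/
def StrongHananiTutteN (k : ℕ) : Prop :=
  ∀ (V : Type) [Fintype V] (G : SimpleGraph V), G.Connected →
    (∃ M : Drawing G, M.OnNonorientable k ∧ M.IndependentlyEven) →
      ∃ M : Drawing G, M.OnNonorientable k ∧ M.IsEmbedding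

/-- The vertices: the stars, and `N` columns with the levels `0, …, H`. -/
abbrev GV (N H : ℕ) (S : Type) := S ⊕ (Fin N × Fin (H + 1))

/-- `(i, l)` is adjacent to `(i+1, l)` (cyclic) and to `(i, l+1)`, and the star `s` is adjacent to `(i, 0)`
for all `i` with `u i = s`. -/
def GAdj {N : ℕ} [NeZero N] {S : Type} (u : Fin N → S) (H : ℕ) : GV N H S → GV N H S → Prop
  | Sum.inl s, Sum.inr (i, l) => l = 0 ∧ u i = s
  | Sum.inr (i, l), Sum.inr (i', l') => (i' = i + 1 ∧ l' = l) ∨ (i' = i ∧ l'.val = l.val + 1)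
  | _, _ => False

/-- The graph. -/
def GG {N : ℕ} [NeZero N] {S : Type} (u : Fin N → S) (H : ℕ) : SimpleGraph (GV N H S) :=
  SimpleGraph.fromRel (GAdj u H)

end Pool.Agent.NHT
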